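import Mathlib
set_option autoImplicit false
namespace DPI
open Polynomial

universe u v

section spec
variable {k : Type u} {M : Type v} [Field k] [Field M] [Algebra k M]

theorem exists_valuation (t : M) (ht : Transcendental k t) :
    ∃ V : ValuationSubring M, (∀ c : k, algebraMap k M c ∈ V) ∧ t ∈ V.nonunits := by
  classical
  let A : Subring M := (Algebra.adjoin k {t}).toSubring
  have htA : t ∈ A := Algebra.subset_adjoin rfl
  let I : Ideal A := Ideal.span {⟨t, htA⟩}
  have hI : I ≠ ⊤ := by
    intro h
    rw [Ideal.eq_top_iff_one] at h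
    obtain ⟨b, hb⟩ := Ideal.mem_span_singleton'.1 h
    have hb' : (b : M) * t = 1 := congrArg Subtype.val hb
    have hbA : (b : M) ∈ Algebra.adjoin k {t} := b.2
    rw [Algebra.adjoin_singleton_eq_range_aeval] at hbA
    obtain ⟨p, hp⟩ := hbA
    have hz : aeval t (p * X - 1) = 0 := by
      rw [map_sub, map_mul, aeval_X, map_one, show aeval t p = (b : M) from hp, hb', sub_self]
    have h0 := (transcendental_iff.1 ht) _ hz
    have := congrArg (eval 0) h0
    simp at this
  obtain ⟨V, hV, hI'⟩ := Ideal.image_subset_nonunits_valuationSubring I hI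
  refine ⟨V, fun c => hV ((Algebra.adjoin k {t}).algebraMap_mem c), hI' ⟨⟨t, htA⟩, ?_, rfl⟩⟩
  exact Ideal.subset_span rfl

/-- linearly independent residues lift to elements that are linearly independent over `k(t)` -/
theorem lift_indep (t : M) (ht : Transcendental k t) (V : ValuationSubring M)
    (hk : ∀ c : k, algebraMap k M c ∈ V) (htV : t ∈ V.nonunits)
    {κ : Type*} [Field κ] [Algebra k κ] (ρ : V →+* κ)
    (hρ : ∀ c : k, ρ ⟨algebraMap k M c, hk c⟩ = algebraMap k κ c)
    (hρt : ∀ z : V, (z : M) ∈ V.nonunits → ρ z = 0)
    {ι : Type*} (y : ι → V) (hy : LinearIndependent k fun i => ρ (y i)) :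
    LinearIndependent (IntermediateField.adjoin k {t}) fun i => (y i : M) := by
  classical
  open scoped IntermediateField.algebraAdjoinAdjoin in
  rw [← LinearIndependent.iff_fractionRing (Algebra.adjoin k {t})
    (IntermediateField.adjoin k {t}), linearIndependent_iff']
  intro s g hg
  have hpoly0 : ∀ z ∈ Algebra.adjoin k {t}, ∃ p : k[X], aeval t p = z := by
    intro z hz
    rw [Algebra.adjoin_singleton_eq_range_aeval] at hz
    exact hz
  have hpoly : ∀ i, ∃ p : k[X], aeval t p = (g i : M) := fun i => hpoly0 _ (g i).2
  choose p hp using hpoly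
  have t0 : t ≠ 0 := by
    rintro rfl
    exact ht isAlgebraic_zero
  have htV' : t ∈ V := V.nonunits_le htV
  -- key : all polynomials are divisible by arbitrary powers of X
  have key : ∀ n : ℕ, ∀ i ∈ s, X ^ n ∣ p i := by
    intro n
    induction n with
    | zero => intro i _; simp
    | succ n ih =>
      have : ∀ i, ∃ r : k[X], i ∈ s → p i = X ^ n * r := by
        intro i
        by_cases hi : i ∈ s
        · obtain ⟨r, hr⟩ := ih i hi
          exact ⟨r, fun _ => hr⟩
        · exact ⟨0, fun h => absurd h hi⟩
      choose r hr using this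
      have hsum : ∑ i ∈ s, aeval t (r i) * (y i : M) = 0 := by
        have h1 : ∑ i ∈ s, t ^ n * (aeval t (r i) * (y i : M)) = 0 := by
          have h2 : ∑ i ∈ s, (g i : M) * (y i : M) = 0 := by
            simpa [Algebra.smul_def] using hg
          rw [← h2]
          refine Finset.sum_congr rfl fun i hi => ?_
          rw [← hp i, hr i hi, map_mul, map_pow, aeval_X, mul_assoc]
        rw [← Finset.mul_sum] at h1
        exact (mul_eq_zero.1 h1).resolve_left (pow_ne_zero _ t0)
      have hmem : ∀ q : k[X], aeval t q ∈ V := by
        intro q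
        induction q using Polynomial.induction_on' with
        | add a b ha hb => rw [map_add]; exact V.add_mem _ _ ha hb
        | monomial m a =>
          rw [aeval_monomial]
          exact V.mul_mem _ _ (hk a) (pow_mem htV' m)
      have hρp : ∀ q : k[X], ρ ⟨aeval t q, hmem q⟩ = algebraMap k κ (q.coeff 0) := by
        intro q
        have e : q = C (q.coeff 0) + X * q.divX := by
          rw [add_comm, mul_comm]; exact (divX_mul_X_add q).symm
        have : (⟨aeval t q, hmem q⟩ : V) = ⟨algebraMap k M (q.coeff 0), hk _⟩
            + ⟨t, htV'⟩ * ⟨aeval t q.divX, hmem _⟩ := by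
          apply Subtype.ext
          show aeval t q = algebraMap k M (q.coeff 0) + t * aeval t q.divX
          conv_lhs => rw [e]
          rw [map_add, aeval_C, map_mul, aeval_X]
        rw [this, map_add, map_mul, hρ, hρt ⟨t, htV'⟩ htV, zero_mul, add_zero]
      have hred : ∑ i ∈ s, (r i).coeff 0 • ρ (y i) = 0 := by
        have h3 : ρ (∑ i ∈ s, ⟨aeval t (r i), hmem _⟩ * y i) = 0 := by
          have : (∑ i ∈ s, (⟨aeval t (r i), hmem _⟩ : V) * y i) = 0 := by
            apply Subtype.ext
            refine (AddSubmonoidClass.coe_finset_sum _ _).trans ?_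
            exact hsum
          rw [this, map_zero]
        rw [← h3, map_sum]
        refine Finset.sum_congr rfl fun i _ => ?_
        rw [map_mul, hρp, Algebra.smul_def]
      have h0 := linearIndependent_iff'.1 hy s _ hred
      intro i hi
      rw [hr i hi, pow_succ]
      exact mul_dvd_mul_left _ (X_dvd_iff.2 (h0 i hi))
  intro i hi
  have hpi : p i = 0 := by
    by_contra h
    have := Polynomial.natDegree_le_of_dvd (key ((p i).natDegree + 1) i hi) h
    rw [natDegree_X_pow] at this
    omega
  apply Subtype.ext
  rw [← hp i, hpi, map_zero]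
  rfl

/-- The specialization lemma: if `M` is of degree at most `n` over `k(t)`, there is a valuation
subring of `M` over `k` whose residue field has degree at most `n` over `k`. -/
theorem exists_place (t : M) (ht : Transcendental k t) (n : ℕ)
    (hn : Module.Finite (IntermediateField.adjoin k {t}) M)
    (hn' : Module.finrank (IntermediateField.adjoin k {t}) M ≤ n) :
    ∃ (κ : Type v) (_ : Field κ) (_ : Algebra k κ) (V : ValuationSubring M)
      (hk : ∀ c : k, algebraMap k M c ∈ V) (ρ : V →+* κ),
      (∀ c : k, ρ ⟨algebraMap k M c, hk c⟩ = algebraMap k κ c) ∧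
      Module.Finite k κ ∧ Module.finrank k κ ≤ n := by
  classical
  obtain ⟨V, hk, htV⟩ := exists_valuation (k := k) t ht
  let ι : k →+* V :=
    { toFun := fun c => ⟨algebraMap k M c, hk c⟩
      map_one' := Subtype.ext (map_one _)
      map_mul' := fun a b => Subtype.ext (map_mul _ a b)
      map_zero' := Subtype.ext (map_zero _)
      map_add' := fun a b => Subtype.ext (map_add _ a b) }
  let κ := IsLocalRing.ResidueField V
  let ρ : V →+* κ := IsLocalRing.residue V
  letI : Algebra k κ := (ρ.comp ι).toAlgebra
  have hρ : ∀ c : k, ρ ⟨algebraMap k M c, hk c⟩ = algebraMap k κ c := fun c => rfl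
  have hρt : ∀ z : V, (z : M) ∈ V.nonunits → ρ z = 0 := by
    intro z hz
    rw [IsLocalRing.residue_eq_zero_iff, IsLocalRing.mem_maximalIdeal]
    exact V.coe_mem_nonunits_iff.1 hz
  have hrank : Module.rank k κ ≤ n := by
    refine rank_le fun s hs => ?_
    have hsurj : Function.Surjective ρ := IsLocalRing.residue_surjective
    choose y hy using hsurj
    have h1 : LinearIndependent k fun i : s => ρ (y i) := by
      simpa only [hy] using hs
    have h2 := lift_indep t ht V hk htV ρ hρ hρt (fun i : s => y i) h1
    have h3 := h2.fintype_card_le_finrank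
    rw [Fintype.card_coe] at h3
    exact h3.trans hn'
  have hfin : Module.Finite k κ :=
    Module.rank_lt_aleph0_iff.1 (hrank.trans_lt (Cardinal.natCast_lt_aleph0))
  exact ⟨κ, inferInstance, inferInstance, V, hk, ρ, hρ, hfin, Module.finrank_le_of_rank_le hrank⟩

end spec
end DPI
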