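import Mathlib
set_option autoImplicit false
namespace DPI
open MvPolynomial

universe u v

/-- the degree of irrationality of a field extension `L / F` of transcendence degree two:
the least degree `[L : F(s, t)]`, `s, t` algebraically independent over `F` -/
noncomputable def irr (F L : Type u) [Field F] [Field L] [Algebra F L] : ℕ :=
  sInf {n | ∃ s t : L, AlgebraicIndependent F ![s, t] ∧
    Module.Finite (IntermediateField.adjoin F {s, t}) L ∧
    Module.finrank (IntermediateField.adjoin F {s, t}) L = n}

/-- the field extension `L / F` is purely transcendental of degree two -/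
def IsRational (F L : Type u) [Field F] [Field L] [Algebra F L] : Prop :=
  ∃ s t : L, AlgebraicIndependent F ![s, t] ∧ IntermediateField.adjoin F {s, t} = ⊤

/-- `L` is the function field of the integral closed subscheme of the weighted projective space
`P(w)` over `F` defined by the polynomials in `S`, and `x` are the homogeneous coordinates of its
generic point. -/
structure IsFunctionField {σ : Type} (w : σ → ℕ) {F : Type u} [Field F]
    (S : Set (MvPolynomial σ F)) (L : Type u) [Field L] [Algebra F L] (x : σ → L) : Prop where
  mem_iff : ∀ (n : ℕ) (G : MvPolynomial σ F), IsWeightedHomogeneous w G n →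
    (aeval x G = 0 ↔ G ∈ Ideal.span S)
  surj : ∀ z : L, ∃ (n : ℕ) (G H : MvPolynomial σ F), IsWeightedHomogeneous w G n ∧
    IsWeightedHomogeneous w H n ∧ aeval x H ≠ 0 ∧ z = aeval x G / aeval x H

/-- there is a (nonzero) common zero, over the field `κ`, of the polynomials in `S` -/
def HasPoint {σ : Type} {F : Type u} [Field F] (S : Set (MvPolynomial σ F))
    (κ : Type v) [Field κ] [Algebra F κ] : Prop :=
  ∃ a : σ → κ, a ≠ 0 ∧ ∀ G ∈ S, aeval a G = 0

/-- the least degree of a closed point: the least degree of a finite extension of `F` over
which the polynomials in `S` have a common zero in (weighted) projective space -/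
noncomputable def minDeg {σ : Type} {F : Type u} [Field F] (S : Set (MvPolynomial σ F)) : ℕ :=
  sInf {n | ∃ (κ : Type u) (_ : Field κ) (_ : Algebra F κ), Module.Finite F κ ∧
    Module.finrank F κ = n ∧ HasPoint S κ}

/-- Jacobian criterion: the closed subscheme `f₁ = ⋯ = f_r = 0` of projective space
is smooth of codimension `r` -/
def IsSmooth {σ : Type} {F : Type u} [Field F] {r : ℕ} (f : Fin r → MvPolynomial σ F) : Prop :=
  ∀ a : σ → AlgebraicClosure F, a ≠ 0 → (∀ i, aeval a (f i) = 0) →
    LinearIndependent (AlgebraicClosure F) fun (i : Fin r) (j : σ) => aeval a (pderiv j (f i))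

end DPI
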