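import Mathlib
import Pool.Agent.H478.DA
import Pool.Agent.H478.Defs
set_option autoImplicit false
namespace DPI
open MvPolynomial

universe u v

theorem aeval_weighted {σ : Type*} {F M : Type*} [Field F] [Field M] [Algebra F M] {w : σ → ℕ}
    {G : MvPolynomial σ F} {n : ℕ} (hG : IsWeightedHomogeneous w G n) (c : M) (a : σ → M) :
    aeval (fun i => c ^ w i * a i) G = c ^ n * aeval a G := by
  rw [aeval_def, aeval_def, eval₂_eq, eval₂_eq, Finset.mul_sum]
  refine Finset.sum_congr rfl fun m hm => ?_
  have h1 : ∏ i ∈ m.support, (c ^ w i * a i) ^ m i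
      = c ^ n * ∏ i ∈ m.support, a i ^ m i := by
    have h2 : Finsupp.weight w m = n := hG (mem_support_iff.1 hm)
    rw [Finsupp.weight_apply, Finsupp.sum] at h2
    rw [← h2, ← Finset.prod_pow_eq_pow_sum, ← Finset.prod_mul_distrib]
    refine Finset.prod_congr rfl fun i _ => ?_
    rw [mul_pow, ← pow_mul, smul_eq_mul, mul_comm (w i)]
  rw [h1]
  ring

theorem aeval_homog {σ : Type*} {F M : Type*} [Field F] [Field M] [Algebra F M]
    {G : MvPolynomial σ F} {n : ℕ} (hG : G.IsHomogeneous n) (c : M) (a : σ → M) :
    aeval (fun i => c * a i) G = c ^ n * aeval a G := by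
  have := aeval_weighted (w := 1) hG c a
  simpa using this

section spec
variable {σ : Type} [Finite σ] {k : Type u} {M : Type v} [Field k] [Field M] [Algebra k M]

theorem spec_point (S : Set (MvPolynomial σ k)) (hS : ∀ G ∈ S, ∃ n, G.IsHomogeneous n)
    {κ : Type*} [Field κ] [Algebra k κ] (V : ValuationSubring M)
    (hk : ∀ c : k, algebraMap k M c ∈ V) (ρ : V →+* κ)
    (hρ : ∀ c : k, ρ ⟨algebraMap k M c, hk c⟩ = algebraMap k κ c)
    (hM : HasPoint S M) : HasPoint S κ := by
  classical
  obtain ⟨a, ha, hG⟩ := hM
  obtain ⟨i0, hi0⟩ : ∃ i, a i ≠ 0 := by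
    by_contra h
    push Not at h
    exact ha (funext h)
  have : Nonempty σ := ⟨i0⟩
  obtain ⟨j, hj⟩ := Finite.exists_max (fun i => V.valuation (a i))
  have haj : a j ≠ 0 := by
    intro h
    have := hj i0
    simp only [h, map_zero, le_zero_iff] at this
    exact hi0 ((Valuation.zero_iff _).1 this)
  have hb : ∀ i, a i / a j ∈ V := by
    intro i
    rw [← V.valuation_le_one_iff, map_div₀]
    exact div_le_one_of_le₀ (hj i) zero_le
  let b : σ → V := fun i => ⟨a i / a j, hb i⟩
  let ι : k →+* V :=
    { toFun := fun c => ⟨algebraMap k M c, hk c⟩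
      map_one' := Subtype.ext (map_one _)
      map_mul' := fun a b => Subtype.ext (map_mul _ a b)
      map_zero' := Subtype.ext (map_zero _)
      map_add' := fun a b => Subtype.ext (map_add _ a b) }
  refine ⟨fun i => ρ (b i), ?_, ?_⟩
  · intro h
    have h1 := congrFun h j
    have h2 : b j = 1 := Subtype.ext (div_self haj)
    simp only [h2, map_one] at h1
    exact one_ne_zero h1
  · intro G hGS
    obtain ⟨n, hn⟩ := hS G hGS
    have e1 : aeval (fun i => ρ (b i)) G = ρ (eval₂ ι b G) := by
      rw [eval₂_comp_left, aeval_def]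
      have : algebraMap k κ = ρ.comp ι := RingHom.ext fun c => (hρ c).symm
      rw [this]
      rfl
    have e2 : ((eval₂ ι b G : V) : M) = aeval (fun i => a i / a j) G := by
      have : V.subtype (eval₂ ι b G) = eval₂ (V.subtype.comp ι) (V.subtype ∘ b) G :=
        eval₂_comp_left _ _ _ _
      rw [aeval_def]
      exact this
    have e3 : aeval (fun i => a i / a j) G = (a j)⁻¹ ^ n * aeval a G := by
      have h4 : (fun i => a i / a j) = fun i => (a j)⁻¹ * a i := by
        funext i; rw [div_eq_mul_inv, mul_comm]
      rw [h4]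
      exact aeval_homog hn _ _
    rw [e1]
    have : eval₂ ι b G = 0 := by
      apply Subtype.ext
      rw [e2, e3, hG G hGS, mul_zero]
      rfl
    rw [this, map_zero]

theorem hasPoint_map {σ : Type} {F k : Type*} {M : Type*} [Field F] [Field k] [Field M]
    [Algebra F k] [Algebra k M] [Algebra F M] [IsScalarTower F k M]
    (S : Set (MvPolynomial σ F)) :
    HasPoint ((MvPolynomial.map (algebraMap F k)) '' S) M ↔ HasPoint S M := by
  constructor
  · rintro ⟨a, ha, h⟩
    refine ⟨a, ha, fun G hG => ?_⟩
    have := h _ ⟨G, hG, rfl⟩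
    rwa [aeval_map_algebraMap] at this
  · rintro ⟨a, ha, h⟩
    refine ⟨a, ha, ?_⟩
    rintro _ ⟨G, hG, rfl⟩
    rw [aeval_map_algebraMap]
    exact h G hG

/-- If a projective scheme over `F` has a point over a field `L` of degree at most `n` over the
rational function field `F(s, t)`, it has a point over an extension of `F` of degree at most
`n`. -/
theorem point_of_function_field {F L : Type u} [Field F] [Field L] [Algebra F L]
    (S : Set (MvPolynomial σ F)) (hS : ∀ G ∈ S, ∃ n, G.IsHomogeneous n) (s t : L)
    (hst : AlgebraicIndependent F ![s, t]) (n : ℕ)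
    (hfin : Module.Finite (IntermediateField.adjoin F {s, t}) L)
    (hn : Module.finrank (IntermediateField.adjoin F {s, t}) L ≤ n)
    (hL : HasPoint S L) :
    ∃ (κ : Type u) (_ : Field κ) (_ : Algebra F κ), Module.Finite F κ ∧
      Module.finrank F κ ≤ n ∧ HasPoint S κ := by
  classical
  let k := IntermediateField.adjoin F {s}
  have ht : Transcendental k t := by
    rw [IntermediateField.transcendental_adjoin_iff]
    have := hst.transcendental_adjoin (s := {0}) (i := 1) (by decide)
    rw [Set.image_singleton] at this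
    exact this
  have hadj := IntermediateField.adjoin_adjoin_left F {s} ({t} : Set L)
  have h2 : ({s} ∪ {t} : Set L) = {s, t} := by
    ext; simp [or_comm]
  rw [h2] at hadj
  have hfin1 : Module.Finite (IntermediateField.adjoin k {t}) L := by
    have : Module.Finite ((IntermediateField.adjoin k {t}).restrictScalars F) L := by
      rw [hadj]; exact hfin
    exact this
  have hn1 : Module.finrank (IntermediateField.adjoin k {t}) L ≤ n := by
    have : Module.finrank ((IntermediateField.adjoin k {t}).restrictScalars F) L ≤ n := by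
      rw [hadj]; exact hn
    exact this
  obtain ⟨κ, _, _, V, hk, ρ, hρ, hκ, hκn⟩ := exists_place t ht n hfin1 hn1
  let _ : Algebra F κ := ((algebraMap k κ).comp (algebraMap F k)).toAlgebra
  have _ : IsScalarTower F k κ := IsScalarTower.of_algebraMap_eq fun _ => rfl
  have hSk : ∀ G ∈ (MvPolynomial.map (algebraMap F k)) '' S, ∃ n, G.IsHomogeneous n := by
    rintro _ ⟨G, hG, rfl⟩
    obtain ⟨m, hm⟩ := hS G hG
    exact ⟨m, hm.map _⟩
  have hpκ : HasPoint S κ := by
    rw [← hasPoint_map (k := k)]
    refine spec_point _ hSk V hk ρ hρ ?_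
    rw [hasPoint_map (k := k)]
    exact hL
  -- second step
  let f : k →ₐ[F] κ := IsScalarTower.toAlgHom F k κ
  let s' : κ := f ⟨s, IntermediateField.mem_adjoin_simple_self F s⟩
  have hs : Transcendental F s := by
    have := hst.transcendental 0
    exact this
  have hs' : Transcendental F s' := by
    intro h
    have h1 : IsAlgebraic F (⟨s, IntermediateField.mem_adjoin_simple_self F s⟩ : k) :=
      (isAlgebraic_algHom_iff f f.injective).1 h
    have h2 : IsAlgebraic F s := by
      have := (isAlgebraic_algHom_iff k.val k.val.injective).2 h1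
      exact this
    exact hs h2
  have hrange : f.fieldRange = IntermediateField.adjoin F {s'} := by
    rw [AlgHom.fieldRange_eq_map]
    have : (⊤ : IntermediateField F k)
        = IntermediateField.adjoin F {⟨s, IntermediateField.mem_adjoin_simple_self F s⟩} := by
      apply IntermediateField.lift_injective k
      rw [IntermediateField.lift_top, IntermediateField.lift_adjoin_simple]
    rw [this, IntermediateField.adjoin_map, Set.image_singleton]
  have hn2 : Module.finrank (IntermediateField.adjoin F {s'}) κ = Module.finrank k κ := by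
    rw [← hrange]
    refine (Algebra.finrank_eq_of_equiv_equiv f.equivFieldRange.toRingEquiv
      (RingEquiv.refl κ) ?_).symm
    ext x
    rfl
  have hfin2 : Module.Finite (IntermediateField.adjoin F {s'}) κ := by
    rw [← hrange]
    refine Module.Finite.of_equiv_equiv f.equivFieldRange.toRingEquiv (RingEquiv.refl κ) ?_
    ext x
    rfl
  obtain ⟨κ', _, _, V', hk', ρ', hρ', hκ', hκn'⟩ := exists_place s' hs' n hfin2 (hn2.trans_le hκn)
  exact ⟨κ', inferInstance, inferInstance, hκ', hκn', spec_point _ hS V' hk' ρ' hρ' hpκ⟩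

end spec
end DPI
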