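import Mathlib
import Pool.Agent.H478.DB
set_option autoImplicit false
namespace DPI
open MvPolynomial

universe u v

section gen

variable {σ : Type} {w : σ → ℕ} {F : Type u} [Field F]
  {S : Set (MvPolynomial σ F)} {L : Type u} [Field L] [Algebra F L] {x : σ → L}

theorem aeval_div {n : ℕ} {G : MvPolynomial σ F} (hG : IsWeightedHomogeneous w G n)
    {c : L} (hc : c ≠ 0) : aeval (fun i => x i / c ^ w i) G = aeval x G / c ^ n := by
  have := aeval_weighted hG c⁻¹ x
  have h2 : (fun i => x i / c ^ w i) = fun i => c⁻¹ ^ w i * x i := by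
    funext i; rw [inv_pow, div_eq_mul_inv, mul_comm]
  rw [h2, this, inv_pow, div_eq_mul_inv, mul_comm]

theorem eq_top_of_stable (hx : IsFunctionField w S L x) (c : L) (hc : c ≠ 0)
    (K : IntermediateField F L) (W : Submodule K L) [Module.Finite K W] (h1 : (1 : L) ∈ W)
    (hW : ∀ i, ∀ z ∈ W, (x i / c ^ w i) * z ∈ W) : W = ⊤ := by
  let T : Subalgebra K L :=
    { carrier := {z | ∀ y ∈ W, z * y ∈ W}
      mul_mem' := fun {a b} ha hb y hy => by rw [mul_assoc]; exact ha _ (hb _ hy)
      add_mem' := fun {a b} ha hb y hy => by rw [add_mul]; exact W.add_mem (ha _ hy) (hb _ hy)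
      algebraMap_mem' := fun r y hy => by
        rw [← Algebra.smul_def]; exact W.smul_mem r hy }
  have hinv : ∀ z ∈ T, z⁻¹ ∈ T := by
    intro z hz
    by_cases h0 : z = 0
    · rw [h0, inv_zero]; exact T.zero_mem
    intro y hy
    let f : W →ₗ[K] W :=
      { toFun := fun y => ⟨z * y, hz _ y.2⟩
        map_add' := fun a b => Subtype.ext (mul_add _ _ _)
        map_smul' := fun r a => Subtype.ext (by
          show z * (r • (a : L)) = r • (z * a)
          rw [Algebra.smul_def, Algebra.smul_def]; ring) }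
    have hinj : Function.Injective f := by
      intro a b hab
      have := congrArg Subtype.val hab
      exact Subtype.ext (mul_left_cancel₀ h0 this)
    have hsurj : Function.Surjective f := (LinearMap.injective_iff_surjective).1 hinj
    obtain ⟨y', hy'⟩ := hsurj ⟨y, hy⟩
    have h3 : z * (y' : L) = y := congrArg Subtype.val hy'
    rw [← h3, inv_mul_cancel_left₀ h0]
    exact y'.2
  have hxT : ∀ i, x i / c ^ w i ∈ T := fun i y hy => hW i y hy
  have hpoly : ∀ G : MvPolynomial σ F, aeval (fun i => x i / c ^ w i) G ∈ T := by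
    intro G
    induction G using MvPolynomial.induction_on with
    | C a =>
      rw [aeval_C]
      have : algebraMap F L a = algebraMap K L (algebraMap F K a) := rfl
      rw [this]
      exact T.algebraMap_mem _
    | add p q hp hq => rw [map_add]; exact T.add_mem hp hq
    | mul_X p i hp => rw [map_mul, aeval_X]; exact T.mul_mem hp (hxT i)
  rw [eq_top_iff]
  intro z _
  obtain ⟨n, G, H, hG, hH, hH0, rfl⟩ := hx.surj z
  have e : aeval x G / aeval x H
      = aeval (fun i => x i / c ^ w i) G * (aeval (fun i => x i / c ^ w i) H)⁻¹ := by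
    rw [aeval_div hG hc, aeval_div hH hc]
    field_simp
  have hmem : aeval x G / aeval x H ∈ T := by
    rw [e]
    exact T.mul_mem (hpoly _) (hinv _ (hpoly _))
  have := hmem 1 h1
  rwa [mul_one] at this

/-- algebraic independence of two functions from a generic solution -/
theorem alg_indep (hx : IsFunctionField w S L x) {Ω : Type u} [Field Ω] [Algebra F Ω]
    (a : σ → Ω) (ha : ∀ G ∈ S, aeval a G = 0) (i j k : σ) (hwk : w k = 1)
    (hind : AlgebraicIndependent F ![a i, a j, a k]) :
    x k ≠ 0 ∧ AlgebraicIndependent F ![x i / x k ^ w i, x j / x k ^ w j] := by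
  have hspan : ∀ G ∈ Ideal.span S, aeval a G = 0 := by
    intro G hG
    have : Ideal.span S ≤ RingHom.ker (aeval a : MvPolynomial σ F →ₐ[F] Ω) := by
      rw [Ideal.span_le]
      intro G hG
      exact ha G hG
    exact this hG
  have hk : x k ≠ 0 := by
    intro h
    have h1 : (X k : MvPolynomial σ F) ∈ Ideal.span S := by
      rw [← hx.mem_iff (w k) _ (isWeightedHomogeneous_X F w k), aeval_X, h]
    have h2 := hspan _ h1
    rw [aeval_X] at h2
    have h3 := hind.ne_zero 2
    exact h3 h2
  refine ⟨hk, ?_⟩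
  have hak : a k ≠ 0 := hind.ne_zero 2
  rw [algebraicIndependent_iff]
  intro g hg
  -- a homogeneous version of `g`
  obtain ⟨N, hN⟩ : ∃ N, ∀ m ∈ g.support, m 0 * w i + m 1 * w j ≤ N := by
    refine ⟨∑ m ∈ g.support, (m 0 * w i + m 1 * w j), fun m hm => ?_⟩
    exact Finset.single_le_sum (f := fun m : Fin 2 →₀ ℕ => m 0 * w i + m 1 * w j)
      (fun _ _ => Nat.zero_le _) hm
  let G : MvPolynomial (Fin 3) F :=
    ∑ m ∈ g.support, C (g.coeff m) * (X 0 ^ m 0 * X 1 ^ m 1 * X 2 ^ (N - (m 0 * w i + m 1 * w j)))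
  have hGeval : ∀ {A : Type u} [Field A] [Algebra F A] (b : σ → A), b k ≠ 0 →
      aeval ![b i, b j, b k] G = b k ^ N * aeval ![b i / b k ^ w i, b j / b k ^ w j] g := by
    intro A _ _ b hb
    simp only [G, map_sum]
    rw [aeval_def ![b i / b k ^ w i, b j / b k ^ w j], eval₂_eq, Finset.mul_sum]
    refine Finset.sum_congr rfl fun m hm => ?_
    have h5 : ∏ l ∈ m.support, ![b i / b k ^ w i, b j / b k ^ w j] l ^ m l
        = ∏ l : Fin 2, ![b i / b k ^ w i, b j / b k ^ w j] l ^ m l := by
      refine Finset.prod_subset (Finset.subset_univ _) fun l _ hl => ?_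
      rw [Finsupp.notMem_support_iff.1 hl, pow_zero]
    rw [h5, Fin.prod_univ_two]
    have h6 : b k ^ N = b k ^ (w i * m 0) * b k ^ (w j * m 1)
        * b k ^ (N - (m 0 * w i + m 1 * w j)) := by
      rw [← pow_add, ← pow_add]
      congr 1
      have := hN m hm
      rw [mul_comm (w i), mul_comm (w j)]
      omega
    simp only [map_mul, map_pow, aeval_C, aeval_X]
    show algebraMap F A (g.coeff m) * (b i ^ m 0 * b j ^ m 1
        * b k ^ (N - (m 0 * w i + m 1 * w j)))
      = b k ^ N * (algebraMap F A (g.coeff m)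
        * ((b i / b k ^ w i) ^ m 0 * (b j / b k ^ w j) ^ m 1))
    rw [h6, div_pow, div_pow, ← pow_mul, ← pow_mul]
    have e1 : b k ^ (w i * m 0) ≠ 0 := pow_ne_zero _ hb
    have e2 : b k ^ (w j * m 1) ≠ 0 := pow_ne_zero _ hb
    field_simp
  let G' : MvPolynomial σ F := aeval ![X i, X j, X k] G
  have hG' : ∀ {A : Type u} [Field A] [Algebra F A] (b : σ → A),
      aeval b G' = aeval ![b i, b j, b k] G := by
    intro A _ _ b
    simp only [G', ← AlgHom.comp_apply]
    congr 1
    apply MvPolynomial.algHom_ext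
    intro l
    fin_cases l <;> simp
  have hhom : IsWeightedHomogeneous w G' N := by
    simp only [G', G, map_sum]
    refine IsWeightedHomogeneous.sum _ _ _ fun m hm => ?_
    have e3 : aeval ![X i, X j, X k] (C (g.coeff m)
        * (X 0 ^ m 0 * X 1 ^ m 1 * X 2 ^ (N - (m 0 * w i + m 1 * w j))))
        = (C (g.coeff m) * (X i ^ m 0 * X j ^ m 1
          * X k ^ (N - (m 0 * w i + m 1 * w j))) : MvPolynomial σ F) := by
      simp [MvPolynomial.algebraMap_eq]
    rw [e3]
    have h7 := (((isWeightedHomogeneous_X F w i).pow (m 0)).mul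
      ((isWeightedHomogeneous_X F w j).pow (m 1))).mul
      ((isWeightedHomogeneous_X F w k).pow (N - (m 0 * w i + m 1 * w j)))
    have h8 := (isWeightedHomogeneous_C w (g.coeff m)).mul h7
    convert h8 using 1
    have := hN m hm
    simp only [smul_eq_mul, hwk, mul_one]
    omega
  have h0 : aeval x G' = 0 := by
    rw [hG', hGeval x hk, hg, mul_zero]
  have h1 : G' ∈ Ideal.span S := (hx.mem_iff N G' hhom).1 h0
  have h2 := hspan _ h1
  rw [hG'] at h2
  have h3 : G = 0 := (algebraicIndependent_iff.1 hind) G h2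
  -- dehomogenise
  have h4 : aeval ![X 0, X 1, (1 : MvPolynomial (Fin 2) F)] G = g := by
    simp only [G, map_sum]
    conv_rhs => rw [g.as_sum]
    refine Finset.sum_congr rfl fun m _ => ?_
    rw [monomial_eq]
    have h5 : (m.prod fun n e => (X n : MvPolynomial (Fin 2) F) ^ e)
        = ∏ l : Fin 2, X l ^ m l := by
      rw [Finsupp.prod]
      refine Finset.prod_subset (Finset.subset_univ _) fun l _ hl => ?_
      rw [Finsupp.notMem_support_iff.1 hl, pow_zero]
    rw [h5, Fin.prod_univ_two]
    simp [MvPolynomial.algebraMap_eq]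
  rw [← h4, h3, map_zero]

end gen
end DPI
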