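import Mathlib
import Pool.Agent.H478.DC
set_option autoImplicit false
namespace DPI
open MvPolynomial

universe u v

section
variable {F : Type u} [Field F]

theorem aeval_finSucc {A : Type*} [CommRing A] [Algebra F A] {n : ℕ} (a : Fin (n + 1) → A)
    (f : MvPolynomial (Fin (n + 1)) F) :
    aeval a f = Polynomial.eval₂
      (aeval (fun i : Fin n => a i.succ) : MvPolynomial (Fin n) F →ₐ[F] A).toRingHom (a 0)
      (finSuccEquiv F n f) := by
  induction f using MvPolynomial.induction_on with
  | C c =>
    rw [aeval_C]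
    have : finSuccEquiv F n (C c) = Polynomial.C (C c) := by
      have := congrArg (fun g => g c) (finSuccEquiv_comp_C_eq_C (R := F) n)
      simp [finSuccEquiv_apply]
    rw [this, Polynomial.eval₂_C]
    simp
  | add p q hp hq => rw [map_add, map_add, hp, hq, Polynomial.eval₂_add]
  | mul_X p i hp =>
    rw [map_mul, map_mul, hp, Polynomial.eval₂_mul, aeval_X]
    congr 1
    refine Fin.cases ?_ (fun j => ?_) i
    · rw [finSuccEquiv_X_zero, Polynomial.eval₂_X]
    · rw [finSuccEquiv_X_succ, Polynomial.eval₂_C]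
      simp

/-- generic point of affine 3-space -/
noncomputable abbrev Om (F : Type u) [Field F] : Type u :=
  AlgebraicClosure (FractionRing (MvPolynomial (Fin 3) F))

noncomputable def gen (F : Type u) [Field F] (i : Fin 3) : Om F :=
  algebraMap (MvPolynomial (Fin 3) F) (Om F) (X i)

theorem gen_aeval (G : MvPolynomial (Fin 3) F) :
    aeval (gen F) G = algebraMap (MvPolynomial (Fin 3) F) (Om F) G := by
  have : (aeval (gen F) : MvPolynomial (Fin 3) F →ₐ[F] Om F)
      = IsScalarTower.toAlgHom F (MvPolynomial (Fin 3) F) (Om F) := by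
    apply MvPolynomial.algHom_ext
    intro i
    rw [aeval_X]
    rfl
  rw [this]
  rfl

theorem algebraMap_Om_injective :
    Function.Injective (algebraMap (MvPolynomial (Fin 3) F) (Om F)) := by
  rw [IsScalarTower.algebraMap_eq (MvPolynomial (Fin 3) F)
    (FractionRing (MvPolynomial (Fin 3) F)) (Om F), RingHom.coe_comp]
  exact (FaithfulSMul.algebraMap_injective (FractionRing (MvPolynomial (Fin 3) F)) (Om F)).comp
    (IsFractionRing.injective (MvPolynomial (Fin 3) F) (FractionRing (MvPolynomial (Fin 3) F)))

theorem gen_indep : AlgebraicIndependent F (gen F) := by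
  rw [algebraicIndependent_iff]
  intro G hG
  rw [gen_aeval] at hG
  exact algebraMap_Om_injective (by rw [hG, map_zero])

theorem weighted_coeff {w : Fin 4 → ℕ} {f : MvPolynomial (Fin 4) F} {n : ℕ}
    (hf : IsWeightedHomogeneous w f n) (i : ℕ) :
    IsWeightedHomogeneous (fun j : Fin 3 => w j.succ) ((finSuccEquiv F 3 f).coeff i)
      (n - i * w 0) := by
  intro m hm
  rw [finSuccEquiv_coeff_coeff] at hm
  have h := hf hm
  rw [Finsupp.weight_apply, Finsupp.sum_fintype _ _ (by simp)] at h ⊢
  rw [Fin.sum_univ_succ] at h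
  simp only [Finsupp.cons_zero, Finsupp.cons_succ] at h
  simp only [smul_eq_mul] at h ⊢
  omega

theorem weighted_rename {w : Fin 4 → ℕ} {g : MvPolynomial (Fin 3) F} {n : ℕ}
    (hg : IsWeightedHomogeneous (fun j : Fin 3 => w j.succ) g n) :
    IsWeightedHomogeneous w (rename Fin.succ g) n := by
  have h1 : rename Fin.succ g
      = ∑ m ∈ g.support, C (g.coeff m) * ∏ j : Fin 3, (X j.succ : MvPolynomial (Fin 4) F) ^ m j := by
    conv_lhs => rw [g.as_sum, map_sum]
    refine Finset.sum_congr rfl fun m _ => ?_
    rw [rename_monomial, monomial_eq]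
    congr 1
    rw [Finsupp.prod_mapDomain_index_inj (Fin.succ_injective _), Finsupp.prod_fintype _ _ (by simp)]
  rw [h1]
  refine IsWeightedHomogeneous.sum _ _ _ fun m hm => ?_
  have h2 : Finsupp.weight (fun j : Fin 3 => w j.succ) m = n := hg (mem_support_iff.1 hm)
  rw [Finsupp.weight_apply, Finsupp.sum_fintype _ _ (by simp)] at h2
  have h3 := (isWeightedHomogeneous_C w (g.coeff m)).mul
    (IsWeightedHomogeneous.prod Finset.univ (fun j : Fin 3 => (X j.succ : MvPolynomial (Fin 4) F) ^ m j)
      (fun j => m j • w j.succ) (fun j _ => (isWeightedHomogeneous_X F w j.succ).pow (m j)))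
  rw [h2, zero_add] at h3
  exact h3

end

section irr
variable {F L : Type u} [Field F] [Field L] [Algebra F L]

theorem irr_le {s t : L} (hst : AlgebraicIndependent F ![s, t]) {e : ℕ}
    (hfin : Module.Finite (IntermediateField.adjoin F {s, t}) L)
    (he : Module.finrank (IntermediateField.adjoin F {s, t}) L ≤ e) : irr F L ≤ e := by
  have h : Module.finrank (IntermediateField.adjoin F {s, t}) L ∈
    {n | ∃ s t : L, AlgebraicIndependent F ![s, t] ∧
    Module.Finite (IntermediateField.adjoin F {s, t}) L ∧
    Module.finrank (IntermediateField.adjoin F {s, t}) L = n} := ⟨s, t, hst, hfin, rfl⟩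
  exact (Nat.sInf_le h).trans he

theorem irr_spec {s t : L} (hst : AlgebraicIndependent F ![s, t])
    (hfin : Module.Finite (IntermediateField.adjoin F {s, t}) L) :
    ∃ s t : L, AlgebraicIndependent F ![s, t] ∧
      Module.Finite (IntermediateField.adjoin F {s, t}) L ∧
      Module.finrank (IntermediateField.adjoin F {s, t}) L = irr F L := by
  have h : irr F L ∈ {n | ∃ s t : L, AlgebraicIndependent F ![s, t] ∧
    Module.Finite (IntermediateField.adjoin F {s, t}) L ∧
    Module.finrank (IntermediateField.adjoin F {s, t}) L = n} :=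
    Nat.sInf_mem (Set.nonempty_def.2 ⟨_, s, t, hst, hfin, rfl⟩)
  exact h

/-- data witnessing a dominant map of degree at most `e` to the plane -/
def Wit (F L : Type u) [Field F] [Field L] [Algebra F L] (e : ℕ) : Prop :=
  ∃ s t : L, AlgebraicIndependent F ![s, t] ∧
      Module.Finite (IntermediateField.adjoin F {s, t}) L ∧
      Module.finrank (IntermediateField.adjoin F {s, t}) L ≤ e

theorem Wit.irr_le {e : ℕ} (h : Wit F L e) : irr F L ≤ e := by
  obtain ⟨s, t, h1, h2, h3⟩ := h
  exact DPI.irr_le h1 h2 h3

theorem Wit.spec {e : ℕ} (h : Wit F L e) : Wit F L (irr F L) := by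
  obtain ⟨s, t, h1, h2, _⟩ := h
  obtain ⟨s, t, h1, h2, h3⟩ := irr_spec h1 h2
  exact ⟨s, t, h1, h2, h3.le⟩

theorem wit_of_stable {σ : Type} {w : σ → ℕ} {S : Set (MvPolynomial σ F)} {x : σ → L}
    (hx : IsFunctionField w S L x) {s t : L} (hst : AlgebraicIndependent F ![s, t])
    (c : L) (hc : c ≠ 0) {e : ℕ} (W : Submodule (IntermediateField.adjoin F {s, t}) L)
    [Module.Finite (IntermediateField.adjoin F {s, t}) W]
    (he : Module.finrank (IntermediateField.adjoin F {s, t}) W ≤ e)
    (h1 : (1 : L) ∈ W) (hW : ∀ i, ∀ z ∈ W, (x i / c ^ w i) * z ∈ W) : Wit F L e := by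
  have htop := eq_top_of_stable hx c hc _ W h1 hW
  refine ⟨s, t, hst, ?_, ?_⟩
  · have : Module.Finite (IntermediateField.adjoin F {s, t})
      (⊤ : Submodule (IntermediateField.adjoin F {s, t}) L) := by rw [← htop]; infer_instance
    exact Module.finite_def.2 (Module.Finite.iff_fg.1 this)
  · rw [← finrank_top, ← htop]
    exact he

/-- the hypersurface bound -/
theorem wit_hyp {w : Fin 4 → ℕ} (hw : w 3 = 1) {f : MvPolynomial (Fin 4) F} {n : ℕ}
    (hf : IsWeightedHomogeneous w f n) {x : Fin 4 → L} (hx : IsFunctionField w {f} L x)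
    (he : 1 ≤ degreeOf 0 f) : Wit F L (degreeOf 0 f) := by
  classical
  set P := finSuccEquiv F 3 f with hP
  have hdeg : P.natDegree = degreeOf 0 f := natDegree_finSuccEquiv f
  have hP0 : P ≠ 0 := by
    intro h
    rw [h, Polynomial.natDegree_zero] at hdeg
    omega
  -- generic solution
  let φ : MvPolynomial (Fin 3) F →+* Om F := (aeval (gen F) : MvPolynomial (Fin 3) F →ₐ[F] Om F).toRingHom
  have hφ : Function.Injective φ := by
    intro a b hab
    have h2 : algebraMap (MvPolynomial (Fin 3) F) (Om F) a
        = algebraMap (MvPolynomial (Fin 3) F) (Om F) b := by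
      rw [← gen_aeval, ← gen_aeval]; exact hab
    exact algebraMap_Om_injective h2
  obtain ⟨r, hr⟩ : ∃ r, (P.map φ).eval r = 0 := by
    have : (P.map φ).degree ≠ 0 := by
      intro h
      have h3 := Polynomial.natDegree_eq_zero_iff_degree_le_zero.2 h.le
      rw [Polynomial.natDegree_map_eq_of_injective hφ, hdeg] at h3
      omega
    exact IsAlgClosed.exists_root _ this
  let a : Fin 4 → Om F := Fin.cons r (gen F)
  have ha : ∀ G ∈ ({f} : Set (MvPolynomial (Fin 4) F)), aeval a G = 0 := by
    rintro G rfl
    rw [aeval_finSucc]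
    rw [Polynomial.eval_map] at hr
    exact hr
  have hind : AlgebraicIndependent F ![a 1, a 2, a 3] := by
    have h := gen_indep (F := F)
    convert h using 1
    funext i
    fin_cases i <;> rfl
  obtain ⟨h3, hst⟩ := alg_indep hx a ha 1 2 3 hw hind
  -- the leading coefficient
  have hlead : aeval (fun i : Fin 3 => x i.succ) P.leadingCoeff ≠ 0 := by
    intro h
    have h4 := weighted_rename (w := w) (weighted_coeff hf P.natDegree)
    have h5 : aeval x (rename Fin.succ P.leadingCoeff) = 0 := by
      rw [aeval_rename]; exact h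
    have h6 := (hx.mem_iff _ _ h4).1 h5
    have h7 : aeval a (rename Fin.succ P.leadingCoeff) = 0 := by
      have hle : Ideal.span {f} ≤ RingHom.ker (aeval a : MvPolynomial (Fin 4) F →ₐ[F] Om F) := by
        rw [Ideal.span_le]
        rintro G rfl
        exact ha G rfl
      exact hle h6
    rw [aeval_rename] at h7
    have h8 : φ P.leadingCoeff = 0 := h7
    rw [map_eq_zero_iff φ hφ, Polynomial.leadingCoeff_eq_zero] at h8
    exact hP0 h8
  set K := IntermediateField.adjoin F {x 1 / x 3 ^ w 1, x 2 / x 3 ^ w 2} with hK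
  -- the normalised coordinates
  let b : Fin 4 → L := fun i => x i / x 3 ^ w i
  have hb3 : b 3 = 1 := by
    show x 3 / x 3 ^ w 3 = 1
    rw [hw, pow_one, div_self h3]
  have hcoefK : ∀ i : ℕ, aeval (fun j : Fin 3 => b j.succ) (P.coeff i) ∈ K := by
    intro i
    have hbK : ∀ j : Fin 3, b j.succ ∈ K := by
      intro j
      fin_cases j
      · exact IntermediateField.subset_adjoin F _ (by simp [b])
      · exact IntermediateField.subset_adjoin F _ (by simp [b])
      · show b 3 ∈ K
        rw [hb3]; exact K.one_mem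
    generalize P.coeff i = G
    induction G using MvPolynomial.induction_on with
    | C c => rw [aeval_C]; exact K.algebraMap_mem c
    | add p q hp hq => rw [map_add]; exact K.add_mem hp hq
    | mul_X p j hp => rw [map_mul, aeval_X]; exact K.mul_mem hp (hbK j)
  have hb0 : aeval b f = 0 := by
    have h4 : aeval b f = aeval x f / x 3 ^ n := aeval_div hf h3
    rw [h4, (hx.mem_iff n f hf).2 (Ideal.subset_span rfl), zero_div]
  set e := degreeOf 0 f with hedef
  have hrel : ∑ i ∈ Finset.range (e + 1),
      aeval (fun j : Fin 3 => b j.succ) (P.coeff i) * b 0 ^ i = 0 := by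
    rw [aeval_finSucc, Polynomial.eval₂_eq_sum_range, hdeg] at hb0
    exact hb0
  have hleadb : aeval (fun j : Fin 3 => b j.succ) (P.coeff e) ≠ 0 := by
    have h4 := weighted_coeff hf e
    have h5 : aeval (fun j : Fin 3 => b j.succ) (P.coeff e)
        = aeval (fun j : Fin 3 => x j.succ) (P.coeff e) / x 3 ^ (n - e * w 0) :=
      aeval_div h4 h3
    rw [h5]
    refine div_ne_zero ?_ (pow_ne_zero _ h3)
    have : P.coeff e = P.leadingCoeff := by rw [Polynomial.leadingCoeff, hdeg]
    rw [this]
    exact hlead
  let W : Submodule K L := Submodule.span K (Set.range fun i : Fin e => b 0 ^ (i : ℕ))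
  have hWmem : ∀ i : ℕ, i < e → b 0 ^ i ∈ W := fun i hi =>
    Submodule.subset_span ⟨⟨i, hi⟩, rfl⟩
  have hWe : b 0 ^ e ∈ W := by
    rw [Finset.sum_range_succ] at hrel
    have h4 : b 0 ^ e = ∑ i ∈ Finset.range e,
        (-(aeval (fun j : Fin 3 => b j.succ) (P.coeff i))
          / aeval (fun j : Fin 3 => b j.succ) (P.coeff e)) * b 0 ^ i := by
      have h5 : b 0 ^ e * aeval (fun j : Fin 3 => b j.succ) (P.coeff e)
          = - ∑ i ∈ Finset.range e, aeval (fun j : Fin 3 => b j.succ) (P.coeff i) * b 0 ^ i := by
        linear_combination hrel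
      rw [eq_div_of_mul_eq hleadb h5, ← Finset.sum_neg_distrib, Finset.sum_div]
      refine Finset.sum_congr rfl fun i _ => ?_
      ring
    rw [h4]
    refine Submodule.sum_mem _ fun i hi => ?_
    have hc : -(aeval (fun j : Fin 3 => b j.succ) (P.coeff i))
          / aeval (fun j : Fin 3 => b j.succ) (P.coeff e) ∈ K :=
      K.div_mem (K.neg_mem (hcoefK i)) (hcoefK e)
    have := W.smul_mem (⟨_, hc⟩ : K) (hWmem i (Finset.mem_range.1 hi))
    exact this
  have : Module.Finite K W := Module.Finite.span_of_finite K (Set.finite_range _)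
  refine wit_of_stable hx hst (x 3) h3 W ?_ ?_ ?_
  · have := finrank_range_le_card (R := K) (fun i : Fin e => b 0 ^ (i : ℕ))
    rwa [Fintype.card_fin] at this
  · have := hWmem 0 (by omega)
    rwa [pow_zero] at this
  · intro i z hz
    have hscal : ∀ c ∈ K, ∀ z ∈ W, c * z ∈ W := fun c hc z hz => W.smul_mem (⟨c, hc⟩ : K) hz
    have h0 : ∀ z ∈ W, b 0 * z ∈ W := by
      intro z hz
      induction hz using Submodule.span_induction with
      | mem z hz =>
        obtain ⟨i, rfl⟩ := hz
        show b 0 * b 0 ^ (i : ℕ) ∈ W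
        rw [← pow_succ']
        by_cases hi : (i : ℕ) + 1 < e
        · exact hWmem _ hi
        · have : (i : ℕ) + 1 = e := by have := i.2; omega
          rw [this]; exact hWe
      | zero => rw [mul_zero]; exact W.zero_mem
      | add a c _ _ ha hc => rw [mul_add]; exact W.add_mem ha hc
      | smul c a _ ha =>
        rw [Algebra.mul_smul_comm]
        exact W.smul_mem c ha
    fin_cases i
    · exact h0 z hz
    · exact hscal _ (IntermediateField.subset_adjoin F _ (by simp)) z hz
    · exact hscal _ (IntermediateField.subset_adjoin F _ (by simp)) z hz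
    · show b 3 * z ∈ W
      rw [hb3, one_mul]; exact hz

end irr
end DPI
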