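import Mathlib
import Pool.Agent.H478.DD
set_option autoImplicit false
namespace DPI
open MvPolynomial

universe u v

section change
variable {σ : Type} [Fintype σ] {F : Type u} [Field F]

noncomputable def lin (M : Matrix σ σ F) : MvPolynomial σ F →ₐ[F] MvPolynomial σ F :=
  aeval fun i => ∑ j, C (M i j) * X j

theorem aeval_lin {A : Type*} [CommRing A] [Algebra F A] (M : Matrix σ σ F) (y : σ → A)
    (G : MvPolynomial σ F) :
    aeval y (lin M G) = aeval (fun i => ∑ j, algebraMap F A (M i j) * y j) G := by
  have : (aeval y : MvPolynomial σ F →ₐ[F] A).comp (lin M)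
      = aeval (fun i => ∑ j, algebraMap F A (M i j) * y j) := by
    apply MvPolynomial.algHom_ext
    intro i
    simp [lin]
  rw [← this]
  rfl

variable [DecidableEq σ]

theorem mul_vec_inv {A : Type*} [CommRing A] [Algebra F A] {M B : Matrix σ σ F} (h : M * B = 1)
    (y : σ → A) (i : σ) :
    ∑ j, algebraMap F A (M i j) * ∑ k, algebraMap F A (B j k) * y k = y i := by
  have h1 : ∀ k, ∑ j, M i j * B j k = if i = k then 1 else 0 := by
    intro k
    have := congrFun (congrFun h i) k
    rwa [Matrix.mul_apply, Matrix.one_apply] at this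
  simp only [Finset.mul_sum]
  rw [Finset.sum_comm]
  have h2 : ∀ k, ∑ j, algebraMap F A (M i j) * (algebraMap F A (B j k) * y k)
      = (if i = k then 1 else 0) * y k := by
    intro k
    have h3 := congrArg (algebraMap F A) (h1 k)
    rw [map_sum] at h3
    simp only [← mul_assoc, ← Finset.sum_mul, ← map_mul]
    rw [h3]
    split_ifs <;> simp
  simp [h2]

theorem lin_lin {M B : Matrix σ σ F} (h : B * M = 1) (G : MvPolynomial σ F) :
    lin M (lin B G) = G := by
  have : (lin M).comp (lin B) = AlgHom.id F _ := by
    apply MvPolynomial.algHom_ext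
    intro i
    simp only [AlgHom.comp_apply, lin, aeval_X, map_sum, map_mul, aeval_C, AlgHom.id_apply]
    exact mul_vec_inv h (fun k => (X k : MvPolynomial σ F)) i
  have := congrArg (fun φ => φ G) this
  exact this

omit [DecidableEq σ] in
theorem lin_homog {M : Matrix σ σ F} {G : MvPolynomial σ F} {n : ℕ} (hG : G.IsHomogeneous n) :
    (lin M G).IsHomogeneous n := by
  have := hG.aeval (fun i => ∑ j, C (M i j) * (X j : MvPolynomial σ F)) (n := 1) (fun i => by
    refine IsHomogeneous.sum _ _ _ fun j _ => ?_
    simpa using (isHomogeneous_C σ (M i j)).mul (isHomogeneous_X F j))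
  rwa [one_mul] at this

theorem change {M B : Matrix σ σ F} (hMB : M * B = 1) (hBM : B * M = 1)
    {S : Set (MvPolynomial σ F)} {L : Type u} [Field L] [Algebra F L] {x : σ → L}
    (hx : IsFunctionField 1 S L x) :
    IsFunctionField 1 (lin M '' S) L (fun i => ∑ j, algebraMap F L (B i j) * x j) := by
  have hev : ∀ G, aeval (fun i => ∑ j, algebraMap F L (B i j) * x j) (lin M G) = aeval x G := by
    intro G
    rw [aeval_lin]
    congr 2
    funext i
    exact mul_vec_inv hMB x i
  constructor
  · intro n G hG
    have e : lin M (lin B G) = G := lin_lin hBM G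
    rw [← e, hev, hx.mem_iff n _ (lin_homog hG)]
    constructor
    · intro h
      have := Ideal.mem_map_of_mem (lin M).toRingHom h
      rw [Ideal.map_span] at this
      exact this
    · intro h
      have := Ideal.mem_map_of_mem (lin B).toRingHom h
      rw [Ideal.map_span] at this
      have h2 : (lin B).toRingHom '' (lin M '' S) = S := by
        rw [Set.image_image]
        conv_rhs => rw [← Set.image_id S]
        exact Set.image_congr fun G _ => lin_lin hMB G
      rw [h2] at this
      have h3 : (lin B).toRingHom (lin M (lin B G)) = lin B G := lin_lin hMB _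
      rwa [h3] at this
  · intro z
    obtain ⟨n, G, H, hG, hH, hH0, rfl⟩ := hx.surj z
    exact ⟨n, lin M G, lin M H, lin_homog hG, lin_homog hH, by rwa [hev], by rw [hev, hev]⟩

theorem pderiv_lin (M : Matrix σ σ F) (j : σ) (G : MvPolynomial σ F) :
    pderiv j (lin M G) = ∑ i, C (M i j) * lin M (pderiv i G) := by
  induction G using MvPolynomial.induction_on with
  | C c =>
    have : lin M (C c) = C c := by simp [lin, MvPolynomial.algebraMap_eq]
    simp [this]
  | add p q hp hq =>
    rw [map_add, map_add, hp, hq, ← Finset.sum_add_distrib]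
    refine Finset.sum_congr rfl fun i _ => ?_
    rw [map_add, map_add, mul_add]
  | mul_X p k hp =>
    have hk : lin M (X k) = ∑ l, C (M k l) * X l := by simp [lin]
    have hd : pderiv j (lin M (X k)) = C (M k j) := by
      rw [hk, map_sum, Finset.sum_eq_single j]
      · simp [pderiv_X]
      · intro l _ hl
        simp [pderiv_X, Pi.single_apply, hl]
      · intro h; exact absurd (Finset.mem_univ j) h
    rw [map_mul, Derivation.leibniz, hp, hd]
    simp only [smul_eq_mul, Derivation.leibniz, pderiv_X, map_add, map_mul, mul_add,
      Finset.sum_add_distrib]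
    have h1 : ∑ i, C (M i j) * (lin M p * lin M ((Pi.single i 1 : σ → MvPolynomial σ F) k))
        = lin M p * C (M k j) := by
      rw [Finset.sum_eq_single k]
      · simp; ring
      · intro l _ hl
        simp [Pi.single_apply, hl.symm]
      · intro h; exact absurd (Finset.mem_univ k) h
    rw [h1, Finset.mul_sum]
    congr 1
    refine Finset.sum_congr rfl fun i _ => ?_
    ring

theorem smooth_change {M B : Matrix σ σ F} (hMB : M * B = 1) (hBM : B * M = 1) {r : ℕ}
    {f : Fin r → MvPolynomial σ F} (hf : IsSmooth f) : IsSmooth fun i => lin M (f i) := by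
  intro a ha h0
  let a' : σ → AlgebraicClosure F := fun i => ∑ j, algebraMap F (AlgebraicClosure F) (M i j) * a j
  have ha' : a' ≠ 0 := by
    intro h
    apply ha
    funext i
    have := mul_vec_inv (A := AlgebraicClosure F) hBM a i
    have h2 : ∀ j, ∑ k, algebraMap F (AlgebraicClosure F) (M j k) * a k = 0 := fun j => congrFun h j
    simp only [h2, mul_zero, Finset.sum_const_zero] at this
    exact this.symm
  have h0' : ∀ i, aeval a' (f i) = 0 := fun i => by
    have := h0 i
    rwa [aeval_lin] at this
  have hli := hf a' ha' h0'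
  let T : (σ → AlgebraicClosure F) →ₗ[AlgebraicClosure F] (σ → AlgebraicClosure F) :=
    { toFun := fun v j => ∑ i, algebraMap F (AlgebraicClosure F) (M i j) * v i
      map_add' := fun v w => by
        funext j; simp [mul_add, Finset.sum_add_distrib]
      map_smul' := fun c v => by
        funext j; simp only [Pi.smul_apply, smul_eq_mul, RingHom.id_apply, Finset.mul_sum]
        refine Finset.sum_congr rfl fun i _ => ?_
        ring }
  have hT : LinearMap.ker T = ⊥ := by
    rw [LinearMap.ker_eq_bot']
    intro v hv
    funext i
    have h1 : ∀ j, ∑ k, algebraMap F (AlgebraicClosure F) (M k j) * v k = 0 := fun j => congrFun hv j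
    have hT' : B.transpose * M.transpose = 1 := by
      rw [← Matrix.transpose_mul, hMB, Matrix.transpose_one]
    have h3 := mul_vec_inv (A := AlgebraicClosure F) hT' v i
    simp only [Matrix.transpose_apply, h1, mul_zero, Finset.sum_const_zero] at h3
    exact h3.symm
  have := hli.map' T hT
  have hfun : (fun (i : Fin r) (j : σ) => aeval a (pderiv j (lin M (f i))))
      = T ∘ fun (i : Fin r) (j : σ) => aeval a' (pderiv j (f i)) := ?_
  · show LinearIndependent (AlgebraicClosure F)
      fun (i : Fin r) (j : σ) => aeval a (pderiv j (lin M (f i)))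
    rw [hfun]
    exact this
  funext i j
  show aeval a (pderiv j (lin M (f i))) = ∑ k, algebraMap F (AlgebraicClosure F) (M k j) * aeval a' (pderiv k (f i))
  rw [pderiv_lin, map_sum]
  refine Finset.sum_congr rfl fun k _ => ?_
  rw [map_mul, aeval_C, aeval_lin]

end change

section basis

/-- extend a linearly independent family to a basis, in matrix form -/
theorem exists_matrix {F : Type u} [Field F] {m r : ℕ} (v : Fin m → (Fin (m + r) → F))
    (hv : LinearIndependent F v) :
    ∃ M B : Matrix (Fin (m + r)) (Fin (m + r)) F, M * B = 1 ∧ B * M = 1 ∧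
      ∀ i j, M i (Fin.castAdd r j) = v j i := by
  classical
  let b0 := Module.Basis.sumExtend hv
  have hfin : Finite (Fin m ⊕ Module.Basis.sumExtendIndex hv) :=
    Module.Finite.finite_basis b0
  have : Finite (Module.Basis.sumExtendIndex hv) :=
    Finite.of_injective (Sum.inr : _ → Fin m ⊕ Module.Basis.sumExtendIndex hv) Sum.inr_injective
  have := Fintype.ofFinite (Module.Basis.sumExtendIndex hv)
  have hcard : Fintype.card (Module.Basis.sumExtendIndex hv) = r := by
    have h1 := Module.finrank_eq_card_basis b0
    rw [Module.finrank_fin_fun, Fintype.card_sum, Fintype.card_fin] at h1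
    omega
  let e1 : Module.Basis.sumExtendIndex hv ≃ Fin r := Fintype.equivFinOfCardEq hcard
  let e : Fin m ⊕ Module.Basis.sumExtendIndex hv ≃ Fin (m + r) :=
    (Equiv.sumCongr (Equiv.refl _) e1).trans finSumFinEquiv
  let b := b0.reindex e
  refine ⟨(Pi.basisFun F (Fin (m + r))).toMatrix b, b.toMatrix (Pi.basisFun F (Fin (m + r))),
    Module.Basis.toMatrix_mul_toMatrix_flip _ _, Module.Basis.toMatrix_mul_toMatrix_flip _ _, ?_⟩
  intro i j
  have h1 : b (Fin.castAdd r j) = v j := by
    simp only [b, Module.Basis.reindex_apply]
    have : e.symm (Fin.castAdd r j) = Sum.inl j := by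
      rw [Equiv.symm_apply_eq]
      simp [e]
    rw [this]
    simp only [b0, Module.Basis.sumExtend, Module.Basis.reindex_apply, 
      Module.Basis.coe_extend]
    rfl
  rw [Module.Basis.toMatrix_apply, h1]
  simp

end basis
end DPI
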