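import Mathlib
import Pool.Agent.H478.DE
set_option autoImplicit false
namespace DPI
open MvPolynomial

universe u v

section pts
variable {F : Type u} [Field F]

theorem aeval_e0 {σ : Type} [DecidableEq σ] (i0 : σ) {A : Type*} [Field A] [Algebra F A]
    {G : MvPolynomial σ F} {d : ℕ} (hG : G.IsHomogeneous d) :
    aeval (Pi.single i0 1 : σ → A) G = algebraMap F A (coeff (Finsupp.single i0 d) G) := by
  classical
  rw [aeval_def, eval₂_eq]
  have hprod : ∀ m : σ →₀ ℕ, m.degree = d →
      ∏ i ∈ m.support, (Pi.single i0 1 : σ → A) i ^ m i = if m = Finsupp.single i0 d then 1 else 0 := by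
    intro m hm
    split_ifs with h
    · rw [h]
      refine Finset.prod_eq_one fun i hi => ?_
      by_cases hii : i = i0
      · rw [hii, Pi.single_eq_same, one_pow]
      · exfalso
        rw [Finsupp.mem_support_iff, Finsupp.single_apply] at hi
        exact hi (if_neg (Ne.symm hii))
    · have : ∃ i ∈ m.support, i ≠ i0 := by
        by_contra hcon
        push Not at hcon
        apply h
        have h2 : m = Finsupp.single i0 (m i0) := by
          ext i
          by_cases hi : i = i0
          · rw [hi, Finsupp.single_eq_same]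
          · rw [Finsupp.single_apply, if_neg (Ne.symm hi)]
            by_contra h3
            exact hi (hcon i (Finsupp.mem_support_iff.2 h3))
        rw [h2] at hm ⊢
        rw [Finsupp.degree_single] at hm
        rw [hm]
      obtain ⟨i, hi, hne⟩ := this
      refine Finset.prod_eq_zero hi ?_
      rw [Pi.single_apply, if_neg hne, zero_pow (Finsupp.mem_support_iff.1 hi)]
  have h1 : ∀ m ∈ G.support, algebraMap F A (coeff m G)
      * ∏ i ∈ m.support, (Pi.single i0 1 : σ → A) i ^ m i
      = if m = Finsupp.single i0 d then algebraMap F A (coeff m G) else 0 := by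
    intro m hm
    have hdeg : m.degree = d := by
      have := hG (mem_support_iff.1 hm)
      rwa [Finsupp.degree_eq_weight_one]
    rw [hprod m hdeg]
    split_ifs <;> simp
  rw [Finset.sum_congr rfl h1, Finset.sum_ite_eq']
  split_ifs with h
  · rfl
  · rw [notMem_support_iff.1 h, map_zero]

theorem degreeOf_le_of_homog {σ : Type} (i0 : σ) {G : MvPolynomial σ F} {d : ℕ}
    (hG : G.IsHomogeneous d) : degreeOf i0 G ≤ d :=
  (degreeOf_le_totalDegree G i0).trans hG.totalDegree_le

/-- a cubic form without rational points has a nonzero coefficient at `x₀³` -/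
theorem degreeOf_eq_of_ne {σ : Type} [DecidableEq σ] (i0 : σ) {G : MvPolynomial σ F} {d : ℕ}
    (hG : G.IsHomogeneous d) (h : aeval (Pi.single i0 1 : σ → F) G ≠ 0) :
    degreeOf i0 G = d := by
  refine le_antisymm (degreeOf_le_of_homog i0 hG) ?_
  rw [aeval_e0 i0 hG] at h
  have h2 : Finsupp.single i0 d ∈ G.support := by
    rw [mem_support_iff]
    intro h3
    rw [h3, map_zero] at h
    exact h rfl
  have := monomial_le_degreeOf i0 h2
  rwa [Finsupp.single_eq_same] at this

theorem degreeOf_lt_of_eq {σ : Type} [DecidableEq σ] (i0 : σ) {G : MvPolynomial σ F} {d : ℕ}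
    (hG : G.IsHomogeneous d) (hd : 0 < d) (h : aeval (Pi.single i0 1 : σ → F) G = 0) :
    degreeOf i0 G < d := by
  rw [degreeOf_lt_iff hd]
  intro m hm
  by_contra hcon
  rw [not_lt] at hcon
  have hdeg : m.degree = d := by
    have := hG (mem_support_iff.1 hm)
    rwa [Finsupp.degree_eq_weight_one]
  have h2 : m = Finsupp.single i0 d := by
    have h4 : m i0 ≤ m.degree := Finsupp.le_degree i0 m
    have h3 : m i0 = d := by omega
    have h5 : m = Finsupp.single i0 (m i0) := by
      have hle : Finsupp.single i0 (m i0) ≤ m := Finsupp.single_le_iff.2 le_rfl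
      have hadd := Finsupp.degree_eq_zero_iff (m - Finsupp.single i0 (m i0))
      have h6 : m = (m - Finsupp.single i0 (m i0)) + Finsupp.single i0 (m i0) :=
        (tsub_add_cancel_of_le hle).symm
      have h7 : m.degree = (m - Finsupp.single i0 (m i0)).degree + m i0 := by
        conv_lhs => rw [h6]
        rw [map_add, Finsupp.degree_single]
      have h8 : (m - Finsupp.single i0 (m i0)).degree = 0 := by omega
      rw [hadd] at h8
      rw [h8, zero_add] at h6
      exact h6
    rw [h5, h3]
  rw [aeval_e0 i0 hG, ← h2, ] at h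
  have h9 := (map_eq_zero (algebraMap F F)).1 h
  exact (mem_support_iff.1 hm) h9

/-- if some partial derivative does not vanish at `e₀`, then the form involves `x₀` -/
theorem one_le_degreeOf {σ : Type} [DecidableEq σ] (i0 : σ) {G : MvPolynomial σ F} {d : ℕ}
    (hG : G.IsHomogeneous (d + 2)) {A : Type*} [Field A] [Algebra F A] (j : σ)
    (h : aeval (Pi.single i0 1 : σ → A) (pderiv j G) ≠ 0) : 1 ≤ degreeOf i0 G := by
  by_contra hcon
  have h0 : degreeOf i0 G = 0 := by omega
  have hm0 : ∀ m ∈ G.support, m i0 = 0 := fun m hm => by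
    have := monomial_le_degreeOf i0 hm
    omega
  have hd : (pderiv j G).IsHomogeneous (d + 1) := by
    have := hG.pderiv (i := j)
    simpa using this
  rw [aeval_e0 i0 hd] at h
  apply h
  rw [map_eq_zero]
  by_contra hne
  rw [G.as_sum, map_sum, coeff_sum] at hne
  obtain ⟨m, hm, hne⟩ := Finset.exists_ne_zero_of_sum_ne_zero hne
  rw [pderiv_monomial, coeff_monomial] at hne
  split_ifs at hne with h3
  · have h4 := DFunLike.congr_fun h3 i0
    rw [Finsupp.single_eq_same, Finsupp.tsub_apply, hm0 m hm] at h4
    omega
  · exact hne rfl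

end pts
end DPI
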