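import Mathlib
import Pool.Agent.H478.DF
set_option autoImplicit false
namespace DPI
open MvPolynomial

universe u v

section wit
variable {F L : Type u} [Field F] [Field L] [Algebra F L]

theorem Wit.mono {e e' : ℕ} (h : Wit F L e) (hle : e ≤ e') : Wit F L e' := by
  obtain ⟨s, t, h1, h2, h3⟩ := h
  exact ⟨s, t, h1, h2, h3.trans hle⟩

end wit

section line
variable {F : Type u} [Field F] {σ : Type}

theorem aeval_alg {A : Type*} [CommRing A] [Algebra F A] (p : σ → F) (f : MvPolynomial σ F) :
    aeval (fun i => algebraMap F A (p i)) f = algebraMap F A (aeval p f) :=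
  aeval_algebraMap_apply A p f

/-- restriction of a form to a line -/
theorem restrict_line (u v : σ → F) {f : MvPolynomial σ F} {d : ℕ} (hf : f.IsHomogeneous d) :
    ∃ c : ℕ → F, ∀ (A : Type u) [CommRing A] [Algebra F A] (s t : A),
      aeval (fun i => s * algebraMap F A (u i) + t * algebraMap F A (v i)) f
        = ∑ k ∈ Finset.range (d + 1), algebraMap F A (c k) * s ^ (d - k) * t ^ k := by
  classical
  have hmono : ∀ (d : ℕ) (m : σ →₀ ℕ), m.degree = d → ∃ c : ℕ → F,
      ∀ (A : Type u) [CommRing A] [Algebra F A] (s t : A),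
      aeval (fun i => s * algebraMap F A (u i) + t * algebraMap F A (v i)) (monomial m (1 : F))
        = ∑ k ∈ Finset.range (d + 1), algebraMap F A (c k) * s ^ (d - k) * t ^ k := by
    intro d
    induction d with
    | zero =>
      intro m hm
      have : m = 0 := (Finsupp.degree_eq_zero_iff m).1 hm
      refine ⟨fun _ => 1, fun A _ _ s t => ?_⟩
      subst this
      simp
    | succ d ih =>
      intro m hm
      obtain ⟨i, hi⟩ : ∃ i, m i ≠ 0 := by
        by_contra hcon
        push Not at hcon
        have : m = 0 := by ext i; simpa using hcon i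
        rw [this] at hm
        simp at hm
      obtain ⟨c, hc⟩ := ih (m - Finsupp.single i 1) (by
        have hle : Finsupp.single i 1 ≤ m := Finsupp.single_le_iff.2 (Nat.one_le_iff_ne_zero.2 hi)
        have h6 : m = (m - Finsupp.single i 1) + Finsupp.single i 1 :=
          (tsub_add_cancel_of_le hle).symm
        have h7 : m.degree = (m - Finsupp.single i 1).degree + 1 := by
          conv_lhs => rw [h6]
          rw [map_add, Finsupp.degree_single]
        omega)
      refine ⟨fun k => (if k ≤ d then c k * u i else 0) + (if k = 0 then 0 else c (k - 1) * v i),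
        fun A _ _ s t => ?_⟩
      have hle : Finsupp.single i 1 ≤ m := Finsupp.single_le_iff.2 (Nat.one_le_iff_ne_zero.2 hi)
      have h6 : monomial m (1 : F) = monomial (m - Finsupp.single i 1) 1 * X i := by
        rw [X, monomial_mul, mul_one, tsub_add_cancel_of_le hle]
      rw [h6, map_mul, hc A s t, aeval_X]
      simp only [map_add, add_mul, Finset.sum_add_distrib]
      rw [mul_add]
      congr 1
      · rw [Finset.sum_range_succ (n := d + 1), Finset.sum_mul]
        have : ¬ (d + 1 ≤ d) := by omega
        simp only [this, if_false, map_zero, zero_mul, add_zero]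
        refine Finset.sum_congr rfl fun k hk => ?_
        have hk' : k ≤ d := by have := Finset.mem_range.1 hk; omega
        rw [if_pos hk', map_mul, show d + 1 - k = (d - k) + 1 by omega]
        ring
      · rw [Finset.sum_range_succ' (n := d + 1), Finset.sum_mul]
        simp only [if_true, map_zero, zero_mul, add_zero]
        refine Finset.sum_congr rfl fun k hk => ?_
        have hk' : k ≤ d := by have := Finset.mem_range.1 hk; omega
        rw [if_neg (Nat.succ_ne_zero k), Nat.add_sub_cancel, map_mul,
          show d + 1 - (k + 1) = d - k by omega]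
        ring
  have hdeg : ∀ m ∈ f.support, m.degree = d := by
    intro m hm
    have := hf (mem_support_iff.1 hm)
    rwa [Finsupp.degree_eq_weight_one]
  choose! c hc using fun m (hm : m.degree = d) => hmono d m hm
  refine ⟨fun k => ∑ m ∈ f.support, coeff m f * c m k, fun A _ _ s t => ?_⟩
  conv_lhs => rw [f.as_sum, map_sum]
  have h1 : ∀ m ∈ f.support, aeval (fun i => s * algebraMap F A (u i) + t * algebraMap F A (v i))
      (monomial m (coeff m f))
      = ∑ k ∈ Finset.range (d + 1), algebraMap F A (coeff m f * c m k) * s ^ (d - k) * t ^ k := by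
    intro m hm
    have h2 : monomial m (coeff m f) = coeff m f • monomial m (1 : F) := by
      rw [smul_monomial, smul_eq_mul, mul_one]
    rw [h2, map_smul, hc m (hdeg m hm) A s t, Finset.smul_sum]
    refine Finset.sum_congr rfl fun k _ => ?_
    rw [Algebra.smul_def, map_mul]
    ring
  rw [Finset.sum_congr rfl h1, Finset.sum_comm]
  refine Finset.sum_congr rfl fun k _ => ?_
  rw [map_sum, Finset.sum_mul, Finset.sum_mul]

/-- in a quadratic extension every vector is `u + θ v` -/
theorem quad_basis {κ : Type u} [Field κ] [Algebra F κ] (h2 : Module.finrank F κ = 2) :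
    ∃ θ : κ, θ ∉ (algebraMap F κ).range ∧ ∀ z : κ, ∃ a b : F, z = algebraMap F κ a + θ * algebraMap F κ b := by
  have hfin : Module.Finite F κ := Module.finite_of_finrank_pos (by omega)
  obtain ⟨θ, hθ⟩ : ∃ θ : κ, θ ∉ (algebraMap F κ).range := by
    by_contra hcon
    push Not at hcon
    have hsurj : Function.Surjective (algebraMap F κ) := fun z => hcon z
    have : Module.finrank F κ = 1 := by
      rw [finrank_eq_one_iff_of_nonzero' (1 : κ) one_ne_zero]
      intro w
      obtain ⟨c, hc⟩ := hsurj w
      exact ⟨c, by rw [Algebra.smul_def, mul_one, hc]⟩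
    omega
  refine ⟨θ, hθ, ?_⟩
  have hli : LinearIndependent F ![(1 : κ), θ] := by
    rw [LinearIndependent.pair_iff]
    intro a b hab
    by_cases hb : b = 0
    · subst hb
      rw [zero_smul, add_zero, Algebra.smul_def, mul_one] at hab
      exact ⟨(map_eq_zero _).1 hab, rfl⟩
    · exfalso
      apply hθ
      refine ⟨-a / b, ?_⟩
      rw [Algebra.smul_def, Algebra.smul_def, mul_one] at hab
      have hb' : algebraMap F κ b ≠ 0 := (map_ne_zero _).2 hb
      rw [map_div₀, map_neg, div_eq_iff hb']
      linear_combination -hab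
  intro z
  let bs := basisOfLinearIndependentOfCardEqFinrank hli (by rw [h2]; rfl)
  have h1 := bs.sum_repr z
  rw [Fin.sum_univ_two] at h1
  refine ⟨bs.repr z 0, bs.repr z 1, ?_⟩
  have e0 : bs 0 = 1 := by simp [bs]
  have e1 : bs 1 = θ := by simp [bs]
  rw [e0, e1, Algebra.smul_def, Algebra.smul_def, mul_one] at h1
  rw [mul_comm θ]
  exact h1.symm

/-- a cubic hypersurface with a quadratic point has a rational point -/
theorem cubic_quad {f : MvPolynomial σ F} (hf : f.IsHomogeneous 3)
    {κ : Type u} [Field κ] [Algebra F κ] (h2 : Module.finrank F κ = 2)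
    (hp : HasPoint {f} κ) : HasPoint {f} F := by
  obtain ⟨a, ha, h0⟩ := hp
  have h0 : aeval a f = 0 := h0 f rfl
  obtain ⟨θ, hθ, hb⟩ := quad_basis h2
  choose u v huv using fun i => hb (a i)
  by_contra hno
  have hno' : ∀ w : σ → F, w ≠ 0 → aeval w f ≠ 0 := by
    intro w hw h
    exact hno ⟨w, hw, by rintro G rfl; exact h⟩
  have hv : v ≠ 0 := by
    intro hv
    have hu : u ≠ 0 := by
      rintro rfl
      apply ha
      funext i
      rw [huv i, hv]
      simp
    apply hno' u hu
    have : a = fun i => algebraMap F κ (u i) := by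
      funext i
      rw [huv i, hv]; simp
    rw [this] at h0
    have h3 : aeval (fun i => algebraMap F κ (u i)) f = algebraMap F κ (aeval u f) := by
      rw [aeval_alg]
    rw [h3, map_eq_zero] at h0
    exact h0
  obtain ⟨c, hc⟩ := restrict_line u v hf
  have hc3 : c 3 ≠ 0 := by
    have h3 := hc F 0 1
    simp [Finset.sum_range_succ] at h3
    rw [← h3]
    have := hno' v hv
    exact this
  let H : Polynomial F := Polynomial.C (c 3) * Polynomial.X ^ 3 + Polynomial.C (c 2) * Polynomial.X ^ 2
    + Polynomial.C (c 1) * Polynomial.X + Polynomial.C (c 0)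
  have hHdeg : H.natDegree = 3 := Polynomial.natDegree_cubic hc3
  have hHθ : Polynomial.aeval θ H = 0 := by
    have h3 := hc κ 1 θ
    have h4 : (fun i => 1 * algebraMap F κ (u i) + θ * algebraMap F κ (v i)) = a := by
      funext i; rw [huv i, one_mul]
    rw [h4, h0] at h3
    simp [Finset.sum_range_succ] at h3
    simp only [H, map_add, map_mul, map_pow, Polynomial.aeval_C, Polynomial.aeval_X]
    linear_combination -h3
  have hfin : Module.Finite F κ := Module.finite_of_finrank_pos (by omega)
  have hint : IsIntegral F θ := IsIntegral.of_finite F θ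
  have hmin : (minpoly F θ).natDegree = 2 := by
    have h3 := (minpoly.two_le_natDegree_iff hint).2 hθ
    have h4 := minpoly.natDegree_le (A := F) θ
    omega
  obtain ⟨R, hR⟩ := minpoly.dvd F θ hHθ
  have hH0 : H ≠ 0 := by
    intro h; rw [h, Polynomial.natDegree_zero] at hHdeg; omega
  have hR0 : R ≠ 0 := by rintro rfl; exact hH0 (by rw [hR, mul_zero])
  have hRdeg : R.natDegree = 1 := by
    have h3 := Polynomial.natDegree_mul (minpoly.ne_zero hint) hR0
    rw [← hR, hHdeg, hmin] at h3
    omega
  obtain ⟨r, hr⟩ : ∃ r, R.IsRoot r := by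
    have h3 : R.degree = 1 := (Polynomial.degree_eq_iff_natDegree_eq hR0).2 hRdeg
    exact Polynomial.exists_root_of_degree_eq_one h3
  have hHr : H.eval r = 0 := by rw [hR, Polynomial.eval_mul, hr.eq_zero, mul_zero]
  have h5 := hc F 1 r
  have h6 : aeval (fun i => 1 * algebraMap F F (u i) + r * algebraMap F F (v i)) f = 0 := by
    rw [h5]
    simp only [H, Polynomial.eval_add, Polynomial.eval_mul, Polynomial.eval_pow, Polynomial.eval_C,
      Polynomial.eval_X] at hHr
    simp [Finset.sum_range_succ]
    linear_combination hHr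
  refine hno' _ ?_ h6
  intro h7
  -- then `u = - r v`, so `v` is a rational point
  have h8 : ∀ i, u i = - r * v i := by
    intro i
    have := congrFun h7 i
    simp at this
    linear_combination this
  apply hno' v hv
  have h9 : a = fun i => (θ - algebraMap F κ r) * algebraMap F κ (v i) := by
    funext i
    rw [huv i, h8 i, map_mul, map_neg]
    ring
  have h10 := aeval_homog hf (θ - algebraMap F κ r) (fun i => algebraMap F κ (v i))
  rw [← h9, h0] at h10
  have h11 : θ - algebraMap F κ r ≠ 0 := by
    intro h
    exact hθ ⟨r, (sub_eq_zero.1 h).symm⟩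
  have h12 := (mul_eq_zero.1 h10.symm).resolve_left (pow_ne_zero _ h11)
  rw [aeval_alg] at h12
  exact (map_eq_zero _).1 h12

end line

section cubic
variable {F L : Type u} [Field F] [Field L] [Algebra F L]

theorem cubic_wit_point {f : MvPolynomial (Fin 4) F} (hf : f.IsHomogeneous 3)
    (hs : IsSmooth ![f]) {x : Fin 4 → L} (hx : IsFunctionField 1 {f} L x)
    (hp : HasPoint {f} F) : Wit F L 2 := by
  obtain ⟨p, hp0, hp⟩ := hp
  have hp : aeval p f = 0 := hp f rfl
  obtain ⟨M, B, hMB, hBM, hM⟩ : ∃ M B : Matrix (Fin 4) (Fin 4) F, M * B = 1 ∧ B * M = 1 ∧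
      ∀ i, M i 0 = p i := by
    obtain ⟨M, B, h1, h2, h3⟩ := exists_matrix (m := 1) (r := 3) (fun _ => p)
      (linearIndependent_unique_iff.2 hp0)
    exact ⟨M, B, h1, h2, fun i => h3 i 0⟩
  have hx' := change hMB hBM hx
  rw [Set.image_singleton] at hx'
  have hf' : (lin M f).IsHomogeneous 3 := lin_homog hf
  have hev : ∀ {A : Type u} [Field A] [Algebra F A],
      aeval (Pi.single 0 1 : Fin 4 → A) (lin M f) = algebraMap F A (aeval p f) := by
    intro A _ _
    rw [aeval_lin]
    have : (fun i => ∑ j, algebraMap F A (M i j) * (Pi.single 0 1 : Fin 4 → A) j)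
        = fun i => algebraMap F A (p i) := by
      funext i
      rw [Finset.sum_eq_single 0]
      · rw [Pi.single_eq_same, mul_one, hM]
      · intro j _ hj
        rw [Pi.single_apply, if_neg hj, mul_zero]
      · intro h; exact absurd (Finset.mem_univ _) h
    rw [this, aeval_alg]
  have h0 : aeval (Pi.single 0 1 : Fin 4 → F) (lin M f) = 0 := by rw [hev, hp, map_zero]
  have hlt := degreeOf_lt_of_eq 0 hf' (by norm_num) h0
  have hs' := smooth_change hMB hBM hs
  have hli := hs' (Pi.single 0 1) (by
    intro h
    have := congrFun h 0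
    rw [Pi.single_eq_same] at this
    exact one_ne_zero this) (by
    intro i
    have : (![f] : Fin 1 → MvPolynomial (Fin 4) F) i = f := by fin_cases i; rfl
    show aeval _ (lin M (![f] i)) = 0
    rw [this, hev, hp, map_zero])
  have hne := hli.ne_zero 0
  obtain ⟨j, hj⟩ := Function.ne_iff.1 hne
  have hge := one_le_degreeOf (d := 1) 0 hf' j hj
  have := wit_hyp (w := 1) rfl hf' hx' hge
  exact this.mono (by omega)

theorem cubic_wit_nopoint {f : MvPolynomial (Fin 4) F} (hf : f.IsHomogeneous 3)
    {x : Fin 4 → L} (hx : IsFunctionField 1 {f} L x)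
    (hp : ¬ HasPoint {f} F) : Wit F L 3 := by
  have h : aeval (Pi.single 0 1 : Fin 4 → F) f ≠ 0 := by
    intro h
    refine hp ⟨Pi.single 0 1, ?_, by rintro G rfl; exact h⟩
    intro h
    have := congrFun h 0
    rw [Pi.single_eq_same] at this
    exact one_ne_zero this
  have hdeg := degreeOf_eq_of_ne 0 hf h
  have := wit_hyp (w := 1) rfl hf hx (by omega)
  rwa [hdeg] at this

end cubic
end DPI
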