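import Mathlib
import Pool.Agent.H478.DG
set_option autoImplicit false
namespace DPI
open MvPolynomial

universe u v

section quad
variable {F : Type u} [Field F] {n : ℕ}

theorem quad_matrix [NeZero n] {q : MvPolynomial (Fin n) F} (hq : q.IsHomogeneous 2) :
    ∃ d : Fin n → Fin n → F, q = ∑ i, ∑ j, C (d i j) * (X i * X j) := by
  classical
  have hsub : ∀ (m : Fin n →₀ ℕ) (e : ℕ), m.degree = e + 1 → ∃ i, ∃ m' : Fin n →₀ ℕ,
      m'.degree = e ∧ m = m' + Finsupp.single i 1 := by
    intro m e hm
    obtain ⟨i, hi⟩ : ∃ i, m i ≠ 0 := by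
      by_contra hcon
      push Not at hcon
      have : m = 0 := by ext i; simpa using hcon i
      rw [this] at hm
      simp at hm
    have hle : Finsupp.single i 1 ≤ m := Finsupp.single_le_iff.2 (Nat.one_le_iff_ne_zero.2 hi)
    have h6 : m = (m - Finsupp.single i 1) + Finsupp.single i 1 :=
      (tsub_add_cancel_of_le hle).symm
    refine ⟨i, m - Finsupp.single i 1, ?_, h6⟩
    have h7 : m.degree = (m - Finsupp.single i 1).degree + 1 := by
      conv_lhs => rw [h6]
      rw [map_add, Finsupp.degree_single]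
    omega
  have hmono : ∀ m : Fin n →₀ ℕ, m.degree = 2 → ∃ i j,
      (monomial m (1 : F)) = X i * X j := by
    intro m hm
    obtain ⟨i, m', hm', rfl⟩ := hsub m 1 hm
    obtain ⟨j, m'', hm'', rfl⟩ := hsub m' 0 hm'
    have : m'' = 0 := (Finsupp.degree_eq_zero_iff m'').1 hm''
    subst this
    refine ⟨j, i, ?_⟩
    rw [X, X, monomial_mul, mul_one, zero_add]
  have hdeg : ∀ m ∈ q.support, m.degree = 2 := by
    intro m hm
    have := hq (mem_support_iff.1 hm)
    rwa [Finsupp.degree_eq_weight_one]
  choose! I J hIJ using hmono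
  refine ⟨fun i j => ∑ m ∈ q.support, if I m = i ∧ J m = j then coeff m q else 0, ?_⟩
  conv_lhs => rw [q.as_sum]
  have h1 : ∀ i j : Fin n, (C (∑ m ∈ q.support, if I m = i ∧ J m = j then coeff m q else 0) * (X i * X j)
      : MvPolynomial (Fin n) F)
      = ∑ m ∈ q.support, if I m = i ∧ J m = j then C (coeff m q) * (X (I m) * X (J m)) else 0 := by
    intro i j
    rw [map_sum, Finset.sum_mul]
    refine Finset.sum_congr rfl fun m _ => ?_
    split_ifs with h
    · rw [h.1, h.2]
    · rw [map_zero, zero_mul]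
  simp only [h1]
  rw [Finset.sum_congr rfl (fun i _ => Finset.sum_comm), Finset.sum_comm]
  refine Finset.sum_congr rfl fun m hm => ?_
  rw [Finset.sum_eq_single (I m), Finset.sum_eq_single (J m)]
  · rw [if_pos ⟨rfl, rfl⟩, ← hIJ m (hdeg m hm), C_mul_monomial, mul_one]
  · intro j _ hj
    rw [if_neg]
    rintro ⟨_, h⟩
    exact hj h.symm
  · intro h; exact absurd (Finset.mem_univ _) h
  · intro i _ hi
    refine Finset.sum_eq_zero fun j _ => ?_
    rw [if_neg]
    rintro ⟨h, _⟩
    exact hi h.symm
  · intro h; exact absurd (Finset.mem_univ _) h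

theorem aeval_quad {A : Type*} [CommRing A] [Algebra F A] {q : MvPolynomial (Fin n) F}
    {d : Fin n → Fin n → F} (hd : q = ∑ i, ∑ j, C (d i j) * (X i * X j)) (y : Fin n → A) :
    aeval y q = ∑ i, ∑ j, algebraMap F A (d i j) * (y i * y j) := by
  rw [hd]
  simp

theorem aeval_pderiv_quad {A : Type*} [CommRing A] [Algebra F A] {q : MvPolynomial (Fin n) F}
    {d : Fin n → Fin n → F} (hd : q = ∑ i, ∑ j, C (d i j) * (X i * X j)) (y : Fin n → A)
    (k : Fin n) :
    aeval y (pderiv k q) = ∑ j, algebraMap F A (d k j + d j k) * y j := by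
  classical
  have h0 : ∀ i j : Fin n, aeval y (pderiv k (C (d i j) * (X i * X j)))
      = (if j = k then algebraMap F A (d i j) * y i else 0)
        + (if i = k then algebraMap F A (d i j) * y j else 0) := by
    intro i j
    have hp : ∀ l : Fin n, aeval y (pderiv k (X l : MvPolynomial (Fin n) F))
        = if l = k then 1 else 0 := by
      intro l
      rw [pderiv_X]
      by_cases hl : l = k
      · rw [if_pos hl, hl, Pi.single_eq_same, map_one]
      · rw [if_neg hl, Pi.single_apply, if_neg (by exact hl), map_zero]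
    rw [Derivation.leibniz, pderiv_C, smul_zero, add_zero, Derivation.leibniz]
    simp only [smul_eq_mul, map_mul, map_add, aeval_C, aeval_X, hp]
    split_ifs <;> ring
  rw [hd]
  simp only [map_sum, h0, Finset.sum_add_distrib]
  have e1 : ∑ i, ∑ j, (if j = k then algebraMap F A (d i j) * y i else 0)
      = ∑ i, algebraMap F A (d i k) * y i := by
    refine Finset.sum_congr rfl fun i _ => ?_
    rw [Finset.sum_ite_eq' Finset.univ k, if_pos (Finset.mem_univ _)]
  have e2 : ∑ i, ∑ j, (if i = k then algebraMap F A (d i j) * y j else 0)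
      = ∑ j, algebraMap F A (d k j) * y j := by
    rw [Finset.sum_comm]
    refine Finset.sum_congr rfl fun j _ => ?_
    rw [Finset.sum_ite_eq' Finset.univ k, if_pos (Finset.mem_univ _)]
  rw [e1, e2, ← Finset.sum_add_distrib]
  refine Finset.sum_congr rfl fun j _ => ?_
  rw [map_add]
  ring

end quad

end DPI
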