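import Mathlib
import Pool.Agent.H478.DH
set_option autoImplicit false
namespace DPI
open MvPolynomial

universe u v

section forms
variable {F : Type u} [Field F]

/-- linear form in three variables -/
def lf {A : Type*} [CommRing A] [Algebra F A] (α : Fin 3 → F) (z : Fin 3 → A) : A :=
  ∑ j, algebraMap F A (α j) * z j

/-- quadratic form in three variables -/
def qf {A : Type*} [CommRing A] [Algebra F A] (γ : Fin 3 → Fin 3 → F) (z : Fin 3 → A) : A :=
  ∑ i, ∑ j, algebraMap F A (γ i j) * (z i * z j)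

def al (d : Fin 5 → Fin 5 → F) (j : Fin 3) : F := d 0 j.succ.succ + d j.succ.succ 0
def be (d : Fin 5 → Fin 5 → F) (j : Fin 3) : F := d 1 j.succ.succ + d j.succ.succ 1
def ga (d : Fin 5 → Fin 5 → F) (i j : Fin 3) : F := d i.succ.succ j.succ.succ

theorem aeval_split {A : Type*} [CommRing A] [Algebra F A] {q : MvPolynomial (Fin 5) F}
    {d : Fin 5 → Fin 5 → F} (hd : q = ∑ i, ∑ j, C (d i j) * (X i * X j)) (y : Fin 5 → A)
    (z : Fin 3 → A) (hz : ∀ j, y j.succ.succ = z j) :
    aeval y q = algebraMap F A (d 0 0) * (y 0 * y 0) + algebraMap F A (d 0 1 + d 1 0) * (y 0 * y 1)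
      + algebraMap F A (d 1 1) * (y 1 * y 1) + lf (al d) z * y 0 + lf (be d) z * y 1
      + qf (ga d) z := by
  rw [aeval_quad hd]
  simp only [Fin.sum_univ_succ (n := 4), Fin.sum_univ_succ (n := 3), lf, qf, al, be, ga, hz,
    Finset.sum_add_distrib, map_add, Finset.sum_mul]
  have h1 : (0 : Fin 4).succ = (1 : Fin 5) := rfl
  simp only [h1, add_mul, Finset.sum_add_distrib]
  have c1 : ∑ x : Fin 3, algebraMap F A (d x.succ.succ 0) * (z x * y 0)
      = ∑ x : Fin 3, algebraMap F A (d x.succ.succ 0) * z x * y 0 :=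
    Finset.sum_congr rfl fun _ _ => by ring
  have c2 : ∑ x : Fin 3, algebraMap F A (d x.succ.succ 1) * (z x * y 1)
      = ∑ x : Fin 3, algebraMap F A (d x.succ.succ 1) * z x * y 1 :=
    Finset.sum_congr rfl fun _ _ => by ring
  have c3 : ∑ x : Fin 3, algebraMap F A (d 0 x.succ.succ) * (y 0 * z x)
      = ∑ x : Fin 3, algebraMap F A (d 0 x.succ.succ) * z x * y 0 :=
    Finset.sum_congr rfl fun _ _ => by ring
  have c4 : ∑ x : Fin 3, algebraMap F A (d 1 x.succ.succ) * (y 1 * z x)
      = ∑ x : Fin 3, algebraMap F A (d 1 x.succ.succ) * z x * y 1 :=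
    Finset.sum_congr rfl fun _ _ => by ring
  rw [c1, c2, c3, c4]
  ring

theorem map_lf {A B : Type*} [CommRing A] [Algebra F A] [CommRing B] [Algebra F B] [Algebra A B]
    [IsScalarTower F A B] (α : Fin 3 → F) (z : Fin 3 → A) :
    algebraMap A B (lf α z) = lf α fun j => algebraMap A B (z j) := by
  simp [lf, ← IsScalarTower.algebraMap_apply]

theorem map_qf {A B : Type*} [CommRing A] [Algebra F A] [CommRing B] [Algebra F B] [Algebra A B]
    [IsScalarTower F A B] (γ : Fin 3 → Fin 3 → F) (z : Fin 3 → A) :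
    algebraMap A B (qf γ z) = qf γ fun j => algebraMap A B (z j) := by
  simp [qf, ← IsScalarTower.algebraMap_apply]

end forms

section wrap
variable {F L : Type u} [Field F] [Field L] [Algebra F L]

theorem wrap {S : Set (MvPolynomial (Fin 5) F)} {x : Fin 5 → L} (hx : IsFunctionField 1 S L x)
    (hS : ∀ G ∈ S, G.IsHomogeneous 2)
    (a : Fin 5 → Om F) (ha : ∀ G ∈ S, aeval a G = 0) (hg : ∀ j : Fin 3, a j.succ.succ = gen F j)
    {e : ℕ}
    (H : ∀ (K : IntermediateField F L) (z : Fin 3 → K) (y : Fin 5 → L),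
      (∀ j : Fin 3, y j.succ.succ = algebraMap K L (z j)) → z 2 = 1 → (∀ G ∈ S, aeval y G = 0) →
      (∀ (G : MvPolynomial (Fin 3) F) (n : ℕ), G.IsHomogeneous n → G ≠ 0 → aeval z G ≠ 0) →
      ∃ W : Submodule K L, Module.Finite K W ∧ Module.finrank K W ≤ e ∧ 1 ∈ W ∧
        (∀ z ∈ W, y 0 * z ∈ W) ∧ ∀ z ∈ W, y 1 * z ∈ W) :
    Wit F L e := by
  have hind : AlgebraicIndependent F ![a 2, a 3, a 4] := by
    have h := gen_indep (F := F)
    convert h using 1
    funext i
    fin_cases i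
    · exact hg 0
    · exact hg 1
    · exact hg 2
  obtain ⟨h4, hst⟩ := alg_indep hx a ha 2 3 4 rfl hind
  simp only [Pi.one_apply, pow_one] at hst
  set K := IntermediateField.adjoin F {x 2 / x 4, x 3 / x 4} with hK
  let z : Fin 3 → K := ![⟨x 2 / x 4, IntermediateField.subset_adjoin F _ (by simp)⟩,
    ⟨x 3 / x 4, IntermediateField.subset_adjoin F _ (by simp)⟩, 1]
  let y : Fin 5 → L := fun i => x i / x 4
  have hy : ∀ j : Fin 3, y j.succ.succ = algebraMap K L (z j) := by
    intro j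
    fin_cases j
    · rfl
    · rfl
    · show x 4 / x 4 = algebraMap K L 1
      rw [map_one, div_self h4]
  have hev : ∀ (G : MvPolynomial (Fin 5) F) (n : ℕ), G.IsHomogeneous n →
      aeval y G = aeval x G / x 4 ^ n := by
    intro G n hG
    have := aeval_div (w := 1) (x := x) hG h4
    simpa only [Pi.one_apply, pow_one] using this
  obtain ⟨W, hW1, hW2, hW3, hW4, hW5⟩ := H K z y hy rfl (by
    intro G hG
    rw [hev G 2 (hS G hG), (hx.mem_iff 2 G (hS G hG)).2 (Ideal.subset_span hG), zero_div]) (by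
    intro G n hG hG0 h0
    have hG' : (rename (fun j : Fin 3 => j.succ.succ) G).IsHomogeneous n := hG.rename_isHomogeneous
    have e1 : aeval y (rename (fun j : Fin 3 => j.succ.succ) G) = 0 := by
      rw [aeval_rename]
      have : (y ∘ fun j : Fin 3 => j.succ.succ) = algebraMap K L ∘ z := funext hy
      rw [this, aeval_algebraMap_apply, h0, map_zero]
    rw [hev _ n hG', div_eq_zero_iff] at e1
    have e2 := e1.resolve_right (pow_ne_zero _ h4)
    have e3 := (hx.mem_iff n _ hG').1 e2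
    have hle : Ideal.span S ≤ RingHom.ker (aeval a : MvPolynomial (Fin 5) F →ₐ[F] Om F) := by
      rw [Ideal.span_le]
      intro G hG
      exact ha G hG
    have e4 : aeval a (rename (fun j : Fin 3 => j.succ.succ) G) = 0 := hle e3
    rw [aeval_rename] at e4
    have : (a ∘ fun j : Fin 3 => j.succ.succ) = gen F := funext hg
    rw [this, gen_aeval] at e4
    exact hG0 (algebraMap_Om_injective (by rw [e4, map_zero])))
  refine wit_of_stable hx hst (x 4) h4 W hW2 hW3 ?_
  intro i w hw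
  simp only [Pi.one_apply, pow_one]
  fin_cases i
  · exact hW4 w hw
  · exact hW5 w hw
  · have := W.smul_mem (z 0) hw
    rwa [Algebra.smul_def] at this
  · have := W.smul_mem (z 1) hw
    rwa [Algebra.smul_def] at this
  · show x 4 / x 4 * w ∈ W
    rw [div_self h4, one_mul]
    exact hw

end wrap

section four
theorem stable4 {K L : Type*} [Field K] [Field L] [Algebra K L]
    (A₁ B₁ C₁ a₁ b₁ c₁ A₂ B₂ C₂ a₂ b₂ c₂ : K) (u v : L)
    (h1 : A₁ • (u * u) + B₁ • (u * v) + C₁ • (v * v) + a₁ • u + b₁ • v + c₁ • (1 : L) = 0)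
    (h2 : A₂ • (u * u) + B₂ • (u * v) + C₂ • (v * v) + a₂ • u + b₂ • v + c₂ • (1 : L) = 0)
    (hR : (A₁ * C₂ - A₂ * C₁) ^ 2 - (A₁ * B₂ - A₂ * B₁) * (B₁ * C₂ - B₂ * C₁) ≠ 0) :
    ∃ W : Submodule K L, Module.Finite K W ∧ Module.finrank K W ≤ 4 ∧ 1 ∈ W ∧
        (∀ z ∈ W, u * z ∈ W) ∧ ∀ z ∈ W, v * z ∈ W := by
  set p := A₁ * B₂ - A₂ * B₁ with hp
  set q := A₁ * C₂ - A₂ * C₁ with hq
  set r := B₁ * C₂ - B₂ * C₁ with hr
  set R := q ^ 2 - p * r with hRdef
  -- the three relations
  have g1 : p • (u * u) - r • (v * v) + (B₂ * a₁ - B₁ * a₂) • u + (B₂ * b₁ - B₁ * b₂) • v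
      + (B₂ * c₁ - B₁ * c₂) • (1 : L) = 0 := by
    have : B₂ • (A₁ • (u * u) + B₁ • (u * v) + C₁ • (v * v) + a₁ • u + b₁ • v + c₁ • (1 : L))
      - B₁ • (A₂ • (u * u) + B₂ • (u * v) + C₂ • (v * v) + a₂ • u + b₂ • v + c₂ • (1 : L)) = 0 := by
      rw [h1, h2]; simp
    rw [← this, hp, hr]
    module
  have g2 : p • (u * v) + q • (v * v) + (A₁ * a₂ - A₂ * a₁) • u + (A₁ * b₂ - A₂ * b₁) • v
      + (A₁ * c₂ - A₂ * c₁) • (1 : L) = 0 := by
    have : A₁ • (A₂ • (u * u) + B₂ • (u * v) + C₂ • (v * v) + a₂ • u + b₂ • v + c₂ • (1 : L))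
      - A₂ • (A₁ • (u * u) + B₁ • (u * v) + C₁ • (v * v) + a₁ • u + b₁ • v + c₁ • (1 : L)) = 0 := by
      rw [h1, h2]; simp
    rw [← this, hp, hq]
    module
  have g3 : q • (u * u) + r • (u * v) + (C₂ * a₁ - C₁ * a₂) • u + (C₂ * b₁ - C₁ * b₂) • v
      + (C₂ * c₁ - C₁ * c₂) • (1 : L) = 0 := by
    have : C₂ • (A₁ • (u * u) + B₁ • (u * v) + C₁ • (v * v) + a₁ • u + b₁ • v + c₁ • (1 : L))
      - C₁ • (A₂ • (u * u) + B₂ • (u * v) + C₂ • (v * v) + a₂ • u + b₂ • v + c₂ • (1 : L)) = 0 := by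
      rw [h1, h2]; simp
    rw [← this, hq, hr]
    module
  -- reduction to a choice of the fourth basis element
  have key : ∀ m : L, (m = u * u ∨ m = u * v ∨ m = v * v) →
      (∀ W : Submodule K L, 1 ∈ W → u ∈ W → v ∈ W → m ∈ W →
        u * u ∈ W ∧ u * v ∈ W ∧ v * v ∈ W) →
      ∃ W : Submodule K L, Module.Finite K W ∧ Module.finrank K W ≤ 4 ∧ 1 ∈ W ∧
        (∀ z ∈ W, u * z ∈ W) ∧ ∀ z ∈ W, v * z ∈ W := by
    intro m hm hquad
    let W : Submodule K L := Submodule.span K (Set.range ![1, u, v, m])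
    have w1 : (1 : L) ∈ W := Submodule.subset_span ⟨0, rfl⟩
    have wu : u ∈ W := Submodule.subset_span ⟨1, rfl⟩
    have wv : v ∈ W := Submodule.subset_span ⟨2, rfl⟩
    have wm : m ∈ W := Submodule.subset_span ⟨3, rfl⟩
    obtain ⟨wuu, wuv, wvv⟩ := hquad W w1 wu wv wm
    have hdiv : ∀ z : L, R • z ∈ W → z ∈ W := by
      intro z hz
      have := W.smul_mem R⁻¹ hz
      rwa [smul_smul, inv_mul_cancel₀ hR, one_smul] at this
    -- lower order terms
    have q1 : p • (u * u) - r • (v * v) = -((B₂ * a₁ - B₁ * a₂) • u + (B₂ * b₁ - B₁ * b₂) • v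
      + (B₂ * c₁ - B₁ * c₂) • (1 : L)) := by
      rw [eq_neg_iff_add_eq_zero, ← g1]; abel
    have q2 : p • (u * v) + q • (v * v) = -((A₁ * a₂ - A₂ * a₁) • u + (A₁ * b₂ - A₂ * b₁) • v
      + (A₁ * c₂ - A₂ * c₁) • (1 : L)) := by
      rw [eq_neg_iff_add_eq_zero, ← g2]; abel
    have q3 : q • (u * u) + r • (u * v) = -((C₂ * a₁ - C₁ * a₂) • u + (C₂ * b₁ - C₁ * b₂) • v
      + (C₂ * c₁ - C₁ * c₂) • (1 : L)) := by
      rw [eq_neg_iff_add_eq_zero, ← g3]; abel
    have lin : ∀ (z : L) (a b c : K), (z = u ∨ z = v) →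
        z * (-(a • u + b • v + c • (1 : L))) ∈ W := by
      intro z a b c hz
      have e : z * (-(a • u + b • v + c • (1 : L))) = -(a • (z * u) + b • (z * v) + c • z) := by
        rw [mul_neg, mul_add, mul_add, mul_smul_comm, mul_smul_comm, mul_smul_comm, mul_one]
      rw [e]
      refine W.neg_mem (W.add_mem (W.add_mem (W.smul_mem _ ?_) (W.smul_mem _ ?_))
        (W.smul_mem _ ?_))
      · rcases hz with rfl | rfl
        · exact wuu
        · rw [mul_comm]; exact wuv
      · rcases hz with rfl | rfl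
        · exact wuv
        · exact wvv
      · rcases hz with rfl | rfl
        · exact wu
        · exact wv
    have k1 : ∀ z : L, (z = u ∨ z = v) → z * (p • (u * u) - r • (v * v)) ∈ W := by
      intro z hz; rw [q1]; exact lin z _ _ _ hz
    have k2 : ∀ z : L, (z = u ∨ z = v) → z * (p • (u * v) + q • (v * v)) ∈ W := by
      intro z hz; rw [q2]; exact lin z _ _ _ hz
    have k3 : ∀ z : L, (z = u ∨ z = v) → z * (q • (u * u) + r • (u * v)) ∈ W := by
      intro z hz; rw [q3]; exact lin z _ _ _ hz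
    have cuuu : u * (u * u) ∈ W := by
      apply hdiv
      have e : R • (u * (u * u)) = q • (u * (q • (u * u) + r • (u * v)))
          - r • (v * (q • (u * u) + r • (u * v))) - r • (u * (p • (u * u) - r • (v * v))) := by
        simp only [Algebra.smul_def, hRdef, map_sub, map_mul, map_pow]; ring
      rw [e]
      exact W.sub_mem (W.sub_mem (W.smul_mem _ (k3 u (Or.inl rfl)))
        (W.smul_mem _ (k3 v (Or.inr rfl)))) (W.smul_mem _ (k1 u (Or.inl rfl)))
    have cuuv : u * (u * v) ∈ W := by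
      apply hdiv
      have e : R • (u * (u * v)) = q • (v * (q • (u * u) + r • (u * v)))
          - r • (u * (p • (u * v) + q • (v * v))) := by
        simp only [Algebra.smul_def, hRdef, map_sub, map_mul, map_pow]; ring
      rw [e]
      exact W.sub_mem (W.smul_mem _ (k3 v (Or.inr rfl))) (W.smul_mem _ (k2 u (Or.inl rfl)))
    have cuvv : u * (v * v) ∈ W := by
      apply hdiv
      have e : R • (u * (v * v)) = q • (u * (p • (u * v) + q • (v * v)))
          - p • (v * (q • (u * u) + r • (u * v))) := by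
        simp only [Algebra.smul_def, hRdef, map_sub, map_mul, map_pow]; ring
      rw [e]
      exact W.sub_mem (W.smul_mem _ (k2 u (Or.inl rfl))) (W.smul_mem _ (k3 v (Or.inr rfl)))
    have cvvv : v * (v * v) ∈ W := by
      apply hdiv
      have e : R • (v * (v * v)) = q • (v * (p • (u * v) + q • (v * v)))
          - p • (u * (p • (u * v) + q • (v * v))) + p • (v * (p • (u * u) - r • (v * v))) := by
        simp only [Algebra.smul_def, hRdef, map_sub, map_mul, map_pow]; ring
      rw [e]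
      exact W.add_mem (W.sub_mem (W.smul_mem _ (k2 v (Or.inr rfl)))
        (W.smul_mem _ (k2 u (Or.inl rfl)))) (W.smul_mem _ (k1 v (Or.inr rfl)))
    have hum : u * m ∈ W := by
      rcases hm with rfl | rfl | rfl
      · exact cuuu
      · exact cuuv
      · exact cuvv
    have hvm : v * m ∈ W := by
      rcases hm with rfl | rfl | rfl
      · have : v * (u * u) = u * (u * v) := by ring
        rw [this]; exact cuuv
      · have : v * (u * v) = u * (v * v) := by ring
        rw [this]; exact cuvv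
      · exact cvvv
    have hst : ∀ z : L, z * 1 ∈ W → z * u ∈ W → z * v ∈ W → z * m ∈ W → ∀ w ∈ W, z * w ∈ W := by
      intro z z1 z2 z3 z4 w hw
      induction hw using Submodule.span_induction with
      | mem w hw =>
        obtain ⟨i, rfl⟩ := hw
        fin_cases i
        · exact z1
        · exact z2
        · exact z3
        · exact z4
      | zero => rw [mul_zero]; exact W.zero_mem
      | add a c _ _ ha hc => rw [mul_add]; exact W.add_mem ha hc
      | smul c a _ ha =>
        rw [mul_smul_comm]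
        exact W.smul_mem c ha
    refine ⟨W, Module.Finite.span_of_finite K (Set.finite_range _), ?_, w1, ?_, ?_⟩
    · have := finrank_range_le_card (R := K) (![1, u, v, m] : Fin 4 → L)
      rwa [Fintype.card_fin] at this
    · exact hst u (by rw [mul_one]; exact wu) wuu wuv hum
    · exact hst v (by rw [mul_one]; exact wv) (by rw [mul_comm]; exact wuv) wvv hvm
  have hdiv : ∀ (W : Submodule K L) (c : K), c ≠ 0 → ∀ z : L, c • z ∈ W → z ∈ W := by
    intro W c hc z hz
    have := W.smul_mem c⁻¹ hz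
    rwa [smul_smul, inv_mul_cancel₀ hc, one_smul] at this
  by_cases hp0 : p = 0
  · by_cases hr0 : r = 0
    · have hq0 : q ≠ 0 := by
        intro hq0
        apply hR
        rw [hRdef, hp0, hq0]; ring
      refine key (u * v) (Or.inr (Or.inl rfl)) fun W w1 wu wv wm => ⟨?_, wm, ?_⟩
      · apply hdiv W q hq0
        have e : q • (u * u) = -((C₂ * a₁ - C₁ * a₂) • u + (C₂ * b₁ - C₁ * b₂) • v
          + (C₂ * c₁ - C₁ * c₂) • (1 : L)) := by
          rw [hr0, zero_smul, add_zero] at g3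
          rw [eq_neg_iff_add_eq_zero, ← g3]; abel
        rw [e]
        exact W.neg_mem (W.add_mem (W.add_mem (W.smul_mem _ wu) (W.smul_mem _ wv))
          (W.smul_mem _ w1))
      · apply hdiv W q hq0
        have e : q • (v * v) = -((A₁ * a₂ - A₂ * a₁) • u + (A₁ * b₂ - A₂ * b₁) • v
          + (A₁ * c₂ - A₂ * c₁) • (1 : L)) := by
          rw [hp0, zero_smul, zero_add] at g2
          rw [eq_neg_iff_add_eq_zero, ← g2]; abel
        rw [e]
        exact W.neg_mem (W.add_mem (W.add_mem (W.smul_mem _ wu) (W.smul_mem _ wv))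
          (W.smul_mem _ w1))
    · refine key (u * u) (Or.inl rfl) fun W w1 wu wv wm => ⟨wm, ?_, ?_⟩
      · apply hdiv W r hr0
        have e : r • (u * v) = -(q • (u * u) + ((C₂ * a₁ - C₁ * a₂) • u + (C₂ * b₁ - C₁ * b₂) • v
          + (C₂ * c₁ - C₁ * c₂) • (1 : L))) := by
          rw [eq_neg_iff_add_eq_zero, ← g3]; abel
        rw [e]
        exact W.neg_mem (W.add_mem (W.smul_mem _ wm) (W.add_mem (W.add_mem (W.smul_mem _ wu)
          (W.smul_mem _ wv)) (W.smul_mem _ w1)))
      · apply hdiv W r hr0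
        have e : r • (v * v) = p • (u * u) + ((B₂ * a₁ - B₁ * a₂) • u + (B₂ * b₁ - B₁ * b₂) • v
          + (B₂ * c₁ - B₁ * c₂) • (1 : L)) := by
          rw [← sub_eq_zero, ← neg_eq_zero, ← g1]; abel
        rw [e]
        exact W.add_mem (W.smul_mem _ wm) (W.add_mem (W.add_mem (W.smul_mem _ wu)
          (W.smul_mem _ wv)) (W.smul_mem _ w1))
  · refine key (v * v) (Or.inr (Or.inr rfl)) fun W w1 wu wv wm => ⟨?_, ?_, wm⟩
    · apply hdiv W p hp0
      have e : p • (u * u) = r • (v * v) - ((B₂ * a₁ - B₁ * a₂) • u + (B₂ * b₁ - B₁ * b₂) • v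
          + (B₂ * c₁ - B₁ * c₂) • (1 : L)) := by
        rw [← sub_eq_zero, ← g1]; abel
      rw [e]
      exact W.sub_mem (W.smul_mem _ wm) (W.add_mem (W.add_mem (W.smul_mem _ wu)
          (W.smul_mem _ wv)) (W.smul_mem _ w1))
    · apply hdiv W p hp0
      have e : p • (u * v) = -(q • (v * v) + ((A₁ * a₂ - A₂ * a₁) • u + (A₁ * b₂ - A₂ * b₁) • v
          + (A₁ * c₂ - A₂ * c₁) • (1 : L))) := by
        rw [eq_neg_iff_add_eq_zero, ← g2]; abel
      rw [e]
      exact W.neg_mem (W.add_mem (W.smul_mem _ wm) (W.add_mem (W.add_mem (W.smul_mem _ wu)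
          (W.smul_mem _ wv)) (W.smul_mem _ w1)))

end four
end DPI
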