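import Mathlib
import Pool.Agent.H478.DI
set_option autoImplicit false
namespace DPI
open MvPolynomial

universe u v

section closed
variable {Ω : Type*} [Field Ω] [IsAlgClosed Ω]

theorem root_quartic (c4 c3 c2 c1 c0 : Ω) (h : c4 ≠ 0) :
    ∃ v : Ω, c4 * v ^ 4 + c3 * v ^ 3 + c2 * v ^ 2 + c1 * v + c0 = 0 := by
  let E : Polynomial Ω := Polynomial.C c4 * Polynomial.X ^ 4 + Polynomial.C c3 * Polynomial.X ^ 3
    + Polynomial.C c2 * Polynomial.X ^ 2 + Polynomial.C c1 * Polynomial.X + Polynomial.C c0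
  have hdeg : E.natDegree = 4 := by
    simp only [E]
    compute_degree!
  have hd : E.degree ≠ 0 := by
    intro hcon
    rw [Polynomial.natDegree, hcon] at hdeg
    simp at hdeg
  obtain ⟨v, hv⟩ := IsAlgClosed.exists_root E hd
  refine ⟨v, ?_⟩
  simpa [E, Polynomial.IsRoot] using hv

theorem root_quadratic (c2 c1 c0 : Ω) (h : c2 ≠ 0) :
    ∃ v : Ω, c2 * v ^ 2 + c1 * v + c0 = 0 := by
  let E : Polynomial Ω := Polynomial.C c2 * Polynomial.X ^ 2 + Polynomial.C c1 * Polynomial.X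
    + Polynomial.C c0
  have hdeg : E.natDegree = 2 := by
    simp only [E]
    compute_degree!
  have hd : E.degree ≠ 0 := by
    intro hcon
    rw [Polynomial.natDegree, hcon] at hdeg
    simp at hdeg
  obtain ⟨v, hv⟩ := IsAlgClosed.exists_root E hd
  refine ⟨v, ?_⟩
  simpa [E, Polynomial.IsRoot] using hv

theorem two_quadrics (A₁ B₁ C₁ a₁ b₁ c₁ A₂ B₂ C₂ a₂ b₂ c₂ : Ω) (hA : A₁ ≠ 0)
    (hR : (A₁ * C₂ - A₂ * C₁) ^ 2 - (A₁ * B₂ - A₂ * B₁) * (B₁ * C₂ - B₂ * C₁) ≠ 0) :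
    ∃ u v : Ω, A₁ * (u * u) + B₁ * (u * v) + C₁ * (v * v) + a₁ * u + b₁ * v + c₁ = 0 ∧
      A₂ * (u * u) + B₂ * (u * v) + C₂ * (v * v) + a₂ * u + b₂ * v + c₂ = 0 := by
  obtain ⟨p, hp⟩ : ∃ p, p = A₁ * B₂ - A₂ * B₁ := ⟨_, rfl⟩
  obtain ⟨q, hq⟩ : ∃ q, q = A₁ * C₂ - A₂ * C₁ := ⟨_, rfl⟩
  obtain ⟨m, hm⟩ : ∃ m, m = A₁ * a₂ - A₂ * a₁ := ⟨_, rfl⟩
  obtain ⟨n, hn⟩ : ∃ n, n = A₁ * b₂ - A₂ * b₁ := ⟨_, rfl⟩
  obtain ⟨l, hl⟩ : ∃ l, l = A₁ * c₂ - A₂ * c₁ := ⟨_, rfl⟩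
  have h4 : A₁ * q ^ 2 - B₁ * p * q + C₁ * p ^ 2 ≠ 0 := by
    have : A₁ * q ^ 2 - B₁ * p * q + C₁ * p ^ 2 = A₁ *
      ((A₁ * C₂ - A₂ * C₁) ^ 2 - (A₁ * B₂ - A₂ * B₁) * (B₁ * C₂ - B₂ * C₁)) := by
      rw [hp, hq]; ring
    rw [this]
    exact mul_ne_zero hA hR
  obtain ⟨v, hv⟩ := root_quartic (A₁ * q ^ 2 - B₁ * p * q + C₁ * p ^ 2)
    (2 * A₁ * q * n - B₁ * (q * m + n * p) - a₁ * p * q + 2 * C₁ * p * m + b₁ * p ^ 2)
    (A₁ * (n ^ 2 + 2 * q * l) - B₁ * (n * m + l * p) - a₁ * (q * m + n * p) + C₁ * m ^ 2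
      + 2 * b₁ * p * m + c₁ * p ^ 2)
    (2 * A₁ * n * l - B₁ * l * m - a₁ * (n * m + l * p) + b₁ * m ^ 2 + 2 * c₁ * p * m)
    (A₁ * l ^ 2 - a₁ * l * m + c₁ * m ^ 2) h4
  have hE : A₁ * (q * v ^ 2 + n * v + l) ^ 2 - (B₁ * v + a₁) * (q * v ^ 2 + n * v + l) * (p * v + m)
      + (C₁ * v ^ 2 + b₁ * v + c₁) * (p * v + m) ^ 2 = 0 := by
    rw [← hv]; ring
  by_cases hM : p * v + m = 0
  · have hN : q * v ^ 2 + n * v + l = 0 := by
      rw [hM] at hE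
      have : A₁ * (q * v ^ 2 + n * v + l) ^ 2 = 0 := by linear_combination hE
      have := (mul_eq_zero.1 this).resolve_left hA
      exact pow_eq_zero_iff (two_ne_zero) |>.1 this
    obtain ⟨u, hu⟩ := root_quadratic A₁ (B₁ * v + a₁) (C₁ * v ^ 2 + b₁ * v + c₁) hA
    refine ⟨u, v, by linear_combination hu, ?_⟩
    have : A₁ * (A₂ * (u * u) + B₂ * (u * v) + C₂ * (v * v) + a₂ * u + b₂ * v + c₂) = 0 := by
      rw [hp, hm] at hM
      rw [hq, hn, hl] at hN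
      linear_combination A₂ * hu + u * hM + hN
    exact (mul_eq_zero.1 this).resolve_left hA
  · obtain ⟨u, hu⟩ : ∃ u, u * (p * v + m) = -(q * v ^ 2 + n * v + l) :=
      ⟨-(q * v ^ 2 + n * v + l) / (p * v + m), div_mul_cancel₀ _ hM⟩
    have h1 : A₁ * (u * u) + B₁ * (u * v) + C₁ * (v * v) + a₁ * u + b₁ * v + c₁ = 0 := by
      have : (p * v + m) ^ 2 * (A₁ * (u * u) + B₁ * (u * v) + C₁ * (v * v) + a₁ * u + b₁ * v + c₁)
          = 0 := by
        rw [← hE]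
        linear_combination (A₁ * (u * (p * v + m) - (q * v ^ 2 + n * v + l))
          + (B₁ * v + a₁) * (p * v + m)) * hu
      exact (mul_eq_zero.1 this).resolve_left (pow_ne_zero _ hM)
    refine ⟨u, v, h1, ?_⟩
    have : A₁ * (A₂ * (u * u) + B₂ * (u * v) + C₂ * (v * v) + a₂ * u + b₂ * v + c₂) = 0 := by
      rw [hp, hm, hq, hn, hl] at hu
      linear_combination A₂ * h1 + hu
    exact (mul_eq_zero.1 this).resolve_left hA

end closed

section case4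
variable {F L : Type u} [Field F] [Field L] [Algebra F L]

theorem pencil4 {q1 q2 : MvPolynomial (Fin 5) F} {d1 d2 : Fin 5 → Fin 5 → F}
    (hq1 : q1.IsHomogeneous 2) (hq2 : q2.IsHomogeneous 2)
    (hd1 : q1 = ∑ i, ∑ j, C (d1 i j) * (X i * X j))
    (hd2 : q2 = ∑ i, ∑ j, C (d2 i j) * (X i * X j))
    {x : Fin 5 → L} (hx : IsFunctionField 1 {q1, q2} L x) (hA : d1 0 0 ≠ 0)
    (hR : (d1 0 0 * d2 1 1 - d2 0 0 * d1 1 1) ^ 2
      - (d1 0 0 * (d2 0 1 + d2 1 0) - d2 0 0 * (d1 0 1 + d1 1 0))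
        * ((d1 0 1 + d1 1 0) * d2 1 1 - (d2 0 1 + d2 1 0) * d1 1 1) ≠ 0) :
    Wit F L 4 := by
  have hR' : ∀ (A : Type u) [Field A] [Algebra F A],
      (algebraMap F A (d1 0 0) * algebraMap F A (d2 1 1)
        - algebraMap F A (d2 0 0) * algebraMap F A (d1 1 1)) ^ 2
      - (algebraMap F A (d1 0 0) * algebraMap F A (d2 0 1 + d2 1 0)
        - algebraMap F A (d2 0 0) * algebraMap F A (d1 0 1 + d1 1 0))
        * (algebraMap F A (d1 0 1 + d1 1 0) * algebraMap F A (d2 1 1)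
        - algebraMap F A (d2 0 1 + d2 1 0) * algebraMap F A (d1 1 1)) ≠ 0 := by
    intro A _ _
    have := (map_ne_zero (algebraMap F A)).2 hR
    simpa only [map_sub, map_mul, map_pow] using this
  obtain ⟨u0, v0, h1, h2⟩ := two_quadrics (Ω := Om F) _ _ _
    (lf (al d1) (gen F)) (lf (be d1) (gen F)) (qf (ga d1) (gen F)) _ _ _
    (lf (al d2) (gen F)) (lf (be d2) (gen F)) (qf (ga d2) (gen F))
    ((map_ne_zero (algebraMap F (Om F))).2 hA) (hR' (Om F))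
  let a : Fin 5 → Om F := Fin.cons u0 (Fin.cons v0 (gen F))
  have haz : ∀ j : Fin 3, a j.succ.succ = gen F j := fun j => rfl
  refine wrap hx (a := a) ?_ ?_ haz ?_
  · rintro G (rfl | rfl)
    · exact hq1
    · exact hq2
  · rintro G (rfl | rfl)
    · rw [aeval_split hd1 a (gen F) haz]; exact h1
    · rw [aeval_split hd2 a (gen F) haz]; exact h2
  · intro K z y hy hz2 hS _
    have e1 := hS q1 (by simp)
    have e2 := hS q2 (by simp)
    rw [aeval_split hd1 y _ hy, ← map_lf, ← map_lf, ← map_qf] at e1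
    rw [aeval_split hd2 y _ hy, ← map_lf, ← map_lf, ← map_qf] at e2
    refine stable4 (K := K) (L := L) (algebraMap F K (d1 0 0)) (algebraMap F K (d1 0 1 + d1 1 0))
      (algebraMap F K (d1 1 1)) (lf (al d1) z) (lf (be d1) z) (qf (ga d1) z)
      (algebraMap F K (d2 0 0)) (algebraMap F K (d2 0 1 + d2 1 0))
      (algebraMap F K (d2 1 1)) (lf (al d2) z) (lf (be d2) z) (qf (ga d2) z)
      (y 0) (y 1) ?_ ?_ (hR' K)
    · simp only [Algebra.smul_def, ← IsScalarTower.algebraMap_apply, mul_one]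
      exact e1
    · simp only [Algebra.smul_def, ← IsScalarTower.algebraMap_apply, mul_one]
      exact e2

end case4
end DPI
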