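import Mathlib
import Pool.Agent.H478.DJ
set_option autoImplicit false
namespace DPI
open MvPolynomial

universe u v

section case4
variable {F L : Type u} [Field F] [Field L] [Algebra F L]

theorem root_ext (A B C : F) (hA : A ≠ 0) :
    ∃ (κ : Type u) (_ : Field κ) (_ : Algebra F κ), Module.Finite F κ ∧ Module.finrank F κ ≤ 2 ∧
      ∃ z : κ, algebraMap F κ A * z ^ 2 + algebraMap F κ B * z + algebraMap F κ C = 0 := by
  obtain ⟨v, hv⟩ := root_quadratic (Ω := AlgebraicClosure F) (algebraMap F _ A)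
    (algebraMap F _ B) (algebraMap F _ C) ((map_ne_zero _).2 hA)
  let E : Polynomial F := Polynomial.C A * Polynomial.X ^ 2 + Polynomial.C B * Polynomial.X
    + Polynomial.C C
  have hdeg : E.natDegree = 2 := by
    simp only [E]
    compute_degree!
  have hE0 : E ≠ 0 := by
    intro h; rw [h, Polynomial.natDegree_zero] at hdeg; omega
  have hEv : Polynomial.aeval v E = 0 := by
    simpa [E] using hv
  have hint : IsIntegral F v := Algebra.IsIntegral.isIntegral v
  refine ⟨IntermediateField.adjoin F {v}, inferInstance, inferInstance,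
    IntermediateField.adjoin.finiteDimensional hint, ?_,
    ⟨v, IntermediateField.mem_adjoin_simple_self F v⟩, ?_⟩
  · rw [IntermediateField.adjoin.finrank hint, ← hdeg]
    exact Polynomial.natDegree_le_of_dvd (minpoly.dvd F v hEv) hE0
  · apply Subtype.ext
    exact hv

theorem hasPoint_line {κ : Type*} [Field κ] [Algebra F κ] {q1 q2 : MvPolynomial (Fin 5) F}
    {d1 d2 : Fin 5 → Fin 5 → F}
    (hd1 : q1 = ∑ i, ∑ j, C (d1 i j) * (X i * X j))
    (hd2 : q2 = ∑ i, ∑ j, C (d2 i j) * (X i * X j)) (s t : κ) (hst : s ≠ 0 ∨ t ≠ 0)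
    (h1 : algebraMap F κ (d1 0 0) * (s * s) + algebraMap F κ (d1 0 1 + d1 1 0) * (s * t)
      + algebraMap F κ (d1 1 1) * (t * t) = 0)
    (h2 : algebraMap F κ (d2 0 0) * (s * s) + algebraMap F κ (d2 0 1 + d2 1 0) * (s * t)
      + algebraMap F κ (d2 1 1) * (t * t) = 0) :
    HasPoint {q1, q2} κ := by
  refine ⟨Fin.cons s (Fin.cons t 0), ?_, ?_⟩
  · intro h
    have e0 : s = 0 := congrFun h 0
    have e1 : t = 0 := congrFun h 1
    rcases hst with h | h
    · exact h e0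
    · exact h e1
  · have hz : ∀ j : Fin 3, (Fin.cons s (Fin.cons t 0) : Fin 5 → κ) j.succ.succ = (0 : Fin 3 → κ) j :=
      fun j => rfl
    have hl : ∀ α : Fin 3 → F, lf α (0 : Fin 3 → κ) = 0 := by intro α; simp [lf]
    have hq : ∀ γ : Fin 3 → Fin 3 → F, qf γ (0 : Fin 3 → κ) = 0 := by intro α; simp [qf]
    rintro G (rfl | rfl)
    · rw [aeval_split hd1 _ _ hz, hl, hl, hq, zero_mul, zero_mul, add_zero, add_zero, add_zero]
      exact h1
    · rw [aeval_split hd2 _ _ hz, hl, hl, hq, zero_mul, zero_mul, add_zero, add_zero, add_zero]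
      exact h2

theorem dp4_wit4 {q1 q2 : MvPolynomial (Fin 5) F}
    (hq1 : q1.IsHomogeneous 2) (hq2 : q2.IsHomogeneous 2)
    {x : Fin 5 → L} (hx : IsFunctionField 1 {q1, q2} L x)
    (hno : ∀ (κ : Type u) [Field κ] [Algebra F κ], Module.Finite F κ → Module.finrank F κ ≤ 2 →
      ¬ HasPoint {q1, q2} κ) : Wit F L 4 := by
  have core : ∀ {q1 q2 : MvPolynomial (Fin 5) F} {d1 d2 : Fin 5 → Fin 5 → F}
      (_ : q1.IsHomogeneous 2) (_ : q2.IsHomogeneous 2)
      (_ : IsFunctionField 1 {q1, q2} L x)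
      (_ : ∀ (κ : Type u) [Field κ] [Algebra F κ], Module.Finite F κ → Module.finrank F κ ≤ 2 →
      ¬ HasPoint {q1, q2} κ)
      (_ : q1 = ∑ i, ∑ j, C (d1 i j) * (X i * X j))
      (_ : q2 = ∑ i, ∑ j, C (d2 i j) * (X i * X j)), d1 0 0 ≠ 0 → Wit F L 4 := by
    intro q1 q2 d1 d2 hq1 hq2 hx hno hd1 hd2 hA
    refine pencil4 hq1 hq2 hd1 hd2 hx hA ?_
    intro hR
    obtain ⟨p, hp⟩ : ∃ p, p = d1 0 0 * (d2 0 1 + d2 1 0) - d2 0 0 * (d1 0 1 + d1 1 0) := ⟨_, rfl⟩
    obtain ⟨q, hq⟩ : ∃ q, q = d1 0 0 * d2 1 1 - d2 0 0 * d1 1 1 := ⟨_, rfl⟩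
    obtain ⟨r, hr⟩ : ∃ r, r = (d1 0 1 + d1 1 0) * d2 1 1 - (d2 0 1 + d2 1 0) * d1 1 1 := ⟨_, rfl⟩
    rw [← hp, ← hq, ← hr] at hR
    by_cases hpq : -q ≠ 0 ∨ p ≠ 0
    · refine hno F inferInstance (by rw [Module.finrank_self]; norm_num) ?_
      refine hasPoint_line hd1 hd2 (-q) p hpq ?_ ?_
      · simp only [Algebra.algebraMap_self, RingHom.id_apply]
        have : d1 0 0 * (-q * -q) + (d1 0 1 + d1 1 0) * (-q * p) + d1 1 1 * (p * p)
            = d1 0 0 * (q ^ 2 - p * r) := by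
          rw [hp, hq, hr]; ring
        rw [this, hR, mul_zero]
      · simp only [Algebra.algebraMap_self, RingHom.id_apply]
        have : d2 0 0 * (-q * -q) + (d2 0 1 + d2 1 0) * (-q * p) + d2 1 1 * (p * p)
            = d2 0 0 * (q ^ 2 - p * r) := by
          rw [hp, hq, hr]; ring
        rw [this, hR, mul_zero]
    · push Not at hpq
      obtain ⟨hq0, hp0⟩ := hpq
      have hq0 : q = 0 := neg_eq_zero.1 hq0
      obtain ⟨κ, _, _, hfin, hle, z, hz⟩ := root_ext (d1 0 0) (d1 0 1 + d1 1 0) (d1 1 1) hA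
      refine hno κ hfin hle ?_
      refine hasPoint_line hd1 hd2 z 1 (Or.inr one_ne_zero) (by rw [← hz]; ring) ?_
      have hAκ : algebraMap F κ (d1 0 0) ≠ 0 := (map_ne_zero _).2 hA
      have e1 : algebraMap F κ (d1 0 0) * algebraMap F κ (d2 0 1 + d2 1 0)
          - algebraMap F κ (d2 0 0) * algebraMap F κ (d1 0 1 + d1 1 0) = 0 := by
        rw [← map_mul, ← map_mul, ← map_sub, ← hp, hp0, map_zero]
      have e2 : algebraMap F κ (d1 0 0) * algebraMap F κ (d2 1 1)
          - algebraMap F κ (d2 0 0) * algebraMap F κ (d1 1 1) = 0 := by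
        rw [← map_mul, ← map_mul, ← map_sub, ← hq, hq0, map_zero]
      refine (mul_eq_zero.1 (?_ : algebraMap F κ (d1 0 0) * _ = 0)).resolve_left hAκ
      linear_combination algebraMap F κ (d2 0 0) * hz + z * e1 + e2
  obtain ⟨d1, hd1⟩ := quad_matrix hq1
  obtain ⟨d2, hd2⟩ := quad_matrix hq2
  by_cases hA1 : d1 0 0 = 0
  · by_cases hA2 : d2 0 0 = 0
    · exfalso
      refine hno F inferInstance (by rw [Module.finrank_self]; norm_num) ?_
      refine hasPoint_line hd1 hd2 1 0 (Or.inl one_ne_zero) ?_ ?_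
      · rw [hA1]; simp
      · rw [hA2]; simp
    · have hc : ({q1, q2} : Set (MvPolynomial (Fin 5) F)) = {q2, q1} := Set.pair_comm _ _
      rw [hc] at hx
      refine core hq2 hq1 hx ?_ hd2 hd1 hA2
      intro κ _ _ h1 h2
      rw [← hc]
      exact hno κ h1 h2
  · exact core hq1 hq2 hx hno hd1 hd2 hA1

end case4
end DPI
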