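import Mathlib
import Pool.Agent.H478.DK
set_option autoImplicit false
namespace DPI
open MvPolynomial

universe u v

section stable2
theorem stable2 {K L : Type*} [Field K] [Field L] [Algebra K L] (c2 c1 c0 : K) (z : L)
    (h : c2 • (z * z) + c1 • z + c0 • (1 : L) = 0) (hc : c2 ≠ 0 ∨ c1 ≠ 0) (u v : L)
    (hu : ∃ a b c : K, u = a • (z * z) + b • z + c • (1 : L))
    (hv : ∃ a b c : K, v = a • (z * z) + b • z + c • (1 : L)) :
    ∃ W : Submodule K L, Module.Finite K W ∧ Module.finrank K W ≤ 2 ∧ 1 ∈ W ∧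
        (∀ w ∈ W, u * w ∈ W) ∧ ∀ w ∈ W, v * w ∈ W := by
  let W : Submodule K L := Submodule.span K (Set.range ![1, z])
  have w1 : (1 : L) ∈ W := Submodule.subset_span ⟨0, rfl⟩
  have wz : z ∈ W := Submodule.subset_span ⟨1, rfl⟩
  have hdiv : ∀ c : K, c ≠ 0 → ∀ z : L, c • z ∈ W → z ∈ W := by
    intro c hc z hz
    have := W.smul_mem c⁻¹ hz
    rwa [smul_smul, inv_mul_cancel₀ hc, one_smul] at this
  have wzz : z * z ∈ W := by
    by_cases h2 : c2 = 0
    · have h1 : c1 ≠ 0 := by
        rcases hc with hc | hc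
        · exact absurd h2 hc
        · exact hc
      apply hdiv c1 h1
      have e : c1 • (z * z) = -(c0 • z) := by
        rw [h2, zero_smul, zero_add, Algebra.smul_def, Algebra.smul_def] at h
        rw [Algebra.smul_def, Algebra.smul_def]
        linear_combination z * h
      rw [e]
      exact W.neg_mem (W.smul_mem _ wz)
    · apply hdiv c2 h2
      have e : c2 • (z * z) = -(c1 • z + c0 • (1 : L)) := by
        rw [eq_neg_iff_add_eq_zero, ← h]; abel
      rw [e]
      exact W.neg_mem (W.add_mem (W.smul_mem _ wz) (W.smul_mem _ w1))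
  have hz : ∀ w ∈ W, z * w ∈ W := by
    intro w hw
    induction hw using Submodule.span_induction with
    | mem w hw =>
      obtain ⟨i, rfl⟩ := hw
      fin_cases i
      · show z * 1 ∈ W
        rw [mul_one]; exact wz
      · exact wzz
    | zero => rw [mul_zero]; exact W.zero_mem
    | add a c _ _ ha hc => rw [mul_add]; exact W.add_mem ha hc
    | smul c a _ ha =>
      rw [mul_smul_comm]
      exact W.smul_mem c ha
  have hgen : ∀ u : L, (∃ a b c : K, u = a • (z * z) + b • z + c • (1 : L)) →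
      ∀ w ∈ W, u * w ∈ W := by
    rintro u ⟨a, b, c, rfl⟩ w hw
    have e : (a • (z * z) + b • z + c • (1 : L)) * w = a • (z * (z * w)) + b • (z * w) + c • w := by
      simp only [Algebra.smul_def]; ring
    rw [e]
    exact W.add_mem (W.add_mem (W.smul_mem _ (hz _ (hz _ hw))) (W.smul_mem _ (hz _ hw)))
      (W.smul_mem _ hw)
  refine ⟨W, Module.Finite.span_of_finite K (Set.finite_range _), ?_, w1, hgen u hu, hgen v hv⟩
  have := finrank_range_le_card (R := K) (![1, z] : Fin 2 → L)
  rwa [Fintype.card_fin] at this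

/-- solutions of a linear equation -/
theorem lin_sol {K : Type*} [Field K] (A B D : K) (hAB : A ≠ 0 ∨ B ≠ 0) :
    ∃ u0 v0 : K, A * u0 + B * v0 + D = 0 := by
  rcases hAB with h | h
  · exact ⟨-D / A, 0, by field_simp; ring⟩
  · exact ⟨0, -D / B, by field_simp; ring⟩

theorem lin_param {L : Type*} [Field L] (A B D u0 v0 u v : L) (hAB : A ≠ 0 ∨ B ≠ 0)
    (h0 : A * u0 + B * v0 + D = 0) (h1 : A * u + B * v + D = 0) :
    ∃ z, u = u0 + z * B ∧ v = v0 - z * A := by
  rcases hAB with h | h
  · refine ⟨-(v - v0) / A, ?_, ?_⟩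
    · field_simp
      linear_combination h1 - h0
    · field_simp
      ring
  · refine ⟨(u - u0) / B, ?_, ?_⟩
    · field_simp
      ring
    · field_simp
      linear_combination h1 - h0

end stable2

section case2
variable {F L : Type u} [Field F] [Field L] [Algebra F L]

theorem lf_homog (α : Fin 3 → F) : (lf α (X : Fin 3 → MvPolynomial (Fin 3) F)).IsHomogeneous 1 := by
  refine IsHomogeneous.sum _ _ _ fun j _ => ?_
  simpa using (isHomogeneous_C (Fin 3) (α j)).mul (isHomogeneous_X F j)

theorem aeval_lf {A : Type*} [CommRing A] [Algebra F A] (α : Fin 3 → F) (z : Fin 3 → A) :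
    aeval z (lf α (X : Fin 3 → MvPolynomial (Fin 3) F)) = lf α z := by
  simp [lf, MvPolynomial.algebraMap_eq]

theorem lf_single {A : Type*} [CommRing A] [Algebra F A] (α : Fin 3 → F) (j : Fin 3) :
    lf α (Pi.single j 1 : Fin 3 → A) = algebraMap F A (α j) := by
  simp [lf, Pi.single_apply]

theorem pencil2 {q1 q2 : MvPolynomial (Fin 5) F} {d1 d2 : Fin 5 → Fin 5 → F}
    (hq1 : q1.IsHomogeneous 2) (hq2 : q2.IsHomogeneous 2)
    (hd1 : q1 = ∑ i, ∑ j, C (d1 i j) * (X i * X j))
    (hd2 : q2 = ∑ i, ∑ j, C (d2 i j) * (X i * X j))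
    (hs : IsSmooth ![q1, q2]) (r s : F) (hirr : ∀ z : F, z * z - s * z - r ≠ 0)
    (hA1 : d1 0 0 = -r * d1 1 1) (hB1 : d1 0 1 + d1 1 0 = -s * d1 1 1)
    (hA2 : d2 0 0 = -r * d2 1 1) (hB2 : d2 0 1 + d2 1 0 = -s * d2 1 1)
    {x : Fin 5 → L} (hx : IsFunctionField 1 {q1, q2} L x) (hC : d1 1 1 ≠ 0) : Wit F L 2 := by
  classical
  obtain ⟨C1, hC1⟩ : ∃ c, c = d1 1 1 := ⟨_, rfl⟩
  obtain ⟨C2, hC2⟩ : ∃ c, c = d2 1 1 := ⟨_, rfl⟩
  rw [← hC1] at hA1 hB1 hC
  rw [← hC2] at hA2 hB2
  -- smoothness
  have hj : ∃ j : Fin 3, C1 * al d2 j - C2 * al d1 j ≠ 0 ∨ C1 * be d2 j - C2 * be d1 j ≠ 0 := by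
    by_contra hcon
    push Not at hcon
    obtain ⟨θ, hθ⟩ := root_quadratic (Ω := AlgebraicClosure F) 1 (-algebraMap F _ s)
      (-algebraMap F _ r) one_ne_zero
    let a : Fin 5 → AlgebraicClosure F := Fin.cons 1 (Fin.cons θ 0)
    have hz : ∀ j : Fin 3, a j.succ.succ = (0 : Fin 3 → AlgebraicClosure F) j := fun j => rfl
    have hl : ∀ α : Fin 3 → F, lf α (0 : Fin 3 → AlgebraicClosure F) = 0 := by intro α; simp [lf]
    have hq : ∀ γ : Fin 3 → Fin 3 → F, qf γ (0 : Fin 3 → AlgebraicClosure F) = 0 := by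
      intro α; simp [qf]
    have ha0 : a ≠ 0 := fun h => one_ne_zero (congrFun h 0)
    have h1 : ∀ i, aeval a (![q1, q2] i) = 0 := by
      intro i
      fin_cases i
      · show aeval a q1 = 0
        rw [aeval_split hd1 a _ hz, hl, hl, hq, hA1, hB1, ← hC1]
        show algebraMap F _ (-r * C1) * (1 * 1) + algebraMap F _ (-s * C1) * (1 * θ)
          + algebraMap F _ C1 * (θ * θ) + 0 * 1 + 0 * θ + 0 = 0
        simp only [map_mul, map_neg]
        linear_combination algebraMap F _ C1 * hθ
      · show aeval a q2 = 0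
        rw [aeval_split hd2 a _ hz, hl, hl, hq, hA2, hB2, ← hC2]
        show algebraMap F _ (-r * C2) * (1 * 1) + algebraMap F _ (-s * C2) * (1 * θ)
          + algebraMap F _ C2 * (θ * θ) + 0 * 1 + 0 * θ + 0 = 0
        simp only [map_mul, map_neg]
        linear_combination algebraMap F _ C2 * hθ
    have hli := Fintype.linearIndependent_iff.1 (hs a ha0 h1)
      ![-algebraMap F _ C2, algebraMap F _ C1] ?_ 1
    · have : algebraMap F (AlgebraicClosure F) C1 = 0 := hli
      exact hC ((map_eq_zero _).1 this)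
    · rw [Fin.sum_univ_two]
      funext k
      show -algebraMap F _ C2 * aeval a (pderiv k q1) + algebraMap F _ C1 * aeval a (pderiv k q2) = 0
      rw [aeval_pderiv_quad hd1, aeval_pderiv_quad hd2]
      have hsum : ∀ d : Fin 5 → Fin 5 → F, ∑ j, algebraMap F (AlgebraicClosure F) (d k j + d j k) * a j
          = algebraMap F _ (d k 0 + d 0 k) + algebraMap F _ (d k 1 + d 1 k) * θ := by
        intro d
        rw [Fin.sum_univ_succ, Fin.sum_univ_succ]
        have : ∑ i : Fin 3, algebraMap F (AlgebraicClosure F) (d k i.succ.succ + d i.succ.succ k)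
            * a i.succ.succ = 0 := Finset.sum_eq_zero fun i _ => by rw [hz]; simp
        rw [this, add_zero]
        show algebraMap F _ (d k 0 + d 0 k) * 1 + algebraMap F _ (d k 1 + d 1 k) * θ = _
        rw [mul_one]
      rw [hsum, hsum]
      refine Fin.cases ?_ (fun k => Fin.cases ?_ (fun j => ?_) k) k
      · rw [hA1, hA2, hB1, hB2]
        simp only [map_add, map_mul, map_neg]; ring
      · have e : ∀ d : Fin 5 → Fin 5 → F, d (Fin.succ 0) 0 + d 0 (Fin.succ 0) = d 0 1 + d 1 0 :=
          fun d => add_comm _ _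
        have e' : (Fin.succ 0 : Fin 5) = 1 := rfl
        rw [e, e, e', hB1, hB2, ← hC1, ← hC2]
        simp only [map_add, map_mul, map_neg]; ring
      · have e1 := (hcon j).1
        have e2 := (hcon j).2
        simp only [al, be] at e1 e2
        have e1' := congrArg (algebraMap F (AlgebraicClosure F)) e1
        have e2' := congrArg (algebraMap F (AlgebraicClosure F)) e2
        simp only [map_add, map_sub, map_mul, map_zero] at e1' e2' ⊢
        linear_combination e1' + θ * e2'
  -- the polynomial `N(A, B)`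
  let PA : MvPolynomial (Fin 3) F := C C1 * lf (al d2) X - C C2 * lf (al d1) X
  let PB : MvPolynomial (Fin 3) F := C C1 * lf (be d2) X - C C2 * lf (be d1) X
  let G : MvPolynomial (Fin 3) F := PA ^ 2 + C s * (PA * PB) - C r * PB ^ 2
  have hPA : PA.IsHomogeneous 1 := by
    have h1 := (isHomogeneous_C (Fin 3) C1).mul (lf_homog (al d2))
    have h2 := (isHomogeneous_C (Fin 3) C2).mul (lf_homog (al d1))
    rw [zero_add] at h1 h2
    exact h1.sub h2
  have hPB : PB.IsHomogeneous 1 := by
    have h1 := (isHomogeneous_C (Fin 3) C1).mul (lf_homog (be d2))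
    have h2 := (isHomogeneous_C (Fin 3) C2).mul (lf_homog (be d1))
    rw [zero_add] at h1 h2
    exact h1.sub h2
  have hG : G.IsHomogeneous 2 := by
    have h1 := hPA.pow 2
    have h2 := (isHomogeneous_C (Fin 3) s).mul (hPA.mul hPB)
    have h3 := (isHomogeneous_C (Fin 3) r).mul (hPB.pow 2)
    simp only [zero_add, one_mul] at h1 h2 h3
    exact (h1.add h2).sub h3
  have hGev : ∀ {A : Type u} [CommRing A] [Algebra F A] (z : Fin 3 → A),
      aeval z G = (algebraMap F A C1 * lf (al d2) z - algebraMap F A C2 * lf (al d1) z) ^ 2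
        + algebraMap F A s * ((algebraMap F A C1 * lf (al d2) z - algebraMap F A C2 * lf (al d1) z)
          * (algebraMap F A C1 * lf (be d2) z - algebraMap F A C2 * lf (be d1) z))
        - algebraMap F A r
          * (algebraMap F A C1 * lf (be d2) z - algebraMap F A C2 * lf (be d1) z) ^ 2 := by
    intro A _ _ z
    simp only [G, PA, PB, map_sub, map_add, map_mul, map_pow, aeval_C, aeval_lf]
  have hG0 : G ≠ 0 := by
    intro h
    obtain ⟨j, hj⟩ := hj
    have h1 := hGev (A := F) (Pi.single j 1)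
    rw [h, map_zero] at h1
    simp only [lf_single, Algebra.algebraMap_self, RingHom.id_apply] at h1
    by_cases hB : C1 * be d2 j - C2 * be d1 j = 0
    · rw [hB] at h1
      have hA := hj.resolve_right (fun h => h hB)
      apply hA
      have : (C1 * al d2 j - C2 * al d1 j) ^ 2 = 0 := by linear_combination -h1
      exact pow_eq_zero_iff two_ne_zero |>.1 this
    · apply hirr (-(C1 * al d2 j - C2 * al d1 j) / (C1 * be d2 j - C2 * be d1 j))
      field_simp
      linear_combination -h1
  -- common computation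
  have comp : ∀ {A : Type u} [Field A] [Algebra F A] (z : Fin 3 → A), aeval z G ≠ 0 →
      ∃ u0 v0 B' A' c2 c1 c0 : A, (A' ≠ 0 ∨ B' ≠ 0) ∧ c2 ≠ 0 ∧
        A' = algebraMap F A C1 * lf (al d2) z - algebraMap F A C2 * lf (al d1) z ∧
        B' = algebraMap F A C1 * lf (be d2) z - algebraMap F A C2 * lf (be d1) z ∧
        A' * u0 + B' * v0
          + (algebraMap F A C1 * qf (ga d2) z - algebraMap F A C2 * qf (ga d1) z) = 0 ∧
        c2 = algebraMap F A C1 * (A' ^ 2 + algebraMap F A s * (A' * B') - algebraMap F A r * B' ^ 2)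
        ∧ c1 = algebraMap F A C1 * (-2 * v0 * A' - algebraMap F A s * B' * v0
            + algebraMap F A s * A' * u0 - 2 * algebraMap F A r * u0 * B')
            + lf (al d1) z * B' - lf (be d1) z * A'
        ∧ c0 = algebraMap F A C1 * (v0 ^ 2 - algebraMap F A s * u0 * v0 - algebraMap F A r * u0 ^ 2)
            + lf (al d1) z * u0 + lf (be d1) z * v0 + qf (ga d1) z := by
    intro A _ _ z hz
    rw [hGev] at hz
    have hAB : algebraMap F A C1 * lf (al d2) z - algebraMap F A C2 * lf (al d1) z ≠ 0 ∨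
        algebraMap F A C1 * lf (be d2) z - algebraMap F A C2 * lf (be d1) z ≠ 0 := by
      by_contra hcon
      push Not at hcon
      apply hz
      rw [hcon.1, hcon.2]
      ring
    obtain ⟨u0, v0, h0⟩ := lin_sol _ _
      (algebraMap F A C1 * qf (ga d2) z - algebraMap F A C2 * qf (ga d1) z) hAB
    exact ⟨u0, v0, _, _, _, _, _, hAB, mul_ne_zero ((map_ne_zero _).2 hC) hz, rfl, rfl, h0, rfl,
      rfl, rfl⟩
  have hsp1 : ∀ {A : Type u} [Field A] [Algebra F A] (y : Fin 5 → A) (z : Fin 3 → A)
      (_ : ∀ j, y j.succ.succ = z j), aeval y q1 = algebraMap F A C1 * (y 1 * y 1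
        - algebraMap F A s * (y 0 * y 1) - algebraMap F A r * (y 0 * y 0)) + lf (al d1) z * y 0
        + lf (be d1) z * y 1 + qf (ga d1) z := by
    intro A _ _ y z hz
    rw [aeval_split hd1 y z hz, hA1, hB1, ← hC1]
    simp only [map_mul, map_neg]
    ring
  have hsp2 : ∀ {A : Type u} [Field A] [Algebra F A] (y : Fin 5 → A) (z : Fin 3 → A)
      (_ : ∀ j, y j.succ.succ = z j), aeval y q2 = algebraMap F A C2 * (y 1 * y 1
        - algebraMap F A s * (y 0 * y 1) - algebraMap F A r * (y 0 * y 0)) + lf (al d2) z * y 0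
        + lf (be d2) z * y 1 + qf (ga d2) z := by
    intro A _ _ y z hz
    rw [aeval_split hd2 y z hz, hA2, hB2, ← hC2]
    simp only [map_mul, map_neg]
    ring
  -- generic solution
  have hgen0 : aeval (gen F) G ≠ 0 := by
    rw [gen_aeval]
    intro h
    exact hG0 (algebraMap_Om_injective (by rw [h, map_zero]))
  obtain ⟨u0, v0, B', A', c2, c1, c0, hAB, hc2, hA', hB', h0, hc2', hc1', hc0'⟩ :=
    comp (gen F) hgen0
  obtain ⟨z, hz⟩ := root_quadratic c2 c1 c0 hc2
  let a : Fin 5 → Om F := Fin.cons (u0 + z * B') (Fin.cons (v0 - z * A') (gen F))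
  have haz : ∀ j : Fin 3, a j.succ.succ = gen F j := fun j => rfl
  have ha1 : aeval a q1 = 0 := by
    rw [hsp1 a _ haz]
    show algebraMap F _ C1 * ((v0 - z * A') * (v0 - z * A')
      - algebraMap F _ s * ((u0 + z * B') * (v0 - z * A'))
      - algebraMap F _ r * ((u0 + z * B') * (u0 + z * B'))) + lf (al d1) (gen F) * (u0 + z * B')
      + lf (be d1) (gen F) * (v0 - z * A') + qf (ga d1) (gen F) = 0
    rw [← hz, hc2', hc1', hc0']
    ring
  refine wrap hx (a := a) ?_ ?_ haz ?_
  · rintro G (rfl | rfl)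
    · exact hq1
    · exact hq2
  · rintro G (rfl | rfl)
    · exact ha1
    · have hCC : algebraMap F (Om F) C1 ≠ 0 := (map_ne_zero _).2 hC
      refine (mul_eq_zero.1 (?_ : algebraMap F (Om F) C1 * _ = 0)).resolve_left hCC
      rw [hsp2 a _ haz]
      rw [hsp1 a _ haz] at ha1
      have hlin : A' * (u0 + z * B') + B' * (v0 - z * A')
          + (algebraMap F (Om F) C1 * qf (ga d2) (gen F)
            - algebraMap F (Om F) C2 * qf (ga d1) (gen F)) = 0 := by
        linear_combination h0
      rw [hA', hB'] at hlin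
      have ea : a 0 = u0 + z * B' := rfl
      have eb : a 1 = v0 - z * A' := rfl
      rw [← hA', ← hB'] at hlin
      rw [← ea, ← eb, hA', hB'] at hlin
      linear_combination hlin + algebraMap F (Om F) C2 * ha1
  · intro K z y hy hz2 hS hnz
    have e1 := hS q1 (by simp)
    have e2 := hS q2 (by simp)
    rw [hsp1 y _ hy, ← map_lf, ← map_lf, ← map_qf] at e1
    rw [hsp2 y _ hy, ← map_lf, ← map_lf, ← map_qf] at e2
    obtain ⟨u0, v0, B', A', c2, c1, c0, hAB, hc2, hA', hB', h0, hc2', hc1', hc0'⟩ :=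
      comp z (hnz G 2 hG hG0)
    have hAB' : algebraMap K L A' ≠ 0 ∨ algebraMap K L B' ≠ 0 := by
      rcases hAB with h | h
      · exact Or.inl ((map_ne_zero _).2 h)
      · exact Or.inr ((map_ne_zero _).2 h)
    have h0L := congrArg (algebraMap K L) h0
    simp only [map_add, map_mul, map_sub, map_zero, ← IsScalarTower.algebraMap_apply] at h0L
    have hA'L := congrArg (algebraMap K L) hA'
    have hB'L := congrArg (algebraMap K L) hB'
    simp only [map_mul, map_sub, ← IsScalarTower.algebraMap_apply] at hA'L hB'L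
    have hlin : algebraMap K L A' * y 0 + algebraMap K L B' * y 1
        + (algebraMap F L C1 * algebraMap K L (qf (ga d2) z)
          - algebraMap F L C2 * algebraMap K L (qf (ga d1) z)) = 0 := by
      rw [hA'L, hB'L]
      linear_combination algebraMap F L C1 * e2 - algebraMap F L C2 * e1
    obtain ⟨t, ht0, ht1⟩ := lin_param _ _ _ _ _ _ _ hAB' h0L hlin
    have hc2L := congrArg (algebraMap K L) hc2'
    have hc1L := congrArg (algebraMap K L) hc1'
    have hc0L := congrArg (algebraMap K L) hc0'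
    simp only [map_mul, map_sub, map_add, map_pow, map_neg, map_ofNat,
      ← IsScalarTower.algebraMap_apply] at hc2L hc1L hc0L
    refine stable2 (K := K) (L := L) c2 c1 c0 t ?_ (Or.inl hc2) (y 0) (y 1)
      ⟨0, B', u0, ?_⟩ ⟨0, -A', v0, ?_⟩
    · simp only [Algebra.smul_def]
      rw [hc2L, hc1L, hc0L]
      rw [ht0, ht1] at e1
      linear_combination e1
    · simp only [Algebra.smul_def, map_zero]
      rw [ht0]; ring
    · simp only [Algebra.smul_def, map_zero, map_neg]
      rw [ht1]; ring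

end case2
end DPI
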