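import Mathlib
import Pool.Agent.H478.DL
set_option autoImplicit false
namespace DPI
open MvPolynomial

universe u v

section case2
variable {F L : Type u} [Field F] [Field L] [Algebra F L]

theorem image_pair' {α β : Type*} (f : α → β) (a b : α) : f '' {a, b} = {f a, f b} :=
  Set.image_pair f a b

/-- two homogeneous quadrics: a vector over `κ` proportional to a vector over `F` gives a point -/
theorem hasPoint_of_smul {κ : Type*} [Field κ] [Algebra F κ] {σ : Type}
    {S : Set (MvPolynomial σ F)} {n : ℕ} (hS : ∀ G ∈ S, G.IsHomogeneous n) (a : σ → κ)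
    (ha : a ≠ 0) (h0 : ∀ G ∈ S, aeval a G = 0) (c : κ) (u : σ → F)
    (hau : a = fun i => c * algebraMap F κ (u i)) : HasPoint S F := by
  have hc : c ≠ 0 := by
    rintro rfl
    apply ha
    rw [hau]
    funext i
    simp
  have hu : u ≠ 0 := by
    rintro rfl
    apply ha
    rw [hau]
    funext i
    simp
  refine ⟨u, hu, fun G hG => ?_⟩
  have h1 := h0 G hG
  rw [hau, aeval_homog (hS G hG), aeval_alg] at h1
  have h2 := (mul_eq_zero.1 h1).resolve_left (pow_ne_zero _ hc)
  exact (map_eq_zero _).1 h2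

theorem hasPoint_lin {σ : Type} [Fintype σ] [DecidableEq σ] {κ : Type*} [Field κ] [Algebra F κ]
    {S : Set (MvPolynomial σ F)} {M B : Matrix σ σ F} (hBM : B * M = 1)
    (h : HasPoint (lin M '' S) κ) : HasPoint S κ := by
  obtain ⟨a, ha, h0⟩ := h
  refine ⟨fun i => ∑ j, algebraMap F κ (M i j) * a j, ?_, fun G hG => ?_⟩
  · intro hcon
    apply ha
    funext i
    have := mul_vec_inv (A := κ) hBM a i
    have h2 : ∀ j, ∑ k, algebraMap F κ (M j k) * a k = 0 := fun j => congrFun hcon j
    simp only [h2, mul_zero, Finset.sum_const_zero] at this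
    exact this.symm
  · have := h0 _ ⟨G, hG, rfl⟩
    rwa [aeval_lin] at this

theorem smooth_pair {σ : Type} [Fintype σ] [DecidableEq σ] {M B : Matrix σ σ F} (hMB : M * B = 1)
    (hBM : B * M = 1) {q1 q2 : MvPolynomial σ F} (hs : IsSmooth ![q1, q2]) :
    IsSmooth ![lin M q1, lin M q2] := by
  have := smooth_change hMB hBM hs
  have e : (fun i => lin M ((![q1, q2] : Fin 2 → MvPolynomial σ F) i)) = ![lin M q1, lin M q2] := by
    funext i
    fin_cases i <;> rfl
  rwa [e] at this

theorem smooth_swap {σ : Type} {q1 q2 : MvPolynomial σ F} (hs : IsSmooth ![q1, q2]) :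
    IsSmooth ![q2, q1] := by
  intro a ha h0
  have h := hs a ha (by
    intro i
    fin_cases i
    · exact h0 1
    · exact h0 0)
  have h2 := h.comp ![1, 0] (by decide)
  have e : (fun (i : Fin 2) (j : σ) => aeval a (pderiv j ((![q2, q1] : Fin 2 → MvPolynomial σ F) i)))
      = (fun (i : Fin 2) (j : σ) => aeval a (pderiv j ((![q1, q2] : Fin 2 → MvPolynomial σ F) i)))
        ∘ ![1, 0] := by
    funext i
    fin_cases i <;> rfl
  rw [e]
  exact h2

theorem dp4_wit2_quad {q1 q2 : MvPolynomial (Fin 5) F}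
    (hq1 : q1.IsHomogeneous 2) (hq2 : q2.IsHomogeneous 2) (hs : IsSmooth ![q1, q2])
    {x : Fin 5 → L} (hx : IsFunctionField 1 {q1, q2} L x) (hno : ¬ HasPoint {q1, q2} F)
    {κ : Type u} [Field κ] [Algebra F κ] (h2 : Module.finrank F κ = 2)
    (hp : HasPoint {q1, q2} κ) : Wit F L 2 := by
  obtain ⟨a, ha, h0⟩ := hp
  have hS : ∀ G ∈ ({q1, q2} : Set (MvPolynomial (Fin 5) F)), G.IsHomogeneous 2 := by
    rintro G (rfl | rfl)
    · exact hq1
    · exact hq2
  obtain ⟨θ, hθ, hb⟩ := quad_basis h2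
  choose u v huv using fun i => hb (a i)
  have hli : LinearIndependent F ![u, v] := by
    rw [LinearIndependent.pair_iff]
    intro c1 c2 hc
    by_contra hcon
    have hc' : ∀ i, c1 * u i + c2 * v i = 0 := fun i => congrFun hc i
    by_cases h2 : c2 = 0
    · have h1 : c1 ≠ 0 := fun h1 => hcon ⟨h1, h2⟩
      apply hno
      refine hasPoint_of_smul hS a ha h0 θ v ?_
      funext i
      have : u i = 0 := by
        have := hc' i
        rw [h2, zero_mul, add_zero] at this
        exact (mul_eq_zero.1 this).resolve_left h1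
      rw [huv i, this, map_zero, zero_add]
    · apply hno
      refine hasPoint_of_smul hS a ha h0 (1 - θ * algebraMap F κ (c1 / c2)) u ?_
      funext i
      have : v i = -(c1 / c2) * u i := by
        field_simp
        linear_combination hc' i
      rw [huv i, this, map_mul, map_neg]
      ring
  obtain ⟨M, B, hMB, hBM, hM⟩ := exists_matrix (m := 2) (r := 3) ![u, v] hli
  have hM0 : ∀ i : Fin 5, M i 0 = u i := fun i => hM i 0
  have hM1 : ∀ i : Fin 5, M i 1 = v i := fun i => hM i 1
  have hx' := change hMB hBM hx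
  rw [Set.image_pair] at hx'
  have hno' : ¬ HasPoint {lin M q1, lin M q2} F := by
    intro h
    rw [← Set.image_pair] at h
    exact hno (hasPoint_lin hBM h)
  have hs' := smooth_pair hMB hBM hs
  have hf1 : (lin M q1).IsHomogeneous 2 := lin_homog hq1
  have hf2 : (lin M q2).IsHomogeneous 2 := lin_homog hq2
  obtain ⟨r, s, hrs⟩ := hb (θ * θ)
  have hev : ∀ G ∈ ({q1, q2} : Set (MvPolynomial (Fin 5) F)),
      aeval (Fin.cons 1 (Fin.cons θ 0) : Fin 5 → κ) (lin M G) = 0 := by
    intro G hG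
    rw [aeval_lin]
    have : (fun i => ∑ j, algebraMap F κ (M i j) * (Fin.cons 1 (Fin.cons θ 0) : Fin 5 → κ) j) = a := by
      funext i
      rw [Fin.sum_univ_succ, Fin.sum_univ_succ]
      have h3 : ∑ k : Fin 3, algebraMap F κ (M i k.succ.succ)
          * (Fin.cons 1 (Fin.cons θ 0) : Fin 5 → κ) k.succ.succ = 0 :=
        Finset.sum_eq_zero fun k _ => by
          show _ * (0 : κ) = 0
          rw [mul_zero]
      rw [h3, add_zero]
      show algebraMap F κ (M i 0) * 1 + algebraMap F κ (M i 1) * θ = a i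
      rw [hM0, hM1, huv i]
      ring
    rw [this]
    exact h0 G hG
  have hcoef : ∀ {q : MvPolynomial (Fin 5) F} {d : Fin 5 → Fin 5 → F}
      (_ : q = ∑ i, ∑ j, C (d i j) * (X i * X j))
      (_ : aeval (Fin.cons 1 (Fin.cons θ 0) : Fin 5 → κ) q = 0),
      d 0 0 = -r * d 1 1 ∧ d 0 1 + d 1 0 = -s * d 1 1 := by
    intro q d hd hq
    have hz : ∀ j : Fin 3, (Fin.cons 1 (Fin.cons θ 0) : Fin 5 → κ) j.succ.succ
      = (0 : Fin 3 → κ) j := fun j => rfl
    have hl : ∀ α : Fin 3 → F, lf α (0 : Fin 3 → κ) = 0 := by intro α; simp [lf]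
    have hqq : ∀ γ : Fin 3 → Fin 3 → F, qf γ (0 : Fin 3 → κ) = 0 := by intro α; simp [qf]
    rw [aeval_split hd _ _ hz, hl, hl, hqq] at hq
    have hq' : algebraMap F κ (d 0 0) * (1 * 1) + algebraMap F κ (d 0 1 + d 1 0) * (1 * θ)
      + algebraMap F κ (d 1 1) * (θ * θ) + 0 * 1 + 0 * θ + 0 = 0 := hq
    rw [hrs] at hq'
    have h3 : algebraMap F κ (d 0 0 + d 1 1 * r) + θ * algebraMap F κ (d 0 1 + d 1 0 + d 1 1 * s)
        = 0 := by
      rw [← hq']
      simp only [map_add, map_mul]
      ring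
    have h4 : d 0 1 + d 1 0 + d 1 1 * s = 0 := by
      by_contra hne
      apply hθ
      refine ⟨-(d 0 0 + d 1 1 * r) / (d 0 1 + d 1 0 + d 1 1 * s), ?_⟩
      have hne' : algebraMap F κ (d 0 1 + d 1 0 + d 1 1 * s) ≠ 0 := (map_ne_zero _).2 hne
      rw [map_div₀, map_neg, div_eq_iff hne']
      linear_combination -h3
    rw [h4, map_zero, mul_zero, add_zero] at h3
    have h5 := (map_eq_zero _).1 h3
    constructor
    · linear_combination h5
    · linear_combination h4
  obtain ⟨d1, hd1⟩ := quad_matrix hf1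
  obtain ⟨d2, hd2⟩ := quad_matrix hf2
  obtain ⟨hA1, hB1⟩ := hcoef hd1 (hev q1 (by simp))
  obtain ⟨hA2, hB2⟩ := hcoef hd2 (hev q2 (by simp))
  have hirr : ∀ z : F, z * z - s * z - r ≠ 0 := by
    intro z hz
    apply hno'
    refine hasPoint_line hd1 hd2 1 z (Or.inl one_ne_zero) ?_ ?_
    · simp only [Algebra.algebraMap_self, RingHom.id_apply]
      rw [hA1, hB1]
      linear_combination d1 1 1 * hz
    · simp only [Algebra.algebraMap_self, RingHom.id_apply]
      rw [hA2, hB2]
      linear_combination d2 1 1 * hz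
  by_cases hC1 : d1 1 1 = 0
  · by_cases hC2 : d2 1 1 = 0
    · exfalso
      apply hno'
      refine hasPoint_line hd1 hd2 0 1 (Or.inr one_ne_zero) ?_ ?_
      · rw [hC1]; simp
      · rw [hC2]; simp
    · have hc : ({lin M q1, lin M q2} : Set (MvPolynomial (Fin 5) F)) = {lin M q2, lin M q1} :=
        Set.pair_comm _ _
      rw [hc] at hx'
      exact pencil2 hf2 hf1 hd2 hd1 (smooth_swap hs') r s hirr hA2 hB2 hA1 hB1 hx' hC2
  · exact pencil2 hf1 hf2 hd1 hd2 hs' r s hirr hA1 hB1 hA2 hB2 hx' hC1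

end case2
end DPI
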