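import Mathlib
import Pool.Agent.H478.DM
set_option autoImplicit false
namespace DPI
open MvPolynomial

universe u v

section case1
variable {F L : Type u} [Field F] [Field L] [Algebra F L]

theorem pencil1 {q1 q2 : MvPolynomial (Fin 5) F} {d1 d2 : Fin 5 → Fin 5 → F}
    (hq1 : q1.IsHomogeneous 2) (hq2 : q2.IsHomogeneous 2)
    (hd1 : q1 = ∑ i, ∑ j, C (d1 i j) * (X i * X j))
    (hd2 : q2 = ∑ i, ∑ j, C (d2 i j) * (X i * X j))
    (hs : IsSmooth ![q1, q2])
    (hA1 : d1 0 0 = 0) (hB1 : d1 0 1 + d1 1 0 = 0)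
    (hA2 : d2 0 0 = 0) (hB2 : d2 0 1 + d2 1 0 = 0)
    (hal1 : al d1 = ![1, 0, 0]) (hal2 : al d2 = ![0, 1, 0])
    {x : Fin 5 → L} (hx : IsFunctionField 1 {q1, q2} L x) : Wit F L 2 := by
  classical
  obtain ⟨C1, hC1⟩ : ∃ c, c = d1 1 1 := ⟨_, rfl⟩
  obtain ⟨C2, hC2⟩ : ∃ c, c = d2 1 1 := ⟨_, rfl⟩
  have hsp1 : ∀ {A : Type u} [Field A] [Algebra F A] (y : Fin 5 → A) (z : Fin 3 → A)
      (_ : ∀ j, y j.succ.succ = z j), aeval y q1 = algebraMap F A C1 * (y 1 * y 1)
        + z 0 * y 0 + lf (be d1) z * y 1 + qf (ga d1) z := by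
    intro A _ _ y z hz
    rw [aeval_split hd1 y z hz, hA1, hB1, ← hC1, hal1]
    have : lf (![1, 0, 0] : Fin 3 → F) z = z 0 := by simp [lf, Fin.sum_univ_succ]
    rw [this]
    simp only [map_zero]
    ring
  have hsp2 : ∀ {A : Type u} [Field A] [Algebra F A] (y : Fin 5 → A) (z : Fin 3 → A)
      (_ : ∀ j, y j.succ.succ = z j), aeval y q2 = algebraMap F A C2 * (y 1 * y 1)
        + z 1 * y 0 + lf (be d2) z * y 1 + qf (ga d2) z := by
    intro A _ _ y z hz
    rw [aeval_split hd2 y z hz, hA2, hB2, ← hC2, hal2]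
    have : lf (![0, 1, 0] : Fin 3 → F) z = z 1 := by simp [lf, Fin.sum_univ_succ]
    rw [this]
    simp only [map_zero]
    ring
  let G2 : MvPolynomial (Fin 3) F := C C1 * X 1 - C C2 * X 0
  let G1 : MvPolynomial (Fin 3) F := lf (be d1) X * X 1 - lf (be d2) X * X 0
  have hG2 : G2.IsHomogeneous 1 := by
    have h1 := (isHomogeneous_C (Fin 3) C1).mul (isHomogeneous_X F (1 : Fin 3))
    have h2 := (isHomogeneous_C (Fin 3) C2).mul (isHomogeneous_X F (0 : Fin 3))
    rw [zero_add] at h1 h2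
    exact h1.sub h2
  have hG1 : G1.IsHomogeneous 2 :=
    ((lf_homog (be d1)).mul (isHomogeneous_X F (1 : Fin 3))).sub
      ((lf_homog (be d2)).mul (isHomogeneous_X F (0 : Fin 3)))
  have hG2ev : ∀ {A : Type u} [CommRing A] [Algebra F A] (z : Fin 3 → A),
      aeval z G2 = algebraMap F A C1 * z 1 - algebraMap F A C2 * z 0 := by
    intro A _ _ z
    simp only [G2, map_sub, map_mul, aeval_C, aeval_X]
  have hG1ev : ∀ {A : Type u} [CommRing A] [Algebra F A] (z : Fin 3 → A),
      aeval z G1 = lf (be d1) z * z 1 - lf (be d2) z * z 0 := by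
    intro A _ _ z
    simp only [G1, map_sub, map_mul, aeval_X, aeval_lf]
  have hne : G2 ≠ 0 ∨ G1 ≠ 0 := by
    by_contra hcon
    push Not at hcon
    obtain ⟨h2, h1⟩ := hcon
    have k1 : C1 = 0 := by
      have := hG2ev (A := F) ![0, 1, 0]
      rw [h2] at this
      simpa using this.symm
    have k2 : C2 = 0 := by
      have := hG2ev (A := F) ![1, 0, 0]
      rw [h2] at this
      simpa using this.symm
    have m1 := hG1ev (A := F) ![0, 1, 0]
    have m2 := hG1ev (A := F) ![1, 0, 0]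
    have m3 := hG1ev (A := F) ![1, 1, 0]
    have m4 := hG1ev (A := F) ![0, 1, 1]
    have m5 := hG1ev (A := F) ![1, 0, 1]
    rw [h1] at m1 m2 m3 m4 m5
    simp [lf, Fin.sum_univ_succ] at m1 m2 m3 m4 m5
    have n1 : be d1 1 = 0 := by linear_combination -m1
    have n2 : be d1 2 = 0 := by linear_combination -m4 - n1
    let a : Fin 5 → AlgebraicClosure F := Fin.cons (-algebraMap F _ (be d1 0)) (Fin.cons 1 0)
    have ha0 : a ≠ 0 := fun h => one_ne_zero (congrFun h 1)
    have haz : ∀ j : Fin 3, a j.succ.succ = (0 : Fin 3 → AlgebraicClosure F) j := fun j => rfl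
    have hl : ∀ α : Fin 3 → F, lf α (0 : Fin 3 → AlgebraicClosure F) = 0 := by intro α; simp [lf]
    have hq : ∀ γ : Fin 3 → Fin 3 → F, qf γ (0 : Fin 3 → AlgebraicClosure F) = 0 := by
      intro α; simp [qf]
    have hpt : ∀ i, aeval a (![q1, q2] i) = 0 := by
      intro i
      fin_cases i
      · show aeval a q1 = 0
        rw [aeval_split hd1 a _ haz, hl, hl, hq, hA1, hB1, ← hC1, k1]
        simp
      · show aeval a q2 = 0
        rw [aeval_split hd2 a _ haz, hl, hl, hq, hA2, hB2, ← hC2, k2]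
        simp
    have hli := (hs a ha0 hpt).ne_zero 0
    apply hli
    funext k
    show aeval a (pderiv k q1) = 0
    rw [aeval_pderiv_quad hd1, Fin.sum_univ_succ, Fin.sum_univ_succ]
    have : ∑ i : Fin 3, algebraMap F (AlgebraicClosure F) (d1 k i.succ.succ + d1 i.succ.succ k)
        * a i.succ.succ = 0 := Finset.sum_eq_zero fun i _ => by rw [haz]; simp
    rw [this, add_zero]
    show algebraMap F _ (d1 k 0 + d1 0 k) * (-algebraMap F _ (be d1 0))
      + algebraMap F _ (d1 k 1 + d1 1 k) * 1 = 0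
    have e00 : d1 0 0 + d1 0 0 = 0 := by rw [hA1, add_zero]
    have e01 : d1 1 0 + d1 0 1 = 0 := by rw [add_comm]; exact hB1
    have e11 : d1 1 1 + d1 1 1 = 0 := by rw [← hC1, k1, add_zero]
    have ea : ∀ j : Fin 3, d1 j.succ.succ 0 + d1 0 j.succ.succ = ![1, 0, 0] j := by
      intro j
      have := congrFun hal1 j
      simp only [al] at this
      rw [← this, add_comm]
    have eb : ∀ j : Fin 3, d1 j.succ.succ 1 + d1 1 j.succ.succ = ![be d1 0, 0, 0] j := by
      intro j
      have : d1 j.succ.succ 1 + d1 1 j.succ.succ = be d1 j := by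
        simp only [be]; rw [add_comm]
      rw [this]
      fin_cases j
      · rfl
      · exact n1
      · exact n2
    refine Fin.cases ?_ (fun k => Fin.cases ?_ (fun j => ?_) k) k
    · rw [e00, hB1]; simp
    · have e' : (Fin.succ 0 : Fin 5) = 1 := rfl
      rw [e', e01, e11]; simp
    · rw [ea, eb]
      fin_cases j <;> simp
  have hsol : ∀ (c2 c1 c0 : Om F), c2 ≠ 0 ∨ c1 ≠ 0 → ∃ v : Om F, c2 * v ^ 2 + c1 * v + c0 = 0 := by
    intro c2 c1 c0 h
    by_cases h2 : c2 = 0
    · have h1 : c1 ≠ 0 := h.resolve_left (fun h => h h2)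
      refine ⟨-c0 / c1, ?_⟩
      rw [h2]
      field_simp
      ring
    · exact root_quadratic c2 c1 c0 h2
  have hgne : ∀ G : MvPolynomial (Fin 3) F, G ≠ 0 → aeval (gen F) G ≠ 0 := by
    intro G hG h
    rw [gen_aeval] at h
    exact hG (algebraMap_Om_injective (by rw [h, map_zero]))
  obtain ⟨v, hv⟩ := hsol (algebraMap F _ C1 * gen F 1 - algebraMap F _ C2 * gen F 0)
    (lf (be d1) (gen F) * gen F 1 - lf (be d2) (gen F) * gen F 0)
    (qf (ga d1) (gen F) * gen F 1 - qf (ga d2) (gen F) * gen F 0) (by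
      rw [← hG2ev, ← hG1ev]
      rcases hne with h | h
      · exact Or.inl (hgne _ h)
      · exact Or.inr (hgne _ h))
  have hz0 : gen F 0 ≠ 0 := by
    have := hgne (X 0) (X_ne_zero 0)
    rwa [aeval_X] at this
  obtain ⟨u, hu⟩ : ∃ u, gen F 0 * u = -(algebraMap F _ C1 * (v * v) + lf (be d1) (gen F) * v
      + qf (ga d1) (gen F)) := ⟨-(algebraMap F _ C1 * (v * v) + lf (be d1) (gen F) * v
      + qf (ga d1) (gen F)) / gen F 0, mul_div_cancel₀ _ hz0⟩
  let a : Fin 5 → Om F := Fin.cons u (Fin.cons v (gen F))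
  have haz : ∀ j : Fin 3, a j.succ.succ = gen F j := fun j => rfl
  have ha1 : aeval a q1 = 0 := by
    rw [hsp1 a _ haz]
    show algebraMap F _ C1 * (v * v) + gen F 0 * u + lf (be d1) (gen F) * v
      + qf (ga d1) (gen F) = 0
    rw [hu]; ring
  refine wrap hx (a := a) ?_ ?_ haz ?_
  · rintro G (rfl | rfl)
    · exact hq1
    · exact hq2
  · rintro G (rfl | rfl)
    · exact ha1
    · refine (mul_eq_zero.1 (?_ : gen F 0 * _ = 0)).resolve_left hz0
      rw [hsp2 a _ haz]
      show gen F 0 * (algebraMap F _ C2 * (v * v) + gen F 1 * u + lf (be d2) (gen F) * v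
        + qf (ga d2) (gen F)) = 0
      linear_combination gen F 1 * hu - hv
  · intro K z y hy hz2 hS hnz
    have e1 := hS q1 (by simp)
    have e2 := hS q2 (by simp)
    rw [hsp1 y _ hy, ← map_lf, ← map_qf] at e1
    rw [hsp2 y _ hy, ← map_lf, ← map_qf] at e2
    have hz0' : z 0 ≠ 0 := by
      have := hnz (X 0) 1 (isHomogeneous_X F 0) (X_ne_zero 0)
      rwa [aeval_X] at this
    have hz0L : algebraMap K L (z 0) ≠ 0 := (map_ne_zero _).2 hz0'
    refine stable2 (K := K) (L := L) (algebraMap F K C1 * z 1 - algebraMap F K C2 * z 0)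
      (lf (be d1) z * z 1 - lf (be d2) z * z 0) (qf (ga d1) z * z 1 - qf (ga d2) z * z 0) (y 1)
      ?_ ?_ (y 0) (y 1) ⟨-(algebraMap F K C1) / z 0, -(lf (be d1) z) / z 0,
        -(qf (ga d1) z) / z 0, ?_⟩ ⟨0, 1, 0, ?_⟩
    · simp only [Algebra.smul_def, map_sub, map_mul, ← IsScalarTower.algebraMap_apply]
      linear_combination algebraMap K L (z 1) * e1 - algebraMap K L (z 0) * e2
    · rw [← hG2ev, ← hG1ev]
      rcases hne with h | h
      · exact Or.inl (hnz _ 1 hG2 h)
      · exact Or.inr (hnz _ 2 hG1 h)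
    · simp only [Algebra.smul_def, map_div₀, map_neg, ← IsScalarTower.algebraMap_apply]
      field_simp
      linear_combination e1
    · simp

end case1
end DPI
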