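import Mathlib
import Pool.Agent.H478.DO
set_option autoImplicit false
namespace DPI
open MvPolynomial

universe u v

section cubicpt
variable {F : Type u} [Field F]

theorem cubic_indep {κ : Type*} [Field κ] [Algebra F κ] (h3 : Module.finrank F κ = 3) (c : κ)
    (hc : c ∉ (algebraMap F κ).range) (x y z : F)
    (h : algebraMap F κ x + c * algebraMap F κ y + c * c * algebraMap F κ z = 0) :
    x = 0 ∧ y = 0 ∧ z = 0 := by
  have hfin : Module.Finite F κ := Module.finite_of_finrank_pos (by omega)
  have hint : IsIntegral F c := IsIntegral.of_finite F c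
  have hdvd : Module.finrank F (IntermediateField.adjoin F {c}) ∣ 3 := by
    rw [← h3]
    exact ⟨_, (Module.finrank_mul_finrank F (IntermediateField.adjoin F {c}) κ).symm⟩
  rw [IntermediateField.adjoin.finrank hint] at hdvd
  have h2 := (minpoly.two_le_natDegree_iff hint).2 hc
  have h4 : (minpoly F c).natDegree = 3 := by
    rcases (Nat.dvd_prime Nat.prime_three).1 hdvd with h | h <;> omega
  let E : Polynomial F := Polynomial.C z * Polynomial.X ^ 2 + Polynomial.C y * Polynomial.X
    + Polynomial.C x
  have hE : E = 0 := by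
    by_contra hne
    have hEc : Polynomial.aeval c E = 0 := by
      simp only [E, map_add, map_mul, map_pow, Polynomial.aeval_C, Polynomial.aeval_X]
      linear_combination h
    have h5 := Polynomial.natDegree_le_of_dvd (minpoly.dvd F c hEc) hne
    have h6 : E.natDegree ≤ 2 := Polynomial.natDegree_quadratic_le
    omega
  have e0 := congrArg (fun p => Polynomial.coeff p 0) hE
  have e1 := congrArg (fun p => Polynomial.coeff p 1) hE
  have e2 := congrArg (fun p => Polynomial.coeff p 2) hE
  simp [E, Polynomial.coeff_X, Polynomial.coeff_C] at e0 e1 e2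
  exact ⟨e0, e1, e2⟩

theorem cubic_basis {κ : Type*} [Field κ] [Algebra F κ] (h3 : Module.finrank F κ = 3) :
    ∃ θ : κ, θ ∉ (algebraMap F κ).range ∧ ∀ z : κ, ∃ a b c : F,
      z = algebraMap F κ a + θ * algebraMap F κ b + θ * θ * algebraMap F κ c := by
  have hfin : Module.Finite F κ := Module.finite_of_finrank_pos (by omega)
  obtain ⟨θ, hθ⟩ : ∃ θ : κ, θ ∉ (algebraMap F κ).range := by
    by_contra hcon
    push Not at hcon
    have hsurj : Function.Surjective (algebraMap F κ) := fun z => hcon z
    have : Module.finrank F κ = 1 := by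
      rw [finrank_eq_one_iff_of_nonzero' (1 : κ) one_ne_zero]
      intro w
      obtain ⟨c, hc⟩ := hsurj w
      exact ⟨c, by rw [Algebra.smul_def, mul_one, hc]⟩
    omega
  refine ⟨θ, hθ, ?_⟩
  have hli : LinearIndependent F ![(1 : κ), θ, θ * θ] := by
    rw [Fintype.linearIndependent_iff]
    intro g hg
    rw [Fin.sum_univ_three] at hg
    have hg' : algebraMap F κ (g 0) + θ * algebraMap F κ (g 1) + θ * θ * algebraMap F κ (g 2)
        = 0 := by
      rw [← hg]
      show _ = g 0 • (1 : κ) + g 1 • θ + g 2 • (θ * θ)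
      simp only [Algebra.smul_def]
      ring
    obtain ⟨a, b, c⟩ := cubic_indep h3 θ hθ _ _ _ hg'
    intro i
    fin_cases i
    · exact a
    · exact b
    · exact c
  intro z
  let bs := basisOfLinearIndependentOfCardEqFinrank hli (by rw [h3]; rfl)
  have h1 := bs.sum_repr z
  rw [Fin.sum_univ_three] at h1
  refine ⟨bs.repr z 0, bs.repr z 1, bs.repr z 2, ?_⟩
  have e0 : bs 0 = 1 := by simp [bs]
  have e1 : bs 1 = θ := by simp [bs]
  have e2 : bs 2 = θ * θ := by simp [bs]
  rw [e0, e1, e2, Algebra.smul_def, Algebra.smul_def, Algebra.smul_def, mul_one] at h1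
  conv_lhs => rw [← h1]
  ring

theorem two_functionals (a b c a' b' c' : F) : ∃ x y z : F, (x ≠ 0 ∨ y ≠ 0 ∨ z ≠ 0) ∧
    a * x + b * y + c * z = 0 ∧ a' * x + b' * y + c' * z = 0 := by
  obtain ⟨v, hv, h⟩ := (Matrix.exists_mulVec_eq_zero_iff
    (M := !![a, b, c; a', b', c'; 0, 0, 0])).2 (by simp [Matrix.det_fin_three])
  refine ⟨v 0, v 1, v 2, ?_, ?_, ?_⟩
  · by_contra hcon
    push Not at hcon
    apply hv
    funext i
    fin_cases i
    · exact hcon.1
    · exact hcon.2.1
    · exact hcon.2.2
  · have := congrFun h 0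
    simpa [Matrix.mulVec, dotProduct, Fin.sum_univ_succ, add_assoc] using this
  · have := congrFun h 1
    simpa [Matrix.mulVec, dotProduct, Fin.sum_univ_succ, add_assoc] using this

variable {n : ℕ}

def bl {A : Type*} [CommRing A] [Algebra F A] (d : Fin n → Fin n → F) (x y : Fin n → A) : A :=
  ∑ i, ∑ j, algebraMap F A (d i j) * (x i * y j)

theorem bl_expand {A : Type*} [CommRing A] [Algebra F A] (d : Fin n → Fin n → F) (c1 c2 c3 : A)
    (u v w : Fin n → A) :
    ∑ i, ∑ j, algebraMap F A (d i j) * ((c1 * u i + c2 * v i + c3 * w i)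
      * (c1 * u j + c2 * v j + c3 * w j)) = c1 ^ 2 * bl d u u + c2 ^ 2 * bl d v v
      + c3 ^ 2 * bl d w w + c1 * c2 * (bl d u v + bl d v u) + c1 * c3 * (bl d u w + bl d w u)
      + c2 * c3 * (bl d v w + bl d w v) := by
  simp only [bl, Finset.mul_sum, ← Finset.sum_add_distrib]
  exact Finset.sum_congr rfl fun i _ => Finset.sum_congr rfl fun j _ => by ring

theorem bl_map {A : Type*} [CommRing A] [Algebra F A] (d : Fin n → Fin n → F)
    (u v : Fin n → F) : bl d (fun i => algebraMap F A (u i)) (fun i => algebraMap F A (v i))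
      = algebraMap F A (bl d u v) := by
  simp [bl]

theorem line3 [NeZero n] {S : Set (MvPolynomial (Fin n) F)} (hS : ∀ G ∈ S, G.IsHomogeneous 2)
    {κ : Type*} [Field κ] [Algebra F κ] (h3 : Module.finrank F κ = 3) (a : Fin n → κ)
    (ha : a ≠ 0) (h0 : ∀ G ∈ S, aeval a G = 0) (c1 c2 : κ) (u v : Fin n → F)
    (hau : a = fun i => c1 * algebraMap F κ (u i) + c2 * algebraMap F κ (v i)) :
    HasPoint S F := by
  by_cases hc1 : c1 = 0
  · refine hasPoint_of_smul hS a ha h0 c2 v ?_
    rw [hau, hc1]
    funext i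
    ring
  · obtain ⟨c, hc⟩ : ∃ c, c = c2 / c1 := ⟨_, rfl⟩
    have hau' : a = fun i => c1 * (algebraMap F κ (u i) + c * algebraMap F κ (v i)) := by
      rw [hau]
      funext i
      rw [hc]
      field_simp
    by_cases hcF : c ∈ (algebraMap F κ).range
    · obtain ⟨e, he⟩ := hcF
      refine hasPoint_of_smul hS a ha h0 c1 (fun i => u i + e * v i) ?_
      rw [hau']
      funext i
      rw [map_add, map_mul, he]
    · have key : ∀ G ∈ S, aeval u G = 0 ∧ aeval v G = 0 := by
        intro G hG
        obtain ⟨d, hd⟩ := quad_matrix (hS G hG)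
        have h1 := h0 G hG
        rw [hau', aeval_homog (hS G hG)] at h1
        have h2 := (mul_eq_zero.1 h1).resolve_left (pow_ne_zero _ hc1)
        rw [aeval_quad hd] at h2
        have h4 := bl_expand d 1 c 0 (fun i => algebraMap F κ (u i))
          (fun i => algebraMap F κ (v i)) 0
        have h5 : ∑ i, ∑ j, algebraMap F κ (d i j) * ((1 * algebraMap F κ (u i)
            + c * algebraMap F κ (v i) + 0 * (0 : Fin n → κ) i)
            * (1 * algebraMap F κ (u j) + c * algebraMap F κ (v j) + 0 * (0 : Fin n → κ) j))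
            = ∑ i, ∑ j, algebraMap F κ (d i j) * ((algebraMap F κ (u i)
            + c * algebraMap F κ (v i)) * (algebraMap F κ (u j) + c * algebraMap F κ (v j))) :=
          Finset.sum_congr rfl fun i _ => Finset.sum_congr rfl fun j _ => by ring
        rw [h5, h2, bl_map, bl_map, bl_map, bl_map] at h4
        obtain ⟨k1, k2, k3⟩ := cubic_indep h3 c hcF (bl d u u) (bl d u v + bl d v u) (bl d v v) (by
          rw [map_add]
          linear_combination -h4)
        constructor
        · rw [aeval_quad hd]; exact k1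
        · rw [aeval_quad hd]; exact k3
      by_cases hu : u = 0
      · refine ⟨v, ?_, fun G hG => (key G hG).2⟩
        rintro rfl
        apply ha
        rw [hau, hu]
        funext i
        simp
      · exact ⟨u, hu, fun G hG => (key G hG).1⟩

/-- a pencil of quadrics with a point of degree three has a rational point -/
theorem quad_cubic [NeZero n] {q1 q2 : MvPolynomial (Fin n) F} (hq1 : q1.IsHomogeneous 2)
    (hq2 : q2.IsHomogeneous 2) {κ : Type*} [Field κ] [Algebra F κ]
    (h3 : Module.finrank F κ = 3) (hp : HasPoint {q1, q2} κ) : HasPoint {q1, q2} F := by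
  have hS : ∀ G ∈ ({q1, q2} : Set (MvPolynomial (Fin n) F)), G.IsHomogeneous 2 := by
    rintro G (rfl | rfl)
    · exact hq1
    · exact hq2
  obtain ⟨a, ha, h0⟩ := hp
  obtain ⟨θ, hθ, hb⟩ := cubic_basis h3
  choose u v w huvw using fun i => hb (a i)
  obtain ⟨r, s, t, hrst⟩ := hb (θ * (θ * θ))
  obtain ⟨d1, hd1⟩ := quad_matrix hq1
  obtain ⟨d2, hd2⟩ := quad_matrix hq2
  have hrel : ∀ {q : MvPolynomial (Fin n) F} {d : Fin n → Fin n → F}
      (_ : q = ∑ i, ∑ j, C (d i j) * (X i * X j)) (_ : aeval a q = 0),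
      bl d u u + r * (bl d v w + bl d w v) + t * r * bl d w w = 0 ∧
      bl d u v + bl d v u + s * (bl d v w + bl d w v) + (r + t * s) * bl d w w = 0 ∧
      bl d v v + (bl d u w + bl d w u) + t * (bl d v w + bl d w v)
        + (s + t ^ 2) * bl d w w = 0 := by
    intro q d hd hq
    rw [aeval_quad hd] at hq
    have h4 := bl_expand d 1 θ (θ * θ) (fun i => algebraMap F κ (u i))
          (fun i => algebraMap F κ (v i)) (fun i => algebraMap F κ (w i))
    simp only [bl_map] at h4
    have h5 : ∑ i, ∑ j, algebraMap F κ (d i j) * ((1 * algebraMap F κ (u i)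
            + θ * algebraMap F κ (v i) + θ * θ * algebraMap F κ (w i))
            * (1 * algebraMap F κ (u j) + θ * algebraMap F κ (v j) + θ * θ * algebraMap F κ (w j)))
            = ∑ i, ∑ j, algebraMap F κ (d i j) * (a i * a j) :=
      Finset.sum_congr rfl fun i _ => Finset.sum_congr rfl fun j _ => by
        rw [huvw i, huvw j]; ring
    rw [h5, hq] at h4
    refine cubic_indep h3 θ hθ _ _ _ ?_
    simp only [map_add, map_mul, map_pow]
    have h6 : θ ^ 4 = θ * (algebraMap F κ r + θ * algebraMap F κ s + θ * θ * algebraMap F κ t) := by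
      rw [← hrst]; ring
    linear_combination -h4 - (algebraMap F κ (bl d v w) + algebraMap F κ (bl d w v)
      + algebraMap F κ t * algebraMap F κ (bl d w w)) * hrst - algebraMap F κ (bl d w w) * h6
  obtain ⟨a1, a2, a3⟩ := hrel hd1 (h0 q1 (by simp))
  obtain ⟨b1, b2, b3⟩ := hrel hd2 (h0 q2 (by simp))
  -- choice of `z`
  obtain ⟨z0, z1, z2, hz, hl1, hl2⟩ := two_functionals
    (bl d1 w w) (-(bl d1 v w + bl d1 w v) - t * bl d1 w w) (bl d1 v v + s * bl d1 w w)
    (bl d2 w w) (-(bl d2 v w + bl d2 w v) - t * bl d2 w w) (bl d2 v v + s * bl d2 w w)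
  obtain ⟨z, hzdef⟩ : ∃ z : κ, z = algebraMap F κ z0 + θ * algebraMap F κ z1
    + θ * θ * algebraMap F κ z2 := ⟨_, rfl⟩
  have hz0 : z ≠ 0 := by
    intro h
    rw [hzdef] at h
    obtain ⟨k1, k2, k3⟩ := cubic_indep h3 θ hθ _ _ _ h
    rcases hz with h | h | h
    · exact h k1
    · exact h k2
    · exact h k3
  obtain ⟨y0, y1, y2, hy⟩ := hb z⁻¹
  obtain ⟨A, hA⟩ : ∃ A, A = y2 := ⟨_, rfl⟩
  obtain ⟨B, hB⟩ : ∃ B, B = y1 + t * y2 := ⟨_, rfl⟩
  obtain ⟨C', hC⟩ : ∃ C', C' = y0 + t * B + s * A := ⟨_, rfl⟩
  have hy2 : y2 = A := hA.symm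
  have hy1 : y1 = B - t * A := by rw [hB, hA]; ring
  have hy0 : y0 = C' - t * B - s * A := by rw [hC]; ring
  have hyz : z⁻¹ * z = 1 := inv_mul_cancel₀ hz0
  rw [hy, hzdef] at hyz
  have hco := cubic_indep h3 θ hθ
    ((C' - t * B - s * A) * z0 + r * A * z1 + r * B * z2 - 1)
    ((B - t * A) * z0 + (C' - t * B) * z1 + (s * B + r * A) * z2)
    (A * z0 + B * z1 + C' * z2) (by
      rw [hy0, hy1, hy2] at hyz
      simp only [map_add, map_mul, map_sub, map_one] at hyz ⊢
      have h6 : θ ^ 4 = θ * (algebraMap F κ r + θ * algebraMap F κ s + θ * θ * algebraMap F κ t) := by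
        rw [← hrst]; ring
      linear_combination hyz
        - ((algebraMap F κ B - algebraMap F κ t * algebraMap F κ A) * algebraMap F κ z2
          + algebraMap F κ A * algebraMap F κ z1
          + algebraMap F κ t * algebraMap F κ A * algebraMap F κ z2) * hrst
        - algebraMap F κ A * algebraMap F κ z2 * h6)
  obtain ⟨m0, m1, m2⟩ := hco
  -- coordinates of the adjoint of `y`
  obtain ⟨N, hN⟩ : ∃ N, N = (C' - t * B - s * A) * ((C' - t * B) * C' - (s * B + r * A) * B)
    + (r * A) * ((s * B + r * A) * A - (B - t * A) * C')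
    + (r * B) * ((B - t * A) * B - (C' - t * B) * A) := ⟨_, rfl⟩
  have Y0 : N * z0 = (C' - t * B) * C' - (s * B + r * A) * B := by
    rw [hN]
    linear_combination ((C' - t * B) * C' - (s * B + r * A) * B) * m0
      + ((r * B) * B - (r * A) * C') * m1 + ((r * A) * (s * B + r * A) - (r * B) * (C' - t * B)) * m2
  have Y1 : N * z1 = (s * B + r * A) * A - (B - t * A) * C' := by
    rw [hN]
    linear_combination ((s * B + r * A) * A - (B - t * A) * C') * m0
      + ((C' - t * B - s * A) * C' - (r * B) * A) * m1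
      + ((r * B) * (B - t * A) - (C' - t * B - s * A) * (s * B + r * A)) * m2
  have Y2 : N * z2 = (B - t * A) * B - (C' - t * B) * A := by
    rw [hN]
    linear_combination ((B - t * A) * B - (C' - t * B) * A) * m0
      + ((r * A) * A - (C' - t * B - s * A) * B) * m1
      + ((C' - t * B - s * A) * (C' - t * B) - (r * A) * (B - t * A)) * m2
  have hABC : A ≠ 0 ∨ B ≠ 0 ∨ C' ≠ 0 := by
    by_contra hcon
    push Not at hcon
    obtain ⟨k1, k2, k3⟩ := hcon
    rw [k1, k2, k3] at m0
    apply one_ne_zero (α := F)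
    linear_combination -m0
  have hval : ∀ {q : MvPolynomial (Fin n) F} {d : Fin n → Fin n → F}
      (_ : q = ∑ i, ∑ j, C (d i j) * (X i * X j))
      (_ : bl d u u + r * (bl d v w + bl d w v) + t * r * bl d w w = 0)
      (_ : bl d u v + bl d v u + s * (bl d v w + bl d w v) + (r + t * s) * bl d w w = 0)
      (_ : bl d v v + (bl d u w + bl d w u) + t * (bl d v w + bl d w v)
        + (s + t ^ 2) * bl d w w = 0)
      (_ : bl d w w * z0 + (-(bl d v w + bl d w v) - t * bl d w w) * z1
        + (bl d v v + s * bl d w w) * z2 = 0),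
      aeval (fun i => A * u i + B * v i + C' * w i) q = 0 := by
    intro q d hd e1 e2 e3 hl
    rw [aeval_quad hd]
    have h4 := bl_expand (A := F) d A B C' u v w
    rw [h4]
    linear_combination A ^ 2 * e1 + A * B * e2 + A * C' * e3 + N * hl - bl d w w * Y0
      - (-(bl d v w + bl d w v) - t * bl d w w) * Y1 - (bl d v v + s * bl d w w) * Y2
  have v1 := hval hd1 a1 a2 a3 hl1
  have v2 := hval hd2 b1 b2 b3 hl2
  by_cases hvec : (fun i => A * u i + B * v i + C' * w i) = 0
  · have hvec' : ∀ i, A * u i + B * v i + C' * w i = 0 := fun i => congrFun hvec i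
    rcases hABC with hne | hne | hne
    · refine line3 hS h3 a ha h0 (θ - algebraMap F κ (B / A)) (θ * θ - algebraMap F κ (C' / A))
        v w ?_
      funext i
      have : u i = -(B / A) * v i - (C' / A) * w i := by
        field_simp
        linear_combination hvec' i
      rw [huvw i, this]
      simp only [map_sub, map_mul, map_neg]
      ring
    · refine line3 hS h3 a ha h0 (1 - θ * algebraMap F κ (A / B))
        (θ * θ - θ * algebraMap F κ (C' / B)) u w ?_
      funext i
      have : v i = -(A / B) * u i - (C' / B) * w i := by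
        field_simp
        linear_combination hvec' i
      rw [huvw i, this]
      simp only [map_sub, map_mul, map_neg]
      ring
    · refine line3 hS h3 a ha h0 (1 - θ * θ * algebraMap F κ (A / C'))
        (θ - θ * θ * algebraMap F κ (B / C')) u v ?_
      funext i
      have : w i = -(A / C') * u i - (B / C') * v i := by
        field_simp
        linear_combination hvec' i
      rw [huvw i, this]
      simp only [map_sub, map_mul, map_neg]
      ring
  · refine ⟨_, hvec, ?_⟩
    rintro G (rfl | rfl)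
    · exact v1
    · exact v2

end cubicpt
end DPI
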