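import Mathlib
import Pool.Agent.H478.DP
set_option autoImplicit false
namespace DPI
open MvPolynomial

universe u v

section final
variable {F L : Type u} [Field F] [Field L] [Algebra F L]

theorem ne_zero_of_wit {σ : Type} {w : σ → ℕ} {S : Set (MvPolynomial σ F)} {x : σ → L}
    (hx : IsFunctionField w S L x) {e : ℕ} (h : Wit F L e) : x ≠ 0 := by
  rintro rfl
  obtain ⟨s, t, hst, -, -⟩ := h
  have hs : Transcendental F s := hst.transcendental 0
  apply hs
  obtain ⟨n, G, H, hG, hH, hH0, rfl⟩ := hx.surj s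
  rw [aeval_zero, aeval_zero, ← map_div₀]
  exact isAlgebraic_algebraMap _

theorem Wit.point {σ : Type} [Finite σ] {w : σ → ℕ} {S : Set (MvPolynomial σ F)} {x : σ → L}
    (hx : IsFunctionField w S L x) (hS : ∀ G ∈ S, ∃ n, G.IsHomogeneous n)
    (hSw : ∀ G ∈ S, ∃ n, IsWeightedHomogeneous w G n) {e : ℕ}
    (h : Wit F L e) : ∃ (κ : Type u) (_ : Field κ) (_ : Algebra F κ), Module.Finite F κ ∧
      Module.finrank F κ ≤ e ∧ HasPoint S κ := by
  have hx0 := ne_zero_of_wit hx h
  obtain ⟨s, t, hst, hfin, hle⟩ := h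
  refine point_of_function_field S hS s t hst e hfin hle ⟨x, hx0, fun G hG => ?_⟩
  obtain ⟨n, hn⟩ := hSw G hG
  exact (hx.mem_iff n G hn).2 (Ideal.subset_span hG)

theorem minDeg_le {σ : Type} {S : Set (MvPolynomial σ F)} {κ : Type u} [Field κ] [Algebra F κ]
    (hfin : Module.Finite F κ) (h : HasPoint S κ) : minDeg S ≤ Module.finrank F κ :=
  Nat.sInf_le ⟨κ, inferInstance, inferInstance, hfin, rfl, h⟩

theorem minDeg_spec {σ : Type} {S : Set (MvPolynomial σ F)} {κ : Type u} [Field κ] [Algebra F κ]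
    (hfin : Module.Finite F κ) (h : HasPoint S κ) :
    ∃ (κ : Type u) (_ : Field κ) (_ : Algebra F κ), Module.Finite F κ ∧
      Module.finrank F κ = minDeg S ∧ HasPoint S κ := by
  have hne : Set.Nonempty {n | ∃ (κ : Type u) (_ : Field κ) (_ : Algebra F κ),
      Module.Finite F κ ∧ Module.finrank F κ = n ∧ HasPoint S κ} :=
    ⟨_, κ, inferInstance, inferInstance, hfin, rfl, h⟩
  exact Nat.sInf_mem hne

theorem hasPoint_of_finrank_one {σ : Type} {S : Set (MvPolynomial σ F)} {κ : Type u} [Field κ]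
    [Algebra F κ] (h1 : Module.finrank F κ = 1) (h : HasPoint S κ) : HasPoint S F := by
  obtain ⟨a, ha, h0⟩ := h
  have hsurj : ∀ z : κ, ∃ c : F, algebraMap F κ c = z := by
    intro z
    obtain ⟨c, hc⟩ := (finrank_eq_one_iff_of_nonzero' (1 : κ) one_ne_zero).1 h1 z
    exact ⟨c, by rw [← hc, Algebra.smul_def, mul_one]⟩
  choose b hb using fun i => hsurj (a i)
  have hab : a = fun i => algebraMap F κ (b i) := by
    funext i; rw [hb]
  refine ⟨b, ?_, fun G hG => ?_⟩
  · rintro rfl
    apply ha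
    rw [hab]
    funext i
    simp
  · have := h0 G hG
    rw [hab, aeval_alg] at this
    exact (map_eq_zero _).1 this

theorem irr_pos {e : ℕ} (h : Wit F L e) : 1 ≤ irr F L := by
  obtain ⟨s, t, h1, h2, _⟩ := h
  obtain ⟨s, t, h1, h2, h3⟩ := irr_spec h1 h2
  rw [← h3]
  exact Module.finrank_pos

theorem irr_eq_one_iff {e : ℕ} (h : Wit F L e) : irr F L = 1 ↔ IsRational F L := by
  constructor
  · intro h1
    obtain ⟨s, t, k1, k2, _⟩ := h
    obtain ⟨s, t, k1, k2, k3⟩ := irr_spec k1 k2
    rw [h1] at k3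
    exact ⟨s, t, k1, IntermediateField.finrank_eq_one_iff_eq_top.1 k3⟩
  · rintro ⟨s, t, k1, k2⟩
    have h1 : Module.finrank (IntermediateField.adjoin F {s, t}) L = 1 :=
      IntermediateField.finrank_eq_one_iff_eq_top.2 k2
    have h2 : Module.Finite (IntermediateField.adjoin F {s, t}) L :=
      Module.finite_of_finrank_pos (by omega)
    have h3 := DPI.irr_le k1 h2 h1.le
    have h4 := irr_pos h
    omega

open Classical in
/-- combination of the upper and lower bounds -/
theorem irr_formula {σ : Type} [Finite σ] {S : Set (MvPolynomial σ F)} {x : σ → L}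
    (hx : IsFunctionField 1 S L x) (hS : ∀ G ∈ S, ∃ n, G.IsHomogeneous n)
    (h : Wit F L (max 2 (minDeg S))) :
    irr F L = if IsRational F L then 1 else max 2 (minDeg S) := by
  split_ifs with hr
  · exact (irr_eq_one_iff h).2 hr
  · have h1 : irr F L ≠ 1 := fun h1 => hr ((irr_eq_one_iff h).1 h1)
    have h2 := irr_pos h
    have h3 := h.irr_le
    obtain ⟨κ, _, _, hfin, hle, hp⟩ := (h.spec).point hx hS hS
    have h4 := minDeg_le hfin hp
    have h5 : max 2 (minDeg S) ≤ irr F L := max_le (by omega) (by omega)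
    omega

open Classical in
theorem irr_dp3 {f : MvPolynomial (Fin 4) F} (hf : f.IsHomogeneous 3)
    (hs : IsSmooth ![f]) {x : Fin 4 → L} (hx : IsFunctionField 1 {f} L x) :
    (irr F L = if IsRational F L then 1 else max 2 (minDeg {f})) ∧
      (minDeg {f} = 1 ∨ minDeg {f} = 3) := by
  have hS : ∀ G ∈ ({f} : Set (MvPolynomial (Fin 4) F)), ∃ n, G.IsHomogeneous n := by
    rintro G rfl
    exact ⟨3, hf⟩
  by_cases hp : HasPoint {f} F
  · have hw := cubic_wit_point hf hs hx hp
    refine ⟨irr_formula hx hS (hw.mono (le_max_left _ _)), Or.inl ?_⟩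
    have h1 := minDeg_le (κ := F) inferInstance hp
    rw [Module.finrank_self] at h1
    obtain ⟨κ, _, _, hfin, heq, _⟩ := minDeg_spec (κ := F) inferInstance hp
    have : 0 < Module.finrank F κ := Module.finrank_pos
    omega
  · have hw := cubic_wit_nopoint hf hx hp
    obtain ⟨κ, _, _, hfin, hle, hpt⟩ := hw.point hx hS hS
    obtain ⟨κ', _, _, hfin', heq, hpt'⟩ := minDeg_spec hfin hpt
    have h1 : 0 < Module.finrank F κ' := Module.finrank_pos
    have h2 : Module.finrank F κ' ≠ 1 := fun h => hp (hasPoint_of_finrank_one h hpt')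
    have h3 : Module.finrank F κ' ≠ 2 := fun h => hp (cubic_quad hf h hpt')
    have h4 := minDeg_le hfin hpt
    have h5 : minDeg {f} = 3 := by omega
    refine ⟨irr_formula hx hS (hw.mono ?_), Or.inr h5⟩
    rw [h5]; exact le_max_right _ _

open Classical in
theorem irr_dp4 {q1 q2 : MvPolynomial (Fin 5) F}
    (hq1 : q1.IsHomogeneous 2) (hq2 : q2.IsHomogeneous 2) (hs : IsSmooth ![q1, q2])
    {x : Fin 5 → L} (hx : IsFunctionField 1 {q1, q2} L x) :
    (irr F L = if IsRational F L then 1 else max 2 (minDeg {q1, q2})) ∧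
      (minDeg {q1, q2} = 1 ∨ minDeg {q1, q2} = 2 ∨ minDeg {q1, q2} = 4) := by
  have hS : ∀ G ∈ ({q1, q2} : Set (MvPolynomial (Fin 5) F)), ∃ n, G.IsHomogeneous n := by
    rintro G (rfl | rfl)
    · exact ⟨2, hq1⟩
    · exact ⟨2, hq2⟩
  by_cases hp : HasPoint {q1, q2} F
  · have hw := dp4_wit2_point hq1 hq2 hs hx hp
    refine ⟨irr_formula hx hS (hw.mono (le_max_left _ _)), Or.inl ?_⟩
    have h1 := minDeg_le (κ := F) inferInstance hp
    rw [Module.finrank_self] at h1
    obtain ⟨κ, _, _, hfin, heq, _⟩ := minDeg_spec (κ := F) inferInstance hp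
    have : 0 < Module.finrank F κ := Module.finrank_pos
    omega
  · by_cases hp2 : ∃ (κ : Type u) (_ : Field κ) (_ : Algebra F κ), Module.finrank F κ = 2 ∧
      HasPoint {q1, q2} κ
    · obtain ⟨κ, _, _, h2, hpt⟩ := hp2
      have hw := dp4_wit2_quad hq1 hq2 hs hx hp h2 hpt
      refine ⟨irr_formula hx hS (hw.mono (le_max_left _ _)), Or.inr (Or.inl ?_)⟩
      have hfin : Module.Finite F κ := Module.finite_of_finrank_pos (by omega)
      have h1 := minDeg_le hfin hpt
      obtain ⟨κ', _, _, hfin', heq, hpt'⟩ := minDeg_spec hfin hpt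
      have h3 : 0 < Module.finrank F κ' := Module.finrank_pos
      have h4 : Module.finrank F κ' ≠ 1 := fun h => hp (hasPoint_of_finrank_one h hpt')
      omega
    · have hno : ∀ (κ : Type u) [Field κ] [Algebra F κ], Module.Finite F κ →
          Module.finrank F κ ≤ 2 → ¬ HasPoint {q1, q2} κ := by
        intro κ _ _ hfin hle hpt
        have h3 : 0 < Module.finrank F κ := Module.finrank_pos
        have h4 : Module.finrank F κ ≠ 1 := fun h => hp (hasPoint_of_finrank_one h hpt)
        exact hp2 ⟨κ, inferInstance, inferInstance, by omega, hpt⟩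
      have hw := dp4_wit4 hq1 hq2 hx hno
      obtain ⟨κ, _, _, hfin, hle, hpt⟩ := hw.point hx hS hS
      obtain ⟨κ', _, _, hfin', heq, hpt'⟩ := minDeg_spec hfin hpt
      have h1 : ¬ Module.finrank F κ' ≤ 2 := fun h => hno κ' hfin' h hpt'
      have h3 : Module.finrank F κ' ≠ 3 := fun h => hp (quad_cubic hq1 hq2 h hpt')
      have h4 := minDeg_le hfin hpt
      have h5 : minDeg {q1, q2} = 4 := by omega
      refine ⟨irr_formula hx hS (hw.mono ?_), Or.inr (Or.inr h5)⟩
      rw [h5]; exact le_max_right _ _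

/-- in a weighted homogeneous polynomial of degree `2 w₀` with nonzero coefficient at `x₀²`, the
degree in `x₀` is `2` -/
theorem degreeOf_two {w : Fin 4 → ℕ} {f : MvPolynomial (Fin 4) F} (hw0 : 0 < w 0)
    (hf : IsWeightedHomogeneous w f (2 * w 0)) (hc : coeff (Finsupp.single 0 2) f ≠ 0) :
    degreeOf 0 f = 2 := by
  refine le_antisymm ?_ ?_
  · rw [degreeOf_le_iff]
    intro m hm
    have h1 : Finsupp.weight w m = 2 * w 0 := hf (mem_support_iff.1 hm)
    rw [Finsupp.weight_apply, Finsupp.sum_fintype _ _ (by simp)] at h1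
    rw [Fin.sum_univ_succ] at h1
    simp only [smul_eq_mul] at h1
    by_contra hcon
    have h2 : 3 ≤ m 0 := by omega
    have h3 : 3 * w 0 ≤ m 0 * w 0 := Nat.mul_le_mul_right _ h2
    omega
  · have := monomial_le_degreeOf 0 (mem_support_iff.2 hc)
    rwa [Finsupp.single_eq_same] at this

open Classical in
theorem irr_double {w : Fin 4 → ℕ} (hw3 : w 3 = 1) (hw0 : 0 < w 0) {f : MvPolynomial (Fin 4) F}
    (hf : IsWeightedHomogeneous w f (2 * w 0)) (hc : coeff (Finsupp.single 0 2) f ≠ 0)
    {x : Fin 4 → L} (hx : IsFunctionField w {f} L x) :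
    irr F L = if IsRational F L then 1 else 2 := by
  have hdeg := degreeOf_two hw0 hf hc
  have hw := wit_hyp hw3 hf hx (by omega)
  rw [hdeg] at hw
  split_ifs with hr
  · exact (irr_eq_one_iff hw).2 hr
  · have h1 : irr F L ≠ 1 := fun h1 => hr ((irr_eq_one_iff hw).1 h1)
    have h2 := irr_pos hw
    have h3 := hw.irr_le
    omega

end final
end DPI
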