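import Mathlib
import Pool.Agent.H478.DQ
set_option autoImplicit false
namespace DPI
open MvPolynomial

universe u v

section final
variable {F L : Type u} [Field F] [Field L] [Algebra F L]

theorem double_minDeg {w : Fin 4 → ℕ} (hw : ∀ i, 0 < w i) {f : MvPolynomial (Fin 4) F}
    (hf : IsWeightedHomogeneous w f (2 * w 0)) (hc : coeff (Finsupp.single 0 2) f ≠ 0) :
    minDeg {f} ≤ 2 := by
  classical
  have hdeg := degreeOf_two (hw 0) hf hc
  set P := finSuccEquiv F 3 f with hP
  have hPdeg : P.natDegree = 2 := by rw [hP, natDegree_finSuccEquiv, hdeg]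
  let a0 : Fin 3 → F := ![0, 0, 1]
  let p : Polynomial F := P.map (aeval a0 : MvPolynomial (Fin 3) F →ₐ[F] F).toRingHom
  have hco : aeval a0 (P.coeff 2) = coeff (Finsupp.single 0 2) f := by
    have h1 := weighted_coeff hf 2
    rw [Nat.sub_self] at h1
    have h2 : P.coeff 2 = C (coeff 0 (P.coeff 2)) := by
      ext m
      rw [coeff_C]
      split_ifs with hm
      · rw [hm]
      · by_contra hne
        have h3 := h1 hne
        rw [Finsupp.weight_apply, Finsupp.sum_fintype _ _ (by simp)] at h3
        apply hm
        ext j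
        have h4 := (Finset.sum_eq_zero_iff.1 h3) j (Finset.mem_univ _)
        simp only [smul_eq_mul, mul_eq_zero] at h4
        rcases h4 with h4 | h4
        · exact h4.symm
        · exact absurd h4 (hw j.succ).ne'
    rw [h2, aeval_C, hP, finSuccEquiv_coeff_coeff]
    simp only [Algebra.algebraMap_self, RingHom.id_apply]
    congr 1
    ext j
    refine Fin.cases ?_ (fun i => ?_) j
    · simp
    · simp [Finsupp.single_apply, Fin.succ_ne_zero]
  have hp2 : p.coeff 2 ≠ 0 := by
    simp only [p, Polynomial.coeff_map]
    show aeval a0 (P.coeff 2) ≠ 0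
    rw [hco]
    exact hc
  have hpdeg : p.natDegree = 2 := by
    refine le_antisymm ?_ (Polynomial.le_natDegree_of_ne_zero hp2)
    have := Polynomial.natDegree_map_le (f := (aeval a0 : MvPolynomial (Fin 3) F →ₐ[F] F).toRingHom)
      (p := P)
    rw [hPdeg] at this
    exact this
  have hp0 : p ≠ 0 := by
    intro h; rw [h, Polynomial.natDegree_zero] at hpdeg; omega
  obtain ⟨v, hv⟩ := IsAlgClosed.exists_aeval_eq_zero (AlgebraicClosure F) p (by
    intro hcon
    rw [Polynomial.natDegree, hcon] at hpdeg
    simp at hpdeg)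
  have hint : IsIntegral F v := Algebra.IsIntegral.isIntegral v
  let κ := IntermediateField.adjoin F {v}
  let v' : κ := ⟨v, IntermediateField.mem_adjoin_simple_self F v⟩
  have hv' : Polynomial.aeval v' p = 0 := by
    apply Subtype.ext
    have : ((Polynomial.aeval v' p : κ) : AlgebraicClosure F) = Polynomial.aeval v p := by
      have := Polynomial.aeval_algebraMap_apply (AlgebraicClosure F) v' p
      exact this.symm
    rw [this, hv]
    rfl
  have hfin : Module.Finite F κ := IntermediateField.adjoin.finiteDimensional hint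
  have hle : Module.finrank F κ ≤ 2 := by
    rw [IntermediateField.adjoin.finrank hint, ← hpdeg]
    exact Polynomial.natDegree_le_of_dvd (minpoly.dvd F v hv) hp0
  refine (minDeg_le (κ := κ) hfin ?_).trans hle
  refine ⟨Fin.cons v' (fun i => algebraMap F κ (a0 i)), ?_, ?_⟩
  · intro h
    have h1 : algebraMap F κ (a0 2) = 0 := congrFun h 3
    have h2 : a0 2 = 1 := rfl
    rw [h2, map_one] at h1
    exact one_ne_zero h1
  · rintro G rfl
    rw [aeval_finSucc]
    rw [← hv', Polynomial.aeval_def, Polynomial.eval₂_map]
    show Polynomial.eval₂ (aeval (fun i : Fin 3 => algebraMap F κ (a0 i))).toRingHom v' _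
      = Polynomial.eval₂ _ v' _
    congr 1
    ext m
    · simp
    · simp

open Classical in
theorem irr_double' {w : Fin 4 → ℕ} (hw : ∀ i, 0 < w i) (hw3 : w 3 = 1)
    {f : MvPolynomial (Fin 4) F}
    (hf : IsWeightedHomogeneous w f (2 * w 0)) (hc : coeff (Finsupp.single 0 2) f ≠ 0)
    {x : Fin 4 → L} (hx : IsFunctionField w {f} L x) :
    irr F L = if IsRational F L then 1 else max 2 (minDeg {f}) := by
  rw [irr_double hw3 (hw 0) hf hc hx, max_eq_left (double_minDeg hw hf hc)]

end final
end DPI
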