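import Mathlib
import Pool.Agent.H478.DR
set_option autoImplicit false
namespace DPI
open MvPolynomial

universe u v

section nine
variable {F L : Type u} [Field F] [Field L] [Algebra F L]

/-- the cubic form `N(x₀ e₀ + x₁ e₁ + x₂ e₂) - b x₃³` of a cubic extension with basis `e` -/
noncomputable def normCubic {E : Type u} [Field E] [Algebra F E]
    (e : Module.Basis (Fin 3) F E) (b : F) : MvPolynomial (Fin 4) F :=
  (∑ i : Fin 3, (X i.castSucc : MvPolynomial (Fin 4) F) •
    ((Algebra.leftMulMatrix e (e i)).map C)).det - C b * X 3 ^ 3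

theorem aeval_normCubic {E : Type u} [Field E] [Algebra F E]
    (e : Module.Basis (Fin 3) F E) (b : F) (a : Fin 4 → F) :
    aeval a (normCubic e b) = Algebra.norm F (∑ i : Fin 3, a i.castSucc • e i) - b * a 3 ^ 3 := by
  simp only [normCubic, map_sub, map_mul, map_pow, aeval_C, aeval_X, Algebra.algebraMap_self,
    RingHom.id_apply]
  congr 1
  rw [AlgHom.map_det, Algebra.norm_eq_matrix_det e]
  congr 1
  ext i j
  simp [Matrix.sum_apply, Matrix.smul_apply, map_sum]

theorem normCubic_homog {E : Type u} [Field E] [Algebra F E]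
    (e : Module.Basis (Fin 3) F E) (b : F) : (normCubic e b).IsHomogeneous 3 := by
  refine IsHomogeneous.sub ?_ ?_
  · rw [Matrix.det_apply]
    refine IsHomogeneous.sum _ _ _ fun s _ => ?_
    have h1 : (∏ i : Fin 3, (∑ i : Fin 3, (X i.castSucc : MvPolynomial (Fin 4) F) •
        ((Algebra.leftMulMatrix e (e i)).map (C : F → MvPolynomial (Fin 4) F))) (s i) i).IsHomogeneous (∑ _i : Fin 3, 1) := by
      refine IsHomogeneous.prod _ _ _ fun i _ => ?_
      rw [Matrix.sum_apply]
      refine IsHomogeneous.sum _ _ _ fun j _ => ?_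
      rw [Matrix.smul_apply, Matrix.map_apply, smul_eq_mul]
      simpa using (isHomogeneous_X F j.castSucc).mul
        (isHomogeneous_C (Fin 4) (Algebra.leftMulMatrix e (e j) (s i) i))
    have h2 : (∑ _i : Fin 3, 1) = 3 := by simp
    rw [h2] at h1
    rcases Int.units_eq_one_or (Equiv.Perm.sign s) with h | h <;> rw [h]
    · rw [one_smul]; exact h1
    · rw [Units.neg_smul, one_smul]
      exact h1.neg
  · have h1 := (isHomogeneous_C (Fin 4) b).mul ((isHomogeneous_X F (3 : Fin 4)).pow 3)
    simpa using h1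

theorem normCubic_nopoint {E : Type u} [Field E] [Algebra F E]
    (e : Module.Basis (Fin 3) F E) (b : F) (hb : ∀ z : E, Algebra.norm F z ≠ b) :
    ¬ HasPoint {normCubic e b} F := by
  rintro ⟨a, ha, h0⟩
  have h0 := h0 _ rfl
  rw [aeval_normCubic] at h0
  have hfin : Module.Finite F E := Module.Finite.of_basis e
  obtain ⟨z, hz⟩ : ∃ z, z = ∑ i : Fin 3, a i.castSucc • e i := ⟨_, rfl⟩
  rw [← hz] at h0
  by_cases h3 : a 3 = 0
  · have h1 : Algebra.norm F z = 0 := by
      rw [h3] at h0
      linear_combination h0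
    rw [Algebra.norm_eq_zero_iff] at h1
    rw [h1] at hz
    have h2 := Fintype.linearIndependent_iff.1 e.linearIndependent (fun i => a i.castSucc) hz.symm
    apply ha
    funext i
    refine Fin.lastCases h3 (fun j => h2 j) i
  · apply hb ((a 3)⁻¹ • z)
    have h4 : Module.finrank F E = 3 := by
      rw [Module.finrank_eq_card_basis e]; rfl
    rw [Algebra.smul_def, map_mul, Algebra.norm_algebraMap, h4]
    have h5 : Algebra.norm F z = b * a 3 ^ 3 := by linear_combination h0
    rw [h5]
    field_simp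

open Classical in
theorem irr_nopoint_cubic {f : MvPolynomial (Fin 4) F} (hf : f.IsHomogeneous 3)
    {x : Fin 4 → L} (hx : IsFunctionField 1 {f} L x) (hp : ¬ HasPoint {f} F) :
    (irr F L = if IsRational F L then 1 else max 2 (minDeg {f})) ∧ minDeg {f} = 3 := by
  have hS : ∀ G ∈ ({f} : Set (MvPolynomial (Fin 4) F)), ∃ n, G.IsHomogeneous n := by
    rintro G rfl
    exact ⟨3, hf⟩
  have hw := cubic_wit_nopoint hf hx hp
  obtain ⟨κ, _, _, hfin, hle, hpt⟩ := hw.point hx hS hS
  obtain ⟨κ', _, _, hfin', heq, hpt'⟩ := minDeg_spec hfin hpt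
  have h1 : 0 < Module.finrank F κ' := Module.finrank_pos
  have h2 : Module.finrank F κ' ≠ 1 := fun h => hp (hasPoint_of_finrank_one h hpt')
  have h3 : Module.finrank F κ' ≠ 2 := fun h => hp (cubic_quad hf h hpt')
  have h4 := minDeg_le hfin hpt
  have h5 : minDeg {f} = 3 := by omega
  refine ⟨irr_formula hx hS (hw.mono ?_), h5⟩
  rw [h5]; exact le_max_right _ _

end nine
end DPI
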