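import Mathlib
import Pool.Agent.H478.DA
import Pool.Agent.H478.DB
set_option autoImplicit false
namespace DPI
open Polynomial

universe u v

section place
variable {k : Type u} {M : Type v} [Field k] [Field M] [Algebra k M]

/-- as `exists_place`, keeping track of the centre of the valuation -/
theorem exists_place_centre (t : M) (ht : Transcendental k t) (n : ℕ)
    (hn : Module.Finite (IntermediateField.adjoin k {t}) M)
    (hn' : Module.finrank (IntermediateField.adjoin k {t}) M ≤ n) :
    ∃ (κ : Type v) (_ : Field κ) (_ : Algebra k κ) (V : ValuationSubring M)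
      (hk : ∀ c : k, algebraMap k M c ∈ V) (ρ : V →+* κ), t ∈ V.nonunits ∧
      (∀ c : k, ρ ⟨algebraMap k M c, hk c⟩ = algebraMap k κ c) ∧
      Module.Finite k κ ∧ Module.finrank k κ ≤ n := by
  classical
  obtain ⟨V, hk, htV⟩ := exists_valuation (k := k) t ht
  let ι : k →+* V :=
    { toFun := fun c => ⟨algebraMap k M c, hk c⟩
      map_one' := Subtype.ext (map_one _)
      map_mul' := fun a b => Subtype.ext (map_mul _ a b)
      map_zero' := Subtype.ext (map_zero _)
      map_add' := fun a b => Subtype.ext (map_add _ a b) }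
  let κ := IsLocalRing.ResidueField V
  let ρ : V →+* κ := IsLocalRing.residue V
  let _ : Algebra k κ := (ρ.comp ι).toAlgebra
  have hρ : ∀ c : k, ρ ⟨algebraMap k M c, hk c⟩ = algebraMap k κ c := fun c => rfl
  have hρt : ∀ z : V, (z : M) ∈ V.nonunits → ρ z = 0 := by
    intro z hz
    rw [IsLocalRing.residue_eq_zero_iff, IsLocalRing.mem_maximalIdeal]
    exact V.coe_mem_nonunits_iff.1 hz
  have hrank : Module.rank k κ ≤ n := by
    refine rank_le fun s hs => ?_
    have hsurj : Function.Surjective ρ := IsLocalRing.residue_surjective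
    choose y hy using hsurj
    have h1 : LinearIndependent k fun i : s => ρ (y i) := by
      simpa only [hy] using hs
    have h2 := lift_indep t ht V hk htV ρ hρ hρt (fun i : s => y i) h1
    have h3 := h2.fintype_card_le_finrank
    rw [Fintype.card_coe] at h3
    exact h3.trans hn'
  have hfin : Module.Finite k κ :=
    Module.rank_lt_aleph0_iff.1 (hrank.trans_lt (Cardinal.natCast_lt_aleph0))
  exact ⟨κ, inferInstance, inferInstance, V, hk, ρ, htV, hρ, hfin,
    Module.finrank_le_of_rank_le hrank⟩

/-- a good place: given finitely many elements, one may choose the place to be finite at them -/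
theorem exists_place_finite [Infinite k] (t : M) (ht : Transcendental k t) (n : ℕ)
    (hn : Module.Finite (IntermediateField.adjoin k {t}) M)
    (hn' : Module.finrank (IntermediateField.adjoin k {t}) M ≤ n)
    {ι : Type*} [Finite ι] (y : ι → M) :
    ∃ (κ : Type v) (_ : Field κ) (_ : Algebra k κ) (V : ValuationSubring M)
      (hk : ∀ c : k, algebraMap k M c ∈ V) (ρ : V →+* κ), (∀ i, y i ∈ V) ∧
      (∀ c : k, ρ ⟨algebraMap k M c, hk c⟩ = algebraMap k κ c) ∧
      Module.Finite k κ ∧ Module.finrank k κ ≤ n := by
  classical
  have := Fintype.ofFinite ι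
  have hpoly0 : ∀ z ∈ Algebra.adjoin k {t}, ∃ p : k[X], aeval t p = z := by
    intro z hz
    rw [Algebra.adjoin_singleton_eq_range_aeval] at hz
    exact hz
  -- denominators
  have hD : ∀ i, ∃ D : k[X], D ≠ 0 ∧ IsIntegral (Algebra.adjoin k {t}) (aeval t D * y i) := by
    intro i
    have h1 : IsAlgebraic (IntermediateField.adjoin k {t}) (y i) :=
      Algebra.IsAlgebraic.isAlgebraic (y i)
    have h2 : IsAlgebraic (Algebra.adjoin k {t}) (y i) := by
      open scoped IntermediateField.algebraAdjoinAdjoin in
      exact (IsFractionRing.isAlgebraic_iff (Algebra.adjoin k {t})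
        (IntermediateField.adjoin k {t}) M).2 h1
    obtain ⟨d, hd0, hd⟩ := h2.exists_integral_multiple
    obtain ⟨D, hD'⟩ := hpoly0 d d.2
    refine ⟨D, ?_, ?_⟩
    · rintro rfl
      apply hd0
      apply Subtype.ext
      rw [← hD', map_zero]
      rfl
    · rw [hD']
      exact hd
  choose D hD0 hD using hD
  obtain ⟨α, hα⟩ : ∃ α : k, (∏ i, D i).eval α ≠ 0 := by
    by_contra hcon
    push Not at hcon
    have h1 : (∏ i, D i) = 0 := Polynomial.zero_of_eval_zero _ hcon
    rw [Finset.prod_eq_zero_iff] at h1
    obtain ⟨i, _, hi⟩ := h1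
    exact hD0 i hi
  obtain ⟨t', ht'⟩ : ∃ t', t' = t - algebraMap k M α := ⟨_, rfl⟩
  have hadj : IntermediateField.adjoin k {t} = IntermediateField.adjoin k {t'} := by
    apply le_antisymm
    · rw [IntermediateField.adjoin_simple_le_iff]
      have : t = t' + algebraMap k M α := by rw [ht']; ring
      rw [this]
      exact IntermediateField.add_mem _ (IntermediateField.mem_adjoin_simple_self k t')
        (IntermediateField.algebraMap_mem _ α)
    · rw [IntermediateField.adjoin_simple_le_iff, ht']
      exact IntermediateField.sub_mem _ (IntermediateField.mem_adjoin_simple_self k t)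
        (IntermediateField.algebraMap_mem _ α)
  have htr : Transcendental k t' := by
    intro h
    apply ht
    have : t = t' + algebraMap k M α := by rw [ht']; ring
    rw [this]
    exact h.add (isAlgebraic_algebraMap α)
  rw [hadj] at hn hn'
  obtain ⟨κ, _, _, V, hk, ρ, htV, hρ, hfin, hle⟩ := exists_place_centre t' htr n hn hn'
  refine ⟨κ, inferInstance, inferInstance, V, hk, ρ, fun i => ?_, hρ, hfin, hle⟩
  have htV' : t' ∈ V := V.nonunits_le htV
  have htV2 : t ∈ V := by
    have : t = t' + algebraMap k M α := by rw [ht']; ring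
    rw [this]; exact V.add_mem _ _ htV' (hk α)
  have hmem : ∀ q : k[X], aeval t q ∈ V := by
    intro q
    induction q using Polynomial.induction_on' with
    | add a b ha hb => rw [map_add]; exact V.add_mem _ _ ha hb
    | monomial m a =>
      rw [aeval_monomial]
      exact V.mul_mem _ _ (hk a) (pow_mem htV2 m)
  -- `D i (t)` is a unit of `V`
  have hDα : (D i).eval α ≠ 0 := by
    intro h
    apply hα
    rw [eval_prod]
    exact Finset.prod_eq_zero (Finset.mem_univ i) h
  have hunit : (aeval t (D i))⁻¹ ∈ V := by
    have h1 : aeval t (D i) = algebraMap k M ((D i).eval α)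
        + t' * aeval t ((D i) /ₘ (X - C α)) := by
      have h2 := Polynomial.modByMonic_add_div (D i) (X - C α)
      rw [Polynomial.modByMonic_X_sub_C_eq_C_eval] at h2
      conv_lhs => rw [← h2]
      simp [ht']
    by_contra hcon
    have h3 : aeval t (D i) ∈ V.nonunits := by
      rw [ValuationSubring.mem_nonunits_iff]
      rcases lt_or_ge (V.valuation (aeval t (D i))) 1 with h | h
      · exact h
      · exfalso
        apply hcon
        rw [← V.valuation_le_one_iff, map_inv₀]
        exact inv_le_one_of_one_le₀ h
    have h4 : t' * aeval t ((D i) /ₘ (X - C α)) ∈ V.nonunits := by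
      rw [ValuationSubring.mem_nonunits_iff] at htV ⊢
      rw [map_mul]
      exact mul_lt_one_of_lt_of_le htV ((V.valuation_le_one_iff _).2 (hmem _))
    have h5 : algebraMap k M ((D i).eval α) ∈ V.nonunits := by
      have : algebraMap k M ((D i).eval α) = aeval t (D i)
          - t' * aeval t ((D i) /ₘ (X - C α)) := by rw [h1]; ring
      rw [this]
      rw [ValuationSubring.mem_nonunits_iff] at h3 h4 ⊢
      exact (V.valuation.map_sub _ _).trans_lt (max_lt h3 h4)
    have h6 : (algebraMap k M ((D i).eval α))⁻¹ ∈ V := by
      rw [← map_inv₀]; exact hk _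
    rw [ValuationSubring.mem_nonunits_iff] at h5
    rw [← V.valuation_le_one_iff, map_inv₀] at h6
    have h7 : V.valuation (algebraMap k M ((D i).eval α)) ≠ 0 := by
      rw [Ne, map_eq_zero, map_eq_zero]
      exact hDα
    have h8 := inv_le_one₀ (zero_lt_iff.2 h7) |>.1 h6
    exact absurd h5 (not_lt.2 h8)
  -- integrality
  have hint : aeval t (D i) * y i ∈ V := by
    have hle : ∀ z : Algebra.adjoin k {t}, (z : M) ∈ V := by
      intro z
      obtain ⟨q, hq⟩ := hpoly0 z z.2
      rw [← hq]
      exact hmem q
    obtain ⟨p, hp, hp0⟩ := hD i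
    let j : Algebra.adjoin k {t} →+* V :=
      { toFun := fun z => ⟨z, hle z⟩
        map_one' := rfl
        map_mul' := fun a b => rfl
        map_zero' := rfl
        map_add' := fun a b => rfl }
    have h9 : IsIntegral V (aeval t (D i) * y i) := by
      refine ⟨p.map j, hp.map j, ?_⟩
      rw [Polynomial.eval₂_map]
      exact hp0
    obtain ⟨w, hw⟩ := IsIntegrallyClosed.isIntegral_iff.1 h9
    rw [← hw]
    exact w.2
  have h10 : aeval t (D i) ≠ 0 := by
    intro h
    apply ht
    exact ⟨D i, hD0 i, h⟩
  have : y i = (aeval t (D i))⁻¹ * (aeval t (D i) * y i) := by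
    rw [inv_mul_cancel_left₀ h10]
  rw [this]
  exact V.mul_mem _ _ hunit hint

end place

section affine
variable {σ : Type} [Finite σ]

omit [Finite σ] in
theorem spec_affine {k : Type u} {M : Type v} [Field k] [Field M] [Algebra k M]
    {κ : Type*} [Field κ] [Algebra k κ] (V : ValuationSubring M)
    (hk : ∀ c : k, algebraMap k M c ∈ V) (ρ : V →+* κ)
    (hρ : ∀ c : k, ρ ⟨algebraMap k M c, hk c⟩ = algebraMap k κ c)
    (y : σ → M) (hy : ∀ i, y i ∈ V) (G : MvPolynomial σ k) (hG : MvPolynomial.aeval y G = 0) :
    MvPolynomial.aeval (fun i => ρ ⟨y i, hy i⟩) G = 0 := by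
  let ι : k →+* V :=
    { toFun := fun c => ⟨algebraMap k M c, hk c⟩
      map_one' := Subtype.ext (map_one _)
      map_mul' := fun a b => Subtype.ext (map_mul _ a b)
      map_zero' := Subtype.ext (map_zero _)
      map_add' := fun a b => Subtype.ext (map_add _ a b) }
  let b : σ → V := fun i => ⟨y i, hy i⟩
  have e1 : MvPolynomial.aeval (fun i => ρ (b i)) G = ρ (MvPolynomial.eval₂ ι b G) := by
    rw [MvPolynomial.eval₂_comp_left, MvPolynomial.aeval_def]
    have : algebraMap k κ = ρ.comp ι := RingHom.ext fun c => (hρ c).symm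
    rw [this]
    rfl
  have e2 : ((MvPolynomial.eval₂ ι b G : V) : M) = MvPolynomial.aeval y G := by
    have : V.subtype (MvPolynomial.eval₂ ι b G)
        = MvPolynomial.eval₂ (V.subtype.comp ι) (V.subtype ∘ b) G :=
      MvPolynomial.eval₂_comp_left _ _ _ _
    rw [MvPolynomial.aeval_def]
    exact this
  show MvPolynomial.aeval (fun i => ρ (b i)) G = 0
  rw [e1]
  have : MvPolynomial.eval₂ ι b G = 0 := by
    apply Subtype.ext
    rw [e2, hG]
    rfl
  rw [this, map_zero]

/-- If a system of polynomial equations over the infinite field `F` has a solution in a field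
`L` of degree at most `n` over `F(s, t)`, it has a solution in an extension of `F` of degree at
most `n`. -/
theorem affine_point_of_function_field {F L : Type u} [Field F] [Infinite F] [Field L]
    [Algebra F L] (S : Set (MvPolynomial σ F)) (s t : L)
    (hst : AlgebraicIndependent F ![s, t]) (n : ℕ)
    (hfin : Module.Finite (IntermediateField.adjoin F {s, t}) L)
    (hn : Module.finrank (IntermediateField.adjoin F {s, t}) L ≤ n)
    (x : σ → L) (hx : ∀ G ∈ S, MvPolynomial.aeval x G = 0) :
    ∃ (κ : Type u) (_ : Field κ) (_ : Algebra F κ), Module.Finite F κ ∧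
      Module.finrank F κ ≤ n ∧ ∃ a : σ → κ, ∀ G ∈ S, MvPolynomial.aeval a G = 0 := by
  classical
  let k := IntermediateField.adjoin F {s}
  have hinf : Infinite k := Infinite.of_injective (algebraMap F k) (algebraMap F k).injective
  have ht : Transcendental k t := by
    rw [IntermediateField.transcendental_adjoin_iff]
    have := hst.transcendental_adjoin (s := {0}) (i := 1) (by decide)
    rw [Set.image_singleton] at this
    exact this
  have hadj := IntermediateField.adjoin_adjoin_left F {s} ({t} : Set L)
  have h2 : ({s} ∪ {t} : Set L) = {s, t} := by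
    ext; simp [or_comm]
  rw [h2] at hadj
  have hfin1 : Module.Finite (IntermediateField.adjoin k {t}) L := by
    have : Module.Finite ((IntermediateField.adjoin k {t}).restrictScalars F) L := by
      rw [hadj]; exact hfin
    exact this
  have hn1 : Module.finrank (IntermediateField.adjoin k {t}) L ≤ n := by
    have : Module.finrank ((IntermediateField.adjoin k {t}).restrictScalars F) L ≤ n := by
      rw [hadj]; exact hn
    exact this
  obtain ⟨κ, _, _, V, hk, ρ, hVx, hρ, hκ, hκn⟩ := exists_place_finite t ht n hfin1 hn1 x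
  let _ : Algebra F κ := ((algebraMap k κ).comp (algebraMap F k)).toAlgebra
  have _ : IsScalarTower F k κ := IsScalarTower.of_algebraMap_eq fun _ => rfl
  have hpκ : ∃ a : σ → κ, ∀ G ∈ S, MvPolynomial.aeval a G = 0 := by
    refine ⟨fun i => ρ ⟨x i, hVx i⟩, fun G hG => ?_⟩
    have h3 := spec_affine V hk ρ hρ x hVx (MvPolynomial.map (algebraMap F k) G) (by
      rw [MvPolynomial.aeval_map_algebraMap]; exact hx G hG)
    rwa [MvPolynomial.aeval_map_algebraMap] at h3
  obtain ⟨a, ha⟩ := hpκ
  -- second step
  let f : k →ₐ[F] κ := IsScalarTower.toAlgHom F k κ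
  let s' : κ := f ⟨s, IntermediateField.mem_adjoin_simple_self F s⟩
  have hs : Transcendental F s := by
    have := hst.transcendental 0
    exact this
  have hs' : Transcendental F s' := by
    intro h
    have h1 : IsAlgebraic F (⟨s, IntermediateField.mem_adjoin_simple_self F s⟩ : k) :=
      (isAlgebraic_algHom_iff f f.injective).1 h
    have h2 : IsAlgebraic F s := by
      have := (isAlgebraic_algHom_iff k.val k.val.injective).2 h1
      exact this
    exact hs h2
  have hrange : f.fieldRange = IntermediateField.adjoin F {s'} := by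
    rw [AlgHom.fieldRange_eq_map]
    have : (⊤ : IntermediateField F k)
        = IntermediateField.adjoin F {⟨s, IntermediateField.mem_adjoin_simple_self F s⟩} := by
      apply IntermediateField.lift_injective k
      rw [IntermediateField.lift_top, IntermediateField.lift_adjoin_simple]
    rw [this, IntermediateField.adjoin_map, Set.image_singleton]
  have hn2 : Module.finrank (IntermediateField.adjoin F {s'}) κ = Module.finrank k κ := by
    rw [← hrange]
    refine (Algebra.finrank_eq_of_equiv_equiv f.equivFieldRange.toRingEquiv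
      (RingEquiv.refl κ) ?_).symm
    ext x
    rfl
  have hfin2 : Module.Finite (IntermediateField.adjoin F {s'}) κ := by
    rw [← hrange]
    refine Module.Finite.of_equiv_equiv f.equivFieldRange.toRingEquiv (RingEquiv.refl κ) ?_
    ext x
    rfl
  obtain ⟨κ', _, _, V', hk', ρ', hVa, hρ', hκ', hκn'⟩ :=
    exists_place_finite s' hs' n hfin2 (hn2.trans_le hκn) a
  refine ⟨κ', inferInstance, inferInstance, hκ', hκn', fun i => ρ' ⟨a i, hVa i⟩, fun G hG => ?_⟩
  exact spec_affine V' hk' ρ' hρ' a hVa G (ha G hG)

end affine
end DPI
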