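import Mathlib
import Pool.Agent.H478.DT
import Pool.Agent.H478.DQ
set_option autoImplicit false
namespace DPI
open TensorProduct

universe u v

section bc
variable {k L Λ : Type u} [Field k] [Field L] [Field Λ] [Algebra k L] [Algebra k Λ]

/-- bounding the degree of `L / k` after extension of scalars -/
theorem finrank_le_of_stable (W : Submodule Λ (Λ ⊗[k] L)) [Module.Finite Λ W] {n : ℕ}
    (hn : Module.finrank Λ W ≤ n) (h1 : (1 : Λ ⊗[k] L) ∈ W) (G : Set L)
    (hG : IntermediateField.adjoin k G = ⊤)
    (hst : ∀ g ∈ G, ∀ w ∈ W, (1 : Λ) ⊗ₜ[k] g * w ∈ W) :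
    Module.Finite k L ∧ Module.finrank k L ≤ n := by
  let T : Subalgebra k L :=
    { carrier := {l | ∀ w ∈ W, (1 : Λ) ⊗ₜ[k] l * w ∈ W}
      mul_mem' := fun {a b} ha hb w hw => by
        have : (1 : Λ) ⊗ₜ[k] (a * b) = ((1 : Λ) ⊗ₜ[k] a) * ((1 : Λ) ⊗ₜ[k] b) := by
          rw [Algebra.TensorProduct.tmul_mul_tmul, one_mul]
        rw [this, mul_assoc]
        exact ha _ (hb _ hw)
      add_mem' := fun {a b} ha hb w hw => by
        rw [TensorProduct.tmul_add, add_mul]
        exact W.add_mem (ha _ hw) (hb _ hw)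
      algebraMap_mem' := fun r w hw => by
        have : (1 : Λ) ⊗ₜ[k] (algebraMap k L r) = (algebraMap k Λ r) ⊗ₜ[k] (1 : L) := by
          rw [Algebra.algebraMap_eq_smul_one, Algebra.algebraMap_eq_smul_one,
            TensorProduct.smul_tmul]
        rw [this]
        have h2 : (algebraMap k Λ r) ⊗ₜ[k] (1 : L) * w = algebraMap k Λ r • w := by
          rw [Algebra.smul_def]
          rfl
        rw [h2]
        exact W.smul_mem _ hw }
  have hinv : ∀ z ∈ T, z⁻¹ ∈ T := by
    intro z hz
    by_cases h0 : z = 0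
    · rw [h0, inv_zero]; exact T.zero_mem
    intro y hy
    have hc : (1 : Λ) ⊗ₜ[k] z⁻¹ * ((1 : Λ) ⊗ₜ[k] z) = 1 := by
      rw [Algebra.TensorProduct.tmul_mul_tmul, one_mul, inv_mul_cancel₀ h0]
      rfl
    let f : W →ₗ[Λ] W :=
      { toFun := fun y => ⟨(1 : Λ) ⊗ₜ[k] z * y, hz _ y.2⟩
        map_add' := fun a b => Subtype.ext (mul_add _ _ _)
        map_smul' := fun r a => Subtype.ext (by
          show (1 : Λ) ⊗ₜ[k] z * (r • (a : Λ ⊗[k] L)) = r • ((1 : Λ) ⊗ₜ[k] z * a)
          rw [mul_smul_comm]) }
    have hinj : Function.Injective f := by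
      intro a b hab
      have := congrArg Subtype.val hab
      have h3 : (1 : Λ) ⊗ₜ[k] z * (a : Λ ⊗[k] L) = (1 : Λ) ⊗ₜ[k] z * b := this
      apply Subtype.ext
      have h4 := congrArg (fun w => (1 : Λ) ⊗ₜ[k] z⁻¹ * w) h3
      simp only [← mul_assoc, hc, one_mul] at h4
      exact h4
    have hsurj : Function.Surjective f := (LinearMap.injective_iff_surjective).1 hinj
    obtain ⟨y', hy'⟩ := hsurj ⟨y, hy⟩
    have h3 : (1 : Λ) ⊗ₜ[k] z * (y' : Λ ⊗[k] L) = y := congrArg Subtype.val hy'
    rw [← h3, ← mul_assoc, hc, one_mul]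
    exact y'.2
  have hT : ∀ l : L, l ∈ T := by
    intro l
    have h2 : IntermediateField.adjoin k G ≤ T.toIntermediateField hinv := by
      rw [IntermediateField.adjoin_le_iff]
      intro g hg
      exact fun w hw => hst g hg w hw
    have h3 : l ∈ IntermediateField.adjoin k G := by rw [hG]; exact IntermediateField.mem_top
    exact h2 h3
  have htop : W = ⊤ := by
    rw [eq_top_iff]
    intro z _
    induction z using TensorProduct.induction_on with
    | zero => exact W.zero_mem
    | tmul c l =>
      have h2 := hT l 1 h1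
      rw [mul_one] at h2
      have h3 : c ⊗ₜ[k] l = c • ((1 : Λ) ⊗ₜ[k] l) := by
        rw [TensorProduct.smul_tmul', smul_eq_mul, mul_one]
      rw [h3]
      exact W.smul_mem _ h2
    | add a b ha hb => exact W.add_mem (ha trivial) (hb trivial)
  subst htop
  have hfin : Module.Finite Λ (Λ ⊗[k] L) := by
    have h2 : Module.Finite Λ (⊤ : Submodule Λ (Λ ⊗[k] L)) := inferInstance
    exact Module.finite_def.2 (Module.Finite.iff_fg.1 h2)
  rw [finrank_top, Module.finrank_baseChange] at hn
  refine ⟨?_, hn⟩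
  rw [← Module.rank_lt_aleph0_iff]
  have h3 := Module.rank_lt_aleph0_iff.2 hfin
  rw [Module.rank_baseChange, Cardinal.lift_id] at h3
  exact h3

end bc

section td
variable {F L : Type u} [Field F] [Field L] [Algebra F L]

/-- two elements over which a field of transcendence degree at least two is algebraic are
algebraically independent -/
theorem indep_of_finite {s₀ t₀ : L} (h0 : AlgebraicIndependent F ![s₀, t₀]) (s t : L)
    (h : Algebra.IsAlgebraic (IntermediateField.adjoin F {s, t}) L) :
    AlgebraicIndependent F ![s, t] := by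
  have hr : Set.range ![s, t] = {s, t} := by
    ext z
    simp only [Set.mem_range, Set.mem_insert_iff, Set.mem_singleton_iff, Fin.exists_fin_two,
      Matrix.cons_val_zero, Matrix.cons_val_one]
    simp only [eq_comm]
  have h1 : Algebra.IsAlgebraic (Algebra.adjoin F (Set.range ![s, t])) L := by
    rw [hr]
    open scoped IntermediateField.algebraAdjoinAdjoin in
    exact (IsFractionRing.comap_isAlgebraic_iff (A := Algebra.adjoin F {s, t})
      (K := IntermediateField.adjoin F {s, t}) (C := L)).2 h
  exact (Algebra.IsAlgebraic.isTranscendenceBasis_of_lift_le_trdeg_of_finite F ![s, t]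
    h0.lift_cardinalMk_le_trdeg).1

end td
end DPI
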