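import Mathlib
import Pool.Agent.H478.DU
set_option autoImplicit false
namespace DPI

universe u v

section cubicalg

/-- multiplication in `R[θ]`, `θ³ = r + s θ + t θ²`, in coordinates with respect to `1, θ, θ²` -/
def mulE {R : Type*} [CommRing R] (r s t : R) (u v : Fin 3 → R) : Fin 3 → R :=
  ![u 0 * v 0 + r * (u 1 * v 2 + u 2 * v 1) + r * t * (u 2 * v 2),
    u 0 * v 1 + u 1 * v 0 + s * (u 1 * v 2 + u 2 * v 1) + (r + s * t) * (u 2 * v 2),
    u 0 * v 2 + u 1 * v 1 + u 2 * v 0 + t * (u 1 * v 2 + u 2 * v 1) + (s + t ^ 2) * (u 2 * v 2)]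

/-- the norm of `R[θ]` over `R`: the determinant of the multiplication by `u` -/
def normE {R : Type*} [CommRing R] (r s t : R) (u : Fin 3 → R) : R :=
  (Matrix.of fun i j => mulE r s t u (Pi.single j 1) i).det

variable {R A : Type*} [CommRing R] [CommRing A]

theorem normE_eq (r s t : R) (u : Fin 3 → R) : normE r s t u =
    u 0 * ((u 0 + s * u 2) * (u 0 + t * u 1 + (s + t ^ 2) * u 2)
        - (s * u 1 + (r + s * t) * u 2) * (u 1 + t * u 2))
    - (r * u 2) * (u 1 * (u 0 + t * u 1 + (s + t ^ 2) * u 2)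
        - (s * u 1 + (r + s * t) * u 2) * u 2)
    + (r * u 1 + r * t * u 2) * (u 1 * (u 1 + t * u 2) - (u 0 + s * u 2) * u 2) := by
  rw [normE, Matrix.det_fin_three]
  simp only [mulE, Matrix.of_apply]
  simp
  ring

/-- the adjoint of `u`, so that `u u^# = N(u)` -/
def adjE (r s t : R) (u : Fin 3 → R) : Fin 3 → R :=
  ![(u 0 + s * u 2) * (u 0 + t * u 1 + (s + t ^ 2) * u 2)
        - (s * u 1 + (r + s * t) * u 2) * (u 1 + t * u 2),
    (s * u 1 + (r + s * t) * u 2) * u 2 - u 1 * (u 0 + t * u 1 + (s + t ^ 2) * u 2),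
    u 1 * (u 1 + t * u 2) - (u 0 + s * u 2) * u 2]

theorem mul_adjE (r s t : R) (u : Fin 3 → R) :
    mulE r s t u (adjE r s t u) = ![normE r s t u, 0, 0] := by
  rw [normE_eq]
  funext i
  fin_cases i <;> simp [mulE, adjE] <;> ring

/-- evaluation of `u` at `θ` after a homomorphism -/
def evE (f : R →+* A) (θ : A) (u : Fin 3 → R) : A := f (u 0) + f (u 1) * θ + f (u 2) * θ ^ 2

theorem map_mulE (f : R →+* A) (r s t : R) (u v : Fin 3 → R) (j : Fin 3) :
    f (mulE r s t u v j) = mulE (f r) (f s) (f t) (fun i => f (u i)) (fun i => f (v i)) j := by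
  fin_cases j <;> simp [mulE]

theorem map_normE (f : R →+* A) (r s t : R) (u : Fin 3 → R) :
    f (normE r s t u) = normE (f r) (f s) (f t) (fun i => f (u i)) := by
  rw [normE_eq, normE_eq]
  simp

theorem evE_mul (f : R →+* A) (r s t : R) {θ : A} (hθ : θ ^ 3 = f r + f s * θ + f t * θ ^ 2)
    (u v : Fin 3 → R) : evE f θ (mulE r s t u v) = evE f θ u * evE f θ v := by
  simp only [evE, mulE]
  simp only [Matrix.cons_val_zero, Matrix.cons_val_one, Matrix.cons_val_two, Matrix.head_cons,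
    Matrix.tail_cons, map_add, map_mul, map_pow]
  have h4 : θ ^ 4 = f r * θ + f s * θ ^ 2 + f t * (f r + f s * θ + f t * θ ^ 2) := by
    rw [← hθ]
    linear_combination θ * hθ
  linear_combination (-(f (u 1) * f (v 2) + f (u 2) * f (v 1))) * hθ - f (u 2) * f (v 2) * h4

theorem evE_norm (f : R →+* A) (r s t : R) {θ : Fin 3 → A} (h1 : θ 0 + θ 1 + θ 2 = f t)
    (h2 : θ 0 * θ 1 + θ 0 * θ 2 + θ 1 * θ 2 = -f s) (h3 : θ 0 * θ 1 * θ 2 = f r)
    (u : Fin 3 → R) : f (normE r s t u) = evE f (θ 0) u * evE f (θ 1) u * evE f (θ 2) u := by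
  have h2' : f s = -(θ 0 * θ 1 + θ 0 * θ 2 + θ 1 * θ 2) := by rw [h2]; ring
  rw [map_normE, normE_eq, ← h1, h2', ← h3]
  simp only [evE]
  ring

theorem root_of_sym (f : R →+* A) (r s t : R) {θ : Fin 3 → A} (h1 : θ 0 + θ 1 + θ 2 = f t)
    (h2 : θ 0 * θ 1 + θ 0 * θ 2 + θ 1 * θ 2 = -f s) (h3 : θ 0 * θ 1 * θ 2 = f r) (i : Fin 3) :
    θ i ^ 3 = f r + f s * θ i + f t * θ i ^ 2 := by
  have h2' : f s = -(θ 0 * θ 1 + θ 0 * θ 2 + θ 1 * θ 2) := by rw [h2]; ring
  rw [← h1, h2', ← h3]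
  fin_cases i
  · show θ 0 ^ 3 = θ 0 * θ 1 * θ 2 + -(θ 0 * θ 1 + θ 0 * θ 2 + θ 1 * θ 2) * θ 0
      + (θ 0 + θ 1 + θ 2) * θ 0 ^ 2
    ring
  · show θ 1 ^ 3 = θ 0 * θ 1 * θ 2 + -(θ 0 * θ 1 + θ 0 * θ 2 + θ 1 * θ 2) * θ 1
      + (θ 0 + θ 1 + θ 2) * θ 1 ^ 2
    ring
  · show θ 2 ^ 3 = θ 0 * θ 1 * θ 2 + -(θ 0 * θ 1 + θ 0 * θ 2 + θ 1 * θ 2) * θ 2
      + (θ 0 + θ 1 + θ 2) * θ 2 ^ 2
    ring

end cubicalg

section quadalg

/-- evaluation of an element of `R[ω]`, `ω² = a + b ω`, at `τ` -/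
def evK {R A : Type*} [CommRing R] [CommRing A] (h : R →+* A) {a b : R} (τ : A)
    (hτ : τ * τ = h a + h b * τ) : QuadraticAlgebra R a b →+* A where
  toFun z := h z.re + h z.im * τ
  map_one' := by simp [QuadraticAlgebra.re_one, QuadraticAlgebra.im_one]
  map_mul' x y := by
    simp only [QuadraticAlgebra.re_mul, QuadraticAlgebra.im_mul, map_add, map_mul]
    linear_combination (-(h x.im * h y.im)) * hτ
  map_zero' := by simp
  map_add' x y := by
    simp only [QuadraticAlgebra.re_add, QuadraticAlgebra.im_add, map_add]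
    ring

theorem evK_apply {R A : Type*} [CommRing R] [CommRing A] (h : R →+* A) {a b : R} (τ : A)
    (hτ : τ * τ = h a + h b * τ) (z : QuadraticAlgebra R a b) :
    evK h τ hτ z = h z.re + h z.im * τ := rfl

theorem evK_star {R A : Type*} [CommRing R] [CommRing A] (h : R →+* A) {a b : R} (τ τ' : A)
    (hτ : τ * τ = h a + h b * τ) (hτ' : τ' * τ' = h a + h b * τ') (hs : τ + τ' = h b)
    (z : QuadraticAlgebra R a b) : evK h τ hτ (star z) = evK h τ' hτ' z := by
  simp only [evK_apply, QuadraticAlgebra.re_star, QuadraticAlgebra.im_star, map_add, map_mul,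
    map_neg]
  linear_combination (-h z.im) * hs

/-- base change of `F[ω]` -/
def mapQ {R A : Type*} [CommRing R] [CommRing A] (h : R →+* A) {a b : R} :
    QuadraticAlgebra R a b →+* QuadraticAlgebra A (h a) (h b) where
  toFun z := ⟨h z.re, h z.im⟩
  map_one' := by ext <;> simp [QuadraticAlgebra.re_one, QuadraticAlgebra.im_one]
  map_mul' x y := by ext <;> simp
  map_zero' := by ext <;> simp
  map_add' x y := by ext <;> simp

theorem mapQ_apply {R A : Type*} [CommRing R] [CommRing A] (h : R →+* A) {a b : R}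
    (z : QuadraticAlgebra R a b) : mapQ h z = ⟨h z.re, h z.im⟩ := rfl

end quadalg

end DPI
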