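import Mathlib
import Pool.Agent.H478.DV
set_option autoImplicit false
namespace DPI

universe u v

section stab
variable {Ω A : Type*} [Field Ω] [CommRing A] [Algebra Ω A]

/-- the elements whose multiplication preserves a submodule -/
def stab (W : Submodule Ω A) : Subalgebra Ω A where
  carrier := {c | ∀ w ∈ W, c * w ∈ W}
  mul_mem' := fun {a b} ha hb w hw => by rw [mul_assoc]; exact ha _ (hb _ hw)
  add_mem' := fun {a b} ha hb w hw => by rw [add_mul]; exact W.add_mem (ha _ hw) (hb _ hw)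
  algebraMap_mem' := fun r w hw => by rw [← Algebra.smul_def]; exact W.smul_mem r hw

theorem mem_stab_span {n : ℕ} (v : Fin n → A) (c : A)
    (h : ∀ i, c * v i ∈ Submodule.span Ω (Set.range v)) :
    c ∈ stab (Submodule.span Ω (Set.range v)) := by
  intro w hw
  induction hw using Submodule.span_induction with
  | mem w hw =>
    obtain ⟨i, rfl⟩ := hw
    exact h i
  | zero => rw [mul_zero]; exact Submodule.zero_mem _
  | add a b _ _ ha hb => rw [mul_add]; exact Submodule.add_mem _ ha hb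
  | smul r a _ ha => rw [mul_smul_comm]; exact Submodule.smul_mem _ r ha

theorem stab_of_smul {W : Submodule Ω A} {c : Ω} (hc : c ≠ 0) {z : A} (h : c • z ∈ stab W) :
    z ∈ stab W := by
  have := (stab W).smul_mem h c⁻¹
  rwa [smul_smul, inv_mul_cancel₀ hc, one_smul] at this

theorem mem_of_smul {W : Submodule Ω A} {c : Ω} (hc : c ≠ 0) {z : A} (h : c • z ∈ W) :
    z ∈ W := by
  have := W.smul_mem c⁻¹ h
  rwa [smul_smul, inv_mul_cancel₀ hc, one_smul] at this

/-- the degree two case -/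
theorem stable_two (x x' : Fin 3 → A) (y l : Fin 3 → Ω)
    (hy : ∀ i, x i + x' i = algebraMap Ω A (y i)) (hl : ∀ i, x i * x' i = algebraMap Ω A (l i))
    (hm : x 0 * x 1 * x 2 = 1) (hm' : x' 0 * x' 1 * x' 2 = 1) (hl0 : ∀ i, l i ≠ 0)
    (hD : 4 * l 0 - y 0 ^ 2 ≠ 0) :
    ∃ W : Submodule Ω A, Module.Finite Ω W ∧ Module.finrank Ω W ≤ 2 ∧ 1 ∈ W ∧
      (∀ i, x i ∈ stab W) ∧ ∀ i, x' i ∈ stab W := by
  let W : Submodule Ω A := Submodule.span Ω (Set.range ![1, x 0])
  have w1 : (1 : A) ∈ W := Submodule.subset_span ⟨0, rfl⟩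
  have wx : x 0 ∈ W := Submodule.subset_span ⟨1, rfl⟩
  have s0 : x 0 ∈ stab W := by
    refine mem_stab_span _ _ fun i => ?_
    fin_cases i
    · show x 0 * 1 ∈ W
      rw [mul_one]; exact wx
    · show x 0 * x 0 ∈ W
      have e : x 0 * x 0 = y 0 • x 0 - l 0 • (1 : A) := by
        rw [Algebra.smul_def, Algebra.smul_def, ← hy, ← hl]; ring
      rw [e]
      exact W.sub_mem (W.smul_mem _ wx) (W.smul_mem _ w1)
  have s0' : x' 0 ∈ stab W := by
    have e : x' 0 = algebraMap Ω A (y 0) - x 0 := by rw [← hy]; ring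
    rw [e]
    exact (stab W).sub_mem ((stab W).algebraMap_mem _) s0
  have key : ∀ i j : Fin 3, x 0 * x i * x j = 1 → x' 0 * x' i * x' j = 1 → x i ∈ stab W := by
    intro i j h h'
    have hc : l 0 * l j * (4 * l 0 - y 0 ^ 2) ≠ 0 := mul_ne_zero (mul_ne_zero (hl0 0) (hl0 j)) hD
    apply stab_of_smul hc
    have e : (l 0 * l j * (4 * l 0 - y 0 ^ 2)) • x i
        = (algebraMap Ω A (2 * l 0) - algebraMap Ω A (y 0) * x 0)
          * (algebraMap Ω A (y j - l j * y 0 * y i) * x' 0 + algebraMap Ω A (l 0 * l j * y i)) := by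
      rw [Algebra.smul_def]
      simp only [map_mul, map_sub, map_pow, map_ofNat, ← hl, ← hy]
      linear_combination (-(x 0 - x' 0) * x 0 * x' 0 * x' j) * h
        + (-(x 0 - x' 0) * x 0 * x' 0 * x j) * h'
    rw [e]
    exact (stab W).mul_mem ((stab W).sub_mem ((stab W).algebraMap_mem _)
      ((stab W).mul_mem ((stab W).algebraMap_mem _) s0))
      ((stab W).add_mem ((stab W).mul_mem ((stab W).algebraMap_mem _) s0')
      ((stab W).algebraMap_mem _))
  have s1 : x 1 ∈ stab W := key 1 2 hm hm'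
  have s2 : x 2 ∈ stab W := key 2 1 (by rw [← hm]; ring) (by rw [← hm']; ring)
  have sall : ∀ i, x i ∈ stab W := by
    intro i
    fin_cases i
    · exact s0
    · exact s1
    · exact s2
  refine ⟨W, Module.Finite.span_of_finite Ω (Set.finite_range _), ?_, w1, sall, ?_⟩
  · have := finrank_range_le_card (R := Ω) (![1, x 0] : Fin 2 → A)
    rwa [Fintype.card_fin] at this
  · intro i
    have e : x' i = algebraMap Ω A (y i) - x i := by rw [← hy]; ring
    rw [e]
    exact (stab W).sub_mem ((stab W).algebraMap_mem _) (sall i)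

/-- the degree six case -/
theorem stable_six (x x' : Fin 3 → A) (T T' m : Ω) (l : Fin 3 → Ω)
    (hT : x 0 + x 1 + x 2 = algebraMap Ω A T) (hT' : x' 0 + x' 1 + x' 2 = algebraMap Ω A T')
    (hl : ∀ i, x i * x' i = algebraMap Ω A (l i))
    (hm : x 0 * x 1 * x 2 = algebraMap Ω A m) (hl0 : ∀ i, l i ≠ 0) (hm0 : m ≠ 0) :
    ∃ W : Submodule Ω A, Module.Finite Ω W ∧ Module.finrank Ω W ≤ 6 ∧ 1 ∈ W ∧
      (∀ i, x i ∈ stab W) ∧ ∀ i, x' i ∈ stab W := by
  obtain ⟨X, hX⟩ : ∃ X, X = x 0 := ⟨_, rfl⟩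
  obtain ⟨Y, hY⟩ : ∃ Y, Y = x 1 := ⟨_, rfl⟩
  have hZ : x 2 = algebraMap Ω A T - X - Y := by rw [← hT, hX, hY]; ring
  rw [hZ, ← hX, ← hY] at hm
  -- the second relation
  have hr2 : algebraMap Ω A (l 0) * (Y * (algebraMap Ω A T - X - Y))
      + algebraMap Ω A (l 1) * (X * (algebraMap Ω A T - X - Y)) + algebraMap Ω A (l 2) * (X * Y)
      = algebraMap Ω A m * algebraMap Ω A T' := by
    rw [← hT', ← hm, ← hl, ← hl, ← hl, hZ, ← hX, ← hY]
    ring
  let W : Submodule Ω A := Submodule.span Ω (Set.range ![1, X, Y, X * Y, Y * Y, X * (Y * Y)])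
  have w0 : (1 : A) ∈ W := Submodule.subset_span ⟨0, rfl⟩
  have w1 : X ∈ W := Submodule.subset_span ⟨1, rfl⟩
  have w2 : Y ∈ W := Submodule.subset_span ⟨2, rfl⟩
  have w3 : X * Y ∈ W := Submodule.subset_span ⟨3, rfl⟩
  have w4 : Y * Y ∈ W := Submodule.subset_span ⟨4, rfl⟩
  have w5 : X * (Y * Y) ∈ W := Submodule.subset_span ⟨5, rfl⟩
  have wxx : X * X ∈ W := by
    apply mem_of_smul (hl0 1)
    have e : l 1 • (X * X) = (l 2 - l 0 - l 1) • (X * Y) - l 0 • (Y * Y) + (l 0 * T) • Y
        + (l 1 * T) • X - (m * T') • (1 : A) := by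
      simp only [Algebra.smul_def, map_sub, map_mul]
      linear_combination -hr2
    rw [e]
    exact W.sub_mem (W.add_mem (W.add_mem (W.sub_mem (W.smul_mem _ w3) (W.smul_mem _ w4))
      (W.smul_mem _ w2)) (W.smul_mem _ w1)) (W.smul_mem _ w0)
  have wxxy : X * (X * Y) ∈ W := by
    have e : X * (X * Y) = T • (X * Y) - X * (Y * Y) - m • (1 : A) := by
      simp only [Algebra.smul_def]
      linear_combination -hm
    rw [e]
    exact W.sub_mem (W.sub_mem (W.smul_mem _ w3) w5) (W.smul_mem _ w0)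
  have wyyy : Y * (Y * Y) ∈ W := by
    apply mem_of_smul (hl0 0)
    have e : l 0 • (Y * (Y * Y)) = (l 2 - l 0) • (X * (Y * Y)) + (l 0 * T) • (Y * Y)
        - (m * T') • Y + (l 1 * m) • (1 : A) := by
      simp only [Algebra.smul_def, map_sub, map_mul]
      linear_combination -Y * hr2 + algebraMap Ω A (l 1) * hm
    rw [e]
    exact W.add_mem (W.sub_mem (W.add_mem (W.smul_mem _ w5) (W.smul_mem _ w4))
      (W.smul_mem _ w2)) (W.smul_mem _ w0)
  have wE : X * (X * (Y * Y)) ∈ W := by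
    apply mem_of_smul (hl0 2)
    have e : l 2 • (X * (X * (Y * Y))) = (m * T') • (X * Y) - (l 1 * m) • X - (l 0 * m) • Y := by
      simp only [Algebra.smul_def, map_mul]
      linear_combination X * Y * hr2 - algebraMap Ω A (l 0) * Y * hm - algebraMap Ω A (l 1) * X * hm
    rw [e]
    exact W.sub_mem (W.sub_mem (W.smul_mem _ w3) (W.smul_mem _ w1)) (W.smul_mem _ w2)
  have wxyyy : Y * (X * (Y * Y)) ∈ W := by
    have e : Y * (X * (Y * Y)) = T • (X * (Y * Y)) - X * (X * (Y * Y)) - m • Y := by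
      simp only [Algebra.smul_def]
      linear_combination -Y * hm
    rw [e]
    exact W.sub_mem (W.sub_mem (W.smul_mem _ w5) wE) (W.smul_mem _ w2)
  have sX : X ∈ stab W := by
    refine mem_stab_span _ _ fun i => ?_
    fin_cases i
    · show X * 1 ∈ W
      rw [mul_one]; exact w1
    · exact wxx
    · exact w3
    · exact wxxy
    · exact w5
    · exact wE
  have sY : Y ∈ stab W := by
    refine mem_stab_span _ _ fun i => ?_
    fin_cases i
    · show Y * 1 ∈ W
      rw [mul_one]; exact w2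
    · show Y * X ∈ W
      rw [mul_comm]; exact w3
    · exact w4
    · show Y * (X * Y) ∈ W
      have : Y * (X * Y) = X * (Y * Y) := by ring
      rw [this]; exact w5
    · exact wyyy
    · exact wxyyy
  have sZ : x 2 ∈ stab W := by
    rw [hZ]
    exact (stab W).sub_mem ((stab W).sub_mem ((stab W).algebraMap_mem _) sX) sY
  have sall : ∀ i, x i ∈ stab W := by
    intro i
    fin_cases i
    · show x 0 ∈ stab W
      rw [← hX]; exact sX
    · show x 1 ∈ stab W
      rw [← hY]; exact sY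
    · exact sZ
  have key : ∀ i j k : Fin 3, x i * x j * x k = algebraMap Ω A m → x' i ∈ stab W := by
    intro i j k h
    apply stab_of_smul hm0
    have e : m • x' i = algebraMap Ω A (l i) * (x j * x k) := by
      rw [Algebra.smul_def, ← h, ← hl]; ring
    rw [e]
    exact (stab W).mul_mem ((stab W).algebraMap_mem _) ((stab W).mul_mem (sall j) (sall k))
  have hm2 : x 0 * x 1 * x 2 = algebraMap Ω A m := by rw [hZ, ← hX, ← hY]; exact hm
  refine ⟨W, Module.Finite.span_of_finite Ω (Set.finite_range _), ?_, w0, sall, ?_⟩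
  · have := finrank_range_le_card (R := Ω) (![1, X, Y, X * Y, Y * Y, X * (Y * Y)] : Fin 6 → A)
    rwa [Fintype.card_fin] at this
  · intro i
    fin_cases i
    · exact key 0 1 2 hm2
    · exact key 1 0 2 (by rw [← hm2]; ring)
    · exact key 2 0 1 (by rw [← hm2]; ring)

end stab
end DPI
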