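import Mathlib
import Pool.Agent.H478.DW
set_option autoImplicit false
namespace DPI

universe u v

/-- the point `z ∈ K ⊗ E ⊗ A`, `K = F[ω]`, `ω² = a + b ω`, `E = F[θ]`, `θ³ = r + s θ + t θ²`
(given by its coordinates with respect to `1, θ, θ²`, which are elements of `K ⊗ A`) has norm
`l` in `E ⊗ A` and norm `m` in `K ⊗ A`. -/
def IsTorsorPoint {F : Type u} [Field F] (a b r s t : F) (l : Fin 3 → F)
    (m : QuadraticAlgebra F a b) (A : Type v) [Field A] [Algebra F A]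
    (z : Fin 3 → QuadraticAlgebra A (algebraMap F A a) (algebraMap F A b)) : Prop :=
  mulE (algebraMap F _ r) (algebraMap F _ s) (algebraMap F _ t) z (fun j => star (z j))
      = (fun j => algebraMap F _ (l j)) ∧
    normE (algebraMap F _ r) (algebraMap F _ s) (algebraMap F _ t) z = mapQ (algebraMap F A) m

/-- the roots of the two polynomials -/
structure Split {F : Type u} [Field F] (a b r s t : F) {Ω : Type v} [Field Ω] [Algebra F Ω]
    (τ τ' : Ω) (θ : Fin 3 → Ω) : Prop where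
  hb : τ + τ' = algebraMap F Ω b
  ha : τ * τ' = -algebraMap F Ω a
  hτ : τ ≠ τ'
  h1 : θ 0 + θ 1 + θ 2 = algebraMap F Ω t
  h2 : θ 0 * θ 1 + θ 0 * θ 2 + θ 1 * θ 2 = -algebraMap F Ω s
  h3 : θ 0 * θ 1 * θ 2 = algebraMap F Ω r
  hθ : Function.Injective θ

section
variable {F : Type*} [Field F] {a b r s t : F} {Ω : Type*} [Field Ω] [Algebra F Ω]
  {τ τ' : Ω} {θ : Fin 3 → Ω}

theorem Split.swap (sp : Split a b r s t τ τ' θ) : Split a b r s t τ' τ θ :=
  ⟨by rw [add_comm]; exact sp.hb, by rw [mul_comm]; exact sp.ha, sp.hτ.symm, sp.h1, sp.h2, sp.h3,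
    sp.hθ⟩

theorem Split.sq (sp : Split a b r s t τ τ' θ) :
    τ * τ = algebraMap F Ω a + algebraMap F Ω b * τ := by
  rw [← sp.hb]
  linear_combination -sp.ha

/-- the value of `z` at `(τ, θ)` -/
def xv {A₀ A : Type*} [CommRing A₀] [CommRing A] {a₀ b₀ : A₀} (h : A₀ →+* A) (τ θ : A)
    (z : Fin 3 → QuadraticAlgebra A₀ a₀ b₀) : A :=
  (h (z 0).re + h (z 0).im * τ) + (h (z 1).re + h (z 1).im * τ) * θ
    + (h (z 2).re + h (z 2).im * τ) * θ ^ 2

theorem pts (sp : Split a b r s t τ τ' θ) {l : Fin 3 → F} {m : QuadraticAlgebra F a b}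
    {A₀ A : Type*} [Field A₀] [Algebra F A₀] [CommRing A] [Algebra Ω A] (h : A₀ →+* A)
    (hh : ∀ c : F, h (algebraMap F A₀ c) = algebraMap Ω A (algebraMap F Ω c))
    {z : Fin 3 → QuadraticAlgebra A₀ (algebraMap F A₀ a) (algebraMap F A₀ b)}
    (hz : IsTorsorPoint a b r s t l m A₀ z) :
    (∀ i, xv h (algebraMap Ω A τ) (algebraMap Ω A (θ i)) z
        * xv h (algebraMap Ω A τ') (algebraMap Ω A (θ i)) z
        = algebraMap Ω A (evE (algebraMap F Ω) (θ i) l)) ∧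
      xv h (algebraMap Ω A τ) (algebraMap Ω A (θ 0)) z
        * xv h (algebraMap Ω A τ) (algebraMap Ω A (θ 1)) z
        * xv h (algebraMap Ω A τ) (algebraMap Ω A (θ 2)) z
        = algebraMap Ω A (algebraMap F Ω m.re + algebraMap F Ω m.im * τ) := by
  have hτ1 : algebraMap Ω A τ * algebraMap Ω A τ = h (algebraMap F A₀ a)
      + h (algebraMap F A₀ b) * algebraMap Ω A τ := by
    rw [hh, hh, ← map_mul, ← map_mul, ← map_add, sp.sq]
  have hτ2 : algebraMap Ω A τ' * algebraMap Ω A τ' = h (algebraMap F A₀ a)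
      + h (algebraMap F A₀ b) * algebraMap Ω A τ' := by
    rw [hh, hh, ← map_mul, ← map_mul, ← map_add, sp.swap.sq]
  have hs : algebraMap Ω A τ + algebraMap Ω A τ' = h (algebraMap F A₀ b) := by
    rw [hh, ← map_add, sp.hb]
  have hx1 : ∀ i, xv h (algebraMap Ω A τ) (algebraMap Ω A (θ i)) z
      = evE (evK h _ hτ1) (algebraMap Ω A (θ i)) z := fun i => rfl
  have hx2 : ∀ i, xv h (algebraMap Ω A τ') (algebraMap Ω A (θ i)) z
      = evE (evK h _ hτ1) (algebraMap Ω A (θ i)) (fun j => star (z j)) := by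
    intro i
    show evE (evK h _ hτ2) (algebraMap Ω A (θ i)) z = _
    simp only [evE, evK_star h _ _ hτ1 hτ2 hs]
  have hF : ∀ c : F, evK h _ hτ1 (algebraMap F _ c) = algebraMap Ω A (algebraMap F Ω c) := by
    intro c
    rw [evK_apply]
    have h1 : (algebraMap F (QuadraticAlgebra A₀ (algebraMap F A₀ a) (algebraMap F A₀ b)) c).re
      = algebraMap F A₀ c := rfl
    have h2 : (algebraMap F (QuadraticAlgebra A₀ (algebraMap F A₀ a) (algebraMap F A₀ b)) c).im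
      = 0 := rfl
    rw [h1, h2, hh, map_zero, zero_mul, add_zero]
  have k1 : algebraMap Ω A (θ 0) + algebraMap Ω A (θ 1) + algebraMap Ω A (θ 2)
      = evK h _ hτ1 (algebraMap F _ t) := by
    rw [hF, ← sp.h1, map_add, map_add]
  have k2 : algebraMap Ω A (θ 0) * algebraMap Ω A (θ 1) + algebraMap Ω A (θ 0)
      * algebraMap Ω A (θ 2) + algebraMap Ω A (θ 1) * algebraMap Ω A (θ 2)
      = -evK h _ hτ1 (algebraMap F _ s) := by
    rw [hF, ← map_neg, ← sp.h2, map_add, map_add, map_mul, map_mul, map_mul]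
  have k3 : algebraMap Ω A (θ 0) * algebraMap Ω A (θ 1) * algebraMap Ω A (θ 2)
      = evK h _ hτ1 (algebraMap F _ r) := by
    rw [hF, ← sp.h3, map_mul, map_mul]
  constructor
  · intro i
    rw [hx1, hx2, ← evE_mul (evK h _ hτ1) _ _ _
      (root_of_sym (evK h _ hτ1) _ _ _ (θ := fun i => algebraMap Ω A (θ i)) k1 k2 k3 i), hz.1]
    simp only [evE, hF, map_add, map_mul, map_pow]
  · rw [hx1, hx1, hx1, ← evE_norm (evK h _ hτ1) _ _ _ (θ := fun i => algebraMap Ω A (θ i))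
      k1 k2 k3, hz.2, mapQ_apply, evK_apply]
    simp only [hh, map_add, map_mul]

theorem lag3 {A : Type*} [CommRing A] [Algebra Ω A] (hθ : Function.Injective θ)
    (N : Submodule Ω A) (w0 w1 w2 : A)
    (h : ∀ i, w0 + w1 * algebraMap Ω A (θ i) + w2 * algebraMap Ω A (θ i) ^ 2 ∈ N) :
    w0 ∈ N ∧ w1 ∈ N ∧ w2 ∈ N := by
  have h01 : θ 0 - θ 1 ≠ 0 := sub_ne_zero.2 (fun h => by simpa using hθ h)
  have h02 : θ 0 - θ 2 ≠ 0 := sub_ne_zero.2 (fun h => by simpa using hθ h)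
  have h12 : θ 1 - θ 2 ≠ 0 := sub_ne_zero.2 (fun h => by simpa using hθ h)
  have m2 : w2 ∈ N := by
    apply mem_of_smul (mul_ne_zero (mul_ne_zero h01 h02) h12)
    have e : ((θ 0 - θ 1) * (θ 0 - θ 2) * (θ 1 - θ 2)) • w2
        = (θ 1 - θ 2) • (w0 + w1 * algebraMap Ω A (θ 0) + w2 * algebraMap Ω A (θ 0) ^ 2)
        - (θ 0 - θ 2) • (w0 + w1 * algebraMap Ω A (θ 1) + w2 * algebraMap Ω A (θ 1) ^ 2)
        + (θ 0 - θ 1) • (w0 + w1 * algebraMap Ω A (θ 2) + w2 * algebraMap Ω A (θ 2) ^ 2) := by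
      simp only [Algebra.smul_def, map_sub, map_mul]
      ring
    rw [e]
    exact N.add_mem (N.sub_mem (N.smul_mem _ (h 0)) (N.smul_mem _ (h 1))) (N.smul_mem _ (h 2))
  have m1 : w1 ∈ N := by
    apply mem_of_smul h01
    have e : (θ 0 - θ 1) • w1
        = (w0 + w1 * algebraMap Ω A (θ 0) + w2 * algebraMap Ω A (θ 0) ^ 2)
        - (w0 + w1 * algebraMap Ω A (θ 1) + w2 * algebraMap Ω A (θ 1) ^ 2)
        - (θ 0 ^ 2 - θ 1 ^ 2) • w2 := by
      simp only [Algebra.smul_def, map_sub, map_pow]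
      ring
    rw [e]
    exact N.sub_mem (N.sub_mem (h 0) (h 1)) (N.smul_mem _ m2)
  refine ⟨?_, m1, m2⟩
  have e : w0 = (w0 + w1 * algebraMap Ω A (θ 0) + w2 * algebraMap Ω A (θ 0) ^ 2)
      - θ 0 • w1 - (θ 0 ^ 2) • w2 := by
    simp only [Algebra.smul_def, map_pow]
    ring
  rw [e]
  exact N.sub_mem (N.sub_mem (h 0) (N.smul_mem _ m1)) (N.smul_mem _ m2)

theorem lag6 {A₀ A : Type*} [CommRing A₀] [CommRing A] [Algebra Ω A] {a₀ b₀ : A₀}
    (h : A₀ →+* A) (hτ : τ ≠ τ') (hθ : Function.Injective θ) (N : Submodule Ω A)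
    (z : Fin 3 → QuadraticAlgebra A₀ a₀ b₀)
    (h1 : ∀ i, xv h (algebraMap Ω A τ) (algebraMap Ω A (θ i)) z ∈ N)
    (h2 : ∀ i, xv h (algebraMap Ω A τ') (algebraMap Ω A (θ i)) z ∈ N) (j : Fin 3) :
    h (z j).re ∈ N ∧ h (z j).im ∈ N := by
  obtain ⟨p0, p1, p2⟩ := lag3 hθ N _ _ _ h1
  obtain ⟨q0, q1, q2⟩ := lag3 hθ N _ _ _ h2
  have key : ∀ u v : A, u + v * algebraMap Ω A τ ∈ N → u + v * algebraMap Ω A τ' ∈ N →
      u ∈ N ∧ v ∈ N := by
    intro u v hu hv
    have mv : v ∈ N := by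
      apply mem_of_smul (sub_ne_zero.2 hτ)
      have e : (τ - τ') • v = (u + v * algebraMap Ω A τ) - (u + v * algebraMap Ω A τ') := by
        simp only [Algebra.smul_def, map_sub]; ring
      rw [e]
      exact N.sub_mem hu hv
    refine ⟨?_, mv⟩
    have e : u = (u + v * algebraMap Ω A τ) - τ • v := by
      simp only [Algebra.smul_def]; ring
    rw [e]
    exact N.sub_mem hu (N.smul_mem _ mv)
  fin_cases j
  · exact key _ _ p0 q0
  · exact key _ _ p1 q1
  · exact key _ _ p2 q2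

end

end DPI
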