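import Mathlib
import Pool.Agent.H478.DX
set_option autoImplicit false
namespace DPI
open TensorProduct

universe u v

/-- the coordinates of `z` -/
def coords {A : Type*} {a b : A} (z : Fin 3 → QuadraticAlgebra A a b) : Set A :=
  Set.range (fun j => (z j).re) ∪ Set.range (fun j => (z j).im)

section wrapper
variable {F L : Type u} [Field F] [Field L] [Algebra F L] {a b r s t : F}

theorem scal (k : IntermediateField F L) (c : k) :
    (1 : AlgebraicClosure L) ⊗ₜ[k] (c : L)
      = algebraMap (AlgebraicClosure L) (AlgebraicClosure L ⊗[k] L)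
        (algebraMap L (AlgebraicClosure L) c) := by
  have h1 : (c : L) = c • (1 : L) := by
    rw [Algebra.smul_def, mul_one]; rfl
  have h2 : algebraMap L (AlgebraicClosure L) (c : L) = c • (1 : AlgebraicClosure L) := by
    rw [Algebra.smul_def, mul_one]
    exact (IsScalarTower.algebraMap_apply k L (AlgebraicClosure L) c).symm
  rw [h2]
  conv_lhs => rw [h1, ← TensorProduct.smul_tmul]
  rfl

/-- the inclusion of `L` in the extension of scalars -/
noncomputable abbrev incl (k : IntermediateField F L) : L →+* AlgebraicClosure L ⊗[k] L :=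
  (Algebra.TensorProduct.includeRight : L →ₐ[k] AlgebraicClosure L ⊗[k] L).toRingHom

theorem incl_F (k : IntermediateField F L) (c : F) : incl k (algebraMap F L c)
      = algebraMap (AlgebraicClosure L) (AlgebraicClosure L ⊗[k] L)
        (algebraMap F (AlgebraicClosure L) c) := by
  have h := scal k (algebraMap F k c)
  have h2 : ((algebraMap F k c : k) : L) = algebraMap F L c := rfl
  rw [h2, ← IsScalarTower.algebraMap_apply] at h
  exact h

theorem wit_of_bc {τ τ' : AlgebraicClosure L} {θ : Fin 3 → AlgebraicClosure L}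
    (sp : Split a b r s t τ τ' θ)
    {z : Fin 3 → QuadraticAlgebra L (algebraMap F L a) (algebraMap F L b)}
    (hgen : IntermediateField.adjoin F (coords z) = ⊤)
    {s₀ t₀ : L} (h0 : AlgebraicIndependent F ![s₀, t₀]) (s' t' : L) {n : ℕ}
    (W : Submodule (AlgebraicClosure L)
      (AlgebraicClosure L ⊗[IntermediateField.adjoin F {s', t'}] L))
    [Module.Finite (AlgebraicClosure L) W]
    (hn : Module.finrank (AlgebraicClosure L) W ≤ n) (h1 : 1 ∈ W)
    (hx : ∀ i, xv (incl (IntermediateField.adjoin F {s', t'})) (algebraMap _ _ τ)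
      (algebraMap _ _ (θ i)) z ∈ stab W)
    (hx' : ∀ i, xv (incl (IntermediateField.adjoin F {s', t'})) (algebraMap _ _ τ')
      (algebraMap _ _ (θ i)) z ∈ stab W) : Wit F L n := by
  have hgen' : IntermediateField.adjoin (IntermediateField.adjoin F {s', t'}) (coords z) = ⊤ := by
    rw [eq_top_iff]
    intro x _
    have hle : IntermediateField.adjoin F (coords z)
        ≤ (IntermediateField.adjoin (IntermediateField.adjoin F {s', t'})
          (coords z)).restrictScalars F := by
      rw [IntermediateField.adjoin_le_iff]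
      intro y hy
      exact IntermediateField.subset_adjoin _ _ hy
    rw [hgen] at hle
    exact hle (IntermediateField.mem_top (x := x))
  obtain ⟨hfin, hle⟩ := finrank_le_of_stable W hn h1 (coords z) hgen' (by
    intro g hg
    have hl := lag6 (incl (IntermediateField.adjoin F {s', t'})) sp.hτ sp.hθ
      (Subalgebra.toSubmodule (stab W)) z hx hx'
    rcases hg with ⟨j, rfl⟩ | ⟨j, rfl⟩
    · exact (hl j).1
    · exact (hl j).2)
  refine ⟨s', t', indep_of_finite h0 s' t' ?_, hfin, hle⟩
  exact Algebra.IsAlgebraic.of_finite _ _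

theorem dp6_wit6 {l : Fin 3 → F} {m : QuadraticAlgebra F a b}
    {τ τ' : AlgebraicClosure L} {θ : Fin 3 → AlgebraicClosure L}
    (sp : Split a b r s t τ τ' θ)
    {z : Fin 3 → QuadraticAlgebra L (algebraMap F L a) (algebraMap F L b)}
    (hz : IsTorsorPoint a b r s t l m L z)
    (hgen : IntermediateField.adjoin F (coords z) = ⊤)
    {s₀ t₀ : L} (h0 : AlgebraicIndependent F ![s₀, t₀])
    (hl : ∀ i, evE (algebraMap F (AlgebraicClosure L)) (θ i) l ≠ 0)
    (hm : algebraMap F (AlgebraicClosure L) m.re + algebraMap F (AlgebraicClosure L) m.im * τ ≠ 0) :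
    Wit F L 6 := by
  obtain ⟨Tr, hTr⟩ : ∃ T, T = 3 * (z 0).re + algebraMap F L t * (z 1).re
    + algebraMap F L (t ^ 2 + 2 * s) * (z 2).re := ⟨_, rfl⟩
  obtain ⟨Ti, hTi⟩ : ∃ T, T = 3 * (z 0).im + algebraMap F L t * (z 1).im
    + algebraMap F L (t ^ 2 + 2 * s) * (z 2).im := ⟨_, rfl⟩
  set k := IntermediateField.adjoin F {Tr, Ti} with hk
  have hTrk : Tr ∈ k := IntermediateField.subset_adjoin F _ (by simp)
  have hTik : Ti ∈ k := IntermediateField.subset_adjoin F _ (by simp)
  obtain ⟨e1, e3⟩ := pts sp (A := AlgebraicClosure L ⊗[k] L) (incl k) (incl_F k) hz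
  obtain ⟨_, e4⟩ := pts sp.swap (A := AlgebraicClosure L ⊗[k] L) (incl k) (incl_F k) hz
  have hsum : ∀ σ : AlgebraicClosure L,
      xv (incl k) (algebraMap _ _ σ) (algebraMap _ _ (θ 0)) z
      + xv (incl k) (algebraMap _ _ σ) (algebraMap _ _ (θ 1)) z
      + xv (incl k) (algebraMap _ _ σ) (algebraMap _ _ (θ 2)) z
      = algebraMap (AlgebraicClosure L) (AlgebraicClosure L ⊗[k] L)
        (algebraMap L _ Tr + algebraMap L _ Ti * σ) := by
    intro σ
    have c1 : incl k Tr = algebraMap (AlgebraicClosure L) (AlgebraicClosure L ⊗[k] L)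
      (algebraMap L _ Tr) := scal k ⟨Tr, hTrk⟩
    have c2 : incl k Ti = algebraMap (AlgebraicClosure L) (AlgebraicClosure L ⊗[k] L)
      (algebraMap L _ Ti) := scal k ⟨Ti, hTik⟩
    rw [map_add, map_mul, ← c1, ← c2, hTr, hTi]
    have hp1 : algebraMap (AlgebraicClosure L) (AlgebraicClosure L ⊗[k] L) (θ 0)
        + algebraMap _ _ (θ 1) + algebraMap _ _ (θ 2) = incl k (algebraMap F L t) := by
      rw [incl_F, ← sp.h1, map_add, map_add]
    have hp2 : algebraMap (AlgebraicClosure L) (AlgebraicClosure L ⊗[k] L) (θ 0) ^ 2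
        + algebraMap _ _ (θ 1) ^ 2 + algebraMap _ _ (θ 2) ^ 2
        = incl k (algebraMap F L (t ^ 2 + 2 * s)) := by
      rw [incl_F, ← map_pow, ← map_pow, ← map_pow, ← map_add, ← map_add]
      congr 1
      rw [map_add, map_pow, map_mul, map_ofNat, ← sp.h1]
      linear_combination (-2) * sp.h2
    simp only [map_add, map_mul, map_ofNat] at hp1 hp2 ⊢
    simp only [xv]
    linear_combination (incl k (z 1).re + incl k (z 1).im * algebraMap _ _ σ) * hp1
      + (incl k (z 2).re + incl k (z 2).im * algebraMap _ _ σ) * hp2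
  obtain ⟨W, hW1, hW2, hW3, hW4, hW5⟩ := stable_six
    (fun i => xv (incl k) (algebraMap _ _ τ) (algebraMap _ _ (θ i)) z)
    (fun i => xv (incl k) (algebraMap _ _ τ') (algebraMap _ _ (θ i)) z)
    _ _ _ (fun i => evE (algebraMap F (AlgebraicClosure L)) (θ i) l) (hsum τ) (hsum τ') e1 e3 hl hm
  exact wit_of_bc sp hgen h0 Tr Ti W hW2 hW3 hW4 hW5

end wrapper
end DPI
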