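import Mathlib
import Pool.Agent.H478.DX
set_option autoImplicit false
namespace DPI
open TensorProduct

universe u v

section transc
variable {F L : Type u} [Field F] [Field L] [Algebra F L]

theorem not_all_algebraic {s₀ t₀ : L} (h0 : AlgebraicIndependent F ![s₀, t₀])
    (c : AlgebraicClosure L)
    (hL : ∀ x : L, IsAlgebraic (IntermediateField.adjoin F {c})
      (algebraMap L (AlgebraicClosure L) x)) : False := by
  let K1 := IntermediateField.adjoin F {c}
  let M := algebraicClosure K1 (AlgebraicClosure L)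
  have hLM : ∀ x : L, algebraMap L (AlgebraicClosure L) x ∈ M := fun x =>
    mem_algebraicClosure_iff.2 (hL x)
  let g : L →+* M := (algebraMap L (AlgebraicClosure L)).codRestrict M hLM
  let _ : Algebra L M := g.toAlgebra
  have _ : IsScalarTower L M (AlgebraicClosure L) := IsScalarTower.of_algebraMap_eq fun _ => rfl
  have h1 : Algebra.IsAlgebraic M (AlgebraicClosure L) :=
    Algebra.IsAlgebraic.tower_top (K := L) M
  have h2 : Algebra.IsAlgebraic K1 (AlgebraicClosure L) := Algebra.IsAlgebraic.trans K1 M _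
  have h3 : Algebra.IsAlgebraic (Algebra.adjoin F {c}) (AlgebraicClosure L) := by
    open scoped IntermediateField.algebraAdjoinAdjoin in
    exact (IsFractionRing.comap_isAlgebraic_iff (A := Algebra.adjoin F {c})
      (K := IntermediateField.adjoin F {c}) (C := AlgebraicClosure L)).2 h2
  have h4 : Algebra.trdeg F (AlgebraicClosure L) ≤ Cardinal.mk ({c} : Set (AlgebraicClosure L)) :=
    Algebra.IsAlgebraic.trdeg_le_cardinalMk F {c}
  have h5 : AlgebraicIndependent F ((IsScalarTower.toAlgHom F L (AlgebraicClosure L)) ∘ ![s₀, t₀]) :=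
    h0.map' (algebraMap L (AlgebraicClosure L)).injective
  have h6 := h5.lift_cardinalMk_le_trdeg
  have h7 := h6.trans (Cardinal.lift_le.2 h4)
  simp at h7

variable {a b r s t : F}

theorem coord_transcendental {l : Fin 3 → F} {m : QuadraticAlgebra F a b}
    {τ τ' : AlgebraicClosure L} {θ : Fin 3 → AlgebraicClosure L}
    (sp : Split a b r s t τ τ' θ)
    {z : Fin 3 → QuadraticAlgebra L (algebraMap F L a) (algebraMap F L b)}
    (hz : IsTorsorPoint a b r s t l m L z)
    (hgen : IntermediateField.adjoin F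
      (Set.range (fun j => (z j).re) ∪ Set.range (fun j => (z j).im)) = ⊤)
    {s₀ t₀ : L} (h0 : AlgebraicIndependent F ![s₀, t₀])
    (hl : ∀ i, evE (algebraMap F (AlgebraicClosure L)) (θ i) l ≠ 0) (i : Fin 3) :
    Transcendental F (xv (algebraMap L (AlgebraicClosure L)) τ (θ i) z) := by
  intro halg
  obtain ⟨e1, e3⟩ := pts sp (A := AlgebraicClosure L) (algebraMap L (AlgebraicClosure L))
    (fun c => (IsScalarTower.algebraMap_apply F L (AlgebraicClosure L) c).symm) hz
  simp only [Algebra.algebraMap_self, RingHom.id_apply] at e1 e3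
  obtain ⟨x, hx⟩ : ∃ x : Fin 3 → AlgebraicClosure L,
      ∀ i, x i = xv (algebraMap L (AlgebraicClosure L)) τ (θ i) z := ⟨_, fun _ => rfl⟩
  obtain ⟨x', hx'⟩ : ∃ x : Fin 3 → AlgebraicClosure L,
      ∀ i, x i = xv (algebraMap L (AlgebraicClosure L)) τ' (θ i) z := ⟨_, fun _ => rfl⟩
  simp only [← hx, ← hx'] at e1 e3 halg
  have hx0 : ∀ i, x i ≠ 0 := by
    intro i h
    apply hl i
    rw [← e1, h, zero_mul]
  -- the three indices
  obtain ⟨j, k, hcov, hprod⟩ : ∃ j k : Fin 3, (∀ n, n = i ∨ n = j ∨ n = k) ∧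
      x i * x j * x k = x 0 * x 1 * x 2 := by
    fin_cases i
    · exact ⟨1, 2, by decide, rfl⟩
    · exact ⟨0, 2, by decide, by show x 1 * x 0 * x 2 = _; ring⟩
    · exact ⟨0, 1, by decide, by show x 2 * x 0 * x 1 = _; ring⟩
  refine not_all_algebraic h0 (x j) ?_
  let K1 := IntermediateField.adjoin F {x j}
  let M := algebraicClosure K1 (AlgebraicClosure L)
  have hM : ∀ y : AlgebraicClosure L, IsAlgebraic F y → y ∈ M := fun y hy =>
    mem_algebraicClosure_iff.2 (hy.extendScalars (algebraMap F K1).injective)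
  have hFalg : ∀ c : F, IsAlgebraic F (algebraMap F (AlgebraicClosure L) c) := fun c =>
    isAlgebraic_algebraMap c
  have hθM : ∀ i, θ i ∈ M := by
    intro i
    apply hM
    have h3 := root_of_sym (algebraMap F (AlgebraicClosure L)) r s t sp.h1 sp.h2 sp.h3 i
    refine ⟨Polynomial.X ^ 3 - Polynomial.C r - Polynomial.C s * Polynomial.X
      - Polynomial.C t * Polynomial.X ^ 2, ?_, ?_⟩
    · intro h
      have := congrArg (fun p => Polynomial.coeff p 3) h
      simp at this
    · simp only [map_sub, map_mul, map_pow, Polynomial.aeval_X, Polynomial.aeval_C]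
      rw [h3]
      ring
  have hτM : ∀ σ : AlgebraicClosure L, σ * σ = algebraMap F (AlgebraicClosure L) a
      + algebraMap F (AlgebraicClosure L) b * σ → σ ∈ M := by
    intro σ hσ
    apply hM
    refine ⟨Polynomial.X ^ 2 - Polynomial.C a - Polynomial.C b * Polynomial.X, ?_, ?_⟩
    · intro h
      have := congrArg (fun p => Polynomial.coeff p 2) h
      simp at this
    · simp only [map_sub, map_mul, map_pow, Polynomial.aeval_X, Polynomial.aeval_C]
      linear_combination hσ
  have hτ1 := hτM τ sp.sq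
  have hτ2 := hτM τ' sp.swap.sq
  have hxi : x i ∈ M := hM _ halg
  have hxj : x j ∈ M := by
    have : x j = algebraMap K1 (AlgebraicClosure L)
      ⟨x j, IntermediateField.mem_adjoin_simple_self F (x j)⟩ := rfl
    rw [this]
    exact M.algebraMap_mem _
  have hFM : ∀ c : F, algebraMap F (AlgebraicClosure L) c ∈ M := fun c => hM _ (hFalg c)
  have hxk : x k ∈ M := by
    have h1 : x k = (algebraMap F (AlgebraicClosure L) m.re + algebraMap F (AlgebraicClosure L) m.im * τ)
        / (x i * x j) := by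
      rw [eq_div_iff (mul_ne_zero (hx0 i) (hx0 j)), ← e3, ← hprod]; ring
    rw [h1]
    exact M.div_mem (M.add_mem (hFM _) (M.mul_mem (hFM _) hτ1)) (M.mul_mem hxi hxj)
  have hxM : ∀ n, x n ∈ M := by
    intro n
    rcases hcov n with rfl | rfl | rfl
    · exact hxi
    · exact hxj
    · exact hxk
  have hxM' : ∀ n, x' n ∈ M := by
    intro n
    have h1 : x' n = evE (algebraMap F (AlgebraicClosure L)) (θ n) l / x n := by
      rw [eq_div_iff (hx0 n), ← e1]; ring
    rw [h1]
    refine M.div_mem ?_ (hxM n)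
    exact M.add_mem (M.add_mem (hFM _) (M.mul_mem (hFM _) (hθM n)))
      (M.mul_mem (hFM _) (pow_mem (hθM n) 2))
  have hcoords := lag6 (Ω := M) (A := AlgebraicClosure L) (τ := ⟨τ, hτ1⟩) (τ' := ⟨τ', hτ2⟩)
    (θ := fun i => ⟨θ i, hθM i⟩) (algebraMap L (AlgebraicClosure L))
    (fun h => sp.hτ (congrArg Subtype.val h)) (fun p q h => sp.hθ (congrArg Subtype.val h))
    (Subalgebra.toSubmodule (⊥ : Subalgebra M (AlgebraicClosure L))) z
    (fun n => ⟨⟨x n, hxM n⟩, hx n⟩)
    (fun n => ⟨⟨x' n, hxM' n⟩, hx' n⟩)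
  have hcoordsM : ∀ y ∈ (Set.range (fun j => (z j).re) ∪ Set.range (fun j => (z j).im)),
      algebraMap L (AlgebraicClosure L) y ∈ M := by
    rintro y (⟨n, rfl⟩ | ⟨n, rfl⟩)
    · obtain ⟨w, hw⟩ := (hcoords n).1
      rw [← hw]; exact w.2
    · obtain ⟨w, hw⟩ := (hcoords n).2
      rw [← hw]; exact w.2
  intro y
  have hle : IntermediateField.adjoin F
      (Set.range (fun j => (z j).re) ∪ Set.range (fun j => (z j).im))
      ≤ (M.restrictScalars F).comap (IsScalarTower.toAlgHom F L (AlgebraicClosure L)) := by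
    rw [IntermediateField.adjoin_le_iff]
    intro y hy
    exact hcoordsM y hy
  rw [hgen] at hle
  have hy := hle (IntermediateField.mem_top (x := y))
  exact mem_algebraicClosure_iff.1 hy

end transc
end DPI
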