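import Mathlib
import Pool.Agent.H478.DY
import Pool.Agent.H478.DZ
set_option autoImplicit false
namespace DPI
open TensorProduct

universe u v

section form
variable {R A : Type*} [CommRing R] [CommRing A]

def trE (s t : R) (w : Fin 3 → R) : R := 3 * w 0 + t * w 1 + (t ^ 2 + 2 * s) * w 2

def formY (r s t : R) (v l : Fin 3 → R) : Fin 3 → R :=
  mulE r s t v (fun j => 2 * mulE r s t (mulE r s t v v) l j
    - if j = 0 then trE s t (mulE r s t (mulE r s t v v) l) else 0)

theorem map_formY (f : R →+* A) (r s t : R) (v l : Fin 3 → R) (j : Fin 3) :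
    f (formY r s t v l j)
      = formY (f r) (f s) (f t) (fun i => f (v i)) (fun i => f (l i)) j := by
  rw [formY, map_mulE, formY]
  congr 1
  funext i
  rw [map_sub, map_mul, map_ofNat, map_mulE]
  have h1 : (fun i => f (mulE r s t v v i))
      = mulE (f r) (f s) (f t) (fun i => f (v i)) (fun i => f (v i)) := by
    funext i; rw [map_mulE]
  rw [h1]
  congr 1
  split_ifs with h
  · simp only [trE, map_add, map_mul, map_pow, map_ofNat, map_mulE]
  · rw [map_zero]

theorem evE_tr (f : R →+* A) (s t : R) {θ : Fin 3 → A} (h1 : θ 0 + θ 1 + θ 2 = f t)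
    (h2 : θ 0 * θ 1 + θ 0 * θ 2 + θ 1 * θ 2 = -f s) (w : Fin 3 → R) :
    f (trE s t w) = evE f (θ 0) w + evE f (θ 1) w + evE f (θ 2) w := by
  have h2' : f s = -(θ 0 * θ 1 + θ 0 * θ 2 + θ 1 * θ 2) := by rw [h2]; ring
  simp only [trE, evE, map_add, map_mul, map_pow, map_ofNat]
  rw [← h1, h2']
  ring

theorem evE_formY (f : R →+* A) (r s t : R) {θ : Fin 3 → A} (h1 : θ 0 + θ 1 + θ 2 = f t)
    (h2 : θ 0 * θ 1 + θ 0 * θ 2 + θ 1 * θ 2 = -f s) (h3 : θ 0 * θ 1 * θ 2 = f r)
    (v l : Fin 3 → R) (i : Fin 3) :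
    evE f (θ i) (formY r s t v l) = evE f (θ i) v * (2 * (evE f (θ i) v ^ 2 * evE f (θ i) l)
      - (evE f (θ 0) v ^ 2 * evE f (θ 0) l + evE f (θ 1) v ^ 2 * evE f (θ 1) l
        + evE f (θ 2) v ^ 2 * evE f (θ 2) l)) := by
  have hroot := root_of_sym f r s t h1 h2 h3
  rw [formY, evE_mul f r s t (hroot i)]
  congr 1
  have hw : ∀ n, evE f (θ n) (mulE r s t (mulE r s t v v) l)
      = evE f (θ n) v ^ 2 * evE f (θ n) l := by
    intro n
    rw [evE_mul f r s t (hroot n), evE_mul f r s t (hroot n)]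
    ring
  rw [← hw, ← hw, ← hw, ← hw, ← evE_tr f s t h1 h2]
  have hf2 : f 2 = 2 := map_ofNat f 2
  simp only [evE]
  simp [hf2]
  ring

end form

section inj
variable {L Ω : Type*} [Field L] [Field Ω] {θ : Fin 3 → Ω}

theorem evE_inj (f : L →+* Ω) (hθ : Function.Injective θ) (u w : Fin 3 → L)
    (h : ∀ i, evE f (θ i) u = evE f (θ i) w) : u = w := by
  have h1 := lag3 (Ω := Ω) (A := Ω) hθ ⊥ (f (u 0) - f (w 0)) (f (u 1) - f (w 1))
    (f (u 2) - f (w 2)) (fun i => by
      rw [Submodule.mem_bot]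
      have := h i
      simp only [evE] at this
      simp only [Algebra.algebraMap_self, RingHom.id_apply]
      linear_combination this)
  simp only [Submodule.mem_bot, sub_eq_zero] at h1
  funext j
  fin_cases j
  · exact f.injective h1.1
  · exact f.injective h1.2.1
  · exact f.injective h1.2.2

end inj

section wit2
variable {F L : Type u} [Field F] [Field L] [Algebra F L] {a b r s t : F}

/-- the key identity -/
theorem quot_identity {Ω : Type*} [Field Ω] (x x' M : Fin 3 → Ω) (hM : ∀ i, x i * x' i * M i = 1)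
    (hx : x 0 * x 1 * x 2 = 1) (hx' : x' 0 * x' 1 * x' 2 = 1) (i : Fin 3) :
    (x 0 - x' 0) * (x 1 - x' 1) * (x 2 - x' 2) * (x i + x' i)
      = (x i - x' i) * (2 * ((x i - x' i) ^ 2 * M i)
        - ((x 0 - x' 0) ^ 2 * M 0 + (x 1 - x' 1) ^ 2 * M 1 + (x 2 - x' 2) ^ 2 * M 2)) := by
  have key : ∀ i j k : Fin 3, x i * x j * x k = 1 → x' i * x' j * x' k = 1 →
      (x i - x' i) ^ 2 * M i = x i * (x' j * x' k) - 2 + x' i * (x j * x k) := by
    intro i j k h h'
    have h1 := hM i
    have e1 : x i * M i = x' j * x' k := by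
      linear_combination (-(x i * M i)) * h' + (x' j * x' k) * h1
    have e2 : x' i * M i = x j * x k := by
      linear_combination (-(x' i * M i)) * h + (x j * x k) * h1
    linear_combination x i * e1 + x' i * e2 - 2 * h1
  have k0 := key 0 1 2 hx hx'
  have k1 := key 1 0 2 (by rw [← hx]; ring) (by rw [← hx']; ring)
  have k2 := key 2 0 1 (by rw [← hx]; ring) (by rw [← hx']; ring)
  fin_cases i
  · show (x 0 - x' 0) * (x 1 - x' 1) * (x 2 - x' 2) * (x 0 + x' 0)
      = (x 0 - x' 0) * (2 * ((x 0 - x' 0) ^ 2 * M 0)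
        - ((x 0 - x' 0) ^ 2 * M 0 + (x 1 - x' 1) ^ 2 * M 1 + (x 2 - x' 2) ^ 2 * M 2))
    rw [k0, k1, k2]
    linear_combination (x 0 - x' 0) * hx + (x 0 - x' 0) * hx'
  · show (x 0 - x' 0) * (x 1 - x' 1) * (x 2 - x' 2) * (x 1 + x' 1)
      = (x 1 - x' 1) * (2 * ((x 1 - x' 1) ^ 2 * M 1)
        - ((x 0 - x' 0) ^ 2 * M 0 + (x 1 - x' 1) ^ 2 * M 1 + (x 2 - x' 2) ^ 2 * M 2))
    rw [k0, k1, k2]
    linear_combination (x 1 - x' 1) * hx + (x 1 - x' 1) * hx'
  · show (x 0 - x' 0) * (x 1 - x' 1) * (x 2 - x' 2) * (x 2 + x' 2)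
      = (x 2 - x' 2) * (2 * ((x 2 - x' 2) ^ 2 * M 2)
        - ((x 0 - x' 0) ^ 2 * M 0 + (x 1 - x' 1) ^ 2 * M 1 + (x 2 - x' 2) ^ 2 * M 2))
    rw [k0, k1, k2]
    linear_combination (x 2 - x' 2) * hx + (x 2 - x' 2) * hx'

theorem xv_add {A₀ A : Type*} [CommRing A₀] [CommRing A] {a₀ b₀ : A₀} (h : A₀ →+* A)
    (τ τ' θ : A) (hs : τ + τ' = h b₀) (z : Fin 3 → QuadraticAlgebra A₀ a₀ b₀) :
    xv h τ θ z + xv h τ' θ z = evE h θ (fun j => 2 * (z j).re + b₀ * (z j).im) := by
  simp only [xv, evE, map_add, map_mul, map_ofNat, ← hs]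
  ring

theorem xv_sub {A₀ A : Type*} [CommRing A₀] [CommRing A] {a₀ b₀ : A₀} (h : A₀ →+* A)
    (τ τ' θ : A) (z : Fin 3 → QuadraticAlgebra A₀ a₀ b₀) :
    xv h τ θ z - xv h τ' θ z = (τ - τ') * evE h θ (fun j => (z j).im) := by
  simp only [xv, evE]
  ring

theorem incl_evE (k : IntermediateField F L) (w : Fin 3 → L) (hw : ∀ j, w j ∈ k)
    (θ : AlgebraicClosure L) :
    evE (incl k) (algebraMap _ _ θ) w
      = algebraMap (AlgebraicClosure L) (AlgebraicClosure L ⊗[k] L)
        (evE (algebraMap L (AlgebraicClosure L)) θ w) := by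
  have h1 : ∀ j, incl k (w j) = algebraMap (AlgebraicClosure L) (AlgebraicClosure L ⊗[k] L)
      (algebraMap L (AlgebraicClosure L) (w j)) := fun j => scal k ⟨w j, hw j⟩
  simp only [evE, h1, map_add, map_mul, map_pow]

theorem dp6_wit2 {l l' : Fin 3 → F} (hll : mulE r s t l l' = ![1, 0, 0])
    {τ τ' : AlgebraicClosure L} {θ : Fin 3 → AlgebraicClosure L}
    (sp : Split a b r s t τ τ' θ)
    {z : Fin 3 → QuadraticAlgebra L (algebraMap F L a) (algebraMap F L b)}
    (hz : IsTorsorPoint a b r s t l 1 L z)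
    (hgen : IntermediateField.adjoin F (coords z) = ⊤)
    {s₀ t₀ : L} (h0 : AlgebraicIndependent F ![s₀, t₀]) : Wit F L 2 := by
  have hcompat : ∀ c : F, algebraMap L (AlgebraicClosure L) (algebraMap F L c)
      = algebraMap (AlgebraicClosure L) (AlgebraicClosure L) (algebraMap F (AlgebraicClosure L) c) :=
    fun c => (IsScalarTower.algebraMap_apply F L (AlgebraicClosure L) c).symm
  have hcompat' : ∀ c : F, algebraMap L (AlgebraicClosure L) (algebraMap F L c)
      = algebraMap F (AlgebraicClosure L) c := hcompat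
  obtain ⟨e1, e3⟩ := pts sp (A := AlgebraicClosure L) (algebraMap L (AlgebraicClosure L)) hcompat hz
  obtain ⟨_, e4⟩ := pts sp.swap (A := AlgebraicClosure L) (algebraMap L (AlgebraicClosure L))
    hcompat hz
  have hm1 : ∀ σ : AlgebraicClosure L, algebraMap F (AlgebraicClosure L)
      (QuadraticAlgebra.re (1 : QuadraticAlgebra F a b))
      + algebraMap F (AlgebraicClosure L) (QuadraticAlgebra.im (1 : QuadraticAlgebra F a b)) * σ
      = 1 := by
    intro σ
    rw [QuadraticAlgebra.re_one, QuadraticAlgebra.im_one, map_one, map_zero, zero_mul, add_zero]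
  rw [hm1] at e3 e4
  simp only [Algebra.algebraMap_self, RingHom.id_apply] at e1 e3 e4
  -- values of `l`
  have hll' : ∀ i, evE (algebraMap F (AlgebraicClosure L)) (θ i) l
      * evE (algebraMap F (AlgebraicClosure L)) (θ i) l' = 1 := by
    intro i
    rw [← evE_mul (algebraMap F (AlgebraicClosure L)) r s t
      (root_of_sym (algebraMap F (AlgebraicClosure L)) r s t sp.h1 sp.h2 sp.h3 i), hll]
    simp [evE]
  have hl0 : ∀ i, evE (algebraMap F (AlgebraicClosure L)) (θ i) l ≠ 0 :=
    fun i => left_ne_zero_of_mul_eq_one (hll' i)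
  have htr := coord_transcendental sp hz hgen h0 hl0
  obtain ⟨x, hx⟩ : ∃ x : Fin 3 → AlgebraicClosure L,
      ∀ i, x i = xv (algebraMap L (AlgebraicClosure L)) τ (θ i) z := ⟨_, fun _ => rfl⟩
  obtain ⟨x', hx'⟩ : ∃ x : Fin 3 → AlgebraicClosure L,
      ∀ i, x i = xv (algebraMap L (AlgebraicClosure L)) τ' (θ i) z := ⟨_, fun _ => rfl⟩
  simp only [← hx, ← hx'] at e1 e3 e4 htr
  have hne : ∀ i, x i - x' i ≠ 0 := by
    intro i h
    apply htr i
    have h2 : x i ^ 2 = evE (algebraMap F (AlgebraicClosure L)) (θ i) l := by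
      rw [← e1]; linear_combination x i * h
    have h3 : IsAlgebraic F (θ i) := by
      refine ⟨Polynomial.X ^ 3 - Polynomial.C r - Polynomial.C s * Polynomial.X
        - Polynomial.C t * Polynomial.X ^ 2, ?_, ?_⟩
      · intro h
        have := congrArg (fun p => Polynomial.coeff p 3) h
        simp at this
      · simp only [map_sub, map_mul, map_pow, Polynomial.aeval_X, Polynomial.aeval_C]
        rw [root_of_sym (algebraMap F (AlgebraicClosure L)) r s t sp.h1 sp.h2 sp.h3 i]
        ring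
    have h4 : IsAlgebraic F (x i ^ 2) := by
      rw [h2]
      exact ((isAlgebraic_algebraMap _).add ((isAlgebraic_algebraMap _).mul h3)).add
        ((isAlgebraic_algebraMap _).mul (h3.pow 2))
    exact IsAlgebraic.of_pow (by norm_num) h4
  -- the imaginary part
  let v : Fin 3 → L := fun j => (z j).im
  let y : Fin 3 → L := fun j => 2 * (z j).re + algebraMap F L b * (z j).im
  have hsub : ∀ i, x i - x' i = (τ - τ') * evE (algebraMap L (AlgebraicClosure L)) (θ i) v := by
    intro i; rw [hx, hx', xv_sub]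
  have hadd : ∀ i, x i + x' i = evE (algebraMap L (AlgebraicClosure L)) (θ i) y := by
    intro i
    rw [hx, hx', xv_add _ _ _ _ (by rw [sp.hb, hcompat'])]
  have hv : ∃ j, v j ≠ 0 := by
    by_contra hcon
    push Not at hcon
    apply hne 0
    rw [hsub]
    simp [evE, hcon]
  obtain ⟨j₀, hj₀⟩ := hv
  let v' : Fin 3 → L := fun j => v j / v j₀
  set k := IntermediateField.adjoin F {v' (j₀ + 1), v' (j₀ + 2)} with hk
  have hv'k : ∀ j, v' j ∈ k := by
    intro j
    have hj : ∀ j₀ j : Fin 3, j = j₀ ∨ j = j₀ + 1 ∨ j = j₀ + 2 := by decide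
    rcases hj j₀ j with rfl | rfl | rfl
    · show v j / v j ∈ k
      rw [div_self hj₀]; exact k.one_mem
    · exact IntermediateField.subset_adjoin F _ (by simp)
    · exact IntermediateField.subset_adjoin F _ (by simp)
  -- the formula for `y`
  have hV' : ∀ i, evE (algebraMap L (AlgebraicClosure L)) (θ i) v'
      = (x i - x' i) / ((τ - τ') * algebraMap L (AlgebraicClosure L) (v j₀)) := by
    intro i
    have h1 : τ - τ' ≠ 0 := sub_ne_zero.2 sp.hτ
    have h2 : algebraMap L (AlgebraicClosure L) (v j₀) ≠ 0 := (map_ne_zero _).2 hj₀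
    rw [hsub]
    simp only [evE, v', map_div₀]
    field_simp
  have hsym1 : θ 0 + θ 1 + θ 2 = algebraMap L (AlgebraicClosure L) (algebraMap F L t) := by
    rw [hcompat']; exact sp.h1
  have hsym2 : θ 0 * θ 1 + θ 0 * θ 2 + θ 1 * θ 2
      = -algebraMap L (AlgebraicClosure L) (algebraMap F L s) := by
    rw [hcompat']; exact sp.h2
  have hsym3 : θ 0 * θ 1 * θ 2 = algebraMap L (AlgebraicClosure L) (algebraMap F L r) := by
    rw [hcompat']; exact sp.h3
  have hN : normE (algebraMap F L r) (algebraMap F L s) (algebraMap F L t) v' ≠ 0 := by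
    intro h
    have h1 := evE_norm (algebraMap L (AlgebraicClosure L)) _ _ _ hsym1 hsym2 hsym3 v'
    rw [h, map_zero, hV', hV', hV'] at h1
    have h2 : (τ - τ') * algebraMap L (AlgebraicClosure L) (v j₀) ≠ 0 :=
      mul_ne_zero (sub_ne_zero.2 sp.hτ) ((map_ne_zero _).2 hj₀)
    exact mul_ne_zero (mul_ne_zero (div_ne_zero (hne 0) h2) (div_ne_zero (hne 1) h2))
      (div_ne_zero (hne 2) h2) h1.symm
  have hform : (fun j => normE (algebraMap F L r) (algebraMap F L s) (algebraMap F L t) v' * y j)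
      = formY (algebraMap F L r) (algebraMap F L s) (algebraMap F L t) v'
        (fun j => algebraMap F L (l' j)) := by
    refine evE_inj (algebraMap L (AlgebraicClosure L)) sp.hθ _ _ fun i => ?_
    rw [evE_formY (algebraMap L (AlgebraicClosure L)) _ _ _ hsym1 hsym2 hsym3]
    have h1 : evE (algebraMap L (AlgebraicClosure L)) (θ i) (fun j =>
        normE (algebraMap F L r) (algebraMap F L s) (algebraMap F L t) v' * y j)
        = algebraMap L (AlgebraicClosure L)
          (normE (algebraMap F L r) (algebraMap F L s) (algebraMap F L t) v') * (x i + x' i) := by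
      rw [hadd]
      simp only [evE, map_mul]
      ring
    have h2 : ∀ n, evE (algebraMap L (AlgebraicClosure L)) (θ n) (fun j => algebraMap F L (l' j))
        = evE (algebraMap F (AlgebraicClosure L)) (θ n) l' := by
      intro n
      simp only [evE, hcompat']
    rw [h1, evE_norm (algebraMap L (AlgebraicClosure L)) _ _ _ hsym1 hsym2 hsym3, h2, h2, h2, h2,
      hV', hV', hV', hV']
    have hq := quot_identity x x' (fun i => evE (algebraMap F (AlgebraicClosure L)) (θ i) l')
      (fun i => by rw [e1]; exact hll' i) e3 e4 i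
    have h3 : (τ - τ') * algebraMap L (AlgebraicClosure L) (v j₀) ≠ 0 :=
      mul_ne_zero (sub_ne_zero.2 sp.hτ) ((map_ne_zero _).2 hj₀)
    obtain ⟨c, hc⟩ : ∃ c, c = ((τ - τ') * algebraMap L (AlgebraicClosure L) (v j₀))⁻¹ := ⟨_, rfl⟩
    simp only [div_eq_mul_inv, ← hc]
    linear_combination c ^ 3 * hq
  have hyk : ∀ j, y j ∈ k := by
    intro j
    have h1 := congrFun hform j
    have h2 : y j = formY (algebraMap F L r) (algebraMap F L s) (algebraMap F L t) v'
        (fun j => algebraMap F L (l' j)) j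
        / normE (algebraMap F L r) (algebraMap F L s) (algebraMap F L t) v' := by
      rw [eq_div_iff hN, ← h1]; ring
    rw [h2]
    refine k.div_mem ?_ ?_
    · have h3 := map_formY (algebraMap k L) (algebraMap F k r) (algebraMap F k s) (algebraMap F k t)
        (fun j => ⟨v' j, hv'k j⟩) (fun j => algebraMap F k (l' j)) j
      have h4 : formY (algebraMap F L r) (algebraMap F L s) (algebraMap F L t) v'
        (fun j => algebraMap F L (l' j)) j
        = algebraMap k L (formY (algebraMap F k r) (algebraMap F k s) (algebraMap F k t)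
        (fun j => ⟨v' j, hv'k j⟩) (fun j => algebraMap F k (l' j)) j) := by rw [h3]; rfl
      rw [h4]
      exact Subtype.mem _
    · have h3 := map_normE (algebraMap k L) (algebraMap F k r) (algebraMap F k s) (algebraMap F k t)
        (fun j => ⟨v' j, hv'k j⟩)
      have h4 : normE (algebraMap F L r) (algebraMap F L s) (algebraMap F L t) v'
        = algebraMap k L (normE (algebraMap F k r) (algebraMap F k s) (algebraMap F k t)
        (fun j => ⟨v' j, hv'k j⟩)) := by rw [h3]; rfl
      rw [h4]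
      exact Subtype.mem _
  -- extension of scalars
  obtain ⟨f1, f3⟩ := pts sp (A := AlgebraicClosure L ⊗[k] L) (incl k) (incl_F k) hz
  obtain ⟨_, f4⟩ := pts sp.swap (A := AlgebraicClosure L ⊗[k] L) (incl k) (incl_F k) hz
  rw [hm1, map_one] at f3 f4
  have hadd' : ∀ i, xv (incl k) (algebraMap _ _ τ) (algebraMap _ _ (θ i)) z
      + xv (incl k) (algebraMap _ _ τ') (algebraMap _ _ (θ i)) z
      = algebraMap (AlgebraicClosure L) (AlgebraicClosure L ⊗[k] L) (x i + x' i) := by
    intro i
    rw [xv_add _ _ _ _ (by rw [← map_add, sp.hb, incl_F]), hadd, ← incl_evE k y hyk]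
  obtain ⟨W, hW1, hW2, hW3, hW4, hW5⟩ := stable_two
    (fun i => xv (incl k) (algebraMap _ _ τ) (algebraMap _ _ (θ i)) z)
    (fun i => xv (incl k) (algebraMap _ _ τ') (algebraMap _ _ (θ i)) z)
    (fun i => x i + x' i) (fun i => evE (algebraMap F (AlgebraicClosure L)) (θ i) l)
    hadd' f1 f3 f4 hl0 (by
      intro h
      apply pow_ne_zero 2 (hne 0)
      simp only [← e1] at h
      linear_combination -h)
  exact wit_of_bc sp hgen h0 _ _ W hW2 hW3 hW4 hW5

end wit2
end DPI
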