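import Mathlib
import Pool.Agent.H478.DZ2
set_option autoImplicit false
namespace DPI
open TensorProduct

universe u v

section mem
variable {F L : Type u} [Field F] [Field L] [Algebra F L]

theorem mulE_mem (k : IntermediateField F L) (r s t : F) {u v : Fin 3 → L} (hu : ∀ j, u j ∈ k)
    (hv : ∀ j, v j ∈ k) (j : Fin 3) :
    mulE (algebraMap F L r) (algebraMap F L s) (algebraMap F L t) u v j ∈ k := by
  have h := map_mulE (algebraMap k L) (algebraMap F k r) (algebraMap F k s) (algebraMap F k t)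
    (fun j => ⟨u j, hu j⟩) (fun j => ⟨v j, hv j⟩) j
  have h4 : mulE (algebraMap F L r) (algebraMap F L s) (algebraMap F L t) u v j
      = algebraMap k L (mulE (algebraMap F k r) (algebraMap F k s) (algebraMap F k t)
      (fun j => ⟨u j, hu j⟩) (fun j => ⟨v j, hv j⟩) j) := by rw [h]; rfl
  rw [h4]
  exact Subtype.mem _

theorem normE_mem (k : IntermediateField F L) (r s t : F) {u : Fin 3 → L} (hu : ∀ j, u j ∈ k) :
    normE (algebraMap F L r) (algebraMap F L s) (algebraMap F L t) u ∈ k := by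
  have h := map_normE (algebraMap k L) (algebraMap F k r) (algebraMap F k s) (algebraMap F k t)
    (fun j => ⟨u j, hu j⟩)
  have h4 : normE (algebraMap F L r) (algebraMap F L s) (algebraMap F L t) u
      = algebraMap k L (normE (algebraMap F k r) (algebraMap F k s) (algebraMap F k t)
      (fun j => ⟨u j, hu j⟩)) := by rw [h]; rfl
  rw [h4]
  exact Subtype.mem _

theorem adjE_mem (k : IntermediateField F L) (r s t : F) {u : Fin 3 → L} (hu : ∀ j, u j ∈ k)
    (j : Fin 3) : adjE (algebraMap F L r) (algebraMap F L s) (algebraMap F L t) u j ∈ k := by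
  have hr := k.algebraMap_mem r
  have hs := k.algebraMap_mem s
  have ht := k.algebraMap_mem t
  have h0 := hu 0
  have h1 := hu 1
  have h2 := hu 2
  fin_cases j <;> simp only [adjE] <;> simp <;>
    exact k.sub_mem (by first | exact k.mul_mem (by aesop (add safe apply [IntermediateField.add_mem, IntermediateField.mul_mem, pow_mem])) (by aesop (add safe apply [IntermediateField.add_mem, IntermediateField.mul_mem, pow_mem]))) (by exact k.mul_mem (by aesop (add safe apply [IntermediateField.add_mem, IntermediateField.mul_mem, pow_mem])) (by aesop (add safe apply [IntermediateField.add_mem, IntermediateField.mul_mem, pow_mem])))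

theorem normE_cubic {R : Type*} [CommRing R] (r s t x w o w1 w2 : R) (hw : w = x + o) :
    normE r s t ![w, w1, w2] = x ^ 3 + x ^ 2 * (3 * o + (t * w1 + (t ^ 2 + 2 * s) * w2))
      + x * (3 * o ^ 2 + 2 * o * (t * w1 + (t ^ 2 + 2 * s) * w2)
        + (-(r * w1 * w2) - w2 * (r * w1 + r * t * w2)
          + (s * w2 * (t * w1 + (s + t ^ 2) * w2)
            - (w1 + t * w2) * (s * w1 + (r + s * t) * w2))))
      + normE r s t ![o, w1, w2] := by
  rw [hw, normE_eq, normE_eq]
  simp
  ring

theorem normE_cubic_mem {R : Type*} [CommRing R] (S : Subring R) (r s t x w o w1 w2 : R)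
    (hw : w = x + o) (hr : r ∈ S) (hs : s ∈ S) (ht : t ∈ S) (ho : o ∈ S) (h1 : w1 ∈ S)
    (h2 : w2 ∈ S) : ∃ E2 E1 E0 : R, E2 ∈ S ∧ E1 ∈ S ∧ E0 ∈ S ∧
    normE r s t ![w, w1, w2] = x ^ 3 + x ^ 2 * E2 + x * E1 + E0 := by
  obtain ⟨r', hr'⟩ : ∃ r' : S, (r' : R) = r := ⟨⟨r, hr⟩, rfl⟩
  obtain ⟨s', hs'⟩ : ∃ s' : S, (s' : R) = s := ⟨⟨s, hs⟩, rfl⟩
  obtain ⟨t', ht'⟩ : ∃ t' : S, (t' : R) = t := ⟨⟨t, ht⟩, rfl⟩
  obtain ⟨o', ho'⟩ : ∃ o' : S, (o' : R) = o := ⟨⟨o, ho⟩, rfl⟩
  obtain ⟨p, hp⟩ : ∃ p : S, (p : R) = w1 := ⟨⟨w1, h1⟩, rfl⟩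
  obtain ⟨q, hq⟩ : ∃ q : S, (q : R) = w2 := ⟨⟨w2, h2⟩, rfl⟩
  refine ⟨((3 * o' + (t' * p + (t' ^ 2 + 2 * s') * q) : S) : R),
    ((3 * o' ^ 2 + 2 * o' * (t' * p + (t' ^ 2 + 2 * s') * q)
        + (-(r' * p * q) - q * (r' * p + r' * t' * q)
          + (s' * q * (t' * p + (s' + t' ^ 2) * q)
            - (p + t' * q) * (s' * p + (r' + s' * t') * q))) : S) : R),
    ((normE r' s' t' ![o', p, q] : S) : R), Subtype.mem _, Subtype.mem _, Subtype.mem _, ?_⟩
  have h3 := map_normE S.subtype r' s' t' ![o', p, q]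
  have h4 : (fun i => S.subtype ((![o', p, q] : Fin 3 → S) i)) = ![o, w1, w2] := by
    funext i
    fin_cases i
    · exact ho'
    · exact hp
    · exact hq
  rw [h4] at h3
  have h5 : S.subtype r' = r := hr'
  have h6 : S.subtype s' = s := hs'
  have h7 : S.subtype t' = t := ht'
  rw [h5, h6, h7] at h3
  have h8 : ((normE r' s' t' ![o', p, q] : S) : R) = normE r s t ![o, w1, w2] := h3
  rw [normE_cubic r s t x w o w1 w2 hw, h8]
  have c3 : ((3 : S) : R) = 3 := rfl
  have c2 : ((2 : S) : R) = 2 := rfl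
  push_cast
  rw [c3, c2, hr', hs', ht', ho', hp, hq]

theorem quad_rel {A : Type*} [Field A] {a b : A} (x : A) (D3 D2 D1 D0 : QuadraticAlgebra A a b)
    (h : (⟨x, 0⟩ : QuadraticAlgebra A a b) ^ 3 * D3 + ⟨x, 0⟩ ^ 2 * D2 + ⟨x, 0⟩ * D1 + D0 = 0) :
    D3.re * x ^ 3 + D2.re * x ^ 2 + D1.re * x + D0.re = 0 ∧
    D3.im * x ^ 3 + D2.im * x ^ 2 + D1.im * x + D0.im = 0 := by
  have hpow : ∀ (e : ℕ) (c : QuadraticAlgebra A a b),
      ((⟨x, 0⟩ : QuadraticAlgebra A a b) ^ e * c).re = x ^ e * c.re ∧
      ((⟨x, 0⟩ : QuadraticAlgebra A a b) ^ e * c).im = x ^ e * c.im := by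
    intro e
    induction e with
    | zero => intro c; simp
    | succ e ih =>
      intro c
      have h1 : (⟨x, 0⟩ : QuadraticAlgebra A a b) ^ (e + 1) * c
        = ⟨x, 0⟩ ^ e * (⟨x, 0⟩ * c) := by rw [pow_succ, mul_assoc]
      rw [h1, (ih _).1, (ih _).2]
      constructor
      · rw [QuadraticAlgebra.re_mul]; ring
      · rw [QuadraticAlgebra.im_mul]; ring
  constructor
  · have h1 := congrArg QuadraticAlgebra.re h
    have h2 := (hpow 1 D1).1
    rw [pow_one, pow_one] at h2
    rw [QuadraticAlgebra.re_add, QuadraticAlgebra.re_add, QuadraticAlgebra.re_add, (hpow 3 D3).1,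
      (hpow 2 D2).1, h2, QuadraticAlgebra.re_zero] at h1
    linear_combination h1
  · have h1 := congrArg QuadraticAlgebra.im h
    have h2 := (hpow 1 D1).2
    rw [pow_one, pow_one] at h2
    rw [QuadraticAlgebra.im_add, QuadraticAlgebra.im_add, QuadraticAlgebra.im_add, (hpow 3 D3).2,
      (hpow 2 D2).2, h2, QuadraticAlgebra.im_zero] at h1
    linear_combination h1

end mem

section wit3
variable {F L : Type u} [Field F] [Field L] [Algebra F L] {a b r s t : F}

theorem theta_algebraic {Ω : Type*} [Field Ω] [Algebra F Ω] {τ τ' : Ω} {θ : Fin 3 → Ω}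
    (sp : Split a b r s t τ τ' θ) (i : Fin 3) : IsAlgebraic F (θ i) := by
  refine ⟨Polynomial.X ^ 3 - Polynomial.C r - Polynomial.C s * Polynomial.X
    - Polynomial.C t * Polynomial.X ^ 2, ?_, ?_⟩
  · intro h
    have := congrArg (fun p => Polynomial.coeff p 3) h
    simp at this
  · simp only [map_sub, map_mul, map_pow, Polynomial.aeval_X, Polynomial.aeval_C]
    rw [root_of_sym (algebraMap F Ω) r s t sp.h1 sp.h2 sp.h3 i]
    ring

theorem quad_inj {A₀ Ω : Type*} [Field A₀] [Field Ω] (h : A₀ →+* Ω) {a₀ b₀ : A₀} {τ τ' : Ω}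
    (hτ : τ ≠ τ') (x y : QuadraticAlgebra A₀ a₀ b₀)
    (h1 : h x.re + h x.im * τ = h y.re + h y.im * τ)
    (h2 : h x.re + h x.im * τ' = h y.re + h y.im * τ') : x = y := by
  have h3 : (h x.im - h y.im) * (τ - τ') = 0 := by linear_combination h1 - h2
  have h4 : h x.im = h y.im :=
    sub_eq_zero.1 ((mul_eq_zero.1 h3).resolve_right (sub_ne_zero.2 hτ))
  have h5 : h x.re = h y.re := by
    rw [h4] at h1
    exact add_right_cancel h1
  ext
  · exact h.injective h5
  · exact h.injective h4

theorem finrank_le_three (k : IntermediateField F L) (y : L) (c3 c2 c1 c0 : L) (h3 : c3 ∈ k)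
    (h2 : c2 ∈ k) (h1 : c1 ∈ k) (h0 : c0 ∈ k) (hne : c3 ≠ 0)
    (h : c3 * y ^ 3 + c2 * y ^ 2 + c1 * y + c0 = 0) (htop : IntermediateField.adjoin k {y} = ⊤) :
    Module.Finite k L ∧ Module.finrank k L ≤ 3 := by
  let E : Polynomial k := Polynomial.C ⟨c3, h3⟩ * Polynomial.X ^ 3 + Polynomial.C ⟨c2, h2⟩
    * Polynomial.X ^ 2 + Polynomial.C ⟨c1, h1⟩ * Polynomial.X + Polynomial.C ⟨c0, h0⟩
  have hne' : (⟨c3, h3⟩ : k) ≠ 0 := fun h => hne (congrArg Subtype.val h)
  have hdeg : E.natDegree = 3 := Polynomial.natDegree_cubic hne'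
  have hE0 : E ≠ 0 := by
    intro h; rw [h, Polynomial.natDegree_zero] at hdeg; omega
  have hEy : Polynomial.aeval y E = 0 := by
    simp only [E, map_add, map_mul, map_pow, Polynomial.aeval_C, Polynomial.aeval_X]
    exact h
  have hint : IsIntegral k y := (isAlgebraic_iff_isIntegral).1 ⟨E, hE0, hEy⟩
  have hfin := IntermediateField.adjoin.finiteDimensional hint
  have hrank := IntermediateField.adjoin.finrank hint
  have hle := Polynomial.natDegree_le_of_dvd (minpoly.dvd k y hEy) hE0
  rw [htop] at hfin hrank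
  have h5 : Module.Finite k L := by
    exact Module.finite_def.2 (Module.Finite.iff_fg.1 hfin)
  refine ⟨h5, ?_⟩
  have h6 : Module.finrank k (⊤ : IntermediateField k L) = Module.finrank k L :=
    IntermediateField.finrank_top'
  omega

theorem dp6_wit3 {m : QuadraticAlgebra F a b} (hm1 : m ≠ 1)
    {τ τ' : AlgebraicClosure L} {θ : Fin 3 → AlgebraicClosure L}
    (sp : Split a b r s t τ τ' θ)
    {z : Fin 3 → QuadraticAlgebra L (algebraMap F L a) (algebraMap F L b)}
    (hz : IsTorsorPoint a b r s t ![1, 0, 0] m L z)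
    (hgen : IntermediateField.adjoin F (coords z) = ⊤)
    {s₀ t₀ : L} (h0 : AlgebraicIndependent F ![s₀, t₀]) : Wit F L 3 := by
  have hcompat : ∀ c : F, algebraMap L (AlgebraicClosure L) (algebraMap F L c)
      = algebraMap (AlgebraicClosure L) (AlgebraicClosure L) (algebraMap F (AlgebraicClosure L) c) :=
    fun c => (IsScalarTower.algebraMap_apply F L (AlgebraicClosure L) c).symm
  have hcompat' : ∀ c : F, algebraMap L (AlgebraicClosure L) (algebraMap F L c)
      = algebraMap F (AlgebraicClosure L) c := hcompat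
  obtain ⟨e1, e3⟩ := pts sp (A := AlgebraicClosure L) (algebraMap L (AlgebraicClosure L)) hcompat hz
  obtain ⟨_, e4⟩ := pts sp.swap (A := AlgebraicClosure L) (algebraMap L (AlgebraicClosure L))
    hcompat hz
  simp only [Algebra.algebraMap_self, RingHom.id_apply] at e1 e3 e4
  have hev1 : ∀ i, evE (algebraMap F (AlgebraicClosure L)) (θ i) ![1, 0, 0] = 1 := by
    intro i; simp [evE]
  have htr := coord_transcendental sp hz hgen h0 (fun i => by rw [hev1]; exact one_ne_zero)
  obtain ⟨x, hx⟩ : ∃ x : Fin 3 → AlgebraicClosure L,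
      ∀ i, x i = xv (algebraMap L (AlgebraicClosure L)) τ (θ i) z := ⟨_, fun _ => rfl⟩
  obtain ⟨x', hx'⟩ : ∃ x : Fin 3 → AlgebraicClosure L,
      ∀ i, x i = xv (algebraMap L (AlgebraicClosure L)) τ' (θ i) z := ⟨_, fun _ => rfl⟩
  simp only [← hx, ← hx', hev1] at e1 e3 e4 htr
  have hne : ∀ i, x i - x' i ≠ 0 := by
    intro i h
    apply htr i
    have h2 : x i ^ 2 = 1 := by
      rw [← e1 i]; linear_combination x i * h
    have h4 : IsAlgebraic F (x i ^ 2) := by
      rw [h2]; exact isAlgebraic_one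
    exact IsAlgebraic.of_pow (by norm_num) h4
  have hone : ∀ i, 1 + x i ≠ 0 := by
    intro i h
    apply htr i
    have h2 : x i = -1 := by linear_combination h
    rw [h2]
    exact isAlgebraic_one.neg
  have hone' : ∀ i, 1 + x' i ≠ 0 := by
    intro i h
    apply hone i
    have h2 : x i * (1 + x' i) = 0 := by rw [h, mul_zero]
    linear_combination h2 - e1 i
  -- real and imaginary parts
  let u : Fin 3 → L := fun j => (z j).re
  let v : Fin 3 → L := fun j => (z j).im
  have hU : ∀ i, x i = evE (algebraMap L (AlgebraicClosure L)) (θ i) u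
      + evE (algebraMap L (AlgebraicClosure L)) (θ i) v * τ := by
    intro i; rw [hx]; simp only [xv, evE, u, v]; ring
  have hU' : ∀ i, x' i = evE (algebraMap L (AlgebraicClosure L)) (θ i) u
      + evE (algebraMap L (AlgebraicClosure L)) (θ i) v * τ' := by
    intro i; rw [hx']; simp only [xv, evE, u, v]; ring
  obtain ⟨U, hUdef⟩ : ∃ U : Fin 3 → AlgebraicClosure L, ∀ i,
      U i = evE (algebraMap L (AlgebraicClosure L)) (θ i) u := ⟨_, fun _ => rfl⟩
  obtain ⟨V, hVdef⟩ : ∃ V : Fin 3 → AlgebraicClosure L, ∀ i,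
      V i = evE (algebraMap L (AlgebraicClosure L)) (θ i) v := ⟨_, fun _ => rfl⟩
  simp only [← hUdef, ← hVdef] at hU hU'
  have hV0 : ∀ i, V i ≠ 0 := by
    intro i h
    apply hne i
    rw [hU, hU', h]; ring
  have hsym1 : θ 0 + θ 1 + θ 2 = algebraMap L (AlgebraicClosure L) (algebraMap F L t) := by
    rw [hcompat']; exact sp.h1
  have hsym2 : θ 0 * θ 1 + θ 0 * θ 2 + θ 1 * θ 2
      = -algebraMap L (AlgebraicClosure L) (algebraMap F L s) := by
    rw [hcompat']; exact sp.h2
  have hsym3 : θ 0 * θ 1 * θ 2 = algebraMap L (AlgebraicClosure L) (algebraMap F L r) := by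
    rw [hcompat']; exact sp.h3
  have hroot := root_of_sym (algebraMap L (AlgebraicClosure L)) (algebraMap F L r)
    (algebraMap F L s) (algebraMap F L t) hsym1 hsym2 hsym3
  have hevN : ∀ (w : Fin 3 → L), algebraMap L (AlgebraicClosure L)
      (normE (algebraMap F L r) (algebraMap F L s) (algebraMap F L t) w)
      = evE (algebraMap L (AlgebraicClosure L)) (θ 0) w
        * evE (algebraMap L (AlgebraicClosure L)) (θ 1) w
        * evE (algebraMap L (AlgebraicClosure L)) (θ 2) w := fun w =>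
    evE_norm (algebraMap L (AlgebraicClosure L)) _ _ _ hsym1 hsym2 hsym3 w
  have hevadj : ∀ (w : Fin 3 → L) (i : Fin 3), evE (algebraMap L (AlgebraicClosure L)) (θ i) w
      * evE (algebraMap L (AlgebraicClosure L)) (θ i)
        (adjE (algebraMap F L r) (algebraMap F L s) (algebraMap F L t) w)
      = algebraMap L (AlgebraicClosure L)
        (normE (algebraMap F L r) (algebraMap F L s) (algebraMap F L t) w) := by
    intro w i
    rw [← evE_mul (algebraMap L (AlgebraicClosure L)) _ _ _ (hroot i), mul_adjE]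
    simp [evE]
  have hNv : normE (algebraMap F L r) (algebraMap F L s) (algebraMap F L t) v ≠ 0 := by
    intro h
    have h1 := hevN v
    rw [h, map_zero, ← hVdef, ← hVdef, ← hVdef] at h1
    exact mul_ne_zero (mul_ne_zero (hV0 0) (hV0 1)) (hV0 2) h1.symm
  -- the new coordinate
  let u1 : Fin 3 → L := fun j => u j + (![1, 0, 0] : Fin 3 → L) j
  have hu1 : ∀ i, evE (algebraMap L (AlgebraicClosure L)) (θ i) u1 = 1 + U i := by
    intro i
    rw [hUdef]
    simp only [evE, u1, map_add]
    simp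
    ring
  obtain ⟨X, hX⟩ : ∃ X : Fin 3 → L, ∀ j, X j = mulE (algebraMap F L r) (algebraMap F L s)
      (algebraMap F L t) u1 (adjE (algebraMap F L r) (algebraMap F L s) (algebraMap F L t) v) j
      / normE (algebraMap F L r) (algebraMap F L s) (algebraMap F L t) v := ⟨_, fun _ => rfl⟩
  obtain ⟨XX, hXX⟩ : ∃ XX : Fin 3 → AlgebraicClosure L, ∀ i,
      XX i = evE (algebraMap L (AlgebraicClosure L)) (θ i) X := ⟨_, fun _ => rfl⟩
  have hXV : ∀ i, XX i * V i = 1 + U i := by
    intro i
    have hN' : algebraMap L (AlgebraicClosure L)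
      (normE (algebraMap F L r) (algebraMap F L s) (algebraMap F L t) v) ≠ 0 :=
      (map_ne_zero _).2 hNv
    have h1 : XX i * algebraMap L (AlgebraicClosure L)
        (normE (algebraMap F L r) (algebraMap F L s) (algebraMap F L t) v)
        = evE (algebraMap L (AlgebraicClosure L)) (θ i) (mulE (algebraMap F L r) (algebraMap F L s)
      (algebraMap F L t) u1 (adjE (algebraMap F L r) (algebraMap F L s) (algebraMap F L t) v)) := by
      rw [hXX]
      simp only [evE, hX, map_div₀]
      field_simp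
    rw [evE_mul (algebraMap L (AlgebraicClosure L)) _ _ _ (hroot i), hu1] at h1
    have h2 := hevadj v i
    rw [← hVdef] at h2
    apply mul_right_cancel₀ hN'
    linear_combination V i * h1 + (1 + U i) * h2
  have hXτ : ∀ i, (XX i + τ) * V i = 1 + x i := by
    intro i; rw [add_mul, hXV, hU]; ring
  have hXτ' : ∀ i, (XX i + τ') * V i = 1 + x' i := by
    intro i; rw [add_mul, hXV, hU']; ring
  -- the field generated by `X`
  have hXgen : IntermediateField.adjoin F {X 0, X 1, X 2} = ⊤ := by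
    set k := IntermediateField.adjoin F {X 0, X 1, X 2} with hk
    have hXk : ∀ j, X j ∈ k := by
      intro j
      fin_cases j
      · exact IntermediateField.subset_adjoin F _ (by simp)
      · exact IntermediateField.subset_adjoin F _ (by simp)
      · exact IntermediateField.subset_adjoin F _ (by simp)
    -- `Q = X² + b X - a`
    let Q : Fin 3 → L := fun j => mulE (algebraMap F L r) (algebraMap F L s) (algebraMap F L t) X X j
      + algebraMap F L b * X j - (![algebraMap F L a, 0, 0] : Fin 3 → L) j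
    have hQk : ∀ j, Q j ∈ k := by
      intro j
      refine k.sub_mem (k.add_mem (mulE_mem k r s t hXk hXk j)
        (k.mul_mem (k.algebraMap_mem b) (hXk j))) ?_
      fin_cases j
      · exact k.algebraMap_mem a
      · exact k.zero_mem
      · exact k.zero_mem
    have hQev : ∀ i, evE (algebraMap L (AlgebraicClosure L)) (θ i) Q
        = (XX i + τ) * (XX i + τ') := by
      intro i
      have h1 : evE (algebraMap L (AlgebraicClosure L)) (θ i) Q
          = evE (algebraMap L (AlgebraicClosure L)) (θ i)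
            (mulE (algebraMap F L r) (algebraMap F L s) (algebraMap F L t) X X)
            + algebraMap F (AlgebraicClosure L) b * XX i
            - algebraMap F (AlgebraicClosure L) a := by
        rw [hXX]
        simp only [evE, Q, map_sub, map_add, map_mul, hcompat']
        simp [hcompat']
        ring
      rw [h1, evE_mul (algebraMap L (AlgebraicClosure L)) _ _ _ (hroot i), ← hXX, ← sp.hb]
      linear_combination -sp.ha
    have hQ0 : ∀ i, evE (algebraMap L (AlgebraicClosure L)) (θ i) Q ≠ 0 := by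
      intro i
      rw [hQev]
      have h1 : XX i + τ ≠ 0 := by
        intro h
        apply hone i
        rw [← hXτ, h, zero_mul]
      have h2 : XX i + τ' ≠ 0 := by
        intro h
        apply hone' i
        rw [← hXτ', h, zero_mul]
      exact mul_ne_zero h1 h2
    have hNQ : normE (algebraMap F L r) (algebraMap F L s) (algebraMap F L t) Q ≠ 0 := by
      intro h
      have h1 := hevN Q
      rw [h, map_zero] at h1
      exact mul_ne_zero (mul_ne_zero (hQ0 0) (hQ0 1)) (hQ0 2) h1.symm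
    let w : Fin 3 → L := fun j => 2 * X j + (![algebraMap F L b, 0, 0] : Fin 3 → L) j
    have hwk : ∀ j, w j ∈ k := by
      intro j
      refine k.add_mem (k.mul_mem (by exact ofNat_mem k 2) (hXk j)) ?_
      fin_cases j
      · exact k.algebraMap_mem b
      · exact k.zero_mem
      · exact k.zero_mem
    have hwev : ∀ i, evE (algebraMap L (AlgebraicClosure L)) (θ i) w = 2 * XX i + (τ + τ') := by
      intro i
      rw [hXX, sp.hb]
      simp only [evE, w, map_add, map_mul, map_ofNat]
      simp [hcompat']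
      ring
    have hvform : v = fun j => mulE (algebraMap F L r) (algebraMap F L s) (algebraMap F L t) w
        (adjE (algebraMap F L r) (algebraMap F L s) (algebraMap F L t) Q) j
        / normE (algebraMap F L r) (algebraMap F L s) (algebraMap F L t) Q := by
      refine evE_inj (algebraMap L (AlgebraicClosure L)) sp.hθ _ _ fun i => ?_
      have hN' : algebraMap L (AlgebraicClosure L)
        (normE (algebraMap F L r) (algebraMap F L s) (algebraMap F L t) Q) ≠ 0 :=
        (map_ne_zero _).2 hNQ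
      apply mul_right_cancel₀ hN'
      have h1 : evE (algebraMap L (AlgebraicClosure L)) (θ i)
          (fun j => mulE (algebraMap F L r) (algebraMap F L s) (algebraMap F L t) w
        (adjE (algebraMap F L r) (algebraMap F L s) (algebraMap F L t) Q) j
        / normE (algebraMap F L r) (algebraMap F L s) (algebraMap F L t) Q)
          * algebraMap L (AlgebraicClosure L)
          (normE (algebraMap F L r) (algebraMap F L s) (algebraMap F L t) Q)
          = evE (algebraMap L (AlgebraicClosure L)) (θ i) (mulE (algebraMap F L r)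
          (algebraMap F L s) (algebraMap F L t) w
          (adjE (algebraMap F L r) (algebraMap F L s) (algebraMap F L t) Q)) := by
        simp only [evE, map_div₀]
        field_simp
      rw [h1, evE_mul (algebraMap L (AlgebraicClosure L)) _ _ _ (hroot i), hwev, ← hVdef]
      have h2 := hevadj Q i
      rw [← h2]
      have h3 : V i * evE (algebraMap L (AlgebraicClosure L)) (θ i) Q = 2 * XX i + (τ + τ') := by
        rw [hQev]
        apply mul_right_cancel₀ (hV0 i)
        linear_combination (XX i + τ') * V i * hXτ i + (1 + x i) * hXτ' i + e1 i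
          - hXτ i - hXτ' i
      rw [← mul_assoc, h3]
    have hvk : ∀ j, v j ∈ k := by
      intro j
      rw [hvform]
      exact k.div_mem (mulE_mem k r s t hwk (adjE_mem k r s t hQk) j) (normE_mem k r s t hQk)
    have huform : u1 = mulE (algebraMap F L r) (algebraMap F L s) (algebraMap F L t) X v := by
      refine evE_inj (algebraMap L (AlgebraicClosure L)) sp.hθ _ _ fun i => ?_
      rw [evE_mul (algebraMap L (AlgebraicClosure L)) _ _ _ (hroot i), hu1, ← hXX, ← hVdef, hXV]
    have huk : ∀ j, u j ∈ k := by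
      intro j
      have h1 : u j = u1 j - (![1, 0, 0] : Fin 3 → L) j := by
        show u j = (u j + (![1, 0, 0] : Fin 3 → L) j) - (![1, 0, 0] : Fin 3 → L) j
        ring
      rw [h1, huform]
      refine k.sub_mem (mulE_mem k r s t hXk hvk j) ?_
      fin_cases j
      · exact k.one_mem
      · exact k.zero_mem
      · exact k.zero_mem
    rw [eq_top_iff, ← hgen, IntermediateField.adjoin_le_iff]
    rintro y (⟨j, rfl⟩ | ⟨j, rfl⟩)
    · exact huk j
    · exact hvk j
  -- the cubic relation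
  set k := IntermediateField.adjoin F {X 1, X 2} with hk
  have hX1 : X 1 ∈ k := IntermediateField.subset_adjoin F _ (by simp)
  have hX2 : X 2 ∈ k := IntermediateField.subset_adjoin F _ (by simp)
  have hτ1 : τ * τ = algebraMap L (AlgebraicClosure L) (algebraMap F L a)
      + algebraMap L (AlgebraicClosure L) (algebraMap F L b) * τ := by
    rw [hcompat', hcompat']; exact sp.sq
  have hτ2 : τ' * τ' = algebraMap L (AlgebraicClosure L) (algebraMap F L a)
      + algebraMap L (AlgebraicClosure L) (algebraMap F L b) * τ' := by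
    rw [hcompat', hcompat']; exact sp.swap.sq
  have hττ : τ + τ' = algebraMap L (AlgebraicClosure L) (algebraMap F L b) := by
    rw [hcompat']; exact sp.hb
  let P : Fin 3 → QuadraticAlgebra L (algebraMap F L a) (algebraMap F L b) :=
    ![⟨X 0, 1⟩, ⟨X 1, 0⟩, ⟨X 2, 0⟩]
  obtain ⟨n, hn⟩ : ∃ n, n = normE (algebraMap F (QuadraticAlgebra L (algebraMap F L a)
    (algebraMap F L b)) r) (algebraMap F _ s) (algebraMap F _ t) P := ⟨_, rfl⟩
  have hnev : ∀ (σ : AlgebraicClosure L)
      (hσ : σ * σ = algebraMap L (AlgebraicClosure L) (algebraMap F L a)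
        + algebraMap L (AlgebraicClosure L) (algebraMap F L b) * σ),
      evK (algebraMap L (AlgebraicClosure L)) σ hσ n = (XX 0 + σ) * (XX 1 + σ) * (XX 2 + σ) := by
    intro σ hσ
    have hF : ∀ c : F, evK (algebraMap L (AlgebraicClosure L)) σ hσ (algebraMap F _ c)
        = algebraMap F (AlgebraicClosure L) c := by
      intro c
      rw [evK_apply]
      have h1 : (algebraMap F (QuadraticAlgebra L (algebraMap F L a) (algebraMap F L b)) c).re
        = algebraMap F L c := rfl
      have h2 : (algebraMap F (QuadraticAlgebra L (algebraMap F L a) (algebraMap F L b)) c).im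
        = 0 := rfl
      rw [h1, h2, hcompat', map_zero, zero_mul, add_zero]
    rw [hn, evE_norm (evK (algebraMap L (AlgebraicClosure L)) σ hσ) _ _ _ (θ := θ)
      (by rw [hF]; exact sp.h1) (by rw [hF]; exact sp.h2) (by rw [hF]; exact sp.h3)]
    have hPi : ∀ i, evE (evK (algebraMap L (AlgebraicClosure L)) σ hσ) (θ i) P = XX i + σ := by
      intro i
      rw [hXX]
      have hP0 : P 0 = ⟨X 0, 1⟩ := rfl
      have hP1 : P 1 = ⟨X 1, 0⟩ := rfl
      have hP2 : P 2 = ⟨X 2, 0⟩ := rfl
      simp only [evE, hP0, hP1, hP2, evK_apply, map_one, map_zero]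
      ring
    rw [hPi, hPi, hPi]
  have hVV : V 0 * V 1 * V 2 ≠ 0 := mul_ne_zero (mul_ne_zero (hV0 0) (hV0 1)) (hV0 2)
  have hnm : n = mapQ (algebraMap F L) m * star n := by
    refine quad_inj (algebraMap L (AlgebraicClosure L)) sp.hτ _ _ ?_ ?_
    · have h1 : evK (algebraMap L (AlgebraicClosure L)) τ hτ1 n
          = evK (algebraMap L (AlgebraicClosure L)) τ hτ1 (mapQ (algebraMap F L) m * star n) := by
        rw [map_mul, evK_star _ τ τ' hτ1 hτ2 hττ, hnev, hnev, evK_apply, mapQ_apply]
        simp only [hcompat']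
        rw [← e3]
        apply mul_right_cancel₀ hVV
        have p1 : (XX 0 + τ) * (XX 1 + τ) * (XX 2 + τ) * (V 0 * V 1 * V 2)
            = (1 + x 0) * (1 + x 1) * (1 + x 2) := by
          rw [← hXτ, ← hXτ, ← hXτ]; ring
        have p2 : x 0 * x 1 * x 2 * ((XX 0 + τ') * (XX 1 + τ') * (XX 2 + τ')) * (V 0 * V 1 * V 2)
            = (x 0 * (1 + x' 0)) * (x 1 * (1 + x' 1)) * (x 2 * (1 + x' 2)) := by
          rw [← hXτ', ← hXτ', ← hXτ']; ring
        have p3 : ∀ i, x i * (1 + x' i) = 1 + x i := by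
          intro i; linear_combination e1 i
        rw [p1, p2, p3, p3, p3]
      exact h1
    · have h1 : evK (algebraMap L (AlgebraicClosure L)) τ' hτ2 n
          = evK (algebraMap L (AlgebraicClosure L)) τ' hτ2 (mapQ (algebraMap F L) m * star n) := by
        rw [map_mul, evK_star _ τ' τ hτ2 hτ1 (by rw [add_comm]; exact hττ), hnev, hnev, evK_apply,
          mapQ_apply]
        simp only [hcompat']
        rw [← e4]
        apply mul_right_cancel₀ hVV
        have p1 : (XX 0 + τ') * (XX 1 + τ') * (XX 2 + τ') * (V 0 * V 1 * V 2)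
            = (1 + x' 0) * (1 + x' 1) * (1 + x' 2) := by
          rw [← hXτ', ← hXτ', ← hXτ']; ring
        have p2 : x' 0 * x' 1 * x' 2 * ((XX 0 + τ) * (XX 1 + τ) * (XX 2 + τ)) * (V 0 * V 1 * V 2)
            = (x' 0 * (1 + x 0)) * (x' 1 * (1 + x 1)) * (x' 2 * (1 + x 2)) := by
          rw [← hXτ, ← hXτ, ← hXτ]; ring
        have p3 : ∀ i, x' i * (1 + x i) = 1 + x' i := by
          intro i; linear_combination e1 i
        rw [p1, p2, p3, p3, p3]
      exact h1
  -- the subring of elements with coordinates in `k`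
  let Sk : Subring (QuadraticAlgebra L (algebraMap F L a) (algebraMap F L b)) :=
    { carrier := {c | c.re ∈ k ∧ c.im ∈ k}
      mul_mem' := fun {x y} hx hy => by
        refine ⟨?_, ?_⟩
        · rw [QuadraticAlgebra.re_mul]
          exact k.add_mem (k.mul_mem hx.1 hy.1) (k.mul_mem (k.mul_mem (k.algebraMap_mem a) hx.2) hy.2)
        · rw [QuadraticAlgebra.im_mul]
          exact k.add_mem (k.add_mem (k.mul_mem hx.1 hy.2) (k.mul_mem hx.2 hy.1))
            (k.mul_mem (k.mul_mem (k.algebraMap_mem b) hx.2) hy.2)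
      one_mem' := ⟨by rw [QuadraticAlgebra.re_one]; exact k.one_mem,
        by rw [QuadraticAlgebra.im_one]; exact k.zero_mem⟩
      add_mem' := fun {x y} hx hy => ⟨by
        rw [QuadraticAlgebra.re_add]; exact k.add_mem hx.1 hy.1, by
        rw [QuadraticAlgebra.im_add]; exact k.add_mem hx.2 hy.2⟩
      zero_mem' := ⟨k.zero_mem, k.zero_mem⟩
      neg_mem' := fun {x} hx => ⟨k.neg_mem hx.1, k.neg_mem hx.2⟩ }
  have hSF : ∀ c : F, algebraMap F (QuadraticAlgebra L (algebraMap F L a) (algebraMap F L b)) c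
      ∈ Sk := fun c => ⟨k.algebraMap_mem c, k.zero_mem⟩
  have hSo : (⟨0, 1⟩ : QuadraticAlgebra L (algebraMap F L a) (algebraMap F L b)) ∈ Sk :=
    ⟨k.zero_mem, k.one_mem⟩
  have hS1 : (⟨X 1, 0⟩ : QuadraticAlgebra L (algebraMap F L a) (algebraMap F L b)) ∈ Sk :=
    ⟨hX1, k.zero_mem⟩
  have hS2 : (⟨X 2, 0⟩ : QuadraticAlgebra L (algebraMap F L a) (algebraMap F L b)) ∈ Sk :=
    ⟨hX2, k.zero_mem⟩
  have hSm : mapQ (algebraMap F L) m ∈ Sk := ⟨k.algebraMap_mem _, k.algebraMap_mem _⟩
  have hSstar : ∀ c ∈ Sk, star c ∈ Sk := by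
    intro c hc
    refine ⟨?_, ?_⟩
    · rw [QuadraticAlgebra.re_star]
      exact k.add_mem hc.1 (k.mul_mem (k.algebraMap_mem b) hc.2)
    · rw [QuadraticAlgebra.im_star]
      exact k.neg_mem hc.2
  obtain ⟨E2, E1, E0, hE2, hE1, hE0, hexp⟩ : ∃ E2 E1 E0 : QuadraticAlgebra L (algebraMap F L a)
      (algebraMap F L b), E2 ∈ Sk ∧ E1 ∈ Sk ∧ E0 ∈ Sk ∧
      n = (⟨X 0, 0⟩ : QuadraticAlgebra L (algebraMap F L a) (algebraMap F L b)) ^ 3
        + ⟨X 0, 0⟩ ^ 2 * E2 + ⟨X 0, 0⟩ * E1 + E0 := by
    obtain ⟨E2, E1, E0, h1, h2, h3, h4⟩ := normE_cubic_mem Sk (algebraMap F (QuadraticAlgebra L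
      (algebraMap F L a) (algebraMap F L b)) r) (algebraMap F _ s) (algebraMap F _ t) ⟨X 0, 0⟩
      ⟨X 0, 1⟩ ⟨0, 1⟩ ⟨X 1, 0⟩ ⟨X 2, 0⟩ (by ext <;> simp) (hSF r) (hSF s) (hSF t) hSo hS1 hS2
    exact ⟨E2, E1, E0, h1, h2, h3, hn.trans h4⟩
  -- the polynomial relation
  obtain ⟨D2, hD2⟩ : ∃ D, D = E2 - mapQ (algebraMap F L) m * star E2 := ⟨_, rfl⟩
  obtain ⟨D1, hD1⟩ : ∃ D, D = E1 - mapQ (algebraMap F L) m * star E1 := ⟨_, rfl⟩
  obtain ⟨D0, hD0⟩ : ∃ D, D = E0 - mapQ (algebraMap F L) m * star E0 := ⟨_, rfl⟩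
  have hD2k : D2 ∈ Sk := by
    rw [hD2]; exact Sk.sub_mem hE2 (Sk.mul_mem hSm (hSstar _ hE2))
  have hD1k : D1 ∈ Sk := by
    rw [hD1]; exact Sk.sub_mem hE1 (Sk.mul_mem hSm (hSstar _ hE1))
  have hD0k : D0 ∈ Sk := by
    rw [hD0]; exact Sk.sub_mem hE0 (Sk.mul_mem hSm (hSstar _ hE0))
  obtain ⟨D3, hD3⟩ : ∃ D : QuadraticAlgebra L (algebraMap F L a) (algebraMap F L b),
    D = 1 - mapQ (algebraMap F L) m := ⟨_, rfl⟩
  have hD3k : D3 ∈ Sk := by
    rw [hD3]; exact Sk.sub_mem Sk.one_mem hSm
  have hstarX : star (⟨X 0, 0⟩ : QuadraticAlgebra L (algebraMap F L a) (algebraMap F L b))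
      = ⟨X 0, 0⟩ := by
    ext <;> simp
  have hrel : (⟨X 0, 0⟩ : QuadraticAlgebra L (algebraMap F L a) (algebraMap F L b)) ^ 3 * D3
      + ⟨X 0, 0⟩ ^ 2 * D2 + ⟨X 0, 0⟩ * D1 + D0 = 0 := by
    have h1 : star n = (⟨X 0, 0⟩ : QuadraticAlgebra L (algebraMap F L a) (algebraMap F L b)) ^ 3
        + ⟨X 0, 0⟩ ^ 2 * star E2 + ⟨X 0, 0⟩ * star E1 + star E0 := by
      rw [hexp]
      simp only [star_add, star_mul', star_pow, hstarX]
    rw [h1, hexp] at hnm
    rw [hD3, hD2, hD1, hD0]
    linear_combination hnm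
  obtain ⟨hre, him⟩ := quad_rel (X 0) D3 D2 D1 D0 hrel
  have hD3ne : D3.re ≠ 0 ∨ D3.im ≠ 0 := by
    by_contra hcon
    push Not at hcon
    apply hm1
    have h1 : D3.re = 1 - algebraMap F L m.re := by
      rw [hD3, QuadraticAlgebra.re_sub, QuadraticAlgebra.re_one]; rfl
    have h2 : D3.im = 0 - algebraMap F L m.im := by
      rw [hD3, QuadraticAlgebra.im_sub, QuadraticAlgebra.im_one]; rfl
    rw [h1, h2] at hcon
    ext
    · rw [QuadraticAlgebra.re_one]
      apply (algebraMap F L).injective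
      rw [map_one]
      linear_combination -hcon.1
    · rw [QuadraticAlgebra.im_one]
      apply (algebraMap F L).injective
      rw [map_zero]
      linear_combination -hcon.2
  have htop : IntermediateField.adjoin k {X 0} = ⊤ := by
    rw [eq_top_iff]
    intro y _
    have hle : IntermediateField.adjoin F {X 0, X 1, X 2}
        ≤ (IntermediateField.adjoin k {X 0}).restrictScalars F := by
      rw [IntermediateField.adjoin_le_iff]
      rintro y (rfl | rfl | rfl)
      · exact IntermediateField.mem_adjoin_simple_self k _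
      · exact (IntermediateField.adjoin k {X 0}).algebraMap_mem ⟨X 1, hX1⟩
      · exact (IntermediateField.adjoin k {X 0}).algebraMap_mem ⟨X 2, hX2⟩
    rw [hXgen] at hle
    exact hle (IntermediateField.mem_top (x := y))
  obtain ⟨hfin, hle⟩ : Module.Finite k L ∧ Module.finrank k L ≤ 3 := by
    rcases hD3ne with h | h
    · exact finrank_le_three k (X 0) _ _ _ _ hD3k.1 hD2k.1 hD1k.1 hD0k.1 h hre htop
    · exact finrank_le_three k (X 0) _ _ _ _ hD3k.2 hD2k.2 hD1k.2 hD0k.2 h him htop
  exact ⟨X 1, X 2, indep_of_finite h0 _ _ (Algebra.IsAlgebraic.of_finite k L), hfin, hle⟩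

end wit3
end DPI
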