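import Mathlib
import Pool.Agent.H478.DZ3
set_option autoImplicit false
namespace DPI
open TensorProduct

universe u v

section cubicalg
variable {R : Type*} [CommRing R]

theorem mulE_comm (r s t : R) (u v : Fin 3 → R) : mulE r s t u v = mulE r s t v u := by
  funext j
  fin_cases j <;> simp [mulE] <;> ring

theorem mulE_assoc (r s t : R) (u v w : Fin 3 → R) :
    mulE r s t (mulE r s t u v) w = mulE r s t u (mulE r s t v w) := by
  funext j
  fin_cases j <;> simp [mulE] <;> ring

theorem mulE_one (r s t : R) (u : Fin 3 → R) : mulE r s t u ![1, 0, 0] = u := by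
  funext j
  fin_cases j <;> simp [mulE]

theorem normE_mul (r s t : R) (u v : Fin 3 → R) :
    normE r s t (mulE r s t u v) = normE r s t u * normE r s t v := by
  rw [normE_eq, normE_eq, normE_eq]
  simp only [mulE]
  simp only [Matrix.cons_val_zero, Matrix.cons_val_one, Matrix.cons_val_two, Matrix.head_cons,
    Matrix.tail_cons]
  ring

theorem normE_one (r s t : R) : normE r s t ![1, 0, 0] = 1 := by
  rw [normE_eq]; simp

end cubicalg
section twist
variable {F L : Type u} [Field F] [Field L] [Algebra F L] {a b r s t : F}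

/-- base change of an element of `F[ω][θ]` -/
def bc (L : Type u) [Field L] [Algebra F L] (w : Fin 3 → QuadraticAlgebra F a b) :
    Fin 3 → QuadraticAlgebra L (algebraMap F L a) (algebraMap F L b) :=
  fun j => mapQ (algebraMap F L) (w j)

theorem mapQ_alg (c : F) : mapQ (algebraMap F L) (algebraMap F (QuadraticAlgebra F a b) c)
    = algebraMap F (QuadraticAlgebra L (algebraMap F L a) (algebraMap F L b)) c := by
  rw [mapQ_apply]
  have h1 : (algebraMap F (QuadraticAlgebra F a b) c).re = c := rfl
  have h2 : (algebraMap F (QuadraticAlgebra F a b) c).im = 0 := rfl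
  rw [h1, h2, map_zero]
  rfl

theorem mapQ_star (x : QuadraticAlgebra F a b) :
    mapQ (algebraMap F L) (star x) = star (mapQ (algebraMap F L) x) := by
  ext <;> simp [mapQ_apply]

theorem bc_mulE (u v : Fin 3 → QuadraticAlgebra F a b) :
    bc L (mulE (algebraMap F _ r) (algebraMap F _ s) (algebraMap F _ t) u v)
      = mulE (algebraMap F _ r) (algebraMap F _ s) (algebraMap F _ t) (bc L u) (bc L v) := by
  funext j
  show mapQ (algebraMap F L) _ = _
  rw [map_mulE, mapQ_alg, mapQ_alg, mapQ_alg]
  rfl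

theorem bc_one : bc L (![1, 0, 0] : Fin 3 → QuadraticAlgebra F a b) = ![1, 0, 0] := by
  funext j
  fin_cases j
  · exact map_one _
  · exact map_zero _
  · exact map_zero _

theorem bc_star (u : Fin 3 → QuadraticAlgebra F a b) :
    bc L (fun j => star (u j)) = fun j => star (bc L u j) := by
  funext j
  exact mapQ_star _

theorem star_mulE (u v : Fin 3 → QuadraticAlgebra L (algebraMap F L a) (algebraMap F L b)) :
    (fun j => star (mulE (algebraMap F _ r) (algebraMap F _ s) (algebraMap F _ t) u v j))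
      = mulE (algebraMap F _ r) (algebraMap F _ s) (algebraMap F _ t) (fun j => star (u j))
        (fun j => star (v j)) := by
  funext j
  have h := map_mulE (starRingEnd (QuadraticAlgebra L (algebraMap F L a) (algebraMap F L b)))
    (algebraMap F _ r) (algebraMap F _ s) (algebraMap F _ t) u v j
  have hs : ∀ c : F, starRingEnd (QuadraticAlgebra L (algebraMap F L a) (algebraMap F L b))
      (algebraMap F _ c) = algebraMap F _ c := by
    intro c
    rw [starRingEnd_apply]
    have h1 : (algebraMap F (QuadraticAlgebra L (algebraMap F L a) (algebraMap F L b)) c).im = 0 :=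
      rfl
    ext
    · rw [QuadraticAlgebra.re_star, h1]; simp
    · rw [QuadraticAlgebra.im_star, h1]; simp
  rw [hs, hs, hs] at h
  exact h

/-- twisting by `w` -/
theorem IsTorsorPoint.twist {l : Fin 3 → F} {m : QuadraticAlgebra F a b}
    {z : Fin 3 → QuadraticAlgebra L (algebraMap F L a) (algebraMap F L b)}
    (hz : IsTorsorPoint a b r s t l m L z) (w : Fin 3 → QuadraticAlgebra F a b)
    (l1 : Fin 3 → F) (hl1 : mulE (algebraMap F _ r) (algebraMap F _ s) (algebraMap F _ t) w
      (fun j => star (w j)) = fun j => algebraMap F _ (l1 j)) :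
    IsTorsorPoint a b r s t (mulE r s t l l1) (m * normE (algebraMap F _ r) (algebraMap F _ s)
      (algebraMap F _ t) w) L
      (mulE (algebraMap F _ r) (algebraMap F _ s) (algebraMap F _ t) z (bc L w)) := by
  constructor
  · rw [star_mulE, mulE_assoc, ← mulE_assoc _ _ _ (bc L w), mulE_comm _ _ _ (bc L w),
      mulE_assoc, ← mulE_assoc, hz.1, ← bc_star, ← bc_mulE, hl1]
    have h1 : bc L (fun j => algebraMap F (QuadraticAlgebra F a b) (l1 j))
        = fun j => algebraMap F (QuadraticAlgebra L (algebraMap F L a) (algebraMap F L b))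
          (l1 j) := by
      funext j
      exact mapQ_alg _
    rw [h1]
    funext j
    rw [← map_mulE]
  · rw [normE_mul, hz.2, map_mul]
    congr 1
    rw [map_normE, mapQ_alg, mapQ_alg, mapQ_alg]
    rfl

/-- the elements with coordinates in a subfield -/
theorem mulE_coords (k : IntermediateField F L)
    {u v : Fin 3 → QuadraticAlgebra L (algebraMap F L a) (algebraMap F L b)}
    (hu : coords u ⊆ k) (hv : coords v ⊆ k) :
    coords (mulE (algebraMap F _ r) (algebraMap F _ s) (algebraMap F _ t) u v) ⊆ k := by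
  let Sk : Subring (QuadraticAlgebra L (algebraMap F L a) (algebraMap F L b)) :=
    { carrier := {c | c.re ∈ k ∧ c.im ∈ k}
      mul_mem' := fun {x y} hx hy => by
        refine ⟨?_, ?_⟩
        · rw [QuadraticAlgebra.re_mul]
          exact k.add_mem (k.mul_mem hx.1 hy.1) (k.mul_mem (k.mul_mem (k.algebraMap_mem a) hx.2) hy.2)
        · rw [QuadraticAlgebra.im_mul]
          exact k.add_mem (k.add_mem (k.mul_mem hx.1 hy.2) (k.mul_mem hx.2 hy.1))
            (k.mul_mem (k.mul_mem (k.algebraMap_mem b) hx.2) hy.2)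
      one_mem' := ⟨by rw [QuadraticAlgebra.re_one]; exact k.one_mem,
        by rw [QuadraticAlgebra.im_one]; exact k.zero_mem⟩
      add_mem' := fun {x y} hx hy => ⟨by
        rw [QuadraticAlgebra.re_add]; exact k.add_mem hx.1 hy.1, by
        rw [QuadraticAlgebra.im_add]; exact k.add_mem hx.2 hy.2⟩
      zero_mem' := ⟨k.zero_mem, k.zero_mem⟩
      neg_mem' := fun {x} hx => ⟨k.neg_mem hx.1, k.neg_mem hx.2⟩ }
  have hSF : ∀ c : F, algebraMap F (QuadraticAlgebra L (algebraMap F L a) (algebraMap F L b)) c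
      ∈ Sk := fun c => ⟨k.algebraMap_mem c, k.zero_mem⟩
  have hu' : ∀ j, u j ∈ Sk := fun j => ⟨hu (Or.inl ⟨j, rfl⟩), hu (Or.inr ⟨j, rfl⟩)⟩
  have hv' : ∀ j, v j ∈ Sk := fun j => ⟨hv (Or.inl ⟨j, rfl⟩), hv (Or.inr ⟨j, rfl⟩)⟩
  have key : ∀ j, mulE (algebraMap F _ r) (algebraMap F _ s) (algebraMap F _ t) u v j ∈ Sk := by
    intro j
    have h := map_mulE Sk.subtype ⟨_, hSF r⟩ ⟨_, hSF s⟩ ⟨_, hSF t⟩ (fun j => ⟨u j, hu' j⟩)
      (fun j => ⟨v j, hv' j⟩) j
    have h2 : mulE (algebraMap F _ r) (algebraMap F _ s) (algebraMap F _ t) u v j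
        = Sk.subtype (mulE ⟨_, hSF r⟩ ⟨_, hSF s⟩ ⟨_, hSF t⟩ (fun j => ⟨u j, hu' j⟩)
      (fun j => ⟨v j, hv' j⟩) j) := by rw [h]; rfl
    rw [h2]
    exact Subtype.mem _
  rintro y (⟨j, rfl⟩ | ⟨j, rfl⟩)
  · exact (key j).1
  · exact (key j).2

theorem coords_bc (k : IntermediateField F L) (w : Fin 3 → QuadraticAlgebra F a b) :
    coords (bc L w) ⊆ k := by
  rintro y (⟨j, rfl⟩ | ⟨j, rfl⟩)
  · exact k.algebraMap_mem _
  · exact k.algebraMap_mem _

theorem twist_gen {z : Fin 3 → QuadraticAlgebra L (algebraMap F L a) (algebraMap F L b)}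
    (hgen : IntermediateField.adjoin F (coords z) = ⊤) (w w' : Fin 3 → QuadraticAlgebra F a b)
    (hw : mulE (algebraMap F _ r) (algebraMap F _ s) (algebraMap F _ t) w w' = ![1, 0, 0]) :
    IntermediateField.adjoin F (coords (mulE (algebraMap F _ r) (algebraMap F _ s)
      (algebraMap F _ t) z (bc L w))) = ⊤ := by
  rw [eq_top_iff, ← hgen, IntermediateField.adjoin_le_iff]
  set k := IntermediateField.adjoin F (coords (mulE (algebraMap F _ r) (algebraMap F _ s)
      (algebraMap F _ t) z (bc L w))) with hk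
  have h1 : z = mulE (algebraMap F _ r) (algebraMap F _ s) (algebraMap F _ t)
      (mulE (algebraMap F _ r) (algebraMap F _ s) (algebraMap F _ t) z (bc L w)) (bc L w') := by
    rw [mulE_assoc, ← bc_mulE, hw, bc_one, mulE_one]
  rw [h1]
  exact mulE_coords k (fun y hy => IntermediateField.subset_adjoin F _ hy) (coords_bc k w')

end twist
end DPI
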