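import Mathlib
import Pool.Agent.H478.DZ4
set_option autoImplicit false
namespace DPI
open TensorProduct

universe u v

section transfer
variable {F : Type u} [Field F] {Ω : Type v} [Field Ω] [Algebra F Ω] {κ : Type u} [Field κ]
  [Algebra F κ]

theorem leftMulMatrix_bc {n : ℕ} (bs : Module.Basis (Fin n) F κ) (x : κ) (i j : Fin n) :
    Algebra.leftMulMatrix (Algebra.TensorProduct.basis Ω bs)
      ((1 : Ω) ⊗ₜ[F] x) i j = algebraMap F Ω (Algebra.leftMulMatrix bs x i j) := by
  rw [Algebra.leftMulMatrix_eq_repr_mul, Algebra.leftMulMatrix_eq_repr_mul,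
    Algebra.TensorProduct.basis_apply, Algebra.TensorProduct.tmul_mul_tmul, mul_one,
    Algebra.TensorProduct.basis_repr_tmul, one_smul, Finsupp.mapRange_apply]

variable (F Ω κ) in
/-- inclusion of `κ` -/
noncomputable abbrev inclκ : κ →+* Ω ⊗[F] κ :=
  (Algebra.TensorProduct.includeRight : κ →ₐ[F] Ω ⊗[F] κ).toRingHom

theorem inclκ_F (c : F) : inclκ F Ω κ (algebraMap F κ c)
    = algebraMap Ω (Ω ⊗[F] κ) (algebraMap F Ω c) := by
  show (1 : Ω) ⊗ₜ[F] (algebraMap F κ c) = (algebraMap F Ω c) ⊗ₜ[F] (1 : κ)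
  rw [Algebra.algebraMap_eq_smul_one, Algebra.algebraMap_eq_smul_one, TensorProduct.smul_tmul]

theorem transfer [Module.Finite F κ] {a b : F} (r s t : F)
    (z : Fin 3 → QuadraticAlgebra κ (algebraMap F κ a) (algebraMap F κ b)) :
    ∃ z1 : Fin 3 → QuadraticAlgebra F a b, ∀ (τ θ : Ω)
      (_ : τ * τ = algebraMap F Ω a + algebraMap F Ω b * τ)
      (_ : θ ^ 3 = algebraMap F Ω r + algebraMap F Ω s * θ + algebraMap F Ω t * θ ^ 2),
      xv (algebraMap F Ω) τ θ z1 = Algebra.norm Ω (xv (inclκ F Ω κ) (algebraMap Ω (Ω ⊗[F] κ) τ)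
        (algebraMap Ω (Ω ⊗[F] κ) θ) z) := by
  classical
  obtain ⟨n, ⟨bs⟩⟩ : ∃ n, Nonempty (Module.Basis (Fin n) F κ) := ⟨_, ⟨Module.finBasis F κ⟩⟩
  let M : κ →ₐ[F] Matrix (Fin n) (Fin n) F := Algebra.leftMulMatrix bs
  let P : Matrix (Fin n) (Fin n) (Polynomial (QuadraticAlgebra F a b)) :=
    Matrix.of fun i j => Polynomial.C ⟨M (z 0).re i j, M (z 0).im i j⟩
      + Polynomial.C ⟨M (z 1).re i j, M (z 1).im i j⟩ * Polynomial.X
      + Polynomial.C ⟨M (z 2).re i j, M (z 2).im i j⟩ * Polynomial.X ^ 2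
  let p : Polynomial (QuadraticAlgebra F a b) := Polynomial.X ^ 3
    - Polynomial.C (algebraMap F _ t) * Polynomial.X ^ 2
    - Polynomial.C (algebraMap F _ s) * Polynomial.X - Polynomial.C (algebraMap F _ r)
  have hp : p.Monic := by
    simp only [p]
    monicity!
  have hpd : p.natDegree = 3 := by
    simp only [p]
    compute_degree!
  refine ⟨fun j => (P.det %ₘ p).coeff j, fun τ θ hτ hθ => ?_⟩
  let φ := Polynomial.eval₂RingHom (evK (algebraMap F Ω) τ hτ) θ
  have hF : ∀ c : F, evK (algebraMap F Ω) τ hτ (algebraMap F _ c) = algebraMap F Ω c := by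
    intro c
    rw [evK_apply]
    have h1 : (algebraMap F (QuadraticAlgebra F a b) c).re = c := rfl
    have h2 : (algebraMap F (QuadraticAlgebra F a b) c).im = 0 := rfl
    rw [h1, h2, map_zero, zero_mul, add_zero]
  have hφX : φ Polynomial.X = θ := Polynomial.eval₂_X _ _
  have hφC : ∀ c, φ (Polynomial.C c) = evK (algebraMap F Ω) τ hτ c := fun c =>
    Polynomial.eval₂_C _ _
  have hφp : φ p = 0 := by
    simp only [p, map_sub, map_mul, map_pow, hφX, hφC, hF]
    rw [hθ]; ring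
  have h1 : φ P.det = φ (P.det %ₘ p) := by
    conv_lhs => rw [← Polynomial.modByMonic_add_div P.det p]
    rw [map_add, map_mul, hφp, zero_mul, add_zero]
  have hdeg : (P.det %ₘ p).natDegree < 3 := by
    rw [← hpd]
    exact Polynomial.natDegree_modByMonic_lt _ hp (by
      intro h
      rw [h, Polynomial.natDegree_one] at hpd
      omega)
  have h2 : φ (P.det %ₘ p) = xv (algebraMap F Ω) τ θ (fun j => (P.det %ₘ p).coeff j) := by
    conv_lhs => rw [Polynomial.as_sum_range' _ 3 hdeg]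
    rw [Finset.sum_range_succ, Finset.sum_range_succ, Finset.sum_range_one]
    simp only [map_add, ← Polynomial.C_mul_X_pow_eq_monomial, map_mul, map_pow, hφX, hφC,
      evK_apply, xv]
    simp
  rw [← h2, ← h1, RingHom.map_det, Algebra.norm_eq_matrix_det (Algebra.TensorProduct.basis Ω bs)]
  congr 1
  ext i j
  have hM : ∀ x : κ, Algebra.leftMulMatrix (Algebra.TensorProduct.basis Ω bs) (inclκ F Ω κ x) i j
      = algebraMap F Ω (M x i j) := fun x => leftMulMatrix_bc bs x i j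
  have hxv : xv (inclκ F Ω κ) (algebraMap Ω (Ω ⊗[F] κ) τ) (algebraMap Ω (Ω ⊗[F] κ) θ) z
      = (inclκ F Ω κ (z 0).re + τ • inclκ F Ω κ (z 0).im)
      + θ • (inclκ F Ω κ (z 1).re + τ • inclκ F Ω κ (z 1).im)
      + (θ ^ 2) • (inclκ F Ω κ (z 2).re + τ • inclκ F Ω κ (z 2).im) := by
    simp only [xv, Algebra.smul_def, map_pow]
    ring
  rw [hxv]
  simp only [map_add, map_smul, Matrix.add_apply, Matrix.smul_apply, hM, smul_eq_mul]
  rw [RingHom.mapMatrix_apply, Matrix.map_apply]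
  simp only [P, Matrix.of_apply, map_add, map_mul, map_pow, hφX, hφC, evK_apply]
  ring

end transfer
end DPI
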