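import Mathlib
import Pool.Agent.H478.DZ5
set_option autoImplicit false
namespace DPI
open TensorProduct

universe u v

section split
variable {F : Type u} [Field F] {Ω : Type v} [Field Ω] [Algebra F Ω]

theorem cubic_coeffs {A : Type*} [Field A] {u v w u' v' w' : A}
    (h : Polynomial.X ^ 3 - Polynomial.C u * Polynomial.X ^ 2 - Polynomial.C v * Polynomial.X
      - Polynomial.C w = Polynomial.X ^ 3 - Polynomial.C u' * Polynomial.X ^ 2
      + Polynomial.C v' * Polynomial.X - Polynomial.C w') : u' = u ∧ v' = -v ∧ w' = w := by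
  have c0 := congrArg (fun q => Polynomial.coeff q 0) h
  have c1 := congrArg (fun q => Polynomial.coeff q 1) h
  have c2 := congrArg (fun q => Polynomial.coeff q 2) h
  simp [Polynomial.coeff_X, Polynomial.coeff_C] at c0 c1 c2
  exact ⟨c2.symm, c1.symm, c0.symm⟩

theorem exists_split [IsAlgClosed Ω] {a b r s t : F} (hab : b ^ 2 + 4 * a ≠ 0)
    (hc : (Polynomial.X ^ 3 - Polynomial.C t * Polynomial.X ^ 2 - Polynomial.C s * Polynomial.X
      - Polynomial.C r : Polynomial F).Separable) :
    ∃ (τ τ' : Ω) (θ : Fin 3 → Ω), Split a b r s t τ τ' θ := by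
  obtain ⟨τ, hτ⟩ := IsAlgClosed.exists_root (Polynomial.X ^ 2
    - Polynomial.C (algebraMap F Ω b) * Polynomial.X - Polynomial.C (algebraMap F Ω a)) (by
      have : (Polynomial.X ^ 2 - Polynomial.C (algebraMap F Ω b) * Polynomial.X
        - Polynomial.C (algebraMap F Ω a)).degree = 2 := by compute_degree!
      rw [this]; norm_num)
  have hτ' : τ ^ 2 - algebraMap F Ω b * τ - algebraMap F Ω a = 0 := by
    simpa [Polynomial.IsRoot] using hτ
  set p : Polynomial F := Polynomial.X ^ 3 - Polynomial.C t * Polynomial.X ^ 2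
    - Polynomial.C s * Polynomial.X - Polynomial.C r with hpdef
  have hpm : p.Monic := by rw [hpdef]; monicity!
  have hpd : p.natDegree = 3 := by rw [hpdef]; compute_degree!
  have hmm : (p.map (algebraMap F Ω)).Monic := hpm.map _
  have hmd : (p.map (algebraMap F Ω)).natDegree = 3 := by
    rw [Polynomial.natDegree_map, hpd]
  have hsplit := IsAlgClosed.splits (p.map (algebraMap F Ω))
  have hnd := Polynomial.nodup_roots hc.map (p := p.map (algebraMap F Ω))
  have hcard := hsplit.natDegree_eq_card_roots
  have hprod := hsplit.eq_prod_roots_of_monic hmm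
  obtain ⟨x, y, z, hxyz⟩ := Multiset.card_eq_three.1 (hcard.symm.trans hmd)
  rw [hxyz] at hprod hnd
  simp only [Multiset.insert_eq_cons, Multiset.map_cons, Multiset.map_singleton,
    Multiset.prod_cons, Multiset.prod_singleton] at hprod
  have hmap : p.map (algebraMap F Ω) = Polynomial.X ^ 3
      - Polynomial.C (algebraMap F Ω t) * Polynomial.X ^ 2
      - Polynomial.C (algebraMap F Ω s) * Polynomial.X - Polynomial.C (algebraMap F Ω r) := by
    rw [hpdef]; simp
  have hexp : (Polynomial.X - Polynomial.C x) * ((Polynomial.X - Polynomial.C y)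
      * (Polynomial.X - Polynomial.C z)) = Polynomial.X ^ 3
      - Polynomial.C (x + y + z) * Polynomial.X ^ 2
      + Polynomial.C (x * y + x * z + y * z) * Polynomial.X - Polynomial.C (x * y * z) := by
    simp only [map_add, map_mul]; ring
  rw [hmap, hexp] at hprod
  obtain ⟨c2, c1, c0⟩ := cubic_coeffs hprod
  have hne : x ≠ y ∧ x ≠ z ∧ y ≠ z := by
    simp only [Multiset.insert_eq_cons, Multiset.nodup_cons, Multiset.mem_cons,
      Multiset.mem_singleton, not_or] at hnd
    exact ⟨hnd.1.1, hnd.1.2, hnd.2.1⟩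
  refine ⟨τ, algebraMap F Ω b - τ, ![x, y, z], ?_, ?_, ?_, ?_, ?_, ?_, ?_⟩
  · ring
  · linear_combination -hτ'
  · intro h
    apply hab
    apply (algebraMap F Ω).injective
    rw [map_add, map_pow, map_mul, map_zero, map_ofNat]
    have h2 : 2 * τ - algebraMap F Ω b = 0 := by linear_combination h
    linear_combination (2 * τ - algebraMap F Ω b) * h2 - 4 * hτ'
  · exact c2
  · exact c1
  · exact c0
  · intro i j hij
    fin_cases i <;> fin_cases j <;> first | rfl | (exfalso; simp at hij; tauto)

end split
end DPI
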