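import Mathlib
import Pool.Agent.H478.DZ6
set_option autoImplicit false
namespace DPI
open TensorProduct

universe u v

/-- `R[θ]`, `θ³ = r + s θ + t θ²`, as a commutative ring -/
def Cub (R : Type u) [CommRing R] (_r _s _t : R) : Type u := Fin 3 → R

section cub
variable {R : Type u} [CommRing R] {r s t : R}

instance : AddCommGroup (Cub R r s t) := inferInstanceAs (AddCommGroup (Fin 3 → R))

theorem mulE_add (r s t : R) (u v w : Fin 3 → R) :
    mulE r s t u (v + w) = mulE r s t u v + mulE r s t u w := by
  funext j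
  fin_cases j <;> simp [mulE] <;> ring

theorem mulE_add' (r s t : R) (u v w : Fin 3 → R) :
    mulE r s t (u + v) w = mulE r s t u w + mulE r s t v w := by
  funext j
  fin_cases j <;> simp [mulE] <;> ring

theorem mulE_zero (r s t : R) (u : Fin 3 → R) : mulE r s t u 0 = 0 := by
  funext j
  fin_cases j <;> simp [mulE]

theorem zero_mulE (r s t : R) (u : Fin 3 → R) : mulE r s t 0 u = 0 := by
  funext j
  fin_cases j <;> simp [mulE]

instance : CommRing (Cub R r s t) :=
  { (inferInstance : AddCommGroup (Cub R r s t)) with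
    mul := fun u v => mulE r s t u v
    one := (![1, 0, 0] : Fin 3 → R)
    mul_assoc := fun u v w => mulE_assoc r s t u v w
    mul_comm := fun u v => mulE_comm r s t u v
    one_mul := fun u => (mulE_comm r s t _ u).trans (mulE_one r s t u)
    mul_one := fun u => mulE_one r s t u
    left_distrib := fun u v w => mulE_add r s t u v w
    right_distrib := fun u v w => mulE_add' r s t u v w
    zero_mul := fun u => zero_mulE r s t u
    mul_zero := fun u => mulE_zero r s t u }

theorem Cub.mul_def (u v : Cub R r s t) : u * v = mulE r s t u v := rfl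

theorem Cub.one_def : (1 : Cub R r s t) = (![1, 0, 0] : Fin 3 → R) := rfl

/-- functoriality -/
def Cub.map {A : Type v} [CommRing A] (f : R →+* A) {r' s' t' : A} (hr : f r = r') (hs : f s = s')
    (ht : f t = t') : Cub R r s t →+* Cub A r' s' t' where
  toFun u := fun j => f (u j)
  map_one' := by
    funext j
    fin_cases j
    · exact map_one _
    · exact map_zero _
    · exact map_zero _
  map_mul' u v := by
    subst hr hs ht
    funext j
    exact map_mulE f r s t u v j
  map_zero' := by
    funext j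
    exact map_zero _
  map_add' u v := by
    funext j
    exact map_add f _ _

/-- evaluation -/
def Cub.ev {A : Type v} [CommRing A] (f : R →+* A) (θ : A)
    (hθ : θ ^ 3 = f r + f s * θ + f t * θ ^ 2) : Cub R r s t →+* A where
  toFun u := evE f θ u
  map_one' := by simp [evE, Cub.one_def]
  map_mul' u v := evE_mul f r s t hθ u v
  map_zero' := by
    show f 0 + f 0 * θ + f 0 * θ ^ 2 = 0
    simp
  map_add' u v := by
    show f (u 0 + v 0) + f (u 1 + v 1) * θ + f (u 2 + v 2) * θ ^ 2
      = (f (u 0) + f (u 1) * θ + f (u 2) * θ ^ 2) + (f (v 0) + f (v 1) * θ + f (v 2) * θ ^ 2)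
    simp only [map_add]; ring

/-- the norm -/
def Cub.norm : Cub R r s t →* R where
  toFun u := normE r s t u
  map_one' := normE_one r s t
  map_mul' u v := normE_mul r s t u v

/-- scalars -/
def Cub.c : R →+* Cub R r s t where
  toFun x := (![x, 0, 0] : Fin 3 → R)
  map_one' := rfl
  map_mul' x y := by
    show ![x * y, 0, 0] = mulE r s t ![x, 0, 0] ![y, 0, 0]
    funext j
    fin_cases j <;> simp [mulE]
  map_zero' := by
    show ![(0 : R), 0, 0] = 0
    funext j
    fin_cases j <;> rfl
  map_add' x y := by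
    show ![x + y, 0, 0] = ![x, 0, 0] + ![y, 0, 0]
    funext j
    fin_cases j <;> simp

theorem Cub.norm_c (x : R) : Cub.norm (Cub.c x : Cub R r s t) = x ^ 3 := by
  show normE r s t ![x, 0, 0] = x ^ 3
  rw [normE_eq]; simp; ring

theorem Cub.exists_adj (u : Cub R r s t) : ∃ v : Cub R r s t, u * v = Cub.c (Cub.norm u) :=
  ⟨adjE r s t u, mul_adjE r s t u⟩

theorem evE_inj_gen {A : Type*} [Field A] {θ : Fin 3 → A} (f : R →+* A)
    (hθ : Function.Injective θ) (u w : Fin 3 → R)
    (h : ∀ i, evE f (θ i) u = evE f (θ i) w) (j : Fin 3) : f (u j) = f (w j) := by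
  have h01 : θ 0 - θ 1 ≠ 0 := sub_ne_zero.2 (fun h => by simpa using hθ h)
  have h02 : θ 0 - θ 2 ≠ 0 := sub_ne_zero.2 (fun h => by simpa using hθ h)
  have h12 : θ 1 - θ 2 ≠ 0 := sub_ne_zero.2 (fun h => by simpa using hθ h)
  have e0 := h 0
  have e1 := h 1
  have e2 := h 2
  simp only [evE] at e0 e1 e2
  have k2 : f (u 2) = f (w 2) := by
    have : (θ 0 - θ 1) * (θ 0 - θ 2) * (θ 1 - θ 2) * (f (u 2) - f (w 2)) = 0 := by
      linear_combination (θ 1 - θ 2) * e0 - (θ 0 - θ 2) * e1 + (θ 0 - θ 1) * e2
    exact sub_eq_zero.1 ((mul_eq_zero.1 this).resolve_left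
      (mul_ne_zero (mul_ne_zero h01 h02) h12))
  rw [k2] at e0 e1
  have k1 : f (u 1) = f (w 1) := by
    have : (θ 0 - θ 1) * (f (u 1) - f (w 1)) = 0 := by linear_combination e0 - e1
    exact sub_eq_zero.1 ((mul_eq_zero.1 this).resolve_left h01)
  rw [k1] at e0
  have k0 : f (u 0) = f (w 0) := by linear_combination e0
  fin_cases j
  · exact k0
  · exact k1
  · exact k2

end cub
end DPI
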