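import Mathlib
import Pool.Agent.H478.DZ7
set_option autoImplicit false
namespace DPI
open TensorProduct

universe u v

/-- `F[ω][θ]` -/
abbrev BR (F : Type u) [Field F] (a b r s t : F) : Type u :=
  Cub (QuadraticAlgebra F a b) (algebraMap F _ r) (algebraMap F _ s) (algebraMap F _ t)

section norms
variable {F : Type u} [Field F] {a b r s t : F}

theorem star_alg (c : F) : starRingEnd (QuadraticAlgebra F a b)
      (algebraMap F (QuadraticAlgebra F a b) c) = algebraMap F (QuadraticAlgebra F a b) c := by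
  rw [starRingEnd_apply]
  have h1 : (algebraMap F (QuadraticAlgebra F a b) c).im = 0 := rfl
  ext
  · rw [QuadraticAlgebra.re_star, h1]; simp
  · rw [QuadraticAlgebra.im_star, h1]; simp

/-- conjugation of `F[ω][θ]` over `F[θ]` -/
noncomputable def conj : BR F a b r s t →+* BR F a b r s t :=
  Cub.map (starRingEnd (QuadraticAlgebra F a b)) (star_alg r) (star_alg s) (star_alg t)

/-- the inclusion of `F[θ]` in `F[ω][θ]` -/
noncomputable def emb : Cub F r s t →+* BR F a b r s t :=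
  Cub.map (algebraMap F (QuadraticAlgebra F a b)) rfl rfl rfl

theorem conj_apply (u : BR F a b r s t) (j : Fin 3) : conj u j = star (u j) := rfl

theorem emb_apply (u : Cub F r s t) (j : Fin 3) :
    (emb u : BR F a b r s t) j = algebraMap F (QuadraticAlgebra F a b) (u j) := rfl

theorem conj_emb (u : Cub F r s t) : conj (emb u : BR F a b r s t) = emb u := by
  funext j
  exact star_alg (u j)

variable {Ω : Type v} [Field Ω] [Algebra F Ω] {τ τ' : Ω} {θ : Fin 3 → Ω}

theorem evK_F (hτ : τ * τ = algebraMap F Ω a + algebraMap F Ω b * τ) (c : F) :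
    evK (algebraMap F Ω) τ hτ (algebraMap F (QuadraticAlgebra F a b) c) = algebraMap F Ω c := by
  rw [evK_apply]
  have h1 : (algebraMap F (QuadraticAlgebra F a b) c).re = c := rfl
  have h2 : (algebraMap F (QuadraticAlgebra F a b) c).im = 0 := rfl
  rw [h1, h2, map_zero, zero_mul, add_zero]

/-- evaluation at `(τ, θ)` -/
noncomputable def evB {θ : Ω} (hτ : τ * τ = algebraMap F Ω a + algebraMap F Ω b * τ)
    (hθ : θ ^ 3 = algebraMap F Ω r + algebraMap F Ω s * θ + algebraMap F Ω t * θ ^ 2) :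
    BR F a b r s t →+* Ω :=
  Cub.ev (evK (algebraMap F Ω) τ hτ) θ (by rw [evK_F, evK_F, evK_F]; exact hθ)

theorem evB_apply {θ : Ω} (hτ : τ * τ = algebraMap F Ω a + algebraMap F Ω b * τ)
    (hθ : θ ^ 3 = algebraMap F Ω r + algebraMap F Ω s * θ + algebraMap F Ω t * θ ^ 2)
    (u : BR F a b r s t) : evB hτ hθ u = xv (algebraMap F Ω) τ θ u := rfl

theorem evB_conj {θ : Ω} (hτ : τ * τ = algebraMap F Ω a + algebraMap F Ω b * τ)
    (hτ' : τ' * τ' = algebraMap F Ω a + algebraMap F Ω b * τ')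
    (hs : τ + τ' = algebraMap F Ω b)
    (hθ : θ ^ 3 = algebraMap F Ω r + algebraMap F Ω s * θ + algebraMap F Ω t * θ ^ 2)
    (u : BR F a b r s t) : evB hτ hθ (conj u) = evB hτ' hθ u := by
  show evE (evK (algebraMap F Ω) τ hτ) θ (fun j => star (u j))
    = evE (evK (algebraMap F Ω) τ' hτ') θ u
  simp only [evE, evK_star _ _ _ hτ hτ' hs]

theorem evB_emb {θ : Ω} (hτ : τ * τ = algebraMap F Ω a + algebraMap F Ω b * τ)
    (hθ : θ ^ 3 = algebraMap F Ω r + algebraMap F Ω s * θ + algebraMap F Ω t * θ ^ 2)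
    (u : Cub F r s t) : evB hτ hθ (emb u) = Cub.ev (algebraMap F Ω) θ hθ u := by
  show evE (evK (algebraMap F Ω) τ hτ) θ (fun j => algebraMap F _ (u j))
    = evE (algebraMap F Ω) θ u
  simp only [evE, evK_F]

theorem Split.root (sp : Split a b r s t τ τ' θ) (i : Fin 3) :
    θ i ^ 3 = algebraMap F Ω r + algebraMap F Ω s * θ i + algebraMap F Ω t * θ i ^ 2 :=
  root_of_sym (algebraMap F Ω) r s t sp.h1 sp.h2 sp.h3 i

theorem evB_inj (sp : Split a b r s t τ τ' θ) (u v : BR F a b r s t)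
    (h1 : ∀ i, evB sp.sq (sp.root i) u = evB sp.sq (sp.root i) v)
    (h2 : ∀ i, evB sp.swap.sq (sp.root i) u = evB sp.swap.sq (sp.root i) v) : u = v := by
  funext j
  have k1 := evE_inj_gen (evK (algebraMap F Ω) τ sp.sq) sp.hθ u v h1 j
  have k2 := evE_inj_gen (evK (algebraMap F Ω) τ' sp.swap.sq) sp.hθ u v h2 j
  exact quad_inj (algebraMap F Ω) sp.hτ _ _ k1 k2

theorem evK_norm (sp : Split a b r s t τ τ' θ) (u : BR F a b r s t) :
    evK (algebraMap F Ω) τ sp.sq (Cub.norm u) = evB sp.sq (sp.root 0) u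
      * evB sp.sq (sp.root 1) u * evB sp.sq (sp.root 2) u :=
  evE_norm (evK (algebraMap F Ω) τ sp.sq) _ _ _ (θ := θ) (by rw [evK_F]; exact sp.h1)
    (by rw [evK_F]; exact sp.h2) (by rw [evK_F]; exact sp.h3) u

theorem torsor_norm (sp : Split a b r s t τ τ' θ) {κ : Type u} [Field κ] [Algebra F κ]
    [Module.Finite F κ] {l : Cub F r s t} {m : QuadraticAlgebra F a b}
    {z : Fin 3 → QuadraticAlgebra κ (algebraMap F κ a) (algebraMap F κ b)}
    (hz : IsTorsorPoint a b r s t l m κ z) :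
    ∃ z1 : BR F a b r s t, z1 * conj z1 = emb (l ^ Module.finrank F κ) ∧
      Cub.norm z1 = m ^ Module.finrank F κ := by
  obtain ⟨z1, hz1⟩ : ∃ z1 : BR F a b r s t, ∀ (τ θ : Ω)
      (_ : τ * τ = algebraMap F Ω a + algebraMap F Ω b * τ)
      (_ : θ ^ 3 = algebraMap F Ω r + algebraMap F Ω s * θ + algebraMap F Ω t * θ ^ 2),
      xv (algebraMap F Ω) τ θ z1 = Algebra.norm Ω (xv (inclκ F Ω κ) (algebraMap Ω (Ω ⊗[F] κ) τ)
        (algebraMap Ω (Ω ⊗[F] κ) θ) z) := transfer (Ω := Ω) r s t z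
  obtain ⟨e1, e3⟩ := pts sp (A := Ω ⊗[F] κ) (inclκ F Ω κ) inclκ_F hz
  obtain ⟨_, e4⟩ := pts sp.swap (A := Ω ⊗[F] κ) (inclκ F Ω κ) inclκ_F hz
  have hfr : Module.finrank Ω (Ω ⊗[F] κ) = Module.finrank F κ := Module.finrank_baseChange
  have n1 : ∀ i, evB sp.sq (sp.root i) z1 = Algebra.norm Ω (xv (inclκ F Ω κ)
      (algebraMap Ω (Ω ⊗[F] κ) τ) (algebraMap Ω (Ω ⊗[F] κ) (θ i)) z) := fun i =>
    hz1 τ (θ i) sp.sq (sp.root i)
  have n2 : ∀ i, evB sp.swap.sq (sp.root i) z1 = Algebra.norm Ω (xv (inclκ F Ω κ)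
      (algebraMap Ω (Ω ⊗[F] κ) τ') (algebraMap Ω (Ω ⊗[F] κ) (θ i)) z) := fun i =>
    hz1 τ' (θ i) sp.swap.sq (sp.root i)
  have hl : ∀ i, evB sp.sq (sp.root i) z1 * evB sp.swap.sq (sp.root i) z1
      = (evE (algebraMap F Ω) (θ i) l) ^ Module.finrank F κ := by
    intro i
    rw [n1, n2, ← map_mul, e1, Algebra.norm_algebraMap, hfr]
  have hpow : ∀ i, evB sp.sq (sp.root i) (emb (l ^ Module.finrank F κ))
      = (evE (algebraMap F Ω) (θ i) l) ^ Module.finrank F κ := by
    intro i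
    rw [evB_emb, map_pow]
    rfl
  have hpow' : ∀ i, evB sp.swap.sq (sp.root i) (emb (l ^ Module.finrank F κ))
      = (evE (algebraMap F Ω) (θ i) l) ^ Module.finrank F κ := by
    intro i
    rw [evB_emb, map_pow]
    rfl
  refine ⟨z1, ?_, ?_⟩
  · refine evB_inj sp _ _ (fun i => ?_) (fun i => ?_)
    · rw [map_mul, evB_conj sp.sq sp.swap.sq sp.hb, hl, hpow]
    · rw [map_mul, evB_conj sp.swap.sq sp.sq sp.swap.hb, mul_comm, hl, hpow']
  · refine quad_inj (algebraMap F Ω) sp.hτ _ _ ?_ ?_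
    · have h1 : evK (algebraMap F Ω) τ sp.sq (Cub.norm z1)
          = evK (algebraMap F Ω) τ sp.sq (m ^ Module.finrank F κ) := by
        rw [evK_norm sp, n1, n1, n1, ← map_mul, ← map_mul, e3, Algebra.norm_algebraMap, hfr,
          map_pow]
        rfl
      exact h1
    · have h1 : evK (algebraMap F Ω) τ' sp.swap.sq (Cub.norm z1)
          = evK (algebraMap F Ω) τ' sp.swap.sq (m ^ Module.finrank F κ) := by
        have h2 := evK_norm sp.swap z1
        rw [h2, n2, n2, n2, ← map_mul, ← map_mul, e4, Algebra.norm_algebraMap, hfr, map_pow]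
        rfl
      exact h1

end norms
end DPI
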