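import Mathlib
import Pool.Agent.H478.DZ8
set_option autoImplicit false
namespace DPI
open TensorProduct

universe u v

section arith
variable {F : Type u} [Field F] {a b r s t : F}

theorem conj_conj (u : BR F a b r s t) : conj (conj u) = u := by
  funext j
  exact star_star (u j)

theorem exists_emb (hab : b ^ 2 + 4 * a ≠ 0) {u : BR F a b r s t} (h : conj u = u) :
    ∃ v : Cub F r s t, emb v = u := by
  refine ⟨fun j => (u j).re, ?_⟩
  funext j
  have h1 : star (u j) = u j := congrFun h j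
  have him := congrArg QuadraticAlgebra.im h1
  have hre := congrArg QuadraticAlgebra.re h1
  rw [QuadraticAlgebra.im_star] at him
  rw [QuadraticAlgebra.re_star] at hre
  have h2 : (u j).im = 0 := by
    have : (b ^ 2 + 4 * a) * (u j).im = 0 := by
      linear_combination b * hre - 2 * a * him
    exact (mul_eq_zero.1 this).resolve_left hab
  show algebraMap F (QuadraticAlgebra F a b) ((u j).re) = u j
  ext
  · rfl
  · rw [h2]; rfl

theorem emb_inj {u v : Cub F r s t} (h : (emb u : BR F a b r s t) = emb v) : u = v := by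
  funext j
  have h1 : algebraMap F (QuadraticAlgebra F a b) (u j)
    = algebraMap F (QuadraticAlgebra F a b) (v j) := congrFun h j
  exact congrArg QuadraticAlgebra.re h1

theorem exists_norm_eq {m m' : QuadraticAlgebra F a b} (hm : m * m' = 1) {n : ℕ} (hn : ¬ 3 ∣ n)
    {z1 : BR F a b r s t} (h : Cub.norm z1 = m ^ n) :
    ∃ w w' : BR F a b r s t, w * w' = 1 ∧ m * Cub.norm w = 1 := by
  obtain ⟨z0, hz0⟩ : ∃ z0 : BR F a b r s t, Cub.norm z0 = m := by
    have h3 : n % 3 = 1 ∨ n % 3 = 2 := by omega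
    obtain ⟨q, hq⟩ : ∃ q, q = n / 3 := ⟨_, rfl⟩
    have hone : ∀ e : ℕ, m ^ e * m' ^ e = 1 := by
      intro e; rw [← mul_pow, hm, one_pow]
    rcases h3 with h3 | h3
    · refine ⟨z1 * Cub.c (m' ^ q), ?_⟩
      have hn' : n = 3 * q + 1 := by omega
      rw [map_mul, h, Cub.norm_c, hn']
      linear_combination m * hone (3 * q)
    · refine ⟨z1 ^ 2 * Cub.c (m' ^ (2 * q + 1)), ?_⟩
      have hn' : n = 3 * q + 2 := by omega
      rw [map_mul, map_pow, h, Cub.norm_c, hn']
      linear_combination m * hone (6 * q + 3)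
  obtain ⟨v, hv⟩ := Cub.exists_adj z0
  rw [hz0] at hv
  have h1 : z0 * (v * Cub.c m') = 1 := by
    rw [← mul_assoc, hv, ← map_mul, hm, map_one]
  refine ⟨v * Cub.c m', z0, by rw [mul_comm]; exact h1, ?_⟩
  have h2 : Cub.norm z0 * Cub.norm (v * Cub.c m') = 1 := by
    rw [← map_mul, h1, map_one]
  rw [hz0] at h2
  exact h2

theorem exists_quad_norm {l l' : Cub F r s t} (hl : l * l' = 1) {n : ℕ} (hn : ¬ 2 ∣ n)
    {z1 : BR F a b r s t} (h : z1 * conj z1 = emb (l ^ n)) :
    ∃ w w' : BR F a b r s t, w * w' = 1 ∧ emb l * (w * conj w) = 1 := by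
  obtain ⟨q, hq⟩ : ∃ q, q = n / 2 := ⟨_, rfl⟩
  have hn' : n = 2 * q + 1 := by omega
  have hone : ∀ e : ℕ, l ^ e * l' ^ e = 1 := by
    intro e; rw [← mul_pow, hl, one_pow]
  obtain ⟨z0, hz0⟩ : ∃ z0 : BR F a b r s t, z0 * conj z0 = emb l := by
    refine ⟨z1 * emb (l' ^ q), ?_⟩
    rw [map_mul, conj_emb]
    have h1 : z1 * emb (l' ^ q) * (conj z1 * emb (l' ^ q)) = emb (l ^ n * (l' ^ q * l' ^ q)) := by
      rw [map_mul, map_mul, ← h]; ring
    rw [h1, hn']
    congr 1
    linear_combination l * hone (2 * q)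
  have h1 : z0 * (conj z0 * emb l') = 1 := by
    rw [← mul_assoc, hz0, ← map_mul, hl, map_one]
  refine ⟨conj z0 * emb l', z0, by rw [mul_comm]; exact h1, ?_⟩
  have h2 : conj z0 * conj (conj z0 * emb l') = 1 := by
    rw [← map_mul, h1, map_one]
  rw [← hz0]
  linear_combination (conj z0 * conj (conj z0 * emb l')) * h1 + h2

end arith

section wits
variable {F L : Type u} [Field F] [Field L] [Algebra F L] {a b r s t : F}

theorem dp6_wit2' (hab : b ^ 2 + 4 * a ≠ 0) {l l' : Cub F r s t} (hl : l * l' = 1)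
    {m m' : QuadraticAlgebra F a b} (hm : m * m' = 1)
    {τ τ' : AlgebraicClosure L} {θ : Fin 3 → AlgebraicClosure L}
    (sp : Split a b r s t τ τ' θ)
    {z : Fin 3 → QuadraticAlgebra L (algebraMap F L a) (algebraMap F L b)}
    (hz : IsTorsorPoint a b r s t l m L z)
    (hgen : IntermediateField.adjoin F (coords z) = ⊤)
    {s₀ t₀ : L} (h0 : AlgebraicIndependent F ![s₀, t₀])
    {κ : Type u} [Field κ] [Algebra F κ] [Module.Finite F κ] (hn : ¬ 3 ∣ Module.finrank F κ)
    {y : Fin 3 → QuadraticAlgebra κ (algebraMap F κ a) (algebraMap F κ b)}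
    (hy : IsTorsorPoint a b r s t l m κ y) : Wit F L 2 := by
  obtain ⟨z1, -, h1⟩ := torsor_norm sp hy
  obtain ⟨w, w', hw, hmw⟩ := exists_norm_eq hm hn h1
  obtain ⟨l1, hl1⟩ := exists_emb hab (u := w * conj w) (by rw [map_mul, conj_conj, mul_comm])
  obtain ⟨l2, hl2⟩ := exists_emb hab (u := w' * conj w') (by rw [map_mul, conj_conj, mul_comm])
  have h12 : l1 * l2 = 1 := by
    apply emb_inj (a := a) (b := b)
    rw [map_mul, hl1, hl2, map_one]
    have h3 : conj w * conj w' = 1 := by rw [← map_mul, hw, map_one]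
    linear_combination (conj w * conj w') * hw + h3
  have htw := hz.twist w l1 hl1.symm
  have hmw' : m * normE (algebraMap F _ r) (algebraMap F _ s) (algebraMap F _ t) w = 1 := hmw
  rw [hmw'] at htw
  have hinv : mulE r s t (mulE r s t l l1) (mulE r s t l' l2) = ![1, 0, 0] := by
    have : (l * l1) * (l' * l2) = 1 := by linear_combination (l1 * l2) * hl + h12
    exact this
  exact dp6_wit2 hinv sp htw (twist_gen hgen w w' hw) h0

theorem dp6_wit3' (hab : b ^ 2 + 4 * a ≠ 0) {l l' : Cub F r s t} (hl : l * l' = 1)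
    {m : QuadraticAlgebra F a b}
    {τ τ' : AlgebraicClosure L} {θ : Fin 3 → AlgebraicClosure L}
    (sp : Split a b r s t τ τ' θ)
    {z : Fin 3 → QuadraticAlgebra L (algebraMap F L a) (algebraMap F L b)}
    (hz : IsTorsorPoint a b r s t l m L z)
    (hgen : IntermediateField.adjoin F (coords z) = ⊤)
    {s₀ t₀ : L} (h0 : AlgebraicIndependent F ![s₀, t₀])
    {κ : Type u} [Field κ] [Algebra F κ] [Module.Finite F κ] (hn : ¬ 2 ∣ Module.finrank F κ)
    {y : Fin 3 → QuadraticAlgebra κ (algebraMap F κ a) (algebraMap F κ b)}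
    (hy : IsTorsorPoint a b r s t l m κ y) : Wit F L 3 := by
  obtain ⟨z1, h1, -⟩ := torsor_norm sp hy
  obtain ⟨w, w', hw, hmw⟩ := exists_quad_norm hl hn h1
  obtain ⟨l1, hl1⟩ := exists_emb hab (u := w * conj w) (by rw [map_mul, conj_conj, mul_comm])
  have h12 : l * l1 = 1 := by
    apply emb_inj (a := a) (b := b)
    rw [map_mul, hl1, hmw, map_one]
  have htw := hz.twist w l1 hl1.symm
  have h12' : mulE r s t l l1 = ![1, 0, 0] := h12
  rw [h12'] at htw
  by_cases hm1 : m * normE (algebraMap F _ r) (algebraMap F _ s) (algebraMap F _ t) w = 1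
  · rw [hm1] at htw
    exact (dp6_wit2 (mulE_one r s t _) sp htw (twist_gen hgen w w' hw) h0).mono (by norm_num)
  · exact dp6_wit3 hm1 sp htw (twist_gen hgen w w' hw) h0

end wits
end DPI
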