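import Mathlib
import Pool.Agent.H478.DZ9
set_option autoImplicit false
namespace DPI
open MvPolynomial

universe u v

/-- functoriality of `R[ω]` -/
def mapQ' {R A : Type*} [CommRing R] [CommRing A] (h : R →+* A) {a b : R} {a' b' : A}
    (ha : h a = a') (hb : h b = b') : QuadraticAlgebra R a b →+* QuadraticAlgebra A a' b' where
  toFun z := ⟨h z.re, h z.im⟩
  map_one' := by ext <;> simp [QuadraticAlgebra.re_one, QuadraticAlgebra.im_one]
  map_mul' x y := by subst ha hb; ext <;> simp
  map_zero' := by ext <;> simp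
  map_add' x y := by ext <;> simp

section eqs
variable {F : Type u} [Field F] (a b r s t : F) (l : Fin 3 → F) (m : QuadraticAlgebra F a b)

/-- the generic point of affine space -/
noncomputable def genZ : Fin 3 → QuadraticAlgebra (MvPolynomial (Fin 3 ⊕ Fin 3) F)
    (algebraMap F _ a) (algebraMap F _ b) :=
  fun j => ⟨X (Sum.inl j), X (Sum.inr j)⟩

/-- first system -/
noncomputable def genE1 (j : Fin 3) : QuadraticAlgebra (MvPolynomial (Fin 3 ⊕ Fin 3) F)
    (algebraMap F _ a) (algebraMap F _ b) :=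
  mulE (algebraMap F _ r) (algebraMap F _ s) (algebraMap F _ t) (genZ a b)
    (fun j => starRingEnd _ (genZ a b j)) j - algebraMap F _ (l j)

/-- second equation -/
noncomputable def genE2 : QuadraticAlgebra (MvPolynomial (Fin 3 ⊕ Fin 3) F)
    (algebraMap F _ a) (algebraMap F _ b) :=
  normE (algebraMap F _ r) (algebraMap F _ s) (algebraMap F _ t) (genZ a b)
    - mapQ (algebraMap F (MvPolynomial (Fin 3 ⊕ Fin 3) F)) m

/-- the torsor equations, as polynomials -/
def torsorEqs : Set (MvPolynomial (Fin 3 ⊕ Fin 3) F) :=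
  {G | (∃ j, G = (genE1 a b r s t l j).re ∨ G = (genE1 a b r s t l j).im) ∨
    G = (genE2 a b r s t m).re ∨ G = (genE2 a b r s t m).im}

theorem torsorEqs_iff {A : Type v} [Field A] [Algebra F A] (y : Fin 3 ⊕ Fin 3 → A) :
    (∀ G ∈ torsorEqs a b r s t l m, aeval y G = 0) ↔
      IsTorsorPoint a b r s t l m A (fun j => ⟨y (Sum.inl j), y (Sum.inr j)⟩) := by
  let φ : QuadraticAlgebra (MvPolynomial (Fin 3 ⊕ Fin 3) F) (algebraMap F _ a)
      (algebraMap F _ b) →+* QuadraticAlgebra A (algebraMap F A a) (algebraMap F A b) :=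
    mapQ' (aeval y).toRingHom ((aeval y).commutes a) ((aeval y).commutes b)
  have hφ : ∀ c, φ c = ⟨aeval y c.re, aeval y c.im⟩ := fun c => rfl
  have hφF : ∀ c : F, φ (algebraMap F _ c) = algebraMap F _ c := by
    intro c
    rw [hφ]
    have h1 : (algebraMap F (QuadraticAlgebra (MvPolynomial (Fin 3 ⊕ Fin 3) F)
      (algebraMap F _ a) (algebraMap F _ b)) c).re = algebraMap F _ c := rfl
    have h2 : (algebraMap F (QuadraticAlgebra (MvPolynomial (Fin 3 ⊕ Fin 3) F)
      (algebraMap F _ a) (algebraMap F _ b)) c).im = 0 := rfl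
    rw [h1, h2, map_zero, (aeval y).commutes]
    rfl
  have hφZ : ∀ j, φ (genZ a b j) = ⟨y (Sum.inl j), y (Sum.inr j)⟩ := by
    intro j
    rw [hφ]
    simp only [genZ, aeval_X]
  have hφs : ∀ j, φ (starRingEnd _ (genZ a b j)) = star ⟨y (Sum.inl j), y (Sum.inr j)⟩ := by
    intro j
    rw [← hφZ, hφ, hφ, starRingEnd_apply]
    ext
    · rw [QuadraticAlgebra.re_star, QuadraticAlgebra.re_star]
      simp only [map_add, map_mul, (aeval y).commutes]
    · rw [QuadraticAlgebra.im_star, QuadraticAlgebra.im_star]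
      simp only [map_neg]
  have h1 : ∀ j, φ (genE1 a b r s t l j) = mulE (algebraMap F _ r) (algebraMap F _ s)
      (algebraMap F _ t) (fun j => ⟨y (Sum.inl j), y (Sum.inr j)⟩)
      (fun j => star ⟨y (Sum.inl j), y (Sum.inr j)⟩) j - algebraMap F _ (l j) := by
    intro j
    rw [genE1, map_sub, map_mulE, hφF, hφF, hφF, hφF]
    simp only [hφZ, hφs]
  have h2 : φ (genE2 a b r s t m) = normE (algebraMap F _ r) (algebraMap F _ s)
      (algebraMap F _ t) (fun j => ⟨y (Sum.inl j), y (Sum.inr j)⟩)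
      - mapQ (algebraMap F A) m := by
    rw [genE2, map_sub, map_normE, hφF, hφF, hφF]
    simp only [hφZ]
    congr 1
    rw [hφ]
    ext
    · exact (aeval y).commutes _
    · exact (aeval y).commutes _
  have h0 : ∀ c, φ c = 0 ↔ aeval y c.re = 0 ∧ aeval y c.im = 0 := by
    intro c
    rw [hφ]
    constructor
    · intro h
      exact ⟨congrArg QuadraticAlgebra.re h, congrArg QuadraticAlgebra.im h⟩
    · rintro ⟨k1, k2⟩
      rw [k1, k2]
      rfl
  constructor
  · intro h
    constructor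
    · funext j
      have h3 : φ (genE1 a b r s t l j) = 0 :=
        (h0 _).2 ⟨h _ (Or.inl ⟨j, Or.inl rfl⟩), h _ (Or.inl ⟨j, Or.inr rfl⟩)⟩
      rw [h1] at h3
      exact sub_eq_zero.1 h3
    · have h3 : φ (genE2 a b r s t m) = 0 :=
        (h0 _).2 ⟨h _ (Or.inr (Or.inl rfl)), h _ (Or.inr (Or.inr rfl))⟩
      rw [h2] at h3
      exact sub_eq_zero.1 h3
  · intro h G hG
    have k1 : ∀ j, φ (genE1 a b r s t l j) = 0 := by
      intro j
      rw [h1, sub_eq_zero]
      exact congrFun h.1 j
    have k2 : φ (genE2 a b r s t m) = 0 := by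
      rw [h2, sub_eq_zero]
      exact h.2
    rcases hG with ⟨j, rfl | rfl⟩ | rfl | rfl
    · exact ((h0 _).1 (k1 j)).1
    · exact ((h0 _).1 (k1 j)).2
    · exact ((h0 _).1 k2).1
    · exact ((h0 _).1 k2).2

end eqs
end DPI
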