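import Mathlib
import Pool.Agent.H478.DZA
set_option autoImplicit false
namespace DPI
open MvPolynomial

universe u v

/-- the least degree of a finite extension `κ` of `F` over which the torsor has a point -/
noncomputable def torsorDeg {F : Type u} [Field F] (a b r s t : F) (l : Fin 3 → F)
    (m : QuadraticAlgebra F a b) : ℕ :=
  sInf {n | ∃ (κ : Type u) (_ : Field κ) (_ : Algebra F κ), Module.Finite F κ ∧
    Module.finrank F κ = n ∧
    ∃ z : Fin 3 → QuadraticAlgebra κ (algebraMap F κ a) (algebraMap F κ b),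
      IsTorsorPoint a b r s t l m κ z}

section final6
variable {F L : Type u} [Field F] [Field L] [Algebra F L] {a b r s t : F}

theorem torsor_spec [Infinite F] {l : Fin 3 → F} {m : QuadraticAlgebra F a b}
    {z : Fin 3 → QuadraticAlgebra L (algebraMap F L a) (algebraMap F L b)}
    (hz : IsTorsorPoint a b r s t l m L z) {e : ℕ} (h : Wit F L e) :
    ∃ (κ : Type u) (_ : Field κ) (_ : Algebra F κ), Module.Finite F κ ∧
      Module.finrank F κ ≤ e ∧
      ∃ y : Fin 3 → QuadraticAlgebra κ (algebraMap F κ a) (algebraMap F κ b),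
        IsTorsorPoint a b r s t l m κ y := by
  obtain ⟨s', t', hst, hfin, hle⟩ := h
  obtain ⟨κ, _, _, hκ, hκe, y, hy⟩ := affine_point_of_function_field (torsorEqs a b r s t l m)
    s' t' hst e hfin hle (Sum.elim (fun j => (z j).re) (fun j => (z j).im))
    ((torsorEqs_iff a b r s t l m _).2 hz)
  exact ⟨κ, inferInstance, inferInstance, hκ, hκe, _, (torsorEqs_iff a b r s t l m y).1 hy⟩

theorem torsorDeg_le {l : Fin 3 → F} {m : QuadraticAlgebra F a b} {κ : Type u} [Field κ]
    [Algebra F κ] (hfin : Module.Finite F κ)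
    {y : Fin 3 → QuadraticAlgebra κ (algebraMap F κ a) (algebraMap F κ b)}
    (hy : IsTorsorPoint a b r s t l m κ y) : torsorDeg a b r s t l m ≤ Module.finrank F κ :=
  Nat.sInf_le ⟨κ, inferInstance, inferInstance, hfin, rfl, y, hy⟩

theorem torsorDeg_spec {l : Fin 3 → F} {m : QuadraticAlgebra F a b} {κ : Type u} [Field κ]
    [Algebra F κ] (hfin : Module.Finite F κ)
    {y : Fin 3 → QuadraticAlgebra κ (algebraMap F κ a) (algebraMap F κ b)}
    (hy : IsTorsorPoint a b r s t l m κ y) :
    ∃ (κ : Type u) (_ : Field κ) (_ : Algebra F κ), Module.Finite F κ ∧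
      Module.finrank F κ = torsorDeg a b r s t l m ∧
      ∃ y : Fin 3 → QuadraticAlgebra κ (algebraMap F κ a) (algebraMap F κ b),
        IsTorsorPoint a b r s t l m κ y := by
  have hne : Set.Nonempty {n | ∃ (κ : Type u) (_ : Field κ) (_ : Algebra F κ),
      Module.Finite F κ ∧ Module.finrank F κ = n ∧
      ∃ z : Fin 3 → QuadraticAlgebra κ (algebraMap F κ a) (algebraMap F κ b),
        IsTorsorPoint a b r s t l m κ z} :=
    ⟨_, κ, inferInstance, inferInstance, hfin, rfl, y, hy⟩
  exact Nat.sInf_mem hne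

open Classical in
theorem irr_dp6 [Infinite F] (hab : b ^ 2 + 4 * a ≠ 0)
    (hc : (Polynomial.X ^ 3 - Polynomial.C t * Polynomial.X ^ 2 - Polynomial.C s * Polynomial.X
      - Polynomial.C r : Polynomial F).Separable)
    {l : Fin 3 → F} (hl : normE r s t l ≠ 0) {m : QuadraticAlgebra F a b} (hm : IsUnit m)
    {z : Fin 3 → QuadraticAlgebra L (algebraMap F L a) (algebraMap F L b)}
    (hz : IsTorsorPoint a b r s t l m L z)
    (hgen : IntermediateField.adjoin F (coords z) = ⊤)
    (h0 : ∃ s₀ t₀ : L, AlgebraicIndependent F ![s₀, t₀]) :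
    (irr F L = if IsRational F L then 1 else max 2 (torsorDeg a b r s t l m)) ∧
      (torsorDeg a b r s t l m = 1 ∨ torsorDeg a b r s t l m = 2 ∨
        torsorDeg a b r s t l m = 3 ∨ torsorDeg a b r s t l m = 6) := by
  obtain ⟨s₀, t₀, h0⟩ := h0
  obtain ⟨τ, τ', θ, sp⟩ := exists_split (Ω := AlgebraicClosure L) hab hc
  obtain ⟨m', hm'⟩ := hm.exists_right_inv
  obtain ⟨v, hv⟩ := Cub.exists_adj (show Cub F r s t from l)
  obtain ⟨l', hl'⟩ : ∃ l' : Cub F r s t, (show Cub F r s t from l) * l' = 1 := by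
    refine ⟨v * Cub.c (normE r s t l)⁻¹, ?_⟩
    rw [← mul_assoc, hv]
    show Cub.c (normE r s t l) * Cub.c (normE r s t l)⁻¹ = (1 : Cub F r s t)
    rw [← map_mul, mul_inv_cancel₀ hl, map_one]
  have hev : ∀ i, evE (algebraMap F (AlgebraicClosure L)) (θ i) l ≠ 0 := by
    intro i h
    have h1 := congrArg (Cub.ev (algebraMap F (AlgebraicClosure L)) (θ i) (sp.root i)) hl'
    rw [map_mul, map_one] at h1
    have h2 : Cub.ev (algebraMap F (AlgebraicClosure L)) (θ i) (sp.root i)
      (show Cub F r s t from l) = 0 := h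
    rw [h2, zero_mul] at h1
    exact zero_ne_one h1
  have hmτ : algebraMap F (AlgebraicClosure L) m.re + algebraMap F (AlgebraicClosure L) m.im * τ
      ≠ 0 := by
    intro h
    have h1 := congrArg (evK (algebraMap F (AlgebraicClosure L)) τ sp.sq) hm'
    rw [map_mul, map_one] at h1
    have h2 : evK (algebraMap F (AlgebraicClosure L)) τ sp.sq m = 0 := h
    rw [h2, zero_mul] at h1
    exact zero_ne_one h1
  have hw6 := dp6_wit6 sp hz hgen h0 hev hmτ
  obtain ⟨κ6, _, _, hκ6, hκ6', y6, hy6⟩ := torsor_spec hz hw6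
  obtain ⟨κ, _, _, hκ, hκn, y, hy⟩ := torsorDeg_spec hκ6 hy6
  have hpos : 0 < Module.finrank F κ := Module.finrank_pos
  have hle6 : torsorDeg a b r s t l m ≤ 6 := (torsorDeg_le hκ6 hy6).trans hκ6'
  have hlow : ∀ e, Wit F L e → torsorDeg a b r s t l m ≤ e := by
    intro e he
    obtain ⟨κ', _, _, hκ', hκe, y', hy'⟩ := torsor_spec hz he
    exact (torsorDeg_le hκ' hy').trans hκe
  have h2 : ¬ 3 ∣ torsorDeg a b r s t l m → Wit F L 2 := by
    intro h
    rw [← hκn] at h
    exact dp6_wit2' hab hl' hm' sp hz hgen h0 h hy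
  have h3 : ¬ 2 ∣ torsorDeg a b r s t l m → Wit F L 3 := by
    intro h
    rw [← hκn] at h
    exact dp6_wit3' hab hl' sp hz hgen h0 h hy
  have hval : torsorDeg a b r s t l m = 1 ∨ torsorDeg a b r s t l m = 2 ∨
        torsorDeg a b r s t l m = 3 ∨ torsorDeg a b r s t l m = 6 := by
    by_contra hcon
    have h4 : torsorDeg a b r s t l m = 4 ∨ torsorDeg a b r s t l m = 5 := by omega
    have h5 := hlow 2 (h2 (by omega))
    omega
  refine ⟨?_, hval⟩
  have hwit : Wit F L (max 2 (torsorDeg a b r s t l m)) := by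
    rcases hval with h | h | h | h
    · exact (h2 (by omega)).mono (by omega)
    · exact (h2 (by omega)).mono (by omega)
    · exact (h3 (by omega)).mono (by omega)
    · exact hw6.mono (by omega)
  split_ifs with hr
  · exact (irr_eq_one_iff hwit).2 hr
  · have h1 : irr F L ≠ 1 := fun h1 => hr ((irr_eq_one_iff hwit).1 h1)
    have h2 := irr_pos hwit
    have h3 := hwit.irr_le
    have h4 := hlow _ hwit.spec
    have h5 : max 2 (torsorDeg a b r s t l m) ≤ irr F L := max_le (by omega) h4
    omega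

end final6
end DPI
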