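import Mathlib
import Pool.Agent.H478.DQ
set_option autoImplicit false
namespace DPI
open MvPolynomial

universe u v

section nonsmooth
variable {F L : Type u} [Field F] [Field L] [Algebra F L]

theorem pencil2' {q1 q2 : MvPolynomial (Fin 5) F} {d1 d2 : Fin 5 → Fin 5 → F}
    (hq1 : q1.IsHomogeneous 2) (hq2 : q2.IsHomogeneous 2)
    (hd1 : q1 = ∑ i, ∑ j, C (d1 i j) * (X i * X j))
    (hd2 : q2 = ∑ i, ∑ j, C (d2 i j) * (X i * X j))
    (r s : F) (hirr : ∀ z : F, z * z - s * z - r ≠ 0)
    (hs : ∀ θ : AlgebraicClosure F, θ * θ - algebraMap F _ s * θ - algebraMap F _ r = 0 →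
      LinearIndependent (AlgebraicClosure F) fun (i : Fin 2) (j : Fin 5) =>
        aeval (Fin.cons 1 (Fin.cons θ 0) : Fin 5 → AlgebraicClosure F)
          (pderiv j ((![q1, q2] : Fin 2 → MvPolynomial (Fin 5) F) i)))
    (hA1 : d1 0 0 = -r * d1 1 1) (hB1 : d1 0 1 + d1 1 0 = -s * d1 1 1)
    (hA2 : d2 0 0 = -r * d2 1 1) (hB2 : d2 0 1 + d2 1 0 = -s * d2 1 1)
    {x : Fin 5 → L} (hx : IsFunctionField 1 {q1, q2} L x) (hC : d1 1 1 ≠ 0) : Wit F L 2 := by
  classical
  obtain ⟨C1, hC1⟩ : ∃ c, c = d1 1 1 := ⟨_, rfl⟩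
  obtain ⟨C2, hC2⟩ : ∃ c, c = d2 1 1 := ⟨_, rfl⟩
  rw [← hC1] at hA1 hB1 hC
  rw [← hC2] at hA2 hB2
  -- smoothness
  have hj : ∃ j : Fin 3, C1 * al d2 j - C2 * al d1 j ≠ 0 ∨ C1 * be d2 j - C2 * be d1 j ≠ 0 := by
    by_contra hcon
    push Not at hcon
    obtain ⟨θ, hθ⟩ := root_quadratic (Ω := AlgebraicClosure F) 1 (-algebraMap F _ s)
      (-algebraMap F _ r) one_ne_zero
    let a : Fin 5 → AlgebraicClosure F := Fin.cons 1 (Fin.cons θ 0)
    have hz : ∀ j : Fin 3, a j.succ.succ = (0 : Fin 3 → AlgebraicClosure F) j := fun j => rfl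
    have hli := Fintype.linearIndependent_iff.1 (hs θ (by linear_combination hθ))
      ![-algebraMap F _ C2, algebraMap F _ C1] ?_ 1
    · have : algebraMap F (AlgebraicClosure F) C1 = 0 := hli
      exact hC ((map_eq_zero _).1 this)
    · rw [Fin.sum_univ_two]
      funext k
      show -algebraMap F _ C2 * aeval a (pderiv k q1) + algebraMap F _ C1 * aeval a (pderiv k q2) = 0
      rw [aeval_pderiv_quad hd1, aeval_pderiv_quad hd2]
      have hsum : ∀ d : Fin 5 → Fin 5 → F, ∑ j, algebraMap F (AlgebraicClosure F) (d k j + d j k) * a j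
          = algebraMap F _ (d k 0 + d 0 k) + algebraMap F _ (d k 1 + d 1 k) * θ := by
        intro d
        rw [Fin.sum_univ_succ, Fin.sum_univ_succ]
        have : ∑ i : Fin 3, algebraMap F (AlgebraicClosure F) (d k i.succ.succ + d i.succ.succ k)
            * a i.succ.succ = 0 := Finset.sum_eq_zero fun i _ => by rw [hz]; simp
        rw [this, add_zero]
        show algebraMap F _ (d k 0 + d 0 k) * 1 + algebraMap F _ (d k 1 + d 1 k) * θ = _
        rw [mul_one]
      rw [hsum, hsum]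
      refine Fin.cases ?_ (fun k => Fin.cases ?_ (fun j => ?_) k) k
      · rw [hA1, hA2, hB1, hB2]
        simp only [map_add, map_mul, map_neg]; ring
      · have e : ∀ d : Fin 5 → Fin 5 → F, d (Fin.succ 0) 0 + d 0 (Fin.succ 0) = d 0 1 + d 1 0 :=
          fun d => add_comm _ _
        have e' : (Fin.succ 0 : Fin 5) = 1 := rfl
        rw [e, e, e', hB1, hB2, ← hC1, ← hC2]
        simp only [map_add, map_mul, map_neg]; ring
      · have e1 := (hcon j).1
        have e2 := (hcon j).2
        simp only [al, be] at e1 e2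
        have e1' := congrArg (algebraMap F (AlgebraicClosure F)) e1
        have e2' := congrArg (algebraMap F (AlgebraicClosure F)) e2
        simp only [map_add, map_sub, map_mul, map_zero] at e1' e2' ⊢
        linear_combination e1' + θ * e2'
  -- the polynomial `N(A, B)`
  let PA : MvPolynomial (Fin 3) F := C C1 * lf (al d2) X - C C2 * lf (al d1) X
  let PB : MvPolynomial (Fin 3) F := C C1 * lf (be d2) X - C C2 * lf (be d1) X
  let G : MvPolynomial (Fin 3) F := PA ^ 2 + C s * (PA * PB) - C r * PB ^ 2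
  have hPA : PA.IsHomogeneous 1 := by
    have h1 := (isHomogeneous_C (Fin 3) C1).mul (lf_homog (al d2))
    have h2 := (isHomogeneous_C (Fin 3) C2).mul (lf_homog (al d1))
    rw [zero_add] at h1 h2
    exact h1.sub h2
  have hPB : PB.IsHomogeneous 1 := by
    have h1 := (isHomogeneous_C (Fin 3) C1).mul (lf_homog (be d2))
    have h2 := (isHomogeneous_C (Fin 3) C2).mul (lf_homog (be d1))
    rw [zero_add] at h1 h2
    exact h1.sub h2
  have hG : G.IsHomogeneous 2 := by
    have h1 := hPA.pow 2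
    have h2 := (isHomogeneous_C (Fin 3) s).mul (hPA.mul hPB)
    have h3 := (isHomogeneous_C (Fin 3) r).mul (hPB.pow 2)
    simp only [zero_add, one_mul] at h1 h2 h3
    exact (h1.add h2).sub h3
  have hGev : ∀ {A : Type u} [CommRing A] [Algebra F A] (z : Fin 3 → A),
      aeval z G = (algebraMap F A C1 * lf (al d2) z - algebraMap F A C2 * lf (al d1) z) ^ 2
        + algebraMap F A s * ((algebraMap F A C1 * lf (al d2) z - algebraMap F A C2 * lf (al d1) z)
          * (algebraMap F A C1 * lf (be d2) z - algebraMap F A C2 * lf (be d1) z))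
        - algebraMap F A r
          * (algebraMap F A C1 * lf (be d2) z - algebraMap F A C2 * lf (be d1) z) ^ 2 := by
    intro A _ _ z
    simp only [G, PA, PB, map_sub, map_add, map_mul, map_pow, aeval_C, aeval_lf]
  have hG0 : G ≠ 0 := by
    intro h
    obtain ⟨j, hj⟩ := hj
    have h1 := hGev (A := F) (Pi.single j 1)
    rw [h, map_zero] at h1
    simp only [lf_single, Algebra.algebraMap_self, RingHom.id_apply] at h1
    by_cases hB : C1 * be d2 j - C2 * be d1 j = 0
    · rw [hB] at h1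
      have hA := hj.resolve_right (fun h => h hB)
      apply hA
      have : (C1 * al d2 j - C2 * al d1 j) ^ 2 = 0 := by linear_combination -h1
      exact pow_eq_zero_iff two_ne_zero |>.1 this
    · apply hirr (-(C1 * al d2 j - C2 * al d1 j) / (C1 * be d2 j - C2 * be d1 j))
      field_simp
      linear_combination -h1
  -- common computation
  have comp : ∀ {A : Type u} [Field A] [Algebra F A] (z : Fin 3 → A), aeval z G ≠ 0 →
      ∃ u0 v0 B' A' c2 c1 c0 : A, (A' ≠ 0 ∨ B' ≠ 0) ∧ c2 ≠ 0 ∧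
        A' = algebraMap F A C1 * lf (al d2) z - algebraMap F A C2 * lf (al d1) z ∧
        B' = algebraMap F A C1 * lf (be d2) z - algebraMap F A C2 * lf (be d1) z ∧
        A' * u0 + B' * v0
          + (algebraMap F A C1 * qf (ga d2) z - algebraMap F A C2 * qf (ga d1) z) = 0 ∧
        c2 = algebraMap F A C1 * (A' ^ 2 + algebraMap F A s * (A' * B') - algebraMap F A r * B' ^ 2)
        ∧ c1 = algebraMap F A C1 * (-2 * v0 * A' - algebraMap F A s * B' * v0
            + algebraMap F A s * A' * u0 - 2 * algebraMap F A r * u0 * B')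
            + lf (al d1) z * B' - lf (be d1) z * A'
        ∧ c0 = algebraMap F A C1 * (v0 ^ 2 - algebraMap F A s * u0 * v0 - algebraMap F A r * u0 ^ 2)
            + lf (al d1) z * u0 + lf (be d1) z * v0 + qf (ga d1) z := by
    intro A _ _ z hz
    rw [hGev] at hz
    have hAB : algebraMap F A C1 * lf (al d2) z - algebraMap F A C2 * lf (al d1) z ≠ 0 ∨
        algebraMap F A C1 * lf (be d2) z - algebraMap F A C2 * lf (be d1) z ≠ 0 := by
      by_contra hcon
      push Not at hcon
      apply hz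
      rw [hcon.1, hcon.2]
      ring
    obtain ⟨u0, v0, h0⟩ := lin_sol _ _
      (algebraMap F A C1 * qf (ga d2) z - algebraMap F A C2 * qf (ga d1) z) hAB
    exact ⟨u0, v0, _, _, _, _, _, hAB, mul_ne_zero ((map_ne_zero _).2 hC) hz, rfl, rfl, h0, rfl,
      rfl, rfl⟩
  have hsp1 : ∀ {A : Type u} [Field A] [Algebra F A] (y : Fin 5 → A) (z : Fin 3 → A)
      (_ : ∀ j, y j.succ.succ = z j), aeval y q1 = algebraMap F A C1 * (y 1 * y 1
        - algebraMap F A s * (y 0 * y 1) - algebraMap F A r * (y 0 * y 0)) + lf (al d1) z * y 0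
        + lf (be d1) z * y 1 + qf (ga d1) z := by
    intro A _ _ y z hz
    rw [aeval_split hd1 y z hz, hA1, hB1, ← hC1]
    simp only [map_mul, map_neg]
    ring
  have hsp2 : ∀ {A : Type u} [Field A] [Algebra F A] (y : Fin 5 → A) (z : Fin 3 → A)
      (_ : ∀ j, y j.succ.succ = z j), aeval y q2 = algebraMap F A C2 * (y 1 * y 1
        - algebraMap F A s * (y 0 * y 1) - algebraMap F A r * (y 0 * y 0)) + lf (al d2) z * y 0
        + lf (be d2) z * y 1 + qf (ga d2) z := by
    intro A _ _ y z hz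
    rw [aeval_split hd2 y z hz, hA2, hB2, ← hC2]
    simp only [map_mul, map_neg]
    ring
  -- generic solution
  have hgen0 : aeval (gen F) G ≠ 0 := by
    rw [gen_aeval]
    intro h
    exact hG0 (algebraMap_Om_injective (by rw [h, map_zero]))
  obtain ⟨u0, v0, B', A', c2, c1, c0, hAB, hc2, hA', hB', h0, hc2', hc1', hc0'⟩ :=
    comp (gen F) hgen0
  obtain ⟨z, hz⟩ := root_quadratic c2 c1 c0 hc2
  let a : Fin 5 → Om F := Fin.cons (u0 + z * B') (Fin.cons (v0 - z * A') (gen F))
  have haz : ∀ j : Fin 3, a j.succ.succ = gen F j := fun j => rfl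
  have ha1 : aeval a q1 = 0 := by
    rw [hsp1 a _ haz]
    show algebraMap F _ C1 * ((v0 - z * A') * (v0 - z * A')
      - algebraMap F _ s * ((u0 + z * B') * (v0 - z * A'))
      - algebraMap F _ r * ((u0 + z * B') * (u0 + z * B'))) + lf (al d1) (gen F) * (u0 + z * B')
      + lf (be d1) (gen F) * (v0 - z * A') + qf (ga d1) (gen F) = 0
    rw [← hz, hc2', hc1', hc0']
    ring
  refine wrap hx (a := a) ?_ ?_ haz ?_
  · rintro G (rfl | rfl)
    · exact hq1
    · exact hq2
  · rintro G (rfl | rfl)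
    · exact ha1
    · have hCC : algebraMap F (Om F) C1 ≠ 0 := (map_ne_zero _).2 hC
      refine (mul_eq_zero.1 (?_ : algebraMap F (Om F) C1 * _ = 0)).resolve_left hCC
      rw [hsp2 a _ haz]
      rw [hsp1 a _ haz] at ha1
      have hlin : A' * (u0 + z * B') + B' * (v0 - z * A')
          + (algebraMap F (Om F) C1 * qf (ga d2) (gen F)
            - algebraMap F (Om F) C2 * qf (ga d1) (gen F)) = 0 := by
        linear_combination h0
      rw [hA', hB'] at hlin
      have ea : a 0 = u0 + z * B' := rfl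
      have eb : a 1 = v0 - z * A' := rfl
      rw [← hA', ← hB'] at hlin
      rw [← ea, ← eb, hA', hB'] at hlin
      linear_combination hlin + algebraMap F (Om F) C2 * ha1
  · intro K z y hy hz2 hS hnz
    have e1 := hS q1 (by simp)
    have e2 := hS q2 (by simp)
    rw [hsp1 y _ hy, ← map_lf, ← map_lf, ← map_qf] at e1
    rw [hsp2 y _ hy, ← map_lf, ← map_lf, ← map_qf] at e2
    obtain ⟨u0, v0, B', A', c2, c1, c0, hAB, hc2, hA', hB', h0, hc2', hc1', hc0'⟩ :=
      comp z (hnz G 2 hG hG0)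
    have hAB' : algebraMap K L A' ≠ 0 ∨ algebraMap K L B' ≠ 0 := by
      rcases hAB with h | h
      · exact Or.inl ((map_ne_zero _).2 h)
      · exact Or.inr ((map_ne_zero _).2 h)
    have h0L := congrArg (algebraMap K L) h0
    simp only [map_add, map_mul, map_sub, map_zero, ← IsScalarTower.algebraMap_apply] at h0L
    have hA'L := congrArg (algebraMap K L) hA'
    have hB'L := congrArg (algebraMap K L) hB'
    simp only [map_mul, map_sub, ← IsScalarTower.algebraMap_apply] at hA'L hB'L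
    have hlin : algebraMap K L A' * y 0 + algebraMap K L B' * y 1
        + (algebraMap F L C1 * algebraMap K L (qf (ga d2) z)
          - algebraMap F L C2 * algebraMap K L (qf (ga d1) z)) = 0 := by
      rw [hA'L, hB'L]
      linear_combination algebraMap F L C1 * e2 - algebraMap F L C2 * e1
    obtain ⟨t, ht0, ht1⟩ := lin_param _ _ _ _ _ _ _ hAB' h0L hlin
    have hc2L := congrArg (algebraMap K L) hc2'
    have hc1L := congrArg (algebraMap K L) hc1'
    have hc0L := congrArg (algebraMap K L) hc0'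
    simp only [map_mul, map_sub, map_add, map_pow, map_neg, map_ofNat,
      ← IsScalarTower.algebraMap_apply] at hc2L hc1L hc0L
    refine stable2 (K := K) (L := L) c2 c1 c0 t ?_ (Or.inl hc2) (y 0) (y 1)
      ⟨0, B', u0, ?_⟩ ⟨0, -A', v0, ?_⟩
    · simp only [Algebra.smul_def]
      rw [hc2L, hc1L, hc0L]
      rw [ht0, ht1] at e1
      linear_combination e1
    · simp only [Algebra.smul_def, map_zero]
      rw [ht0]; ring
    · simp only [Algebra.smul_def, map_zero, map_neg]
      rw [ht1]; ring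


theorem pencil1' {q1 q2 : MvPolynomial (Fin 5) F} {d1 d2 : Fin 5 → Fin 5 → F}
    (hq1 : q1.IsHomogeneous 2) (hq2 : q2.IsHomogeneous 2)
    (hd1 : q1 = ∑ i, ∑ j, C (d1 i j) * (X i * X j))
    (hd2 : q2 = ∑ i, ∑ j, C (d2 i j) * (X i * X j))
    (hs : ∀ a : Fin 5 → F, a ≠ 0 → aeval a q1 = 0 → aeval a q2 = 0 →
      (∀ j, aeval a (pderiv j q1) = 0) → (∀ j, aeval a (pderiv j q2) = 0) → False)
    (hA1 : d1 0 0 = 0) (hB1 : d1 0 1 + d1 1 0 = 0)
    (hA2 : d2 0 0 = 0) (hB2 : d2 0 1 + d2 1 0 = 0)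
    (hal1 : al d1 = ![1, 0, 0]) (hal2 : al d2 = ![0, 1, 0])
    {x : Fin 5 → L} (hx : IsFunctionField 1 {q1, q2} L x) : Wit F L 2 := by
  classical
  obtain ⟨C1, hC1⟩ : ∃ c, c = d1 1 1 := ⟨_, rfl⟩
  obtain ⟨C2, hC2⟩ : ∃ c, c = d2 1 1 := ⟨_, rfl⟩
  have hsp1 : ∀ {A : Type u} [Field A] [Algebra F A] (y : Fin 5 → A) (z : Fin 3 → A)
      (_ : ∀ j, y j.succ.succ = z j), aeval y q1 = algebraMap F A C1 * (y 1 * y 1)
        + z 0 * y 0 + lf (be d1) z * y 1 + qf (ga d1) z := by
    intro A _ _ y z hz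
    rw [aeval_split hd1 y z hz, hA1, hB1, ← hC1, hal1]
    have : lf (![1, 0, 0] : Fin 3 → F) z = z 0 := by simp [lf, Fin.sum_univ_succ]
    rw [this]
    simp only [map_zero]
    ring
  have hsp2 : ∀ {A : Type u} [Field A] [Algebra F A] (y : Fin 5 → A) (z : Fin 3 → A)
      (_ : ∀ j, y j.succ.succ = z j), aeval y q2 = algebraMap F A C2 * (y 1 * y 1)
        + z 1 * y 0 + lf (be d2) z * y 1 + qf (ga d2) z := by
    intro A _ _ y z hz
    rw [aeval_split hd2 y z hz, hA2, hB2, ← hC2, hal2]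
    have : lf (![0, 1, 0] : Fin 3 → F) z = z 1 := by simp [lf, Fin.sum_univ_succ]
    rw [this]
    simp only [map_zero]
    ring
  let G2 : MvPolynomial (Fin 3) F := C C1 * X 1 - C C2 * X 0
  let G1 : MvPolynomial (Fin 3) F := lf (be d1) X * X 1 - lf (be d2) X * X 0
  have hG2 : G2.IsHomogeneous 1 := by
    have h1 := (isHomogeneous_C (Fin 3) C1).mul (isHomogeneous_X F (1 : Fin 3))
    have h2 := (isHomogeneous_C (Fin 3) C2).mul (isHomogeneous_X F (0 : Fin 3))
    rw [zero_add] at h1 h2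
    exact h1.sub h2
  have hG1 : G1.IsHomogeneous 2 :=
    ((lf_homog (be d1)).mul (isHomogeneous_X F (1 : Fin 3))).sub
      ((lf_homog (be d2)).mul (isHomogeneous_X F (0 : Fin 3)))
  have hG2ev : ∀ {A : Type u} [CommRing A] [Algebra F A] (z : Fin 3 → A),
      aeval z G2 = algebraMap F A C1 * z 1 - algebraMap F A C2 * z 0 := by
    intro A _ _ z
    simp only [G2, map_sub, map_mul, aeval_C, aeval_X]
  have hG1ev : ∀ {A : Type u} [CommRing A] [Algebra F A] (z : Fin 3 → A),
      aeval z G1 = lf (be d1) z * z 1 - lf (be d2) z * z 0 := by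
    intro A _ _ z
    simp only [G1, map_sub, map_mul, aeval_X, aeval_lf]
  have hne : G2 ≠ 0 ∨ G1 ≠ 0 := by
    by_contra hcon
    push Not at hcon
    obtain ⟨h2, h1⟩ := hcon
    have k1 : C1 = 0 := by
      have := hG2ev (A := F) ![0, 1, 0]
      rw [h2] at this
      simpa using this.symm
    have k2 : C2 = 0 := by
      have := hG2ev (A := F) ![1, 0, 0]
      rw [h2] at this
      simpa using this.symm
    have m1 := hG1ev (A := F) ![0, 1, 0]
    have m2 := hG1ev (A := F) ![1, 0, 0]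
    have m3 := hG1ev (A := F) ![1, 1, 0]
    have m4 := hG1ev (A := F) ![0, 1, 1]
    have m5 := hG1ev (A := F) ![1, 0, 1]
    rw [h1] at m1 m2 m3 m4 m5
    simp [lf, Fin.sum_univ_succ] at m1 m2 m3 m4 m5
    have n1 : be d1 1 = 0 := by linear_combination -m1
    have n2 : be d1 2 = 0 := by linear_combination -m4 - n1
    have n3 : be d2 0 = 0 := by linear_combination m2
    have n4 : be d2 1 = be d1 0 := by linear_combination m3 + n1 - n3
    have n5 : be d2 2 = 0 := by linear_combination m5 - n3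
    let a : Fin 5 → F := Fin.cons (-(be d1 0)) (Fin.cons 1 0)
    have ha0 : a ≠ 0 := fun h => one_ne_zero (congrFun h 1)
    have haz : ∀ j : Fin 3, a j.succ.succ = (0 : Fin 3 → F) j := fun j => rfl
    have hl : ∀ α : Fin 3 → F, lf α (0 : Fin 3 → F) = 0 := by intro α; simp [lf]
    have hq : ∀ γ : Fin 3 → Fin 3 → F, qf γ (0 : Fin 3 → F) = 0 := by
      intro α; simp [qf]
    have hgrad : ∀ {q : MvPolynomial (Fin 5) F} {d : Fin 5 → Fin 5 → F}
        (_ : q = ∑ i, ∑ j, C (d i j) * (X i * X j)) (_ : d 0 0 = 0) (_ : d 0 1 + d 1 0 = 0)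
        (_ : d 1 1 = 0) (_ : ∀ j, be d j = be d1 0 * al d j) (k : Fin 5),
        aeval a (pderiv k q) = 0 := by
      intro q d hd h00 h01 h11 hbe k
      rw [aeval_pderiv_quad hd, Fin.sum_univ_succ, Fin.sum_univ_succ]
      have : ∑ i : Fin 3, algebraMap F F (d k i.succ.succ + d i.succ.succ k)
          * a i.succ.succ = 0 := Finset.sum_eq_zero fun i _ => by rw [haz]; simp
      rw [this, add_zero]
      show (d k 0 + d 0 k) * (-(be d1 0)) + (d k 1 + d 1 k) * 1 = 0
      refine Fin.cases ?_ (fun k => Fin.cases ?_ (fun j => ?_) k) k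
      · rw [h00, h01]; simp
      · have e' : (Fin.succ 0 : Fin 5) = 1 := rfl
        rw [e', h11]
        linear_combination -(be d1 0) * h01
      · have h1 : d 1 j.succ.succ + d j.succ.succ 1
            = be d1 0 * (d 0 j.succ.succ + d j.succ.succ 0) := hbe j
        linear_combination h1
    refine hs a ha0 ?_ ?_ ?_ ?_
    · rw [aeval_split hd1 a _ haz, hl, hl, hq, hA1, hB1, ← hC1, k1]
      simp
    · rw [aeval_split hd2 a _ haz, hl, hl, hq, hA2, hB2, ← hC2, k2]
      simp
    · refine hgrad hd1 hA1 hB1 (by rw [← hC1, k1]) (fun j => ?_)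
      rw [hal1]
      fin_cases j
      · show be d1 0 = be d1 0 * 1
        ring
      · show be d1 1 = be d1 0 * 0
        rw [n1]; ring
      · show be d1 2 = be d1 0 * 0
        rw [n2]; ring
    · refine hgrad hd2 hA2 hB2 (by rw [← hC2, k2]) (fun j => ?_)
      rw [hal2]
      fin_cases j
      · show be d2 0 = be d1 0 * 0
        rw [n3]; ring
      · show be d2 1 = be d1 0 * 1
        rw [n4]; ring
      · show be d2 2 = be d1 0 * 0
        rw [n5]; ring
  have hsol : ∀ (c2 c1 c0 : Om F), c2 ≠ 0 ∨ c1 ≠ 0 → ∃ v : Om F, c2 * v ^ 2 + c1 * v + c0 = 0 := by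
    intro c2 c1 c0 h
    by_cases h2 : c2 = 0
    · have h1 : c1 ≠ 0 := h.resolve_left (fun h => h h2)
      refine ⟨-c0 / c1, ?_⟩
      rw [h2]
      field_simp
      ring
    · exact root_quadratic c2 c1 c0 h2
  have hgne : ∀ G : MvPolynomial (Fin 3) F, G ≠ 0 → aeval (gen F) G ≠ 0 := by
    intro G hG h
    rw [gen_aeval] at h
    exact hG (algebraMap_Om_injective (by rw [h, map_zero]))
  obtain ⟨v, hv⟩ := hsol (algebraMap F _ C1 * gen F 1 - algebraMap F _ C2 * gen F 0)
    (lf (be d1) (gen F) * gen F 1 - lf (be d2) (gen F) * gen F 0)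
    (qf (ga d1) (gen F) * gen F 1 - qf (ga d2) (gen F) * gen F 0) (by
      rw [← hG2ev, ← hG1ev]
      rcases hne with h | h
      · exact Or.inl (hgne _ h)
      · exact Or.inr (hgne _ h))
  have hz0 : gen F 0 ≠ 0 := by
    have := hgne (X 0) (X_ne_zero 0)
    rwa [aeval_X] at this
  obtain ⟨u, hu⟩ : ∃ u, gen F 0 * u = -(algebraMap F _ C1 * (v * v) + lf (be d1) (gen F) * v
      + qf (ga d1) (gen F)) := ⟨-(algebraMap F _ C1 * (v * v) + lf (be d1) (gen F) * v
      + qf (ga d1) (gen F)) / gen F 0, mul_div_cancel₀ _ hz0⟩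
  let a : Fin 5 → Om F := Fin.cons u (Fin.cons v (gen F))
  have haz : ∀ j : Fin 3, a j.succ.succ = gen F j := fun j => rfl
  have ha1 : aeval a q1 = 0 := by
    rw [hsp1 a _ haz]
    show algebraMap F _ C1 * (v * v) + gen F 0 * u + lf (be d1) (gen F) * v
      + qf (ga d1) (gen F) = 0
    rw [hu]; ring
  refine wrap hx (a := a) ?_ ?_ haz ?_
  · rintro G (rfl | rfl)
    · exact hq1
    · exact hq2
  · rintro G (rfl | rfl)
    · exact ha1
    · refine (mul_eq_zero.1 (?_ : gen F 0 * _ = 0)).resolve_left hz0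
      rw [hsp2 a _ haz]
      show gen F 0 * (algebraMap F _ C2 * (v * v) + gen F 1 * u + lf (be d2) (gen F) * v
        + qf (ga d2) (gen F)) = 0
      linear_combination gen F 1 * hu - hv
  · intro K z y hy hz2 hS hnz
    have e1 := hS q1 (by simp)
    have e2 := hS q2 (by simp)
    rw [hsp1 y _ hy, ← map_lf, ← map_qf] at e1
    rw [hsp2 y _ hy, ← map_lf, ← map_qf] at e2
    have hz0' : z 0 ≠ 0 := by
      have := hnz (X 0) 1 (isHomogeneous_X F 0) (X_ne_zero 0)
      rwa [aeval_X] at this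
    have hz0L : algebraMap K L (z 0) ≠ 0 := (map_ne_zero _).2 hz0'
    refine stable2 (K := K) (L := L) (algebraMap F K C1 * z 1 - algebraMap F K C2 * z 0)
      (lf (be d1) z * z 1 - lf (be d2) z * z 0) (qf (ga d1) z * z 1 - qf (ga d2) z * z 0) (y 1)
      ?_ ?_ (y 0) (y 1) ⟨-(algebraMap F K C1) / z 0, -(lf (be d1) z) / z 0,
        -(qf (ga d1) z) / z 0, ?_⟩ ⟨0, 1, 0, ?_⟩
    · simp only [Algebra.smul_def, map_sub, map_mul, ← IsScalarTower.algebraMap_apply]
      linear_combination algebraMap K L (z 1) * e1 - algebraMap K L (z 0) * e2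
    · rw [← hG2ev, ← hG1ev]
      rcases hne with h | h
      · exact Or.inl (hnz _ 1 hG2 h)
      · exact Or.inr (hnz _ 2 hG1 h)
    · simp only [Algebra.smul_def, map_div₀, map_neg, ← IsScalarTower.algebraMap_apply]
      field_simp
      linear_combination e1
    · simp


end nonsmooth
end DPI
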