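import Mathlib
import Pool.Agent.H478.DZC
set_option autoImplicit false
namespace DPI
open MvPolynomial

universe u v

/-- the gradients are linearly independent at the common zeros satisfying `P` -/
def SmoothOn {σ : Type} {F : Type u} [Field F] {r : ℕ} (P : (σ → AlgebraicClosure F) → Prop)
    (f : Fin r → MvPolynomial σ F) : Prop :=
  ∀ a : σ → AlgebraicClosure F, P a → (∀ i, aeval a (f i) = 0) →
    LinearIndependent (AlgebraicClosure F) fun (i : Fin r) (j : σ) => aeval a (pderiv j (f i))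

section smoothOn
variable {F L : Type u} [Field F] [Field L] [Algebra F L]

theorem smoothOn_change {σ : Type} [Fintype σ] [DecidableEq σ] {M B : Matrix σ σ F}
    (hMB : M * B = 1) {r : ℕ} {P P' : (σ → AlgebraicClosure F) → Prop}
    (hP : ∀ a, P' a → P (fun i => ∑ j, algebraMap F (AlgebraicClosure F) (M i j) * a j))
    {f : Fin r → MvPolynomial σ F} (hf : SmoothOn P f) : SmoothOn P' fun i => lin M (f i) := by
  intro a ha h0
  let a' : σ → AlgebraicClosure F := fun i => ∑ j, algebraMap F (AlgebraicClosure F) (M i j) * a j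
  have h0' : ∀ i, aeval a' (f i) = 0 := fun i => by
    have := h0 i
    rwa [aeval_lin] at this
  have hli := hf a' (hP a ha) h0'
  let T : (σ → AlgebraicClosure F) →ₗ[AlgebraicClosure F] (σ → AlgebraicClosure F) :=
    { toFun := fun v j => ∑ i, algebraMap F (AlgebraicClosure F) (M i j) * v i
      map_add' := fun v w => by
        funext j; simp [mul_add, Finset.sum_add_distrib]
      map_smul' := fun c v => by
        funext j; simp only [Pi.smul_apply, smul_eq_mul, RingHom.id_apply, Finset.mul_sum]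
        refine Finset.sum_congr rfl fun i _ => ?_
        ring }
  have hT : LinearMap.ker T = ⊥ := by
    rw [LinearMap.ker_eq_bot']
    intro v hv
    funext i
    have h1 : ∀ j, ∑ k, algebraMap F (AlgebraicClosure F) (M k j) * v k = 0 := fun j => congrFun hv j
    have hT' : B.transpose * M.transpose = 1 := by
      rw [← Matrix.transpose_mul, hMB, Matrix.transpose_one]
    have h3 := mul_vec_inv (A := AlgebraicClosure F) hT' v i
    simp only [Matrix.transpose_apply, h1, mul_zero, Finset.sum_const_zero] at h3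
    exact h3.symm
  have := hli.map' T hT
  have hfun : (fun (i : Fin r) (j : σ) => aeval a (pderiv j (lin M (f i))))
      = T ∘ fun (i : Fin r) (j : σ) => aeval a' (pderiv j (f i)) := ?_
  · show LinearIndependent (AlgebraicClosure F)
      fun (i : Fin r) (j : σ) => aeval a (pderiv j (lin M (f i)))
    rw [hfun]
    exact this
  funext i j
  show aeval a (pderiv j (lin M (f i))) = ∑ k, algebraMap F (AlgebraicClosure F) (M k j) * aeval a' (pderiv k (f i))
  rw [pderiv_lin, map_sum]
  refine Finset.sum_congr rfl fun k _ => ?_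
  rw [map_mul, aeval_C, aeval_lin]

theorem point_of_smul {κ : Type*} [Field κ] [Algebra F κ] {σ : Type} [Fintype σ]
    {S : Set (MvPolynomial σ F)} {n : ℕ} (hS : ∀ G ∈ S, G.IsHomogeneous n) (a : σ → κ)
    (ℓ : σ → F) (hℓ : ∑ i, algebraMap F κ (ℓ i) * a i ≠ 0)
    (h0 : ∀ G ∈ S, aeval a G = 0) (c : κ) (u : σ → F)
    (hau : a = fun i => c * algebraMap F κ (u i)) :
    ∑ i, ℓ i * u i ≠ 0 ∧ ∀ G ∈ S, aeval u G = 0 := by
  have h1 : ∑ i, algebraMap F κ (ℓ i) * a i = c * algebraMap F κ (∑ i, ℓ i * u i) := by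
    rw [hau, map_sum, Finset.mul_sum]
    refine Finset.sum_congr rfl fun i _ => ?_
    rw [map_mul]; ring
  rw [h1] at hℓ
  have hc : c ≠ 0 := left_ne_zero_of_mul hℓ
  refine ⟨fun h => hℓ (by rw [h, map_zero, mul_zero]), fun G hG => ?_⟩
  have h1 := h0 G hG
  rw [hau, aeval_homog (hS G hG), aeval_alg] at h1
  have h2 := (mul_eq_zero.1 h1).resolve_left (pow_ne_zero _ hc)
  exact (map_eq_zero _).1 h2

theorem li_swap {A : Type*} [Field A] [Algebra F A] {a : Fin 5 → A} {q1 q2 : MvPolynomial (Fin 5) F}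
    (h : LinearIndependent A fun (i : Fin 2) (j : Fin 5) =>
      aeval a (pderiv j ((![q1, q2] : Fin 2 → MvPolynomial (Fin 5) F) i))) :
    LinearIndependent A fun (i : Fin 2) (j : Fin 5) =>
      aeval a (pderiv j ((![q2, q1] : Fin 2 → MvPolynomial (Fin 5) F) i)) := by
  have h2 := h.comp ![1, 0] (by decide)
  have e : (fun (i : Fin 2) (j : Fin 5) => aeval a (pderiv j
        ((![q2, q1] : Fin 2 → MvPolynomial (Fin 5) F) i)))
      = (fun (i : Fin 2) (j : Fin 5) => aeval a (pderiv j
        ((![q1, q2] : Fin 2 → MvPolynomial (Fin 5) F) i)))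
        ∘ ![1, 0] := by
    funext i
    fin_cases i <;> rfl
  rw [e]
  exact h2

theorem dp4_wit2_quad' {q1 q2 : MvPolynomial (Fin 5) F}
    (hq1 : q1.IsHomogeneous 2) (hq2 : q2.IsHomogeneous 2) (ℓ : Fin 5 → F)
    (hs : SmoothOn (fun a => ∑ i, algebraMap F (AlgebraicClosure F) (ℓ i) * a i ≠ 0) ![q1, q2])
    {x : Fin 5 → L} (hx : IsFunctionField 1 {q1, q2} L x)
    (hno : ∀ a : Fin 5 → F, ∑ i, ℓ i * a i ≠ 0 → ¬ ∀ G ∈ ({q1, q2} : Set (MvPolynomial (Fin 5) F)),
      aeval a G = 0)
    {κ : Type u} [Field κ] [Algebra F κ] (h2 : Module.finrank F κ = 2)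
    (a : Fin 5 → κ) (hℓa : ∑ i, algebraMap F κ (ℓ i) * a i ≠ 0)
    (h0 : ∀ G ∈ ({q1, q2} : Set (MvPolynomial (Fin 5) F)), aeval a G = 0) : Wit F L 2 := by
  have hS : ∀ G ∈ ({q1, q2} : Set (MvPolynomial (Fin 5) F)), G.IsHomogeneous 2 := by
    rintro G (rfl | rfl)
    · exact hq1
    · exact hq2
  obtain ⟨θ, hθ, hb⟩ := quad_basis h2
  choose u v huv using fun i => hb (a i)
  have hli : LinearIndependent F ![u, v] := by
    rw [LinearIndependent.pair_iff]
    intro c1 c2 hc
    by_contra hcon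
    have hc' : ∀ i, c1 * u i + c2 * v i = 0 := fun i => congrFun hc i
    by_cases h2 : c2 = 0
    · have h1 : c1 ≠ 0 := fun h1 => hcon ⟨h1, h2⟩
      obtain ⟨k1, k2⟩ := point_of_smul hS a ℓ hℓa h0 θ v (by
        funext i
        have : u i = 0 := by
          have := hc' i
          rw [h2, zero_mul, add_zero] at this
          exact (mul_eq_zero.1 this).resolve_left h1
        rw [huv i, this, map_zero, zero_add])
      exact hno v k1 k2
    · obtain ⟨k1, k2⟩ := point_of_smul hS a ℓ hℓa h0 (1 - θ * algebraMap F κ (c1 / c2)) u (by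
        funext i
        have : v i = -(c1 / c2) * u i := by
          field_simp
          linear_combination hc' i
        rw [huv i, this, map_mul, map_neg]
        ring)
      exact hno u k1 k2
  obtain ⟨M, B, hMB, hBM, hM⟩ := exists_matrix (m := 2) (r := 3) ![u, v] hli
  have hM0 : ∀ i : Fin 5, M i 0 = u i := fun i => hM i 0
  have hM1 : ∀ i : Fin 5, M i 1 = v i := fun i => hM i 1
  have hx' := change hMB hBM hx
  rw [Set.image_pair] at hx'
  -- the linear form in the new coordinates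
  let ℓ' : Fin 5 → F := fun j => ∑ i, ℓ i * M i j
  have hℓ' : ∀ {A : Type u} [Field A] [Algebra F A] (y : Fin 5 → A),
      ∑ i, algebraMap F A (ℓ i) * ∑ j, algebraMap F A (M i j) * y j
        = ∑ j, algebraMap F A (ℓ' j) * y j := by
    intro A _ _ y
    simp only [Finset.mul_sum, ℓ', map_sum, Finset.sum_mul, map_mul]
    rw [Finset.sum_comm]
    refine Finset.sum_congr rfl fun i _ => Finset.sum_congr rfl fun j _ => ?_
    ring
  have hs' : SmoothOn (fun a => ∑ i, algebraMap F (AlgebraicClosure F) (ℓ' i) * a i ≠ 0)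
      ![lin M q1, lin M q2] := by
    have := smoothOn_change (M := M) hMB (P' := fun a => ∑ i, algebraMap F (AlgebraicClosure F)
      (ℓ' i) * a i ≠ 0) (by
        intro a ha
        show ∑ i, _ ≠ _
        rw [hℓ']
        exact ha) hs
    have e : (fun i => lin M ((![q1, q2] : Fin 2 → MvPolynomial (Fin 5) F) i))
        = ![lin M q1, lin M q2] := by
      funext i
      fin_cases i <;> rfl
    rwa [e] at this
  have hno' : ∀ a : Fin 5 → F, ∑ i, ℓ' i * a i ≠ 0 →
      ¬ (aeval a (lin M q1) = 0 ∧ aeval a (lin M q2) = 0) := by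
    rintro a ha ⟨k1, k2⟩
    refine hno (fun i => ∑ j, M i j * a j) ?_ ?_
    · have := hℓ' (A := F) a
      simp only [Algebra.algebraMap_self, RingHom.id_apply] at this
      rw [this]
      exact ha
    · rintro G (rfl | rfl)
      · rwa [aeval_lin] at k1
      · rwa [aeval_lin] at k2
  have hf1 : (lin M q1).IsHomogeneous 2 := lin_homog hq1
  have hf2 : (lin M q2).IsHomogeneous 2 := lin_homog hq2
  obtain ⟨r, s, hrs⟩ := hb (θ * θ)
  have hMa : (fun i => ∑ j, algebraMap F κ (M i j) * (Fin.cons 1 (Fin.cons θ 0) : Fin 5 → κ) j)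
      = a := by
    funext i
    rw [Fin.sum_univ_succ, Fin.sum_univ_succ]
    have h3 : ∑ k : Fin 3, algebraMap F κ (M i k.succ.succ)
        * (Fin.cons 1 (Fin.cons θ 0) : Fin 5 → κ) k.succ.succ = 0 :=
      Finset.sum_eq_zero fun k _ => by
        show _ * (0 : κ) = 0
        rw [mul_zero]
    rw [h3, add_zero]
    show algebraMap F κ (M i 0) * 1 + algebraMap F κ (M i 1) * θ = a i
    rw [hM0, hM1, huv i]
    ring
  have hev : ∀ G ∈ ({q1, q2} : Set (MvPolynomial (Fin 5) F)),
      aeval (Fin.cons 1 (Fin.cons θ 0) : Fin 5 → κ) (lin M G) = 0 := by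
    intro G hG
    rw [aeval_lin, hMa]
    exact h0 G hG
  have hsum2 : ∀ {A : Type u} [Field A] [Algebra F A] (c d : A),
      ∑ j, algebraMap F A (ℓ' j) * (Fin.cons c (Fin.cons d 0) : Fin 5 → A) j
        = algebraMap F A (ℓ' 0) * c + algebraMap F A (ℓ' 1) * d := by
    intro A _ _ c d
    rw [Fin.sum_univ_succ, Fin.sum_univ_succ]
    have h3 : ∑ k : Fin 3, algebraMap F A (ℓ' k.succ.succ)
        * (Fin.cons c (Fin.cons d 0) : Fin 5 → A) k.succ.succ = 0 :=
      Finset.sum_eq_zero fun k _ => by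
        show _ * (0 : A) = 0
        rw [mul_zero]
    rw [h3, add_zero]
    rfl
  have hℓ01 : ℓ' 0 ≠ 0 ∨ ℓ' 1 ≠ 0 := by
    by_contra hcon
    push Not at hcon
    apply hℓa
    have h1 := hℓ' (Fin.cons 1 (Fin.cons θ 0) : Fin 5 → κ)
    rw [hsum2, hcon.1, hcon.2] at h1
    have h2 : ∀ i, ∑ j, algebraMap F κ (M i j) * (Fin.cons 1 (Fin.cons θ 0) : Fin 5 → κ) j
      = a i := fun i => congrFun hMa i
    simp only [h2] at h1
    rw [h1]
    simp
  have hirr : ∀ z : F, z * z - s * z - r ≠ 0 := by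
    intro z hz
    have h1 : (θ - algebraMap F κ z) * (θ - algebraMap F κ (s - z)) = 0 := by
      have hz' := congrArg (algebraMap F κ) hz
      simp only [map_sub, map_mul, map_zero] at hz' ⊢
      linear_combination hrs - hz'
    rcases mul_eq_zero.1 h1 with h | h
    · exact hθ ⟨z, (sub_eq_zero.1 h).symm⟩
    · exact hθ ⟨s - z, (sub_eq_zero.1 h).symm⟩
  have hsing : ∀ θ' : AlgebraicClosure F, θ' * θ' - algebraMap F _ s * θ' - algebraMap F _ r = 0 →
      ∑ j, algebraMap F _ (ℓ' j) * (Fin.cons 1 (Fin.cons θ' 0) : Fin 5 → AlgebraicClosure F) j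
        ≠ 0 := by
    intro θ' hθ' hcon
    rw [hsum2, mul_one] at hcon
    by_cases h1 : ℓ' 1 = 0
    · rw [h1, map_zero, zero_mul, add_zero] at hcon
      rcases hℓ01 with h | h
      · exact h ((map_eq_zero _).1 hcon)
      · exact h h1
    · apply hirr (-(ℓ' 0) / ℓ' 1)
      apply (algebraMap F (AlgebraicClosure F)).injective
      have h1' : algebraMap F (AlgebraicClosure F) (ℓ' 1) ≠ 0 := (map_ne_zero _).2 h1
      have h3 : θ' = -(algebraMap F _ (ℓ' 0)) / algebraMap F _ (ℓ' 1) := by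
        field_simp
        linear_combination hcon
      rw [map_zero, map_sub, map_sub, map_mul, map_mul, map_div₀, map_neg, ← h3]
      exact hθ'
  have hcoef : ∀ {q : MvPolynomial (Fin 5) F} {d : Fin 5 → Fin 5 → F}
      (_ : q = ∑ i, ∑ j, C (d i j) * (X i * X j))
      (_ : aeval (Fin.cons 1 (Fin.cons θ 0) : Fin 5 → κ) q = 0),
      d 0 0 = -r * d 1 1 ∧ d 0 1 + d 1 0 = -s * d 1 1 := by
    intro q d hd hq
    have hz : ∀ j : Fin 3, (Fin.cons 1 (Fin.cons θ 0) : Fin 5 → κ) j.succ.succ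
      = (0 : Fin 3 → κ) j := fun j => rfl
    have hl : ∀ α : Fin 3 → F, lf α (0 : Fin 3 → κ) = 0 := by intro α; simp [lf]
    have hqq : ∀ γ : Fin 3 → Fin 3 → F, qf γ (0 : Fin 3 → κ) = 0 := by intro α; simp [qf]
    rw [aeval_split hd _ _ hz, hl, hl, hqq] at hq
    have hq' : algebraMap F κ (d 0 0) * (1 * 1) + algebraMap F κ (d 0 1 + d 1 0) * (1 * θ)
      + algebraMap F κ (d 1 1) * (θ * θ) + 0 * 1 + 0 * θ + 0 = 0 := hq
    rw [hrs] at hq'
    have h3 : algebraMap F κ (d 0 0 + d 1 1 * r) + θ * algebraMap F κ (d 0 1 + d 1 0 + d 1 1 * s)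
        = 0 := by
      rw [← hq']
      simp only [map_add, map_mul]
      ring
    have h4 : d 0 1 + d 1 0 + d 1 1 * s = 0 := by
      by_contra hne
      apply hθ
      refine ⟨-(d 0 0 + d 1 1 * r) / (d 0 1 + d 1 0 + d 1 1 * s), ?_⟩
      have hne' : algebraMap F κ (d 0 1 + d 1 0 + d 1 1 * s) ≠ 0 := (map_ne_zero _).2 hne
      rw [map_div₀, map_neg, div_eq_iff hne']
      linear_combination -h3
    rw [h4, map_zero, mul_zero, add_zero] at h3
    have h5 := (map_eq_zero _).1 h3
    constructor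
    · linear_combination h5
    · linear_combination h4
  obtain ⟨d1, hd1⟩ := quad_matrix hf1
  obtain ⟨d2, hd2⟩ := quad_matrix hf2
  obtain ⟨hA1, hB1⟩ := hcoef hd1 (hev q1 (by simp))
  obtain ⟨hA2, hB2⟩ := hcoef hd2 (hev q2 (by simp))
  have hzero : ∀ {A : Type u} [Field A] [Algebra F A] {q : MvPolynomial (Fin 5) F}
      {d : Fin 5 → Fin 5 → F} (_ : q = ∑ i, ∑ j, C (d i j) * (X i * X j)) (c e : A),
      aeval (Fin.cons c (Fin.cons e 0) : Fin 5 → A) q = algebraMap F A (d 0 0) * (c * c)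
        + algebraMap F A (d 0 1 + d 1 0) * (c * e) + algebraMap F A (d 1 1) * (e * e) := by
    intro A _ _ q d hd c e
    have hz : ∀ j : Fin 3, (Fin.cons c (Fin.cons e 0) : Fin 5 → A) j.succ.succ
      = (0 : Fin 3 → A) j := fun j => rfl
    have hl : ∀ α : Fin 3 → F, lf α (0 : Fin 3 → A) = 0 := by intro α; simp [lf]
    have hqq : ∀ γ : Fin 3 → Fin 3 → F, qf γ (0 : Fin 3 → A) = 0 := by intro α; simp [qf]
    rw [aeval_split hd _ _ hz, hl, hl, hqq]
    show algebraMap F A (d 0 0) * (c * c) + algebraMap F A (d 0 1 + d 1 0) * (c * e)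
      + algebraMap F A (d 1 1) * (e * e) + 0 * c + 0 * e + 0 = _
    ring
  have hsm : ∀ θ' : AlgebraicClosure F, θ' * θ' - algebraMap F _ s * θ' - algebraMap F _ r = 0 →
      LinearIndependent (AlgebraicClosure F) fun (i : Fin 2) (j : Fin 5) =>
        aeval (Fin.cons 1 (Fin.cons θ' 0) : Fin 5 → AlgebraicClosure F)
          (pderiv j ((![lin M q1, lin M q2] : Fin 2 → MvPolynomial (Fin 5) F) i)) := by
    intro θ' hθ'
    refine hs' _ (hsing θ' hθ') ?_
    intro i
    fin_cases i
    · show aeval _ (lin M q1) = 0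
      rw [hzero hd1, hA1, hB1]
      simp only [map_mul, map_neg]
      linear_combination algebraMap F _ (d1 1 1) * hθ'
    · show aeval _ (lin M q2) = 0
      rw [hzero hd2, hA2, hB2]
      simp only [map_mul, map_neg]
      linear_combination algebraMap F _ (d2 1 1) * hθ'
  by_cases hC1 : d1 1 1 = 0
  · by_cases hC2 : d2 1 1 = 0
    · exfalso
      have hall : ∀ c e : F, aeval (Fin.cons c (Fin.cons e 0) : Fin 5 → F) (lin M q1) = 0 ∧
          aeval (Fin.cons c (Fin.cons e 0) : Fin 5 → F) (lin M q2) = 0 := by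
        intro c e
        rw [hzero hd1, hzero hd2, hA1, hB1, hA2, hB2, hC1, hC2]
        simp
      rcases hℓ01 with h | h
      · refine hno' (Fin.cons 1 (Fin.cons 0 0)) ?_ (hall 1 0)
        have := hsum2 (1 : F) 0
        simp only [Algebra.algebraMap_self, RingHom.id_apply] at this
        rw [this]
        simpa using h
      · refine hno' (Fin.cons 0 (Fin.cons 1 0)) ?_ (hall 0 1)
        have := hsum2 (0 : F) 1
        simp only [Algebra.algebraMap_self, RingHom.id_apply] at this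
        rw [this]
        simpa using h
    · have hc : ({lin M q1, lin M q2} : Set (MvPolynomial (Fin 5) F)) = {lin M q2, lin M q1} :=
        Set.pair_comm _ _
      rw [hc] at hx'
      exact pencil2' hf2 hf1 hd2 hd1 r s hirr (fun θ' hθ' => li_swap (hsm θ' hθ'))
        hA2 hB2 hA1 hB1 hx' hC2
  · exact pencil2' hf1 hf2 hd1 hd2 r s hirr hsm hA1 hB1 hA2 hB2 hx' hC1

end smoothOn
end DPI
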