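import Mathlib
import Pool.Agent.H478.DZD
set_option autoImplicit false
namespace DPI
open MvPolynomial

universe u v

section pt
variable {F L : Type u} [Field F] [Field L] [Algebra F L]

theorem dp4_wit2_point' {q1 q2 : MvPolynomial (Fin 5) F}
    (hq1 : q1.IsHomogeneous 2) (hq2 : q2.IsHomogeneous 2)
    (hcone : ∀ a : Fin 5 → F, a ≠ 0 → aeval a q1 = 0 → aeval a q2 = 0 →
      (∀ j, aeval a (pderiv j q1) = 0) → (∀ j, aeval a (pderiv j q2) = 0) → False)
    {x : Fin 5 → L} (hx : IsFunctionField 1 {q1, q2} L x) (p : Fin 5 → F) (hp0 : p ≠ 0)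
    (hp1 : aeval p q1 = 0) (hp2 : aeval p q2 = 0)
    (hlin : LinearIndependent (AlgebraicClosure F) fun (i : Fin 2) (j : Fin 5) =>
      aeval (fun i => algebraMap F (AlgebraicClosure F) (p i))
        (pderiv j ((![q1, q2] : Fin 2 → MvPolynomial (Fin 5) F) i))) : Wit F L 2 := by
  classical
  obtain ⟨d1, hd1⟩ := quad_matrix hq1
  obtain ⟨d2, hd2⟩ := quad_matrix hq2
  obtain ⟨g1, hg1⟩ : ∃ g : Fin 5 → F, ∀ i, g i = aeval p (pderiv i q1) := ⟨_, fun _ => rfl⟩
  obtain ⟨g2, hg2⟩ : ∃ g : Fin 5 → F, ∀ i, g i = aeval p (pderiv i q2) := ⟨_, fun _ => rfl⟩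
  have hgp1 : ∑ i, p i * g1 i = 0 := by
    simp only [hg1]; rw [euler_quad hd1, hp1, mul_zero]
  have hgp2 : ∑ i, p i * g2 i = 0 := by
    simp only [hg2]; rw [euler_quad hd2, hp2, mul_zero]
  have hli : LinearIndependent F ![g1, g2] := by
    have h1 := hlin
    rw [Fintype.linearIndependent_iff] at h1 ⊢
    intro c hc i
    have h2 := h1 (fun i => algebraMap F _ (c i)) (by
      rw [Fin.sum_univ_two]
      funext k
      show algebraMap F (AlgebraicClosure F) (c 0)
          * aeval (fun i => algebraMap F (AlgebraicClosure F) (p i)) (pderiv k q1)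
        + algebraMap F (AlgebraicClosure F) (c 1)
          * aeval (fun i => algebraMap F (AlgebraicClosure F) (p i)) (pderiv k q2) = 0
      rw [aeval_alg, aeval_alg, ← hg1, ← hg2, ← map_mul, ← map_mul, ← map_add]
      rw [Fin.sum_univ_two] at hc
      have h3 : c 0 * g1 k + c 1 * g2 k = 0 := congrFun hc k
      rw [h3, map_zero]) i
    exact (map_eq_zero _).1 h2
  obtain ⟨M0, B0, hMB0, hBM0, hM0⟩ := exists_matrix (m := 2) (r := 3) ![g1, g2] hli
  have hM00 : ∀ i : Fin 5, M0 i 0 = g1 i := fun i => hM0 i 0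
  have hM01 : ∀ i : Fin 5, M0 i 1 = g2 i := fun i => hM0 i 1
  have hw : ∀ k l : Fin 5, ∑ i, B0 k i * M0 i l = if k = l then 1 else 0 := by
    intro k l
    have := congrFun (congrFun hBM0 k) l
    rwa [Matrix.mul_apply, Matrix.one_apply] at this
  have w31 : ∑ i, B0 0 i * g1 i = 1 := by
    have := hw 0 0
    simp only [hM00] at this
    simpa using this
  have w32 : ∑ i, B0 0 i * g2 i = 0 := by
    have := hw 0 1
    simp only [hM01] at this
    simpa using this
  have w41 : ∑ i, B0 1 i * g1 i = 0 := by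
    have := hw 1 0
    simp only [hM00] at this
    simpa using this
  have w42 : ∑ i, B0 1 i * g2 i = 1 := by
    have := hw 1 1
    simp only [hM01] at this
    simpa using this
  have hli3 : LinearIndependent F ![p, B0 0, B0 1] := by
    rw [Fintype.linearIndependent_iff]
    intro c hc
    rw [Fin.sum_univ_three] at hc
    have hc' : ∀ i, c 0 * p i + c 1 * B0 0 i + c 2 * B0 1 i = 0 := fun i => congrFun hc i
    have hdot : ∀ g : Fin 5 → F, c 0 * ∑ i, p i * g i + c 1 * ∑ i, B0 0 i * g i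
        + c 2 * ∑ i, B0 1 i * g i = 0 := by
      intro g
      rw [Finset.mul_sum, Finset.mul_sum, Finset.mul_sum, ← Finset.sum_add_distrib,
        ← Finset.sum_add_distrib]
      refine Finset.sum_eq_zero fun i _ => ?_
      linear_combination g i * hc' i
    have k1 : c 1 = 0 := by
      have := hdot g1
      rw [hgp1, w31, w41] at this
      linear_combination this
    have k2 : c 2 = 0 := by
      have := hdot g2
      rw [hgp2, w32, w42] at this
      linear_combination this
    have k0 : c 0 = 0 := by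
      by_contra hne
      apply hp0
      funext i
      have := hc' i
      rw [k1, k2, zero_mul, zero_mul, add_zero, add_zero] at this
      exact (mul_eq_zero.1 this).resolve_left hne
    intro i
    fin_cases i
    · exact k0
    · exact k1
    · exact k2
  obtain ⟨M, B, hMB, hBM, hM⟩ := exists_matrix (m := 3) (r := 2) ![p, B0 0, B0 1] hli3
  have hM0' : ∀ i : Fin 5, M i 0 = p i := fun i => hM i 0
  have hM1' : ∀ i : Fin 5, M i 1 = B0 0 i := fun i => hM i 1
  have hM2' : ∀ i : Fin 5, M i 2 = B0 1 i := fun i => hM i 2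
  obtain ⟨a, ha⟩ : ∃ a, a = ∑ i, M i 3 * g1 i := ⟨_, rfl⟩
  obtain ⟨c, hc⟩ : ∃ c, c = ∑ i, M i 3 * g2 i := ⟨_, rfl⟩
  obtain ⟨b, hb⟩ : ∃ b, b = ∑ i, M i 4 * g1 i := ⟨_, rfl⟩
  obtain ⟨d, hd⟩ : ∃ d, d = ∑ i, M i 4 * g2 i := ⟨_, rfl⟩
  let E : Matrix (Fin 5) (Fin 5) F :=
    !![1, 0, 0, 0, 0; 0, -a, 1, 0, -b; 0, -c, 0, 1, -d; 0, 1, 0, 0, 0; 0, 0, 0, 0, 1]
  let E' : Matrix (Fin 5) (Fin 5) F :=
    !![1, 0, 0, 0, 0; 0, 0, 0, 1, 0; 0, 1, 0, a, b; 0, 0, 1, c, d; 0, 0, 0, 0, 1]
  have hEE : E * E' = 1 := by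
    ext i j
    fin_cases i <;> fin_cases j <;> simp [E, E', Matrix.mul_apply, Fin.sum_univ_succ]
  have hEE' : E' * E = 1 := by
    ext i j
    fin_cases i <;> fin_cases j <;> simp [E, E', Matrix.mul_apply, Fin.sum_univ_succ]
  have h1 : (M * E) * (E' * B) = 1 := by
    rw [Matrix.mul_assoc, ← Matrix.mul_assoc E, hEE, Matrix.one_mul, hMB]
  have h2 : (E' * B) * (M * E) = 1 := by
    rw [Matrix.mul_assoc, ← Matrix.mul_assoc B, hBM, Matrix.one_mul, hEE']
  obtain ⟨M', hM'⟩ : ∃ M', M' = M * E := ⟨_, rfl⟩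
  obtain ⟨B', hB'⟩ : ∃ B', B' = E' * B := ⟨_, rfl⟩
  rw [← hM', ← hB'] at h1 h2
  have hM'0 : ∀ i, M' i 0 = p i := by
    intro i
    rw [hM', Matrix.mul_apply]
    simp [E, Fin.sum_univ_succ, hM0']
  have hdot' : ∀ (g : Fin 5 → F) (j : Fin 5), ∑ i, M' i j * g i
      = ∑ l, E l j * ∑ i, M i l * g i := by
    intro g j
    rw [hM']
    simp only [Matrix.mul_apply, Finset.sum_mul, Finset.mul_sum]
    rw [Finset.sum_comm]
    exact Finset.sum_congr rfl fun i _ => Finset.sum_congr rfl fun j _ => by ring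
  have hdot1 : ∀ j, ∑ i, M' i j * g1 i = (![0, 0, 1, 0, 0] : Fin 5 → F) j := by
    intro j
    rw [hdot' g1 j, Fin.sum_univ_five]
    simp only [hM0', hM1', hM2', hgp1, w31, w41, ← ha, ← hb]
    fin_cases j <;> simp [E]
  have hdot2 : ∀ j, ∑ i, M' i j * g2 i = (![0, 0, 0, 1, 0] : Fin 5 → F) j := by
    intro j
    rw [hdot' g2 j, Fin.sum_univ_five]
    simp only [hM0', hM1', hM2', hgp2, w32, w42, ← hc, ← hd]
    fin_cases j <;> simp [E]
  have hx' := change h1 h2 hx
  rw [Set.image_pair] at hx'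
  have hcone' : ∀ a : Fin 5 → F, a ≠ 0 → aeval a (lin M' q1) = 0 → aeval a (lin M' q2) = 0 →
      (∀ j, aeval a (pderiv j (lin M' q1)) = 0) → (∀ j, aeval a (pderiv j (lin M' q2)) = 0) →
      False := by
    intro a ha k1 k2 k3 k4
    have hgr : ∀ q : MvPolynomial (Fin 5) F, (∀ j, aeval a (pderiv j (lin M' q)) = 0) →
        ∀ j, aeval (fun i => ∑ j, M' i j * a j) (pderiv j q) = 0 := by
      intro q hq j
      have h3 : ∀ j, ∑ k, M' k j * aeval (fun i => ∑ j, M' i j * a j) (pderiv k q) = 0 := by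
        intro j
        have := hq j
        rw [pderiv_lin, map_sum] at this
        rw [← this]
        refine Finset.sum_congr rfl fun k _ => ?_
        rw [map_mul, aeval_C, aeval_lin]
        rfl
      have hT' : B'.transpose * M'.transpose = 1 := by
        rw [← Matrix.transpose_mul, h1, Matrix.transpose_one]
      have h4 := mul_vec_inv (A := F) hT' (fun k => aeval (fun i => ∑ j, M' i j * a j)
        (pderiv k q)) j
      simp only [Matrix.transpose_apply, Algebra.algebraMap_self, RingHom.id_apply, h3, mul_zero,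
        Finset.sum_const_zero] at h4
      exact h4.symm
    refine hcone (fun i => ∑ j, M' i j * a j) ?_ ?_ ?_ (hgr q1 k3) (hgr q2 k4)
    · intro hcon
      apply ha
      funext i
      have h4 := mul_vec_inv (A := F) h2 a i
      have h5 : ∀ j, ∑ k, M' j k * a k = 0 := fun j => congrFun hcon j
      simp only [Algebra.algebraMap_self, RingHom.id_apply, h5, mul_zero,
        Finset.sum_const_zero] at h4
      exact h4.symm
    · rwa [aeval_lin] at k1
    · rwa [aeval_lin] at k2
  have hf1 : (lin M' q1).IsHomogeneous 2 := lin_homog hq1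
  have hf2 : (lin M' q2).IsHomogeneous 2 := lin_homog hq2
  obtain ⟨e1, he1⟩ := quad_matrix hf1
  obtain ⟨e2, he2⟩ := quad_matrix hf2
  have hvec : (fun i => ∑ j, algebraMap F F (M' i j) * (Pi.single 0 1 : Fin 5 → F) j) = p := by
    funext i
    rw [Finset.sum_eq_single 0]
    · rw [Pi.single_eq_same, mul_one, hM'0]; rfl
    · intro j _ hj
      rw [Pi.single_apply, if_neg hj, mul_zero]
    · intro h; exact absurd (Finset.mem_univ _) h
  have hev : ∀ G : MvPolynomial (Fin 5) F, aeval (Pi.single 0 1 : Fin 5 → F) (lin M' G)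
      = aeval p G := by
    intro G
    rw [aeval_lin, hvec]
  have h00 : ∀ {q : MvPolynomial (Fin 5) F} {e : Fin 5 → Fin 5 → F}
      (_ : lin M' q = ∑ i, ∑ j, C (e i j) * (X i * X j)) (_ : aeval p q = 0), e 0 0 = 0 := by
    intro q e he hq
    have := hev q
    rw [hq, aeval_quad he] at this
    simpa [Pi.single_apply] using this
  have h0j : ∀ {q : MvPolynomial (Fin 5) F} {e : Fin 5 → Fin 5 → F}
      (_ : lin M' q = ∑ i, ∑ j, C (e i j) * (X i * X j)) (j : Fin 5),
      e j 0 + e 0 j = ∑ i, M' i j * aeval p (pderiv i q) := by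
    intro q e he j
    have k1 := aeval_pderiv_quad he (Pi.single 0 1 : Fin 5 → F) j
    rw [pderiv_lin, map_sum] at k1
    simp only [map_mul, aeval_C, hev, Algebra.algebraMap_self, RingHom.id_apply] at k1
    rw [k1, Finset.sum_eq_single 0]
    · rw [Pi.single_eq_same, mul_one]
    · intro j _ hj
      rw [Pi.single_apply, if_neg hj, mul_zero]
    · intro h; exact absurd (Finset.mem_univ _) h
  have k1 : ∀ j, e1 j 0 + e1 0 j = (![0, 0, 1, 0, 0] : Fin 5 → F) j := by
    intro j
    rw [h0j he1 j, ← hdot1]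
    simp only [hg1]
  have k2 : ∀ j, e2 j 0 + e2 0 j = (![0, 0, 0, 1, 0] : Fin 5 → F) j := by
    intro j
    rw [h0j he2 j, ← hdot2]
    simp only [hg2]
  refine pencil1' hf1 hf2 he1 he2 hcone' (h00 he1 hp1) ?_ (h00 he2 hp2) ?_ ?_ ?_ hx'
  · rw [add_comm]; exact k1 1
  · rw [add_comm]; exact k2 1
  · funext j
    simp only [al]
    rw [add_comm, k1]
    fin_cases j <;> rfl
  · funext j
    simp only [al]
    rw [add_comm, k2]
    fin_cases j <;> rfl


end pt
end DPI
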