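import Mathlib
import Pool.Agent.H478.DZE
import Pool.Agent.H478.DZA
set_option autoImplicit false
namespace DPI
open MvPolynomial

universe u v

section conic
variable {F : Type u} [Field F] {a b : F}

/-- the equation `x² + x y + c y² = β w²` over `F[ω]`, `ω² = a + b ω`, where `x = X₀ + X₁ ω`,
`y = X₂ + X₃ ω` and `w = X₄` -/
noncomputable def conicEq (c β : QuadraticAlgebra F a b) :
    QuadraticAlgebra (MvPolynomial (Fin 5) F) (C a) (C b) :=
  ⟨X 0, X 1⟩ ^ 2 + ⟨X 0, X 1⟩ * ⟨X 2, X 3⟩ + mapQ C c * ⟨X 2, X 3⟩ ^ 2 - mapQ C β * ⟨X 4, 0⟩ ^ 2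

theorem conicEq_re (c β : QuadraticAlgebra F a b) : (conicEq c β).re =
    X 0 ^ 2 + C a * X 1 ^ 2 + (X 0 * X 2 + C a * (X 1 * X 3))
      + C c.re * (X 2 ^ 2 + C a * X 3 ^ 2) + C (a * c.im) * (2 * (X 2 * X 3) + C b * X 3 ^ 2)
      - C β.re * X 4 ^ 2 := by
  simp only [conicEq, mapQ_apply, pow_two, QuadraticAlgebra.re_sub, QuadraticAlgebra.re_add,
    QuadraticAlgebra.re_mul, QuadraticAlgebra.im_mul, C_mul]
  ring

theorem conicEq_im (c β : QuadraticAlgebra F a b) : (conicEq c β).im =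
    2 * (X 0 * X 1) + C b * X 1 ^ 2 + (X 0 * X 3 + X 1 * X 2 + C b * (X 1 * X 3))
      + C c.re * (2 * (X 2 * X 3) + C b * X 3 ^ 2) + C c.im * (X 2 ^ 2 + C a * X 3 ^ 2)
      + C (b * c.im) * (2 * (X 2 * X 3) + C b * X 3 ^ 2) - C β.im * X 4 ^ 2 := by
  simp only [conicEq, mapQ_apply, pow_two, QuadraticAlgebra.im_sub, QuadraticAlgebra.im_add,
    QuadraticAlgebra.re_mul, QuadraticAlgebra.im_mul, C_mul]
  ring

theorem homog_C_mul_XX (c : F) (i j : Fin 5) :
    (C c * (X i * X j) : MvPolynomial (Fin 5) F).IsHomogeneous 2 := by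
  have h := (isHomogeneous_C (Fin 5) c).mul ((isHomogeneous_X F i).mul (isHomogeneous_X F j))
  rwa [zero_add] at h

theorem conicEq_re_homog (c β : QuadraticAlgebra F a b) : (conicEq c β).re.IsHomogeneous 2 := by
  have e : (conicEq c β).re = C 1 * (X 0 * X 0) + C a * (X 1 * X 1) + C 1 * (X 0 * X 2)
      + C a * (X 1 * X 3) + C c.re * (X 2 * X 2) + C (c.re * a) * (X 3 * X 3)
      + C (2 * (a * c.im)) * (X 2 * X 3) + C (a * c.im * b) * (X 3 * X 3)
      - C β.re * (X 4 * X 4) := by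
    rw [conicEq_re]
    simp only [C_mul, C_1, map_ofNat]
    ring
  rw [e]
  exact ((((((((homog_C_mul_XX _ _ _).add (homog_C_mul_XX _ _ _)).add
    (homog_C_mul_XX _ _ _)).add (homog_C_mul_XX _ _ _)).add (homog_C_mul_XX _ _ _)).add
    (homog_C_mul_XX _ _ _)).add (homog_C_mul_XX _ _ _)).add (homog_C_mul_XX _ _ _)).sub
    (homog_C_mul_XX _ _ _)

theorem conicEq_im_homog (c β : QuadraticAlgebra F a b) : (conicEq c β).im.IsHomogeneous 2 := by
  have e : (conicEq c β).im = C 2 * (X 0 * X 1) + C b * (X 1 * X 1) + C 1 * (X 0 * X 3)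
      + C 1 * (X 1 * X 2) + C b * (X 1 * X 3) + C (2 * c.re) * (X 2 * X 3)
      + C (c.re * b) * (X 3 * X 3) + C c.im * (X 2 * X 2) + C (c.im * a) * (X 3 * X 3)
      + C (2 * (b * c.im)) * (X 2 * X 3) + C (b * c.im * b) * (X 3 * X 3)
      - C β.im * (X 4 * X 4) := by
    rw [conicEq_im]
    simp only [C_mul, C_1, map_ofNat]
    ring
  rw [e]
  exact (((((((((((homog_C_mul_XX _ _ _).add (homog_C_mul_XX _ _ _)).add
    (homog_C_mul_XX _ _ _)).add (homog_C_mul_XX _ _ _)).add (homog_C_mul_XX _ _ _)).add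
    (homog_C_mul_XX _ _ _)).add (homog_C_mul_XX _ _ _)).add (homog_C_mul_XX _ _ _)).add
    (homog_C_mul_XX _ _ _)).add (homog_C_mul_XX _ _ _)).add (homog_C_mul_XX _ _ _)).sub
    (homog_C_mul_XX _ _ _)

variable {A : Type v} [Field A] [Algebra F A]

theorem aeval_conicEq (c β : QuadraticAlgebra F a b) (y : Fin 5 → A) :
    (⟨aeval y (conicEq c β).re, aeval y (conicEq c β).im⟩ :
      QuadraticAlgebra A (algebraMap F A a) (algebraMap F A b))
      = ⟨y 0, y 1⟩ ^ 2 + ⟨y 0, y 1⟩ * ⟨y 2, y 3⟩ + mapQ (algebraMap F A) c * ⟨y 2, y 3⟩ ^ 2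
        - mapQ (algebraMap F A) β * ⟨y 4, 0⟩ ^ 2 := by
  let φ : QuadraticAlgebra (MvPolynomial (Fin 5) F) (C a) (C b) →+*
      QuadraticAlgebra A (algebraMap F A a) (algebraMap F A b) :=
    mapQ' (aeval y).toRingHom ((aeval y).commutes a) ((aeval y).commutes b)
  have hφ : ∀ c, φ c = ⟨aeval y c.re, aeval y c.im⟩ := fun c => rfl
  have hm : ∀ c : QuadraticAlgebra F a b, φ (mapQ C c) = mapQ (algebraMap F A) c := by
    intro c
    rw [hφ]
    ext
    · exact (aeval y).commutes _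
    · exact (aeval y).commutes _
  rw [← hφ, conicEq, map_sub, map_add, map_add, map_mul, map_mul, map_mul, map_pow, map_pow,
    map_pow, hm, hm]
  simp only [hφ, aeval_X, map_zero]

theorem conicEq_zero_iff (c β : QuadraticAlgebra F a b) (y : Fin 5 → A) :
    (∀ G ∈ ({(conicEq c β).re, (conicEq c β).im} : Set (MvPolynomial (Fin 5) F)),
      aeval y G = 0) ↔
    (⟨y 0, y 1⟩ ^ 2 + ⟨y 0, y 1⟩ * ⟨y 2, y 3⟩ + mapQ (algebraMap F A) c * ⟨y 2, y 3⟩ ^ 2
      = mapQ (algebraMap F A) β * (⟨y 4, 0⟩ : QuadraticAlgebra A _ _) ^ 2) := by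
  rw [← sub_eq_zero, ← aeval_conicEq]
  constructor
  · intro h
    rw [h _ (by simp), h _ (by simp)]
    rfl
  · intro h
    rintro G (rfl | rfl)
    · exact congrArg QuadraticAlgebra.re h
    · exact congrArg QuadraticAlgebra.im h

/-- the derivative with respect to `x` -/
theorem conic_deriv (c β : QuadraticAlgebra F a b) (y : Fin 5 → A)
    (D E : QuadraticAlgebra A (algebraMap F A a) (algebraMap F A b))
    (hD : D = 2 * ⟨y 0, y 1⟩ + ⟨y 2, y 3⟩)
    (hE : E = ⟨y 0, y 1⟩ + 2 * (mapQ (algebraMap F A) c * ⟨y 2, y 3⟩)) :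
    aeval y (pderiv 0 (conicEq c β).re) = D.re ∧
    aeval y (pderiv 0 (conicEq c β).im) = D.im ∧
    aeval y (pderiv 1 (conicEq c β).re) = algebraMap F A a * D.im ∧
    aeval y (pderiv 1 (conicEq c β).im) = D.re + algebraMap F A b * D.im ∧
    aeval y (pderiv 2 (conicEq c β).re) = E.re ∧
    aeval y (pderiv 2 (conicEq c β).im) = E.im ∧
    aeval y (pderiv 3 (conicEq c β).re) = algebraMap F A a * E.im ∧
    aeval y (pderiv 3 (conicEq c β).im) = E.re + algebraMap F A b * E.im := by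
  have hDre : D.re = 2 * y 0 + y 2 := by
    rw [hD, two_mul, QuadraticAlgebra.re_add, QuadraticAlgebra.re_add]; ring
  have hDim : D.im = 2 * y 1 + y 3 := by
    rw [hD, two_mul, QuadraticAlgebra.im_add, QuadraticAlgebra.im_add]; ring
  have hEre : E.re = y 0 + 2 * (algebraMap F A c.re * y 2
      + algebraMap F A a * algebraMap F A c.im * y 3) := by
    rw [hE, two_mul, QuadraticAlgebra.re_add, QuadraticAlgebra.re_add,
      QuadraticAlgebra.re_mul, mapQ_apply]; ring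
  have hEim : E.im = y 1 + 2 * (algebraMap F A c.re * y 3 + algebraMap F A c.im * y 2
      + algebraMap F A b * algebraMap F A c.im * y 3) := by
    rw [hE, two_mul, QuadraticAlgebra.im_add, QuadraticAlgebra.im_add,
      QuadraticAlgebra.im_mul, mapQ_apply]; ring
  have h2 : ∀ i, pderiv i (2 : MvPolynomial (Fin 5) F) = 0 := fun i => by
    have := pderiv_C (i := i) (a := (2 : F))
    rwa [map_ofNat] at this
  rw [hDre, hDim, hEre, hEim, conicEq_re, conicEq_im]
  refine ⟨?_, ?_, ?_, ?_, ?_, ?_, ?_, ?_⟩ <;>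
  · simp [pderiv_X, Pi.single_apply, pderiv_C, Derivation.leibniz, Derivation.leibniz_pow, h2]
    try ring

end conic
end DPI
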