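import Mathlib
import Pool.Agent.H478.DZF
set_option autoImplicit false
namespace DPI
open MvPolynomial

universe u v

section conic
variable {F : Type u} [Field F] {a b : F} {A : Type v} [Field A] [Algebra F A]

theorem unit_scalar {a' b' : A} {w : A} (hw : w ≠ 0) :
    IsUnit (⟨w, 0⟩ : QuadraticAlgebra A a' b') := by
  refine IsUnit.of_mul_eq_one ⟨w⁻¹, 0⟩ ?_
  ext
  · rw [QuadraticAlgebra.re_mul, QuadraticAlgebra.re_one]
    simp [hw]
  · rw [QuadraticAlgebra.im_mul, QuadraticAlgebra.im_one]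
    simp

/-- ideal-theoretic Jacobian criterion for the conic -/
theorem conic_ideal {c β : QuadraticAlgebra F a b} (hc : IsUnit (1 - 4 * c))
    (y : Fin 5 → A) (I : Ideal (QuadraticAlgebra A (algebraMap F A a) (algebraMap F A b)))
    (hD : 2 * ⟨y 0, y 1⟩ + ⟨y 2, y 3⟩ ∈ I)
    (hE : ⟨y 0, y 1⟩ + 2 * (mapQ (algebraMap F A) c * ⟨y 2, y 3⟩) ∈ I)
    (h0 : ∀ G ∈ ({(conicEq c β).re, (conicEq c β).im} : Set (MvPolynomial (Fin 5) F)),
      aeval y G = 0) :
    (⟨y 0, y 1⟩ : QuadraticAlgebra A (algebraMap F A a) (algebraMap F A b)) ∈ I ∧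
      (⟨y 2, y 3⟩ : QuadraticAlgebra A (algebraMap F A a) (algebraMap F A b)) ∈ I ∧
      mapQ (algebraMap F A) β * (⟨y 4, 0⟩ : QuadraticAlgebra A _ _) ^ 2 ∈ I := by
  have hc' : IsUnit (1 - 4 * mapQ (algebraMap F A) c) := by
    have := hc.map (mapQ (algebraMap F A))
    rwa [map_sub, map_one, map_mul, map_ofNat] at this
  obtain ⟨X', hX'⟩ : ∃ X' : QuadraticAlgebra A (algebraMap F A a) (algebraMap F A b),
    X' = ⟨y 0, y 1⟩ := ⟨_, rfl⟩
  obtain ⟨Y', hY'⟩ : ∃ Y' : QuadraticAlgebra A (algebraMap F A a) (algebraMap F A b),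
    Y' = ⟨y 2, y 3⟩ := ⟨_, rfl⟩
  rw [← hX', ← hY'] at hD hE ⊢
  have hX : X' ∈ I := by
    have h1 : (1 - 4 * mapQ (algebraMap F A) c) * X' ∈ I := by
      have : (1 - 4 * mapQ (algebraMap F A) c) * X' = (X' + 2 * (mapQ (algebraMap F A) c * Y'))
        - (2 * mapQ (algebraMap F A) c) * (2 * X' + Y') := by ring
      rw [this]
      exact I.sub_mem hE (I.mul_mem_left _ hD)
    exact (Ideal.unit_mul_mem_iff_mem I hc').1 h1
  have hY : Y' ∈ I := by
    have h1 : (1 - 4 * mapQ (algebraMap F A) c) * Y' ∈ I := by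
      have : (1 - 4 * mapQ (algebraMap F A) c) * Y' = (2 * X' + Y')
        - 2 * (X' + 2 * (mapQ (algebraMap F A) c * Y')) := by ring
      rw [this]
      exact I.sub_mem hD (I.mul_mem_left _ hE)
    exact (Ideal.unit_mul_mem_iff_mem I hc').1 h1
  refine ⟨hX, hY, ?_⟩
  rw [← (conicEq_zero_iff c β y).1 h0, ← hX', ← hY']
  have : X' ^ 2 + X' * Y' + mapQ (algebraMap F A) c * Y' ^ 2
      = X' * X' + X' * Y' + (mapQ (algebraMap F A) c * Y') * Y' := by ring
  rw [this]
  exact I.add_mem (I.add_mem (I.mul_mem_left _ hX) (I.mul_mem_left _ hY)) (I.mul_mem_left _ hY)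

theorem conic_smooth {c β : QuadraticAlgebra F a b} (hc : IsUnit (1 - 4 * c)) (hβ : IsUnit β)
    (y : Fin 5 → A) (hy4 : y 4 ≠ 0)
    (h0 : ∀ G ∈ ({(conicEq c β).re, (conicEq c β).im} : Set (MvPolynomial (Fin 5) F)),
      aeval y G = 0) :
    LinearIndependent A fun (i : Fin 2) (j : Fin 5) =>
      aeval y (pderiv j ((![(conicEq c β).re, (conicEq c β).im] :
        Fin 2 → MvPolynomial (Fin 5) F) i)) := by
  rw [Fintype.linearIndependent_iff]
  intro g hg
  rw [Fin.sum_univ_two] at hg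
  have hg' : ∀ j, g 0 * aeval y (pderiv j (conicEq c β).re)
      + g 1 * aeval y (pderiv j (conicEq c β).im) = 0 := fun j => congrFun hg j
  obtain ⟨e1, e2, e3, e4, e5, e6, e7, e8⟩ := conic_deriv c β y _ _ rfl rfl
  let I : Ideal (QuadraticAlgebra A (algebraMap F A a) (algebraMap F A b)) :=
    { carrier := {v | g 0 * v.re + g 1 * v.im = 0 ∧
        g 0 * (algebraMap F A a * v.im) + g 1 * (v.re + algebraMap F A b * v.im) = 0}
      add_mem' := fun {u v} hu hv => by
        obtain ⟨hu1, hu2⟩ := hu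
        obtain ⟨hv1, hv2⟩ := hv
        refine ⟨?_, ?_⟩
        · rw [QuadraticAlgebra.re_add, QuadraticAlgebra.im_add]
          linear_combination hu1 + hv1
        · rw [QuadraticAlgebra.re_add, QuadraticAlgebra.im_add]
          linear_combination hu2 + hv2
      zero_mem' := by
        refine ⟨?_, ?_⟩
        · rw [QuadraticAlgebra.re_zero, QuadraticAlgebra.im_zero]; ring
        · rw [QuadraticAlgebra.re_zero, QuadraticAlgebra.im_zero]; ring
      smul_mem' := fun u v hv => by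
        obtain ⟨hv1, hv2⟩ := hv
        refine ⟨?_, ?_⟩
        · rw [smul_eq_mul, QuadraticAlgebra.re_mul, QuadraticAlgebra.im_mul]
          linear_combination u.re * hv1 + u.im * hv2
        · rw [smul_eq_mul, QuadraticAlgebra.re_mul, QuadraticAlgebra.im_mul]
          linear_combination u.re * hv2 + u.im * algebraMap F A a * hv1
            + u.im * algebraMap F A b * hv2 }
  have hD : 2 * ⟨y 0, y 1⟩ + ⟨y 2, y 3⟩ ∈ I := by
    refine ⟨?_, ?_⟩
    · rw [← e1, ← e2]; exact hg' 0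
    · rw [← e3, ← e4]; exact hg' 1
  have hE : ⟨y 0, y 1⟩ + 2 * (mapQ (algebraMap F A) c * ⟨y 2, y 3⟩) ∈ I := by
    refine ⟨?_, ?_⟩
    · rw [← e5, ← e6]; exact hg' 2
    · rw [← e7, ← e8]; exact hg' 3
  obtain ⟨-, -, h3⟩ := conic_ideal hc y I hD hE h0
  have hu : IsUnit (mapQ (algebraMap F A) β * (⟨y 4, 0⟩ : QuadraticAlgebra A _ _) ^ 2) :=
    (hβ.map (mapQ (algebraMap F A))).mul ((unit_scalar hy4).pow 2)
  have h1 : (1 : QuadraticAlgebra A (algebraMap F A a) (algebraMap F A b)) ∈ I := by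
    rw [← Ideal.eq_top_iff_one]
    exact Ideal.eq_top_of_isUnit_mem I h3 hu
  obtain ⟨k1, k2⟩ := h1
  rw [QuadraticAlgebra.re_one, QuadraticAlgebra.im_one] at k1 k2
  intro i
  fin_cases i
  · show g 0 = 0
    linear_combination k1
  · show g 1 = 0
    linear_combination k2

theorem conic_cone {c β : QuadraticAlgebra F a b} (hc : IsUnit (1 - 4 * c)) (hβ : IsUnit β)
    (y : Fin 5 → F) (hy : y ≠ 0) (h1 : aeval y (conicEq c β).re = 0)
    (h2 : aeval y (conicEq c β).im = 0) (h3 : ∀ j, aeval y (pderiv j (conicEq c β).re) = 0)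
    (h4 : ∀ j, aeval y (pderiv j (conicEq c β).im) = 0) : False := by
  obtain ⟨e1, e2, e3, e4, e5, e6, e7, e8⟩ := conic_deriv c β y _ _ rfl rfl
  have hD : 2 * ⟨y 0, y 1⟩ + ⟨y 2, y 3⟩ ∈ (⊥ : Ideal (QuadraticAlgebra F
      (algebraMap F F a) (algebraMap F F b))) := by
    rw [Ideal.mem_bot]
    ext
    · rw [← e1, h3]; rfl
    · rw [← e2, h4]; rfl
  have hE : ⟨y 0, y 1⟩ + 2 * (mapQ (algebraMap F F) c * ⟨y 2, y 3⟩)
      ∈ (⊥ : Ideal (QuadraticAlgebra F (algebraMap F F a) (algebraMap F F b))) := by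
    rw [Ideal.mem_bot]
    ext
    · rw [← e5, h3]; rfl
    · rw [← e6, h4]; rfl
  obtain ⟨k1, k2, k3⟩ := conic_ideal (β := β) hc y _ hD hE (by
    rintro G (rfl | rfl)
    · exact h1
    · exact h2)
  rw [Ideal.mem_bot] at k1 k2 k3
  have hy4 : y 4 = 0 := by
    by_contra hne
    have hu : IsUnit (mapQ (algebraMap F F) β * (⟨y 4, 0⟩ : QuadraticAlgebra F _ _) ^ 2) :=
      (hβ.map (mapQ (algebraMap F F))).mul ((unit_scalar hne).pow 2)
    rw [k3] at hu
    exact not_isUnit_zero hu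
  apply hy
  funext i
  fin_cases i
  · exact congrArg QuadraticAlgebra.re k1
  · exact congrArg QuadraticAlgebra.im k1
  · exact congrArg QuadraticAlgebra.re k2
  · exact congrArg QuadraticAlgebra.im k2
  · exact hy4

end conic

section wit4
variable {F L : Type u} [Field F] [Field L] [Algebra F L] {a b : F}

theorem conic_wit4 (hab : b ^ 2 + 4 * a ≠ 0) (c β : QuadraticAlgebra F a b)
    {x : Fin 5 → L} (hx : IsFunctionField 1 {(conicEq c β).re, (conicEq c β).im} L x) :
    Wit F L 4 := by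
  obtain ⟨d1, hd1⟩ := quad_matrix (conicEq_re_homog c β)
  obtain ⟨d2, hd2⟩ := quad_matrix (conicEq_im_homog c β)
  have hev : ∀ {q : MvPolynomial (Fin 5) F} {d : Fin 5 → Fin 5 → F}
      (_ : q = ∑ i, ∑ j, C (d i j) * (X i * X j)) (s t : F),
      aeval (![s, t, 0, 0, 0] : Fin 5 → F) q = d 0 0 * (s * s) + (d 0 1 + d 1 0) * (s * t)
        + d 1 1 * (t * t) := by
    intro q d hd s t
    rw [aeval_quad hd]
    simp [Fin.sum_univ_succ]
    ring
  have hre : ∀ s t : F, aeval (![s, t, 0, 0, 0] : Fin 5 → F) (conicEq c β).re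
      = s ^ 2 + a * t ^ 2 := by
    intro s t
    rw [conicEq_re]
    simp
  have him : ∀ s t : F, aeval (![s, t, 0, 0, 0] : Fin 5 → F) (conicEq c β).im
      = 2 * (s * t) + b * t ^ 2 := by
    intro s t
    rw [conicEq_im]
    simp
  have a1 := hev hd1 1 0
  have a2 := hev hd1 0 1
  have a3 := hev hd1 1 1
  have b1 := hev hd2 1 0
  have b2 := hev hd2 0 1
  have b3 := hev hd2 1 1
  rw [hre] at a1 a2 a3
  rw [him] at b1 b2 b3
  have c1 : d1 0 0 = 1 := by linear_combination -a1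
  have c2 : d1 1 1 = a := by linear_combination -a2
  have c3 : d1 0 1 + d1 1 0 = 0 := by linear_combination -a3 + a1 + a2
  have c4 : d2 0 0 = 0 := by linear_combination -b1
  have c5 : d2 1 1 = b := by linear_combination -b2
  have c6 : d2 0 1 + d2 1 0 = 2 := by linear_combination -b3 + b1 + b2
  refine pencil4 (conicEq_re_homog c β) (conicEq_im_homog c β) hd1 hd2 hx
    (by rw [c1]; exact one_ne_zero) ?_
  rw [c1, c2, c3, c4, c5, c6]
  intro h
  apply hab
  linear_combination h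

theorem conic_x4 {c β : QuadraticAlgebra F a b}
    {x : Fin 5 → L} (hx : IsFunctionField 1 {(conicEq c β).re, (conicEq c β).im} L x) :
    x 4 ≠ 0 := by
  intro h
  have h1 : aeval x (X 4 : MvPolynomial (Fin 5) F) = 0 := by rw [aeval_X, h]
  have h2 := (hx.mem_iff 1 (X 4) (isHomogeneous_X F 4)).1 h1
  let φ : MvPolynomial (Fin 5) F →ₐ[F] DualNumber F :=
    aeval (![0, 0, 0, 0, DualNumber.eps] : Fin 5 → DualNumber F)
  have h3 : Ideal.span {(conicEq c β).re, (conicEq c β).im} ≤ RingHom.ker φ.toRingHom := by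
    rw [Ideal.span_le]
    rintro G (rfl | rfl)
    · show φ _ = 0
      rw [conicEq_re]
      simp [φ, pow_two]
    · show φ _ = 0
      rw [conicEq_im]
      simp [φ, pow_two]
  have h4 : φ (X 4) = 0 := h3 h2
  have h5 : φ (X 4) = DualNumber.eps := by
    simp [φ]
  rw [h5] at h4
  have h6 := congrArg TrivSqZeroExt.snd h4
  simp at h6

end wit4
end DPI
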