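import Mathlib
import Pool.Agent.H478.DZG
set_option autoImplicit false
namespace DPI
open TensorProduct

universe u v

section transfer2
variable {F : Type u} [Field F] {Ω : Type v} [Field Ω] [Algebra F Ω] {κ : Type u} [Field κ]
  [Algebra F κ]

theorem transfer2 [Module.Finite F κ] {a b : F} (c : QuadraticAlgebra F a b)
    (x y : QuadraticAlgebra κ (algebraMap F κ a) (algebraMap F κ b)) :
    ∃ x1 y1 : QuadraticAlgebra F a b, ∀ (τ u : Ω)
      (hτ : τ * τ = algebraMap F Ω a + algebraMap F Ω b * τ)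
      (_ : u ^ 2 - u + evK (algebraMap F Ω) τ hτ c = 0),
      evK (algebraMap F Ω) τ hτ x1 + evK (algebraMap F Ω) τ hτ y1 * u
        = Algebra.norm Ω ((inclκ F Ω κ x.re + inclκ F Ω κ x.im * algebraMap Ω (Ω ⊗[F] κ) τ)
          + (inclκ F Ω κ y.re + inclκ F Ω κ y.im * algebraMap Ω (Ω ⊗[F] κ) τ)
            * algebraMap Ω (Ω ⊗[F] κ) u) := by
  classical
  obtain ⟨n, ⟨bs⟩⟩ : ∃ n, Nonempty (Module.Basis (Fin n) F κ) := ⟨_, ⟨Module.finBasis F κ⟩⟩
  let M : κ →ₐ[F] Matrix (Fin n) (Fin n) F := Algebra.leftMulMatrix bs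
  let P : Matrix (Fin n) (Fin n) (Polynomial (QuadraticAlgebra F a b)) :=
    Matrix.of fun i j => Polynomial.C ⟨M x.re i j, M x.im i j⟩
      + Polynomial.C ⟨M y.re i j, M y.im i j⟩ * Polynomial.X
  let p : Polynomial (QuadraticAlgebra F a b) := Polynomial.X ^ 2 - Polynomial.X + Polynomial.C c
  have hp : p.Monic := by
    simp only [p]
    monicity!
  have hpd : p.natDegree = 2 := by
    simp only [p]
    compute_degree!
  refine ⟨(P.det %ₘ p).coeff 0, (P.det %ₘ p).coeff 1, fun τ u hτ hu => ?_⟩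
  let φ := Polynomial.eval₂RingHom (evK (algebraMap F Ω) τ hτ) u
  have hφX : φ Polynomial.X = u := Polynomial.eval₂_X _ _
  have hφC : ∀ c, φ (Polynomial.C c) = evK (algebraMap F Ω) τ hτ c := fun c =>
    Polynomial.eval₂_C _ _
  have hφp : φ p = 0 := by
    simp only [p, map_sub, map_add, map_pow, hφX, hφC]
    exact hu
  have h1 : φ P.det = φ (P.det %ₘ p) := by
    conv_lhs => rw [← Polynomial.modByMonic_add_div P.det p]
    rw [map_add, map_mul, hφp, zero_mul, add_zero]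
  have hdeg : (P.det %ₘ p).natDegree < 2 := by
    rw [← hpd]
    exact Polynomial.natDegree_modByMonic_lt _ hp (by
      intro h
      rw [h, Polynomial.natDegree_one] at hpd
      omega)
  have h2 : φ (P.det %ₘ p) = evK (algebraMap F Ω) τ hτ ((P.det %ₘ p).coeff 0)
      + evK (algebraMap F Ω) τ hτ ((P.det %ₘ p).coeff 1) * u := by
    conv_lhs => rw [Polynomial.as_sum_range' _ 2 hdeg]
    rw [Finset.sum_range_succ, Finset.sum_range_one]
    simp only [map_add, ← Polynomial.C_mul_X_pow_eq_monomial, map_mul, map_pow, hφX, hφC]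
    simp
  rw [← h2, ← h1, RingHom.map_det, Algebra.norm_eq_matrix_det (Algebra.TensorProduct.basis Ω bs)]
  congr 1
  ext i j
  have hM : ∀ x : κ, Algebra.leftMulMatrix (Algebra.TensorProduct.basis Ω bs) (inclκ F Ω κ x) i j
      = algebraMap F Ω (M x i j) := fun x => leftMulMatrix_bc bs x i j
  have hxv : (inclκ F Ω κ x.re + inclκ F Ω κ x.im * algebraMap Ω (Ω ⊗[F] κ) τ)
          + (inclκ F Ω κ y.re + inclκ F Ω κ y.im * algebraMap Ω (Ω ⊗[F] κ) τ)
            * algebraMap Ω (Ω ⊗[F] κ) u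
      = (inclκ F Ω κ x.re + τ • inclκ F Ω κ x.im)
      + u • (inclκ F Ω κ y.re + τ • inclκ F Ω κ y.im) := by
    simp only [Algebra.smul_def]
    ring
  rw [hxv]
  simp only [map_add, map_smul, Matrix.add_apply, Matrix.smul_apply, hM, smul_eq_mul]
  rw [RingHom.mapMatrix_apply, Matrix.map_apply]
  simp only [P, Matrix.of_apply, map_add, map_mul, hφX, hφC, evK_apply]
  ring

end transfer2

section odd
variable {F : Type u} [Field F] {a b : F}

theorem conic_norm_at {Ω : Type v} [Field Ω] [Algebra F Ω] [IsAlgClosed Ω] {κ : Type u} [Field κ]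
    [Algebra F κ] [Module.Finite F κ] {c β : QuadraticAlgebra F a b}
    {x y : QuadraticAlgebra κ (algebraMap F κ a) (algebraMap F κ b)}
    (h : x ^ 2 + x * y + mapQ (algebraMap F κ) c * y ^ 2 = mapQ (algebraMap F κ) β)
    {x1 y1 : QuadraticAlgebra F a b}
    (h1 : ∀ (τ u : Ω)
      (hτ : τ * τ = algebraMap F Ω a + algebraMap F Ω b * τ)
      (_ : u ^ 2 - u + evK (algebraMap F Ω) τ hτ c = 0),
      evK (algebraMap F Ω) τ hτ x1 + evK (algebraMap F Ω) τ hτ y1 * u
        = Algebra.norm Ω ((inclκ F Ω κ x.re + inclκ F Ω κ x.im * algebraMap Ω (Ω ⊗[F] κ) τ)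
          + (inclκ F Ω κ y.re + inclκ F Ω κ y.im * algebraMap Ω (Ω ⊗[F] κ) τ)
            * algebraMap Ω (Ω ⊗[F] κ) u))
    {τ : Ω} (hτ : τ * τ = algebraMap F Ω a + algebraMap F Ω b * τ) :
    evK (algebraMap F Ω) τ hτ (x1 ^ 2 + x1 * y1 + c * y1 ^ 2)
      = evK (algebraMap F Ω) τ hτ (β ^ Module.finrank F κ) := by
  obtain ⟨u, hu⟩ := IsAlgClosed.exists_root (Polynomial.X ^ 2 - Polynomial.X
    + Polynomial.C (evK (algebraMap F Ω) τ hτ c)) (by
      have : (Polynomial.X ^ 2 - Polynomial.X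
        + Polynomial.C (evK (algebraMap F Ω) τ hτ c)).degree = 2 := by compute_degree!
      rw [this]; norm_num)
  have hu' : u ^ 2 - u + evK (algebraMap F Ω) τ hτ c = 0 := by
    simpa [Polynomial.IsRoot] using hu
  have hu2 : (1 - u) ^ 2 - (1 - u) + evK (algebraMap F Ω) τ hτ c = 0 := by
    linear_combination hu'
  have n1 := h1 τ u hτ hu'
  have n2 := h1 τ (1 - u) hτ hu2
  have hfr : Module.finrank Ω (Ω ⊗[F] κ) = Module.finrank F κ := Module.finrank_baseChange
  have hτA : algebraMap Ω (Ω ⊗[F] κ) τ * algebraMap Ω (Ω ⊗[F] κ) τ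
      = inclκ F Ω κ (algebraMap F κ a) + inclκ F Ω κ (algebraMap F κ b)
        * algebraMap Ω (Ω ⊗[F] κ) τ := by
    rw [inclκ_F, inclκ_F, ← map_mul, ← map_mul, ← map_add, hτ]
  have hx := congrArg (evK (inclκ F Ω κ) (algebraMap Ω (Ω ⊗[F] κ) τ) hτA) h
  have hmap : ∀ d : QuadraticAlgebra F a b, evK (inclκ F Ω κ) (algebraMap Ω (Ω ⊗[F] κ) τ) hτA
      (mapQ (algebraMap F κ) d) = algebraMap Ω (Ω ⊗[F] κ) (evK (algebraMap F Ω) τ hτ d) := by
    intro d
    rw [evK_apply, evK_apply, mapQ_apply, inclκ_F, inclκ_F, map_add, map_mul]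
  rw [map_add, map_add, map_mul, map_mul, map_pow, map_pow, hmap, hmap] at hx
  obtain ⟨X, hX⟩ : ∃ X, X = evK (inclκ F Ω κ) (algebraMap Ω (Ω ⊗[F] κ) τ) hτA x := ⟨_, rfl⟩
  obtain ⟨Y, hY⟩ : ∃ Y, Y = evK (inclκ F Ω κ) (algebraMap Ω (Ω ⊗[F] κ) τ) hτA y := ⟨_, rfl⟩
  rw [evK_apply] at hX hY
  rw [← hX, ← hY] at n1 n2
  rw [evK_apply, evK_apply, ← hX, ← hY] at hx
  have hprod : (X + Y * algebraMap Ω (Ω ⊗[F] κ) u) * (X + Y * algebraMap Ω (Ω ⊗[F] κ) (1 - u))
      = algebraMap Ω (Ω ⊗[F] κ) (evK (algebraMap F Ω) τ hτ β) := by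
    have hcu : algebraMap Ω (Ω ⊗[F] κ) (evK (algebraMap F Ω) τ hτ c)
        = algebraMap Ω (Ω ⊗[F] κ) u * algebraMap Ω (Ω ⊗[F] κ) (1 - u) := by
      rw [← map_mul]
      congr 1
      linear_combination hu'
    rw [← hx, hcu, map_sub, map_one]
    ring
  have hn := congrArg (Algebra.norm Ω) hprod
  rw [map_mul, ← n1, ← n2, Algebra.norm_algebraMap, hfr] at hn
  rw [map_pow, ← hn, map_add, map_add, map_mul, map_mul, map_pow, map_pow]
  linear_combination (-(evK (algebraMap F Ω) τ hτ y1) ^ 2) * hu' + (evK (algebraMap F Ω) τ hτ y1) ^ 2 * 2 * hu'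

theorem conic_odd (hab : b ^ 2 + 4 * a ≠ 0) {κ : Type u} [Field κ] [Algebra F κ]
    [Module.Finite F κ] (hn : ¬ 2 ∣ Module.finrank F κ) {c β : QuadraticAlgebra F a b}
    (hβ : IsUnit β) {x y : QuadraticAlgebra κ (algebraMap F κ a) (algebraMap F κ b)}
    (h : x ^ 2 + x * y + mapQ (algebraMap F κ) c * y ^ 2 = mapQ (algebraMap F κ) β) :
    ∃ x1 y1 : QuadraticAlgebra F a b, x1 ^ 2 + x1 * y1 + c * y1 ^ 2 = β := by
  obtain ⟨x1, y1, h1⟩ := transfer2 (Ω := AlgebraicClosure F) c x y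
  obtain ⟨τ, hτ⟩ := IsAlgClosed.exists_root (Polynomial.X ^ 2
    - Polynomial.C (algebraMap F (AlgebraicClosure F) b) * Polynomial.X
    - Polynomial.C (algebraMap F (AlgebraicClosure F) a)) (by
      have : (Polynomial.X ^ 2
    - Polynomial.C (algebraMap F (AlgebraicClosure F) b) * Polynomial.X
    - Polynomial.C (algebraMap F (AlgebraicClosure F) a)).degree = 2 := by compute_degree!
      rw [this]; norm_num)
  have hτ0 : τ ^ 2 - algebraMap F (AlgebraicClosure F) b * τ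
      - algebraMap F (AlgebraicClosure F) a = 0 := by
    simpa [Polynomial.IsRoot] using hτ
  have hτ1 : τ * τ = algebraMap F (AlgebraicClosure F) a + algebraMap F _ b * τ := by
    linear_combination hτ0
  have hτ2 : (algebraMap F (AlgebraicClosure F) b - τ) * (algebraMap F (AlgebraicClosure F) b - τ)
      = algebraMap F (AlgebraicClosure F) a
        + algebraMap F _ b * (algebraMap F (AlgebraicClosure F) b - τ) := by
    linear_combination hτ0
  have hne : τ ≠ algebraMap F (AlgebraicClosure F) b - τ := by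
    intro h
    apply hab
    apply (algebraMap F (AlgebraicClosure F)).injective
    rw [map_add, map_pow, map_mul, map_zero, map_ofNat]
    have h2 : 2 * τ - algebraMap F _ b = 0 := by linear_combination h
    linear_combination (2 * τ - algebraMap F _ b) * h2 - 4 * hτ0
  have key : x1 ^ 2 + x1 * y1 + c * y1 ^ 2 = β ^ Module.finrank F κ :=
    quad_inj (algebraMap F (AlgebraicClosure F)) hne _ _ (conic_norm_at h h1 hτ1)
      (conic_norm_at h h1 hτ2)
  obtain ⟨β', hβ'⟩ := hβ.exists_right_inv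
  obtain ⟨q, hq⟩ : ∃ q, q = Module.finrank F κ / 2 := ⟨_, rfl⟩
  have hn' : Module.finrank F κ = 2 * q + 1 := by omega
  have hone : β ^ (2 * q) * β' ^ (2 * q) = 1 := by rw [← mul_pow, hβ', one_pow]
  refine ⟨x1 * β' ^ q, y1 * β' ^ q, ?_⟩
  rw [hn'] at key
  linear_combination (β' ^ (2 * q)) * key + β * hone

end odd
end DPI
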