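import Mathlib
import Pool.Agent.H478.DZH
import Pool.Agent.H478.DZB
set_option autoImplicit false
namespace DPI
open MvPolynomial

universe u v

/-- there are `x, y ∈ K ⊗ κ`, `K = F[ω]`, `ω² = a + b ω`, with `x² + x y + c y² = β` -/
def ConicPoint {F : Type u} [Field F] {a b : F} (c β : QuadraticAlgebra F a b) (κ : Type v)
    [Field κ] [Algebra F κ] : Prop :=
  ∃ x y : QuadraticAlgebra κ (algebraMap F κ a) (algebraMap F κ b),
    x ^ 2 + x * y + mapQ (algebraMap F κ) c * y ^ 2 = mapQ (algebraMap F κ) β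

/-- the least degree of a finite extension `κ` of `F` with a solution of
`x² + x y + c y² = β` in `K ⊗ κ` -/
noncomputable def conicDeg {F : Type u} [Field F] {a b : F} (c β : QuadraticAlgebra F a b) : ℕ :=
  sInf {n | ∃ (κ : Type u) (_ : Field κ) (_ : Algebra F κ), Module.Finite F κ ∧
    Module.finrank F κ = n ∧ ConicPoint c β κ}

section final8
variable {F L : Type u} [Field F] [Field L] [Algebra F L] {a b : F}

theorem conicPoint_iff {c β : QuadraticAlgebra F a b} {κ : Type v} [Field κ] [Algebra F κ] :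
    ConicPoint c β κ ↔ ∃ y : Fin 5 → κ, y 4 = 1 ∧
      ∀ G ∈ ({(conicEq c β).re, (conicEq c β).im} : Set (MvPolynomial (Fin 5) F)),
        aeval y G = 0 := by
  have hone : (⟨1, 0⟩ : QuadraticAlgebra κ (algebraMap F κ a) (algebraMap F κ b)) = 1 := by
    ext
    · rw [QuadraticAlgebra.re_one]
    · rw [QuadraticAlgebra.im_one]
  constructor
  · rintro ⟨x, y, h⟩
    refine ⟨![x.re, x.im, y.re, y.im, 1], rfl, (conicEq_zero_iff c β _).2 ?_⟩
    show x ^ 2 + x * y + mapQ (algebraMap F κ) c * y ^ 2
      = mapQ (algebraMap F κ) β * ⟨1, 0⟩ ^ 2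
    rw [hone, one_pow, mul_one]
    exact h
  · rintro ⟨y, hy4, h⟩
    have h1 := (conicEq_zero_iff c β y).1 h
    rw [hy4, hone, one_pow, mul_one] at h1
    exact ⟨_, _, h1⟩

theorem conic_spec [Infinite F] {c β : QuadraticAlgebra F a b}
    {x : Fin 5 → L} (hx : IsFunctionField 1 {(conicEq c β).re, (conicEq c β).im} L x)
    {e : ℕ} (h : Wit F L e) :
    ∃ (κ : Type u) (_ : Field κ) (_ : Algebra F κ), Module.Finite F κ ∧
      Module.finrank F κ ≤ e ∧ ConicPoint c β κ := by
  have hx4 := conic_x4 hx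
  obtain ⟨s', t', hst, hfin, hle⟩ := h
  have hS : ∀ G ∈ ({(conicEq c β).re, (conicEq c β).im} : Set (MvPolynomial (Fin 5) F)),
      G.IsHomogeneous 2 := by
    rintro G (rfl | rfl)
    · exact conicEq_re_homog c β
    · exact conicEq_im_homog c β
  have hx0 : ∀ G ∈ ({(conicEq c β).re, (conicEq c β).im} : Set (MvPolynomial (Fin 5) F)),
      aeval x G = 0 := fun G hG => (hx.mem_iff 2 G (hS G hG)).2 (Ideal.subset_span hG)
  obtain ⟨κ, _, _, hκ, hκe, y, hy⟩ := affine_point_of_function_field
    (insert (X 4 - 1) ({(conicEq c β).re, (conicEq c β).im} : Set (MvPolynomial (Fin 5) F)))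
    s' t' hst e hfin hle (fun i => (x 4)⁻¹ * x i) (by
      rintro G (rfl | hG)
      · rw [map_sub, aeval_X, map_one, inv_mul_cancel₀ hx4, sub_self]
      · rw [aeval_homog (hS G hG), hx0 G hG, mul_zero])
  refine ⟨κ, inferInstance, inferInstance, hκ, hκe, conicPoint_iff.2 ⟨y, ?_, fun G hG =>
    hy G (Set.mem_insert_of_mem _ hG)⟩⟩
  have := hy _ (Set.mem_insert _ _)
  rw [map_sub, aeval_X, map_one, sub_eq_zero] at this
  exact this

theorem conicDeg_le {c β : QuadraticAlgebra F a b} {κ : Type u} [Field κ]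
    [Algebra F κ] (hfin : Module.Finite F κ) (hy : ConicPoint c β κ) :
    conicDeg c β ≤ Module.finrank F κ :=
  Nat.sInf_le ⟨κ, inferInstance, inferInstance, hfin, rfl, hy⟩

theorem conicDeg_spec {c β : QuadraticAlgebra F a b} {κ : Type u} [Field κ]
    [Algebra F κ] (hfin : Module.Finite F κ) (hy : ConicPoint c β κ) :
    ∃ (κ : Type u) (_ : Field κ) (_ : Algebra F κ), Module.Finite F κ ∧
      Module.finrank F κ = conicDeg c β ∧ ConicPoint c β κ := by
  have hne : Set.Nonempty {n | ∃ (κ : Type u) (_ : Field κ) (_ : Algebra F κ),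
      Module.Finite F κ ∧ Module.finrank F κ = n ∧ ConicPoint c β κ} :=
    ⟨_, κ, inferInstance, inferInstance, hfin, rfl, hy⟩
  exact Nat.sInf_mem hne

theorem conicPoint_self {c β : QuadraticAlgebra F a b} {x1 y1 : QuadraticAlgebra F a b}
    (h : x1 ^ 2 + x1 * y1 + c * y1 ^ 2 = β) : ConicPoint c β F := by
  refine ⟨mapQ (algebraMap F F) x1, mapQ (algebraMap F F) y1, ?_⟩
  rw [← map_pow, ← map_mul, ← map_pow, ← map_mul, ← map_add, ← map_add, h]

open Classical in
theorem irr_dp8 [Infinite F] (hab : b ^ 2 + 4 * a ≠ 0) {c β : QuadraticAlgebra F a b}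
    (hc : IsUnit (1 - 4 * c)) (hβ : IsUnit β)
    {x : Fin 5 → L} (hx : IsFunctionField 1 {(conicEq c β).re, (conicEq c β).im} L x) :
    (irr F L = if IsRational F L then 1 else max 2 (conicDeg c β)) ∧
      (conicDeg c β = 1 ∨ conicDeg c β = 2 ∨ conicDeg c β = 4) := by
  have hw4 := conic_wit4 hab c β hx
  obtain ⟨κ4, _, _, hκ4, hκ4', hy4⟩ := conic_spec hx hw4
  obtain ⟨κ, _, _, hκ, hκn, hy⟩ := conicDeg_spec hκ4 hy4
  have hpos : 0 < Module.finrank F κ := Module.finrank_pos
  have hle4 : conicDeg c β ≤ 4 := (conicDeg_le hκ4 hy4).trans hκ4'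
  have hlow : ∀ e, Wit F L e → conicDeg c β ≤ e := by
    intro e he
    obtain ⟨κ', _, _, hκ', hκe, hy'⟩ := conic_spec hx he
    exact (conicDeg_le hκ' hy').trans hκe
  have hF : ConicPoint c β F → conicDeg c β = 1 := by
    intro h
    have h1 := conicDeg_le (κ := F) inferInstance h
    rw [Module.finrank_self] at h1
    omega
  have hodd : ¬ 2 ∣ conicDeg c β → ConicPoint c β F := by
    intro h
    rw [← hκn] at h
    obtain ⟨x, y, hxy⟩ := hy
    obtain ⟨x1, y1, h1⟩ := conic_odd hab h hβ hxy
    exact conicPoint_self h1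
  have hval : conicDeg c β = 1 ∨ conicDeg c β = 2 ∨ conicDeg c β = 4 := by
    by_contra hcon
    have h3 : conicDeg c β = 3 := by omega
    have := hF (hodd (by omega))
    omega
  refine ⟨?_, hval⟩
  have hS : ∀ G ∈ ({(conicEq c β).re, (conicEq c β).im} : Set (MvPolynomial (Fin 5) F)),
      G.IsHomogeneous 2 := by
    rintro G (rfl | rfl)
    · exact conicEq_re_homog c β
    · exact conicEq_im_homog c β
  have hwit : Wit F L (max 2 (conicDeg c β)) := by
    rcases hval with h | h | h
    · -- a rational point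
      obtain ⟨p, hp4, hp⟩ := conicPoint_iff.1 (hodd (by omega))
      have hp0 : p ≠ 0 := by
        rintro rfl
        exact zero_ne_one hp4
      have hw2 : Wit F L 2 := dp4_wit2_point' (conicEq_re_homog c β) (conicEq_im_homog c β)
        (fun a ha k1 k2 k3 k4 => conic_cone hc hβ a ha k1 k2 k3 k4) hx p hp0
        (hp _ (by simp)) (hp _ (by simp)) (conic_smooth hc hβ _ (by
          rw [hp4, map_one]; exact one_ne_zero) (fun G hG => by
            rw [aeval_alg, hp G hG, map_zero]))
      exact hw2.mono (le_max_left _ _)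
    · -- a point of degree two
      obtain ⟨p, hp4, hp⟩ := conicPoint_iff.1 hy
      have hsum : ∀ {A : Type u} [Field A] [Algebra F A] (y : Fin 5 → A),
          ∑ i, algebraMap F A ((Pi.single 4 1 : Fin 5 → F) i) * y i = y 4 := by
        intro A _ _ y
        rw [Finset.sum_eq_single 4]
        · rw [Pi.single_eq_same, map_one, one_mul]
        · intro j _ hj
          rw [Pi.single_apply, if_neg hj, map_zero, zero_mul]
        · intro h; exact absurd (Finset.mem_univ _) h
      have hw2 : Wit F L 2 := dp4_wit2_quad' (conicEq_re_homog c β) (conicEq_im_homog c β)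
        (Pi.single 4 1) (by
          intro y hy hy0
          rw [hsum] at hy
          refine conic_smooth hc hβ y hy ?_
          rintro G (rfl | rfl)
          · exact hy0 0
          · exact hy0 1) hx (by
          intro y hy hy0
          have hs := hsum (A := F) y
          simp only [Algebra.algebraMap_self, RingHom.id_apply] at hs
          rw [hs] at hy
          have h1 : ConicPoint c β F := by
            refine conicPoint_iff.2 ⟨fun i => (y 4)⁻¹ * y i, inv_mul_cancel₀ hy, fun G hG => ?_⟩
            rw [aeval_homog (hS G hG), hy0 G hG, mul_zero]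
          have := hF h1
          omega) (hκn.trans h) p (by rw [hsum, hp4]; exact one_ne_zero) hp
      exact hw2.mono (le_max_left _ _)
    · exact hw4.mono (by omega)
  split_ifs with hr
  · exact (irr_eq_one_iff hwit).2 hr
  · have h1 : irr F L ≠ 1 := fun h1 => hr ((irr_eq_one_iff hwit).1 h1)
    have h2 := irr_pos hwit
    have h3 := hwit.irr_le
    have h4 := hlow _ hwit.spec
    have h5 : max 2 (conicDeg c β) ≤ irr F L := max_le (by omega) h4
    omega

end final8
end DPI
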